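import Pool.Agent.HNF.Res

/-!
HNF AC: the axiom of choice in `W` in the form of a choice function for a definable relation.

PROOF of `ac`.  For `d ∈ D` (an element of the set `D`) choose (outside `W`) some `y d ∈ W` with `R d (y d)`; the
ranks of the `y d` are bounded: there is an ordinal `α` with `y d ∈ V_ α` for all `d ∈ D` (small supremum over
`{d // d ∈ D}`, e.g. `Ordinal.{0}`-valued function on `Shrink`/`(D : ZFSet).toSet` which is small; or
`ZFSet.vonNeumann` of the rank of the image set `ZFSet.range`/`image`).  By `exists_vw` there is `v ∈ W`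
containing exactly the elements of `W ∩ V_α`.  By `h.choice v` and `sz_iff` there is `f ∈ W`, a function on an ordinal
`τ`, covering `v`.  For `d ∈ D` let `ξ d` be the least `ξ < τ` with `R d (f ξ)`.  The function
`F = {pair d (f (ξ d)) | d ∈ D}` is in `W`: separation in `D × v'` where `v' = v ∪ ran f` (or in `zpd D (ran f)`) by the
definable predicate: `w = pair d y` with `R d y` and there is an ordinal `ξ ∈ τ` with `y = zap f ξ` and
`∀ η ∈ ξ, ¬ R d (zap f η)`.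
`exists_choice_sub`: `ac` with `R z y := y ∈ z` etc.
`exists_lst`: the least element of a definable class of ordinals as a definable function: the graph of the
function is `(∃ ξ, IsO ξ ∧ P x ξ) → (IsO y ∧ P x y ∧ ∀ z ∈ y, ¬ P x z)`, and `y = ∅` if there is no such
`ξ` (`Ordinal` is well-ordered; `IsO x` iff `x = α.toZFSet`).
-/

namespace HNF

open RMK Set

variable {W : Set ZFSet.{0}}

/-- the least ordinal with the property `P` (or `∅`) -/
private theorem lst42 {X : Type 1} [Ctx W X] (h : InnerZFC W) {P : X → W → Prop}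
    (hP : MD W fun p : X × W => P p.1 p.2) : ∃ F : X → W, DFc W F ∧
      ∀ x (ξ : Ordinal.{0}), P x (ordW h ξ) → (∀ η < ξ, ¬ P x (ordW h η)) → F x = ordW h ξ := by
  classical
  let e : W := ⟨∅, h.zf0.empty_mem⟩
  have hx : ∀ x, ∃ y : W, (IsO y.1 ∧ P x y ∧ ∀ z : W, z.1 ∈ y.1 → ¬ P x z) ∨
      ((∀ z : W, IsO z.1 → ¬ P x z) ∧ y = e) := by
    intro x
    by_cases hh : ∃ ξ : Ordinal.{0}, P x (ordW h ξ)
    · obtain ⟨ξ, hξ, hmin⟩ : ∃ ξ, P x (ordW h ξ) ∧ ∀ η < ξ, ¬ P x (ordW h η) := by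
        have hwf := (Ordinal.lt_wf : WellFounded ((· < ·) : Ordinal.{0} → Ordinal.{0} → Prop))
        refine ⟨hwf.min {ξ | P x (ordW h ξ)} hh, hwf.min_mem _ hh, fun η hη hP' => ?_⟩
        exact hwf.not_lt_min {ξ | P x (ordW h ξ)} hP' hη
      refine ⟨ordW h ξ, Or.inl ⟨⟨ξ, rfl⟩, hξ, fun z hz => ?_⟩⟩
      obtain ⟨η, hη, rfl⟩ := (mem_ordW h).1 hz
      exact hmin η hη
    · refine ⟨e, Or.inr ⟨fun z hz hp => ?_, rfl⟩⟩
      obtain ⟨α, hα⟩ := hz
      exact hh ⟨α, by rwa [show ordW h α = z from Subtype.ext hα.symm]⟩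
  have hu : ∀ x (y y' : W), ((IsO y.1 ∧ P x y ∧ ∀ z : W, z.1 ∈ y.1 → ¬ P x z) ∨
      ((∀ z : W, IsO z.1 → ¬ P x z) ∧ y = e)) → ((IsO y'.1 ∧ P x y' ∧ ∀ z : W, z.1 ∈ y'.1 → ¬ P x z) ∨
      ((∀ z : W, IsO z.1 → ¬ P x z) ∧ y' = e)) → y = y' := by
    rintro x y y' (⟨hy1, hy2, hy3⟩ | ⟨hy1, hy2⟩) (⟨hy'1, hy'2, hy'3⟩ | ⟨hy'1, hy'2⟩)
    · obtain ⟨α, hα⟩ := hy1
      obtain ⟨β, hβ⟩ := hy'1
      rcases lt_trichotomy α β with hl | hl | hl
      · refine absurd hy2 (hy'3 y ?_)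
        rw [hα, hβ]
        exact Ordinal.toZFSet_mem_toZFSet_iff.2 hl
      · exact Subtype.ext (by rw [hα, hβ, hl])
      · refine absurd hy'2 (hy3 y' ?_)
        rw [hα, hβ]
        exact Ordinal.toZFSet_mem_toZFSet_iff.2 hl
    · exact absurd hy2 (hy'1 y hy1)
    · exact absurd hy'2 (hy1 y' hy'1)
    · rw [hy2, hy'2]
  choose F hF using hx
  refine ⟨F, DFc.of_graph ?_, fun x ξ hξ hmin => ?_⟩
  · refine MD.congr (P := fun p : X × W => (IsO p.2.1 ∧ P p.1 p.2 ∧ ∀ z : W, z.1 ∈ p.2.1 → ¬ P p.1 z) ∨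
      ((∀ z : W, IsO z.1 → ¬ P p.1 z) ∧ p.2 = e)) (fun p => ⟨fun hp => ?_, fun hp => ?_⟩) ?_
    · exact hu p.1 _ _ hp (hF p.1)
    · rw [hp]
      exact hF p.1
    · (repeat' (first | (with_reducible first | exact DFc.id | exact DFc.const _ | exact MD.const _ | apply MD.and | apply MD.or | apply MD.iff | apply MD.not | apply MD.imp | apply MD.ex | apply MD.all | apply MD.zpair_mem h.zf0 | apply MD.eq_zpair h.zf0 | apply MD.isFn h.zf0 | apply MD.isO h.zf0 | apply MD.mem | apply MD.eq | apply DFc.zpr h.zf0 | apply DFc.zap h.zf0 | apply DFc.zun h.zf0 | apply DFc.zsg h.zf0 | apply DFc.zsU h.zf0 | apply DFc.ztr h.zf0 | apply DFc.zup h.zf0 | apply DFc.zpd h.zf0) | (with_reducible first | exact hP | apply hP | apply MD.comp2 hP | apply DFc.comp2 hP | apply MD.comp3 hP | apply DFc.comp3 hP | apply MD.comp hP | apply DFc.comp hP) | (with_reducible apply DFc.fst) | (with_reducible apply DFc.snd) | (with_reducible apply DFc.mk)))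
      all_goals exact MD.comp hP (DFc.mk (DFc.fst (DFc.fst DFc.id)) (DFc.snd DFc.id))
  · refine hu x _ _ (hF x) (Or.inl ⟨⟨ξ, rfl⟩, hξ, fun z hz => ?_⟩)
    obtain ⟨η, hη, rfl⟩ := (mem_ordW h).1 hz
    exact hmin η hη

theorem ac (h : InnerZFC W) (D : W) {R : W → W → Prop} (hR : MD W fun p : W × W => R p.1 p.2)
    (hex : ∀ d : W, d.1 ∈ D.1 → ∃ y : W, R d y) :
    ∃ F : W, IsFn F.1 D.1 ∧ ∀ d : W, d.1 ∈ D.1 → R d (zap h.zf0 F d) := by
  classical
  choose! g hg using hex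
  have hDW : ∀ z, z ∈ D.1 → z ∈ W := fun z hz => h.trans D.1 D.2 z hz
  let G : {z : ZFSet.{0} // z ∈ D.1} → ZFSet.{0} := fun z => (g ⟨z.1, hDW z.1 z.2⟩).1
  have : Small.{0} {z : ZFSet.{0} // z ∈ D.1} := ZFSet.small_coe D.1
  obtain ⟨α, hα⟩ := ZFSet.exists_mem_vonNeumann (ZFSet.range G)
  obtain ⟨v, hvW, hv⟩ := exists_vw h α
  obtain ⟨τ, hτ⟩ := exists_sz h hvW
  obtain ⟨f, hf1, hf2⟩ := (sz_iff h).1 hτ
  have hP : MD W fun p : W × W => R p.1 (zap h.zf0 f p.2) := by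
    (repeat' (first | (with_reducible first | exact DFc.id | exact DFc.const _ | exact MD.const _ | apply MD.and | apply MD.or | apply MD.iff | apply MD.not | apply MD.imp | apply MD.ex | apply MD.all | apply MD.zpair_mem h.zf0 | apply MD.eq_zpair h.zf0 | apply MD.isFn h.zf0 | apply MD.isO h.zf0 | apply MD.mem | apply MD.eq | apply DFc.zpr h.zf0 | apply DFc.zap h.zf0 | apply DFc.zun h.zf0 | apply DFc.zsg h.zf0 | apply DFc.zsU h.zf0 | apply DFc.ztr h.zf0 | apply DFc.zup h.zf0 | apply DFc.zpd h.zf0) | (with_reducible first | exact hR | apply hR | apply MD.comp2 hR | apply DFc.comp2 hR | apply MD.comp3 hR | apply DFc.comp3 hR | apply MD.comp hR | apply DFc.comp hR) | (with_reducible apply DFc.fst) | (with_reducible apply DFc.snd) | (with_reducible apply DFc.mk)))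
  obtain ⟨L, hL1, hL2⟩ := lst42 h (P := fun d ξ => R d (zap h.zf0 f ξ)) hP
  have hFd : DFc W fun d : W => zap h.zf0 f (L d) := by
    (repeat' (first | (with_reducible first | exact DFc.id | exact DFc.const _ | exact MD.const _ | apply MD.and | apply MD.or | apply MD.iff | apply MD.not | apply MD.imp | apply MD.ex | apply MD.all | apply MD.zpair_mem h.zf0 | apply MD.eq_zpair h.zf0 | apply MD.isFn h.zf0 | apply MD.isO h.zf0 | apply MD.mem | apply MD.eq | apply DFc.zpr h.zf0 | apply DFc.zap h.zf0 | apply DFc.zun h.zf0 | apply DFc.zsg h.zf0 | apply DFc.zsU h.zf0 | apply DFc.ztr h.zf0 | apply DFc.zup h.zf0 | apply DFc.zpd h.zf0) | (with_reducible first | exact hL1 | apply hL1 | apply MD.comp2 hL1 | apply DFc.comp2 hL1 | apply MD.comp3 hL1 | apply DFc.comp3 hL1 | apply MD.comp hL1 | apply DFc.comp hL1) | (with_reducible apply DFc.fst) | (with_reducible apply DFc.snd) | (with_reducible apply DFc.mk)))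
  obtain ⟨F, hF1, hF2⟩ := exists_fn h.zf0 D hFd
  refine ⟨F, hF1, fun d hd => ?_⟩
  rw [hF2 d hd]
  have hgd : (g d).1 ∈ v := by
    rw [hv]
    refine ⟨(g d).2, ?_⟩
    have h1 : (g d).1 ∈ ZFSet.range G := ZFSet.mem_range.2 ⟨⟨d.1, hd⟩, rfl⟩
    exact (ZFSet.isTransitive_vonNeumann α).mem_trans h1 hα
  obtain ⟨ξ₀, -, hξ₀⟩ := hf2 _ hgd
  have hex : ∃ ξ : Ordinal.{0}, R d (zap h.zf0 f (ordW h ξ)) := by
    refine ⟨ξ₀, ?_⟩
    rw [show zap h.zf0 f (ordW h ξ₀) = g d from Subtype.ext hξ₀]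
    exact hg d hd
  obtain ⟨ξ, hξ, hmin⟩ : ∃ ξ, R d (zap h.zf0 f (ordW h ξ)) ∧
      ∀ η < ξ, ¬ R d (zap h.zf0 f (ordW h η)) := by
    have hwf := (Ordinal.lt_wf : WellFounded ((· < ·) : Ordinal.{0} → Ordinal.{0} → Prop))
    refine ⟨hwf.min {ξ | R d (zap h.zf0 f (ordW h ξ))} hex, hwf.min_mem _ hex,
      fun η hη hP' => ?_⟩
    exact hwf.not_lt_min {ξ | R d (zap h.zf0 f (ordW h ξ))} hP' hη
  rw [hL2 d ξ hξ hmin]
  exact hξ

/-- the least ordinal with a definable property, as a definable function -/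
theorem exists_lst {X : Type 1} [Ctx W X] (h : InnerZFC W) {P : X → W → Prop}
    (hP : MD W fun p : X × W => P p.1 p.2) : ∃ F : X → W, DFc W F ∧
      ∀ x (ξ : Ordinal.{0}), P x (ordW h ξ) → (∀ η < ξ, ¬ P x (ordW h η)) → F x = ordW h ξ :=
  lst42 h hP

end HNF
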