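import Pool.Agent.HNF.Ccl

/-!
HNF ANTA: maximal antichains of low parts with increasing high parts.

PROOF of `exists_maxAnti`.  `l = nu τ` (`OKd.exists_nu`); let `l' = nu (τ + 1)`.  Let `P` be the set of conditions and
`Y = I × P` (`zpd`).  Let `R f y` be the conjunction of: `Cond (snd y)`, `Le (snd y) c0`, `E (fst y) (snd y)`, and for all
`w ∈ ran f` (i.e. `∃ x, pair x w ∈ f`): `levGe (pP (snd w)) δ ⊆ levGe (pP (snd y)) δ`, and `fst w = fst y → ¬ LowC δ (snd w) (snd y)`.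
It is definable (`mdd`, `MD.cond`, `MD.le`, `MD.lowC`, `zfst`, `zsnd`, `zge`, `zP`).  Apply `dc` with length `l'`.
Second alternative: there is `f` with `SeqR h Y R f l'`.  Let `Z = ordW l'`, `C ξ = snd (zap f ξ)`, `F ξ = fst (zap f ξ)`; `¬ Sz Z l`
(`not_sz_nu`).  `cc_low'` gives ordinals `ξ ≠ ζ < l'` with `F ξ = F ζ` and `LowC δ (C ξ) (C ζ)`; by `LowC.symm` we may assume
`ξ < ζ`.  As `zap f ξ` is in the range of `f ↾ ζ`, `R (f ↾ ζ) (f ζ)` says `¬ LowC`, a contradiction.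
First alternative: `η < l'` and `f` of length `η` which cannot be extended.  Let `A` be the range of `f` (`exists_ran`):
`Sz A l` by `sz_of_lt` and `Sz.image`.  (1): elements `f ξ ∈ Y` and `R`.  (2): two different elements are `f ξ`, `f ζ` with `ξ < ζ`
(or the other way round, use `LowC.symm`).  (3): the same.  (4): if `i ∈ I` and `d` are as in the hypothesis and there were no
`d'` with `(i, d') ∈ A` and `LowC δ d' d`, then `R f (zpr i d)` would hold, `zpr i d ∈ Y`.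
-/

namespace HNF

open RMK Set

variable {W G : Set ZFSet.{0}}

/-- range function -/
private def IsRa (ra : W → W) : Prop :=
  ∀ u z : W, z.1 ∈ (ra u).1 ↔ ∃ y : W, ZFSet.pair y.1 z.1 ∈ u.1

private theorem seq_val (h : InnerZFC W) {ra : W → W} (hra : IsRa ra) {Y : W} {R : W → W → Prop}
    {f : W} {η : Ordinal.{0}} (hf : SeqR h Y R f η) {y : W} (hy : y.1 ∈ (ra f).1) :
    ∃ ξ < η, y = zap h.zf0 f (ordW h ξ) := by
  obtain ⟨x, hx⟩ := (hra f y).1 hy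
  obtain ⟨d, hd, y', e⟩ := hf.1.1 _ hx
  have e1 := ZFSet.pair_inj.1 e
  have hd' : x.1 ∈ η.toZFSet := e1.1 ▸ hd
  obtain ⟨ξ, hξ, rfl⟩ := (mem_ordW h).1 (show x.1 ∈ (ordW h η).1 from hd')
  exact ⟨ξ, hξ, Subtype.ext ((apZ_eq hf.1 hd').2 hx).symm⟩

private theorem seq_mem (h : InnerZFC W) {Y : W} {R : W → W → Prop}
    {f : W} {η : Ordinal.{0}} (hf : SeqR h Y R f η) {ξ : Ordinal.{0}} (hξ : ξ < η) :
    ZFSet.pair (ordW h ξ).1 (zap h.zf0 f (ordW h ξ)).1 ∈ f.1 := by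
  have hd' : (ordW h ξ).1 ∈ η.toZFSet := (mem_ordW h (ξ := η)).2 ⟨ξ, hξ, rfl⟩
  exact (apZ_eq hf.1 hd').1 rfl

private theorem seq_ran (h : InnerZFC W) {ra : W → W} (hra : IsRa ra) {Y : W} {R : W → W → Prop}
    {f : W} {η : Ordinal.{0}} (hf : SeqR h Y R f η) {ξ : Ordinal.{0}} (hξ : ξ < η) :
    (zap h.zf0 f (ordW h ξ)).1 ∈ (ra f).1 :=
  (hra _ _).2 ⟨ordW h ξ, seq_mem h hf hξ⟩

private theorem seq_in (h : InnerZFC W) {ra : W → W} (hra : IsRa ra) {Y : W} {R : W → W → Prop}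
    {f : W} {η : Ordinal.{0}} (hf : SeqR h Y R f η) {ζ ξ : Ordinal.{0}} (hζ : ζ < ξ) (hξ : ξ < η) :
    (zap h.zf0 f (ordW h ζ)).1 ∈ (ra (zres h.zf0 f (ordW h ξ))).1 := by
  refine (hra _ _).2 ⟨ordW h ζ, ?_⟩
  exact (mem_resZ_pair ((mem_ordW h).2 ⟨ζ, hζ, rfl⟩)).2 (seq_mem h hf (hζ.trans hξ))

private theorem seq_sz (h : InnerZFC W) {ra : W → W} (hra : IsRa ra) {Y : W} {R : W → W → Prop}
    {f : W} {η : Ordinal.{0}} (hf : SeqR h Y R f η) {α : Ordinal.{0}} (hs : Sz W η.toZFSet α) :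
    Sz W (ra f).1 α := by
  refine hs.image h (F := fun x => zap h.zf0 f x) (DFc.zap h.zf0 (DFc.const _) DFc.id) ?_
  intro z hz
  obtain ⟨ξ, hξ, e⟩ := seq_val h hra hf (y := ⟨z, h.trans _ (ra f).2 _ hz⟩) hz
  exact ⟨ordW h ξ, (mem_ordW h (ξ := η)).2 ⟨ξ, hξ, rfl⟩, congrArg Subtype.val e⟩

/-- the relation between a sequence and its next element -/
private def Ra (h : Ext W G) (δ : Ordinal.{0}) (E : W → W → Prop) (c0 : W) (ra : W → W)
    (f y : W) : Prop :=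
  (Cond W (zsnd h.zfc.zf0 y).1 ∧ Le (zsnd h.zfc.zf0 y).1 c0.1 ∧
    E (zfst h.zfc.zf0 y) (zsnd h.zfc.zf0 y)) ∧
  ∀ w : W, w.1 ∈ (ra f).1 →
    (zge h.zfc δ (zP h.zfc (zsnd h.zfc.zf0 w))).1 ⊆ (zge h.zfc δ (zP h.zfc (zsnd h.zfc.zf0 y))).1 ∧
    (zfst h.zfc.zf0 w = zfst h.zfc.zf0 y →
      ¬ LowC W δ (zsnd h.zfc.zf0 w).1 (zsnd h.zfc.zf0 y).1)

private theorem md_Ra (h : Ext W G) (δ : Ordinal.{0}) {E : W → W → Prop}
    (hE : MD W fun p : W × W => E p.1 p.2) (c0 : W) {ra : W → W} (hra : DFc W ra) :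
    MD W fun p : W × W => Ra h δ E c0 ra p.1 p.2 := by
  unfold Ra
  (repeat' (first | (with_reducible first | exact DFc.id | exact DFc.const _ | exact MD.const _ | apply MD.and | apply MD.or | apply MD.iff | apply MD.not | apply MD.imp | apply MD.ex | apply MD.all | apply MD.zpair_mem h.zfc.zf0 | apply MD.eq_zpair h.zfc.zf0 | apply MD.isFn h.zfc.zf0 | apply MD.isO h.zfc.zf0 | apply MD.mem | apply MD.eq | apply DFc.zpr h.zfc.zf0 | apply DFc.zap h.zfc.zf0 | apply DFc.zun h.zfc.zf0 | apply DFc.zsg h.zfc.zf0 | apply DFc.zsU h.zfc.zf0 | apply DFc.ztr h.zfc.zf0 | apply DFc.zup h.zfc.zf0 | apply DFc.zpd h.zfc.zf0) | (with_reducible first | exact (MD.cond h) | apply (MD.cond h) | apply MD.comp2 (MD.cond h) | apply DFc.comp2 (MD.cond h) | apply MD.comp3 (MD.cond h) | apply DFc.comp3 (MD.cond h) | apply MD.comp (MD.cond h) | apply DFc.comp (MD.cond h)) | (with_reducible first | exact (MD.le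 h.zfc) | apply (MD.le h.zfc) | apply MD.comp2 (MD.le h.zfc) | apply DFc.comp2 (MD.le h.zfc) | apply MD.comp3 (MD.le h.zfc) | apply DFc.comp3 (MD.le h.zfc) | apply MD.comp (MD.le h.zfc) | apply DFc.comp (MD.le h.zfc)) | (with_reducible first | exact (MD.sub h.zfc) | apply (MD.sub h.zfc) | apply MD.comp2 (MD.sub h.zfc) | apply DFc.comp2 (MD.sub h.zfc) | apply MD.comp3 (MD.sub h.zfc) | apply DFc.comp3 (MD.sub h.zfc) | apply MD.comp (MD.sub h.zfc) | apply DFc.comp (MD.sub h.zfc)) | (with_reducible first | exact (MD.lowC h δ) | apply (MD.lowC h δ) | apply MD.comp2 (MD.lowC h δ) | apply DFc.comp2 (MD.lowC h δ) | apply MD.comp3 (MD.lowC h δ) | apply DFc.comp3 (MD.lowC h δ) | apply MD.comp (MD.lowC h δ) | apply DFc.comp (MD.lowC h δ)) | (with_reducible first | exact (DFc.zge h.zfc δ) | apply (DFc.zge h.zfc δ) | apply MD.comp2 (DFc.zge h.zfc δ) | apply DFc.comp2 (DFc.zge h.zfc δ) | apply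 MD.comp3 (DFc.zge h.zfc δ) | apply DFc.comp3 (DFc.zge h.zfc δ) | apply MD.comp (DFc.zge h.zfc δ) | apply DFc.comp (DFc.zge h.zfc δ)) | (with_reducible first | exact (DFc.zP h.zfc) | apply (DFc.zP h.zfc) | apply MD.comp2 (DFc.zP h.zfc) | apply DFc.comp2 (DFc.zP h.zfc) | apply MD.comp3 (DFc.zP h.zfc) | apply DFc.comp3 (DFc.zP h.zfc) | apply MD.comp (DFc.zP h.zfc) | apply DFc.comp (DFc.zP h.zfc)) | (with_reducible first | exact (DFc.zfst h.zfc.zf0) | apply (DFc.zfst h.zfc.zf0) | apply MD.comp2 (DFc.zfst h.zfc.zf0) | apply DFc.comp2 (DFc.zfst h.zfc.zf0) | apply MD.comp3 (DFc.zfst h.zfc.zf0) | apply DFc.comp3 (DFc.zfst h.zfc.zf0) | apply MD.comp (DFc.zfst h.zfc.zf0) | apply DFc.comp (DFc.zfst h.zfc.zf0)) | (with_reducible first | exact (DFc.zsnd h.zfc.zf0) | apply (DFc.zsnd h.zfc.zf0) | apply MD.comp2 (DFc.zsnd h.zfc.zf0) | apply DFc.comp2 (DFc.zsnd h.zfc.zf0) | apply MD.comp3 (DFc.zsnd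 h.zfc.zf0) | apply DFc.comp3 (DFc.zsnd h.zfc.zf0) | apply MD.comp (DFc.zsnd h.zfc.zf0) | apply DFc.comp (DFc.zsnd h.zfc.zf0)) | (with_reducible first | exact hE | apply hE | apply MD.comp2 hE | apply DFc.comp2 hE | apply MD.comp3 hE | apply DFc.comp3 hE | apply MD.comp hE | apply DFc.comp hE) | (with_reducible first | exact hra | apply hra | apply MD.comp2 hra | apply DFc.comp2 hra | apply MD.comp3 hra | apply DFc.comp3 hra | apply MD.comp hra | apply DFc.comp hra) | (with_reducible apply DFc.fst) | (with_reducible apply DFc.snd) | (with_reducible apply DFc.mk)))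

theorem exists_maxAnti (h : Ext W G) {δ l : Ordinal.{0}} (hOK : OKd W δ l) {I : W}
    (hI : Sz W I.1 l) {E : W → W → Prop} (hE : MD W fun p : W × W => E p.1 p.2) {c0 : W}
    (hc0 : Cond W c0.1) :
    ∃ A : W, Sz W A.1 l ∧
      (∀ w : W, w.1 ∈ A.1 → ∃ i d : W, w = zpr h.zfc.zf0 i d ∧ i.1 ∈ I.1 ∧ Cond W d.1 ∧
        Le d.1 c0.1 ∧ E i d) ∧
      (∀ i d d' : W, (zpr h.zfc.zf0 i d).1 ∈ A.1 → (zpr h.zfc.zf0 i d').1 ∈ A.1 → d ≠ d' →
        ¬ LowC W δ d.1 d'.1) ∧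
      (∀ i d i' d' : W, (zpr h.zfc.zf0 i d).1 ∈ A.1 → (zpr h.zfc.zf0 i' d').1 ∈ A.1 →
        levGe (pP d.1) δ ⊆ levGe (pP d'.1) δ ∨ levGe (pP d'.1) δ ⊆ levGe (pP d.1) δ) ∧
      ∀ i d : W, i.1 ∈ I.1 → Cond W d.1 → Le d.1 c0.1 → E i d →
        (∀ i' d' : W, (zpr h.zfc.zf0 i' d').1 ∈ A.1 → levGe (pP d'.1) δ ⊆ levGe (pP d.1) δ) →
        ∃ d' : W, (zpr h.zfc.zf0 i d').1 ∈ A.1 ∧ LowC W δ d'.1 d.1 := by
  classical
  have hz := h.zfc.zf0
  obtain ⟨τ, rfl⟩ := hOK.exists_nu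
  obtain ⟨P, hP⟩ := exists_condSet h
  obtain ⟨ra, hraD, hra⟩ := hz.exists_ran
  have hra' : IsRa ra := hra
  have hR := md_Ra h δ hE c0 hraD
  have key : ∀ (f : W) (η : Ordinal.{0}), SeqR h.zfc (zpd hz I P) (Ra h δ E c0 ra) f η →
      ∀ ζ ξ, ζ < ξ → ξ < η →
        levGe (pP (zsnd hz (zap hz f (ordW h.zfc ζ))).1) δ ⊆
          levGe (pP (zsnd hz (zap hz f (ordW h.zfc ξ))).1) δ ∧
        (zfst hz (zap hz f (ordW h.zfc ζ)) = zfst hz (zap hz f (ordW h.zfc ξ)) →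
          ¬ LowC W δ (zsnd hz (zap hz f (ordW h.zfc ζ))).1
            (zsnd hz (zap hz f (ordW h.zfc ξ))).1) := by
    intro f η hf ζ ξ hζ hξ
    exact (hf.2 ξ hξ).2.2 _ (seq_in h.zfc hra' hf hζ hξ)
  rcases dc h.zfc (zpd hz I P) hR (nu W (τ + 1)) with ⟨η, hη, f, hf, hmax⟩ | ⟨f, hf⟩
  · have hbas : ∀ ξ < η, ∃ i d : W, zap hz f (ordW h.zfc ξ) = zpr hz i d ∧ i.1 ∈ I.1 ∧
        Cond W d.1 ∧ Le d.1 c0.1 ∧ E i d := by
      intro ξ hξ
      obtain ⟨h1, h2, -⟩ := hf.2 ξ hξ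
      obtain ⟨a, ha, b, hb, e⟩ := ZFSet.mem_prod.1 h1
      have e' : zap hz f (ordW h.zfc ξ) =
          zpr hz ⟨a, h.zfc.trans _ I.2 _ ha⟩ ⟨b, h.zfc.trans _ P.2 _ hb⟩ := Subtype.ext e
      refine ⟨_, _, e', ha, ?_⟩
      rw [e', zfst_zpr, zsnd_zpr] at h2
      exact h2
    have hpair : ∀ ξ < η, ∀ i d : W, zpr hz i d = zap hz f (ordW h.zfc ξ) →
        i = zfst hz (zap hz f (ordW h.zfc ξ)) ∧ d = zsnd hz (zap hz f (ordW h.zfc ξ)) := by
      intro ξ _ i d e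
      rw [← e, zfst_zpr, zsnd_zpr]
      exact ⟨rfl, rfl⟩
    refine ⟨ra f, seq_sz h.zfc hra' hf (sz_of_lt h.zfc hη), ?_, ?_, ?_, ?_⟩
    · intro w hw
      obtain ⟨ξ, hξ, rfl⟩ := seq_val h.zfc hra' hf hw
      exact hbas ξ hξ
    · intro i d d' hd hd' hne hlow
      obtain ⟨ξ, hξ, e⟩ := seq_val h.zfc hra' hf hd
      obtain ⟨ζ, hζ, e'⟩ := seq_val h.zfc hra' hf hd'
      obtain ⟨e1, e2⟩ := hpair ξ hξ _ _ e
      obtain ⟨e1', e2'⟩ := hpair ζ hζ _ _ e'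
      rcases lt_trichotomy ξ ζ with hlt | heq | hgt
      · refine (key f η hf ξ ζ hlt hζ).2 (e1.symm.trans e1') ?_
        rw [← e2, ← e2']
        exact hlow
      · subst heq
        exact hne (e2.trans e2'.symm)
      · refine (key f η hf ζ ξ hgt hξ).2 (e1'.symm.trans e1) ?_
        rw [← e2, ← e2']
        exact hlow.symm
    · intro i d i' d' hd hd'
      obtain ⟨ξ, hξ, e⟩ := seq_val h.zfc hra' hf hd
      obtain ⟨ζ, hζ, e'⟩ := seq_val h.zfc hra' hf hd'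
      obtain ⟨e1, e2⟩ := hpair ξ hξ _ _ e
      obtain ⟨e1', e2'⟩ := hpair ζ hζ _ _ e'
      rw [e2, e2']
      rcases lt_trichotomy ξ ζ with hlt | heq | hgt
      · exact Or.inl (key f η hf ξ ζ hlt hζ).1
      · subst heq
        exact Or.inl fun t ht => ht
      · exact Or.inr (key f η hf ζ ξ hgt hξ).1
    · intro i d hi hd hle hEd hall
      by_contra hcon
      push_neg at hcon
      refine hmax (zpr hz i d) ?_ ⟨?_, ?_⟩
      · exact ZFSet.pair_mem_prod.2 ⟨hi, (hP d.1).2 hd⟩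
      · rw [zfst_zpr, zsnd_zpr]
        exact ⟨hd, hle, hEd⟩
      · intro w hw
        rw [zfst_zpr, zsnd_zpr]
        obtain ⟨ξ, hξ, rfl⟩ := seq_val h.zfc hra' hf hw
        obtain ⟨i', d', e, -⟩ := hbas ξ hξ
        rw [e] at hw ⊢
        rw [zfst_zpr, zsnd_zpr]
        refine ⟨hall i' d' hw, ?_⟩
        rintro rfl hlow
        exact hcon d' hw hlow
  · exfalso
    obtain ⟨z, z', hzZ, hzZ', hne, hF, hlow⟩ := cc_low' h hOK (ordW h.zfc (nu W (τ + 1))) I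
      (not_sz_nu (lt_add_one τ)) hI (C := fun ξ => zsnd hz (zap hz f ξ))
      (F := fun ξ => zfst hz (zap hz f ξ))
      (DFc.zsnd hz (DFc.zap hz (DFc.const _) DFc.id))
      (DFc.zfst hz (DFc.zap hz (DFc.const _) DFc.id))
      (by
        intro z hzz
        obtain ⟨ξ, hξ, rfl⟩ := (mem_ordW h.zfc).1 hzz
        exact (hf.2 ξ hξ).2.1.1)
      (by
        intro z hzz
        obtain ⟨ξ, hξ, rfl⟩ := (mem_ordW h.zfc).1 hzz
        obtain ⟨a, ha, b, hb, e⟩ := ZFSet.mem_prod.1 (hf.2 ξ hξ).1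
        have e' : zap hz f (ordW h.zfc ξ) =
          zpr hz ⟨a, h.zfc.trans _ I.2 _ ha⟩ ⟨b, h.zfc.trans _ P.2 _ hb⟩ := Subtype.ext e
        show (zfst hz (zap hz f (ordW h.zfc ξ))).1 ∈ I.1
        rw [e', zfst_zpr]
        exact ha)
    obtain ⟨ξ, hξ, rfl⟩ := (mem_ordW h.zfc).1 hzZ
    obtain ⟨ζ, hζ, rfl⟩ := (mem_ordW h.zfc).1 hzZ'
    rcases lt_trichotomy ξ ζ with hlt | heq | hgt
    · exact (key f _ hf ξ ζ hlt hζ).2 hF hlow
    · subst heq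
      exact hne rfl
    · exact (key f _ hf ζ ξ hgt hξ).2 hF.symm hlow.symm

end HNF
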