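import Pool.Agent.HNF.Anta

/-!
HNF ANTB: the antichain lemma.

`AntP h δ l I E c0 c1 A`: `c1 ≤ c0` is a condition, `A ∈ W` is a set of pairs `(i, d)`, of size `l`, with `i ∈ I`, `d` a condition
satisfying `E i d`; different `d, d'` with the same `i` have incompatible parts below `δ`; and for every `i ∈ I` the set of
the `d` with `(i, d) ∈ A` is predense below `c1`.

PROOF of `anti`.  Let `A0` be the set given by `exists_maxAnti`.  If `A0` is empty let `q = levGe (pP c0) δ`.  In general let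
`A1` be the set of all `pP d`, `(i, d) ∈ A0`, together with `pP c0` (replacement; size `l`: `Sz.image`, `sz_insert`).  For
`p, q ∈ A1`: `levGe p δ ∪ levGe q δ` is one of the two sets (`(3)` of `exists_maxAnti`; `Le d c0` gives
`levGe (pP c0) δ ⊆ levGe (pP d) δ`), so it is single-valued.  By `closed_high` (`OKd.le_nu`) there is `q` with `CondP q`, the
union of the `levGe p δ`, `p ∈ A1`.  All elements of `q` have level `≥ δ`: `levGe q δ = q`.
Let `c1 = trip (levLt (pP c0) δ ∪ q) (pS c0) (pB c0)`; it is a condition (`amalg` with `levGe q δ = q`) and `Le c1 c0`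
(`CondP.union_eq`).  For `(i, d) ∈ A0` let `d^ = trip (levLt (pP d) δ ∪ q) (pS d) (pB d)`, a condition with `Le d^ d`, so
`E i d^` by `down`.  Let `A` be the set of all pairs `(i, d^)`, an image of `A0` (size `l`; `Sz.image`, `zlt`, `zun`, `ztr`).
Incompatibility: `levLt (pP d^) δ = levLt (pP d) δ`, so `LowC δ d^ d'^ ↔ LowC δ d d'`; if `d^ ≠ d'^` then `d ≠ d'`.
Predense: let `i ∈ I` and `c` a condition with `Le c c1`; by `hd` there is a condition `e` with `Le e c` and `E i e`;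
`Le e c0`.  `levGe (pP e) δ ⊇ levGe (pP c1) δ ⊇ q ⊇ levGe (pP d') δ` for all `(i', d') ∈ A0`.  So there is `d'` with
`(i, d') ∈ A0` and `LowC δ d' e`: there are `t, b` with `CondB W t b` extending the measure parts of `d'` and `e`, and
`levLt (pP d') δ ∪ levLt (pP e) δ` is single-valued.  Let `p = (levLt (pP d') δ ∪ levLt (pP e) δ) ∪ levGe (pP e) δ`: `CondP p`
(`CondP.union`, `CondP.sub`, `amalg`).  `e' = trip p t b` is a condition, `Le e' e` (`CondP.union_eq` for `pP e`), so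
`Le e' c`, and `Le e' d'^` since `q ⊆ levGe (pP e) δ`.
-/

namespace HNF

open RMK Set

variable {W G : Set ZFSet.{0}}

/-- the conclusion of the antichain lemma -/
structure AntP (h : Ext W G) (δ l : Ordinal.{0}) (I : W) (E : W → W → Prop) (c0 c1 A : W) :
    Prop where
  cond : Cond W c1.1
  le : Le c1.1 c0.1
  sz : Sz W A.1 l
  form : ∀ w : W, w.1 ∈ A.1 → ∃ i d : W, w = zpr h.zfc.zf0 i d ∧ i.1 ∈ I.1 ∧ Cond W d.1 ∧ E i d
  inc : ∀ i d d' : W, (zpr h.zfc.zf0 i d).1 ∈ A.1 → (zpr h.zfc.zf0 i d').1 ∈ A.1 → d ≠ d' →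
    ¬ LowC W δ d.1 d'.1
  pre : ∀ i c : W, i.1 ∈ I.1 → Cond W c.1 → Le c.1 c1.1 → ∃ d e : W,
    (zpr h.zfc.zf0 i d).1 ∈ A.1 ∧ Cond W e.1 ∧ Le e.1 c.1 ∧ Le e.1 d.1

private theorem levGe_sub (p : ZFSet.{0}) (δ : Ordinal.{0}) : levGe p δ ⊆ p := fun _ ht =>
  (ZFSet.mem_sep.1 ht).1

private theorem levLt_sub (p : ZFSet.{0}) (δ : Ordinal.{0}) : levLt p δ ⊆ p := fun _ ht =>
  (ZFSet.mem_sep.1 ht).1

private theorem FnSet.mono' {u v : ZFSet.{0}} (hu : FnSet v) (huv : u ⊆ v) : FnSet u :=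
  fun x y y' h1 h2 => hu x y y' (huv h1) (huv h2)

private theorem CondP.fnSet {p : ZFSet.{0}} (hp : CondP W p) : FnSet p := hp.fn

/-- the condition `d` with the part of levels `≥ δ` replaced by `q` -/
private noncomputable def hat (h : InnerZFC W) (δ : Ordinal.{0}) (q d : W) : W :=
  ztr h.zf0 (zun h.zf0 (zlt h δ (zP h d)) q) (zS h d) (zB h d)

private theorem hat_val (h : InnerZFC W) (δ : Ordinal.{0}) (q d : W) :
    (hat h δ q d).1 = trip (levLt (pP d.1) δ ∪ q.1) (pS d.1) (pB d.1) := rfl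

private theorem pP_hat (h : InnerZFC W) (δ : Ordinal.{0}) (q d : W) :
    pP (hat h δ q d).1 = levLt (pP d.1) δ ∪ q.1 := by
  rw [hat_val, pP_trip]

private theorem pS_hat (h : InnerZFC W) (δ : Ordinal.{0}) (q d : W) :
    pS (hat h δ q d).1 = pS d.1 := by
  rw [hat_val, pS_trip]

private theorem pB_hat (h : InnerZFC W) (δ : Ordinal.{0}) (q d : W) :
    pB (hat h δ q d).1 = pB d.1 := by
  rw [hat_val, pB_trip]

private theorem dfc_hat (h : InnerZFC W) (δ : Ordinal.{0}) (q : W) :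
    DFc W fun d : W => hat h δ q d := by
  have h1 : DFc W fun d : W => zP h d := DFc.zP h DFc.id
  have h2 : DFc W fun d : W => zS h d := DFc.zS h DFc.id
  have h3 : DFc W fun d : W => zB h d := DFc.zB h DFc.id
  have h4 : DFc W fun d : W => zlt h δ d := DFc.zlt h δ DFc.id
  exact DFc.ztr h.zf0 (DFc.zun h.zf0 (DFc.comp h4 h1) (DFc.const q)) h2 h3

private theorem cond_hat (h : InnerZFC W) {δ : Ordinal.{0}} {q d : W} (hq : CondP W q.1)
    (hqq : levGe q.1 δ = q.1) (hd : Cond W d.1) : Cond W (hat h δ q d).1 := by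
  rw [hat_val, cond_trip]
  refine ⟨?_, hd.cB⟩
  have h1 := amalg h hd.cP hq δ
  rwa [hqq] at h1

private theorem le_hat (h : InnerZFC W) {δ : Ordinal.{0}} {q d : W} (hq : CondP W q.1)
    (hqq : levGe q.1 δ = q.1) (hd : Cond W d.1) (hs : levGe (pP d.1) δ ⊆ q.1) :
    Le (hat h δ q d).1 d.1 := by
  rw [le_iff (cond_hat h hq hqq hd) hd, pP_hat, pS_hat, pB_hat]
  refine ⟨fun t ht => ?_, fun _ ht => ht, fun _ ht => ht⟩
  rw [← hd.cP.union_eq δ] at ht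
  rcases ZFSet.mem_union.1 ht with h1 | h1
  · exact ZFSet.mem_union.2 (Or.inl h1)
  · exact ZFSet.mem_union.2 (Or.inr (hs h1))

theorem anti (h : Ext W G) {δ l : Ordinal.{0}} (hOK : OKd W δ l) {I : W} (hI : Sz W I.1 l)
    {E : W → W → Prop} (hE : MD W fun p : W × W => E p.1 p.2)
    (down : ∀ x c c' : W, E x c → Cond W c'.1 → Le c'.1 c.1 → E x c') {c0 : W}
    (hc0 : Cond W c0.1)
    (hd : ∀ i : W, i.1 ∈ I.1 → ∀ c : W, Cond W c.1 → Le c.1 c0.1 →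
      ∃ d : W, Cond W d.1 ∧ Le d.1 c.1 ∧ E i d) :
    ∃ c1 A : W, AntP h δ l I E c0 c1 A := by
  obtain ⟨A0, hs, hf, hinc, hch, hmax⟩ := exists_maxAnti h hOK hI hE hc0
  -- the set of the first coordinates
  have hF1 : DFc W fun p : W × W => zP h.zfc (zsnd h.zfc.zf0 p.2) :=
    DFc.zP h.zfc (DFc.zsnd h.zfc.zf0 (DFc.snd DFc.id))
  obtain ⟨f1, -, hf1⟩ := h.zfc.zf0.replF (X := W) (a := fun _ : W => A0) (DFc.const A0)
    (F := fun _ y => zP h.zfc (zsnd h.zfc.zf0 y)) hF1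
  have hB : ∀ z : W, z.1 ∈ (f1 A0).1 ↔ ∃ y : W, y.1 ∈ A0.1 ∧
      z = zP h.zfc (zsnd h.zfc.zf0 y) := hf1 A0
  set B : W := f1 A0 with hBdef
  set A1 : W := zun h.zfc.zf0 B (zsg h.zfc.zf0 (zP h.zfc c0)) with hA1
  have hA1mem : ∀ p : ZFSet.{0}, p ∈ A1.1 ↔ p ∈ B.1 ∨ p = pP c0.1 := by
    intro p
    rw [hA1]
    change p ∈ B.1 ∪ ({pP c0.1} : ZFSet.{0}) ↔ _
    rw [ZFSet.mem_union, ZFSet.mem_singleton]
  have hBmem : ∀ p : ZFSet.{0}, p ∈ B.1 → ∃ i d : W, (zpr h.zfc.zf0 i d).1 ∈ A0.1 ∧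
      p = pP d.1 := by
    intro p hp
    obtain ⟨y, hy, hpy⟩ := (hB ⟨p, h.zfc.trans B.1 B.2 p hp⟩).1 hp
    obtain ⟨i, d, rfl, -⟩ := hf y hy
    refine ⟨i, d, hy, ?_⟩
    rw [zsnd_zpr] at hpy
    exact congrArg Subtype.val hpy
  have hBmem' : ∀ i d : W, (zpr h.zfc.zf0 i d).1 ∈ A0.1 → pP d.1 ∈ B.1 := by
    intro i d hd
    have h1 := (hB (zP h.zfc d)).2 ⟨zpr h.zfc.zf0 i d, hd, by rw [zsnd_zpr]⟩
    exact h1
  have hform : ∀ i d : W, (zpr h.zfc.zf0 i d).1 ∈ A0.1 → i.1 ∈ I.1 ∧ Cond W d.1 ∧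
      Le d.1 c0.1 ∧ E i d := by
    intro i d hd
    obtain ⟨i', d', he, h1, h2, h3, h4⟩ := hf _ hd
    have e1 : i = i' := by
      have := congrArg (zfst h.zfc.zf0) he
      rwa [zfst_zpr, zfst_zpr] at this
    have e2 : d = d' := by
      have := congrArg (zsnd h.zfc.zf0) he
      rwa [zsnd_zpr, zsnd_zpr] at this
    subst e1
    subst e2
    exact ⟨h1, h2, h3, h4⟩
  have hA1s : Sz W A1.1 l := by
    have h1 : Sz W B.1 l := hs.image h.zfc (F := fun y => zP h.zfc (zsnd h.zfc.zf0 y))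
      (DFc.zP h.zfc (DFc.zsnd h.zfc.zf0 DFc.id)) (fun z hz => by
        obtain ⟨y, hy, hzy⟩ := (hB ⟨z, h.zfc.trans B.1 B.2 z hz⟩).1 hz
        exact ⟨y, hy, congrArg Subtype.val hzy⟩)
    exact sz_insert h.zfc hOK.wcard B.2 (zP h.zfc c0).2 h1
  have hA1c : ∀ p ∈ A1.1, CondP W p := by
    intro p hp
    rcases (hA1mem p).1 hp with h1 | rfl
    · obtain ⟨i, d, hd, rfl⟩ := hBmem p h1
      exact (hform i d hd).2.1.cP
    · exact hc0.cP
  have hc0d : ∀ i d : W, (zpr h.zfc.zf0 i d).1 ∈ A0.1 → levGe (pP c0.1) δ ⊆ levGe (pP d.1) δ := by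
    intro i d hd
    obtain ⟨-, h1, h2, -⟩ := hform i d hd
    exact levGe_mono ((le_iff h1 hc0).1 h2).1 δ
  have hcomp : ∀ p ∈ A1.1, ∀ q ∈ A1.1, levGe p δ ⊆ levGe q δ ∨ levGe q δ ⊆ levGe p δ := by
    intro p hp q hq
    rcases (hA1mem p).1 hp with h1 | rfl
    · obtain ⟨i, d, hd, rfl⟩ := hBmem p h1
      rcases (hA1mem q).1 hq with h2 | rfl
      · obtain ⟨i', d', hd', rfl⟩ := hBmem q h2
        exact hch i d i' d' hd hd'
      · exact Or.inr (hc0d i d hd)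
    · rcases (hA1mem q).1 hq with h2 | rfl
      · obtain ⟨i', d', hd', rfl⟩ := hBmem q h2
        exact Or.inl (hc0d i' d' hd')
      · exact Or.inl fun _ ht => ht
  have hA1ch : ∀ p ∈ A1.1, ∀ q ∈ A1.1, FnSet (levGe p δ ∪ levGe q δ) := by
    intro p hp q hq
    rcases hcomp p hp q hq with h1 | h1
    · refine FnSet.mono' (hA1c q hq).fnSet fun t ht => ?_
      rcases ZFSet.mem_union.1 ht with h2 | h2
      · exact levGe_sub _ _ (h1 h2)
      · exact levGe_sub _ _ h2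
    · refine FnSet.mono' (hA1c p hp).fnSet fun t ht => ?_
      rcases ZFSet.mem_union.1 ht with h2 | h2
      · exact levGe_sub _ _ h2
      · exact levGe_sub _ _ (h1 h2)
  obtain ⟨q, hq, hqm⟩ := closed_high h.zfc hOK.le_nu hA1s hA1c hA1ch
  have hqq : levGe q.1 δ = q.1 := by
    apply ZFSet.ext
    intro t
    refine ⟨fun ht => levGe_sub _ _ ht, fun ht => ?_⟩
    obtain ⟨p, -, h1⟩ := (hqm t).1 ht
    exact ZFSet.mem_sep.2 ⟨ht, (ZFSet.mem_sep.1 h1).2⟩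
  have hqd : ∀ i d : W, (zpr h.zfc.zf0 i d).1 ∈ A0.1 → levGe (pP d.1) δ ⊆ q.1 := by
    intro i d hd t ht
    exact (hqm t).2 ⟨pP d.1, (hA1mem _).2 (Or.inl (hBmem' i d hd)), ht⟩
  have hqc0 : levGe (pP c0.1) δ ⊆ q.1 := fun t ht =>
    (hqm t).2 ⟨pP c0.1, (hA1mem _).2 (Or.inr rfl), ht⟩
  -- the condition `c1` and the set `A`
  have hF2 : DFc W fun w : W => zpr h.zfc.zf0 (zfst h.zfc.zf0 w)
      (hat h.zfc δ q (zsnd h.zfc.zf0 w)) :=
    DFc.zpr h.zfc.zf0 (DFc.zfst h.zfc.zf0 DFc.id)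
      (DFc.comp (dfc_hat h.zfc δ q) (DFc.zsnd h.zfc.zf0 DFc.id))
  obtain ⟨f2, -, hf2⟩ := h.zfc.zf0.replF (X := W) (a := fun _ : W => A0) (DFc.const A0)
    (F := fun _ w => zpr h.zfc.zf0 (zfst h.zfc.zf0 w) (hat h.zfc δ q (zsnd h.zfc.zf0 w)))
    (DFc.comp hF2 (DFc.snd DFc.id))
  have hA : ∀ z : W, z.1 ∈ (f2 A0).1 ↔ ∃ y : W, y.1 ∈ A0.1 ∧
      z = zpr h.zfc.zf0 (zfst h.zfc.zf0 y) (hat h.zfc δ q (zsnd h.zfc.zf0 y)) := hf2 A0
  have hAmem : ∀ i d : W, (zpr h.zfc.zf0 i d).1 ∈ (f2 A0).1 ↔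
      ∃ e : W, (zpr h.zfc.zf0 i e).1 ∈ A0.1 ∧ d = hat h.zfc δ q e := by
    intro i d
    rw [hA]
    constructor
    · rintro ⟨y, hy, he⟩
      obtain ⟨i', e, rfl, -⟩ := hf y hy
      rw [zfst_zpr, zsnd_zpr] at he
      have e1 : i = i' := by
        have := congrArg (zfst h.zfc.zf0) he
        rwa [zfst_zpr, zfst_zpr] at this
      have e2 : d = hat h.zfc δ q e := by
        have := congrArg (zsnd h.zfc.zf0) he
        rwa [zsnd_zpr, zsnd_zpr] at this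
      subst e1
      exact ⟨e, hy, e2⟩
    · rintro ⟨e, he, rfl⟩
      exact ⟨zpr h.zfc.zf0 i e, he, by rw [zfst_zpr, zsnd_zpr]⟩
  refine ⟨hat h.zfc δ q c0, f2 A0, ?_⟩
  have hc1 : Cond W (hat h.zfc δ q c0).1 := cond_hat h.zfc hq hqq hc0
  have hc1le : Le (hat h.zfc δ q c0).1 c0.1 := le_hat h.zfc hq hqq hc0 hqc0
  refine ⟨hc1, hc1le, ?_, ?_, ?_, ?_⟩
  · refine hs.image h.zfc hF2 fun z hz => ?_
    obtain ⟨y, hy, hzy⟩ := (hA ⟨z, h.zfc.trans (f2 A0).1 (f2 A0).2 z hz⟩).1 hz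
    exact ⟨y, hy, congrArg Subtype.val hzy⟩
  · intro w hw
    obtain ⟨y, hy, rfl⟩ := (hA w).1 hw
    obtain ⟨i, d, rfl, h1, h2, h3, h4⟩ := hf y hy
    rw [zfst_zpr, zsnd_zpr]
    have h5 := cond_hat h.zfc hq hqq h2
    exact ⟨i, hat h.zfc δ q d, rfl, h1, h5,
      down i d _ h4 h5 (le_hat h.zfc hq hqq h2 (hqd i d hy))⟩
  · intro i d d' hd hd' hne hlow
    obtain ⟨e, he, rfl⟩ := (hAmem i d).1 hd
    obtain ⟨e', he', rfl⟩ := (hAmem i d').1 hd'
    have hlev : ∀ x : W, levLt (pP (hat h.zfc δ q x).1) δ = levLt (pP x.1) δ := by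
      intro x
      rw [pP_hat, levLt_union, levLt_levLt]
      have h1 : levLt q.1 δ = ∅ := by rw [← hqq, levLt_levGe]
      rw [h1]
      apply ZFSet.ext
      intro t
      rw [ZFSet.mem_union]
      exact ⟨fun ht => ht.resolve_right (ZFSet.notMem_empty t), Or.inl⟩
    refine hinc i e e' he he' (fun h1 => hne (by rw [h1])) ?_
    unfold LowC at hlow ⊢
    rw [hlev, hlev, pS_hat, pS_hat, pB_hat, pB_hat] at hlow
    exact hlow
  · intro i c hi hc hcc1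
    obtain ⟨e, he1, he2, he3⟩ := hd i hi c hc (hcc1.trans hc1le)
    have hec1 : Le e.1 (hat h.zfc δ q c0).1 := he2.trans hcc1
    have hqe : q.1 ⊆ pP e.1 := by
      have h1 := ((le_iff he1 hc1).1 hec1).1
      rw [pP_hat] at h1
      exact fun t ht => h1 (ZFSet.mem_union.2 (Or.inr ht))
    have hqe' : q.1 ⊆ levGe (pP e.1) δ := by
      have h1 := levGe_mono hqe δ
      rwa [hqq] at h1
    obtain ⟨d', hd', hl1, t, b, hCB, ht1, ht2, hb1, hb2⟩ := hmax i e hi he1 (hec1.trans hc1le) he3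
      fun i' d' hd' => (hqd i' d' hd').trans hqe'
    obtain ⟨-, hd'c, -, -⟩ := hform i d' hd'
    -- the common extension
    have hp0 : CondP W (levLt (pP d'.1) δ ∪ levLt (pP e.1) δ) :=
      CondP.union h.zfc (hd'c.cP.sub (levLt_mem h.zfc hd'c.cP.mem δ) (levLt_sub _ _))
        (he1.cP.sub (levLt_mem h.zfc he1.cP.mem δ) (levLt_sub _ _)) hl1
    have hp : CondP W ((levLt (pP d'.1) δ ∪ levLt (pP e.1) δ) ∪ levGe (pP e.1) δ) := by
      have h1 := amalg h.zfc hp0 he1.cP δ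
      rwa [levLt_union, levLt_levLt, levLt_levLt] at h1
    set p : ZFSet.{0} := (levLt (pP d'.1) δ ∪ levLt (pP e.1) δ) ∪ levGe (pP e.1) δ with hpdef
    have hc' : Cond W (trip p t b) := cond_trip.2 ⟨hp, hCB⟩
    have hpe : pP e.1 ⊆ p := by
      intro z hz
      rw [← he1.cP.union_eq δ] at hz
      rcases ZFSet.mem_union.1 hz with h1 | h1
      · exact ZFSet.mem_union.2 (Or.inl (ZFSet.mem_union.2 (Or.inr h1)))
      · exact ZFSet.mem_union.2 (Or.inr h1)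
    have hle1 : Le (trip p t b) e.1 := by
      rw [le_iff hc' he1, pP_trip, pS_trip, pB_trip]
      exact ⟨hpe, ht2, hb2⟩
    have hcd : Cond W (hat h.zfc δ q d').1 := cond_hat h.zfc hq hqq hd'c
    have hle2 : Le (trip p t b) (hat h.zfc δ q d').1 := by
      rw [le_iff hc' hcd, pP_trip, pS_trip, pB_trip, pP_hat, pS_hat, pB_hat]
      refine ⟨fun z hz => ?_, ht1, hb1⟩
      rcases ZFSet.mem_union.1 hz with h1 | h1
      · exact ZFSet.mem_union.2 (Or.inl (ZFSet.mem_union.2 (Or.inl h1)))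
      · exact ZFSet.mem_union.2 (Or.inr (hqe' h1))
    exact ⟨hat h.zfc δ q d', ⟨trip p t b, hc'.mem h⟩, (hAmem i _).2 ⟨d', hd', rfl⟩, hc',
      hle1.trans he2, hle2⟩

end HNF
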