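import Pool.Agent.HNF.Mea2

/-!
HNF MEA3: the countable chain condition for the measure part, inside `W`.

PROOF of `bccc`.  Let `R i z` say: there is `f ∈ W` with `IsFn f i`, injective (`∀ a b ∈ i, zap f a = zap f b → a = b`), whose
range is the set `S z`.  For `z ∈ Z` the set `S z` is finite, so there is `i ∈ ω` with `R i z` (finite bijections are in
`W`: induction, or `FinP`).  `pigeon` with `α = nu 0 = ω` and `I = ω` gives `i = natZ n` and `Y ∈ W`, `Y ⊆ Z`, not of size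
`ω` in `W`, with `R i z` for all `z ∈ Y`; so `S z` has exactly `n` elements, `lam (cyl (S z)) = 2⁻¹ ^ n` (`lam_cyl`).  By
`sz_omega_of_finite` the set of elements of `Y` is infinite, so there is a finite set `F` of elements of `Y` with
`2 ^ (n + 1)` elements.  Each `K z = cyl (S z) \ opn (B z)` satisfies `lam (K z) > 2⁻¹ ^ (n + 1)` (`CondB.pos_diff`).  If
`BC` failed for all pairs in `F`, then by `bc_of_pos` the sets `K z`, `z ∈ F`, would be pairwise disjoint up to null sets,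
so `1 ≥ Σ lam (K z) > 1` (`measure_biUnion_finset₀` with `AEDisjoint`), a contradiction.
-/

namespace HNF

open RMK Set MeasureTheory

variable {W : Set ZFSet.{0}}

private theorem wcard_omega (W : Set ZFSet.{0}) : WCard W Ordinal.omega0 := by
  have h := nu_wcard W 0
  rwa [nu_zero] at h

private theorem ncard_le_of_sz (h : InnerZFC W) {x : ZFSet.{0}} {n : ℕ} (hs : Sz W x n) :
    {t : ZFSet.{0} | t ∈ x}.ncard ≤ n := by
  obtain ⟨f, -, hf⟩ := (sz_iff h).1 hs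
  have hsub : {t : ZFSet.{0} | t ∈ x} ⊆
      (fun k : ℕ => apZ f.1 (k : Ordinal.{0}).toZFSet) '' Set.Iio n := by
    intro t ht
    obtain ⟨ξ, hξ, hξt⟩ := hf t ht
    have hω : ξ < Ordinal.omega0 := hξ.trans (Ordinal.natCast_lt_omega0 n)
    obtain ⟨k, rfl⟩ := Ordinal.lt_omega0.1 hω
    have hk : k < n := by exact_mod_cast hξ
    exact ⟨k, hk, hξt⟩
  calc {t : ZFSet.{0} | t ∈ x}.ncard
      ≤ ((fun k : ℕ => apZ f.1 (k : Ordinal.{0}).toZFSet) '' Set.Iio n).ncard :=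
        Set.ncard_le_ncard hsub ((Set.finite_Iio n).image _)
    _ ≤ (Set.Iio n).ncard := Set.ncard_image_le (Set.finite_Iio n)
    _ = n := by
        rw [Set.ncard_eq_toFinset_card']
        simp

private theorem meas_diff {s b : ZFSet.{0}} (hc : CondB W s b) :
    MeasurableSet (cyl s \ opn b) :=
  (meas_cyl hc.fin).diff (meas_opn hc.sub hc.ctbl.countable)

private theorem lam_diff_gt {s b : ZFSet.{0}} (hc : CondB W s b) {n : ℕ}
    (hn : {t : ZFSet.{0} | t ∈ s}.ncard ≤ n) :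
    (2⁻¹ : ENNReal) ^ (n + 1) < lam (cyl s \ opn b) := by
  have h1 := hc.pos_diff
  rw [lam_cyl hc.fin] at h1
  have h2 : (2⁻¹ : ENNReal) ^ n ≤ (2⁻¹ : ENNReal) ^ {t : ZFSet.{0} | t ∈ s}.ncard :=
    pow_le_pow_right_of_le_one' (by simp) hn
  have h3 : (2⁻¹ : ENNReal) ^ n < 2 * lam (cyl s \ opn b) := h2.trans_lt h1
  have h4 : (2⁻¹ : ENNReal) ^ n = 2 * (2⁻¹ : ENNReal) ^ (n + 1) := by
    rw [pow_succ, mul_comm _ (2⁻¹ : ENNReal), ← mul_assoc, ENNReal.mul_inv_cancel (by simp)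
      (by simp), one_mul]
  rw [h4] at h3
  exact lt_of_mul_lt_mul_left' h3

theorem bccc (h : InnerZFC W) (Z : W) (hZ : ¬ Sz W Z.1 Ordinal.omega0) {S B : W → W}
    (hS : DFc W S) (hB : DFc W B)
    (hc : ∀ z : W, z.1 ∈ Z.1 → CondB W (S z).1 (B z).1) :
    ∃ z z' : W, z.1 ∈ Z.1 ∧ z'.1 ∈ Z.1 ∧ z ≠ z' ∧
      BC W (S z).1 (B z).1 (S z').1 (B z').1 := by
  classical
  have hω := wcard_omega W
  have hR : MD W fun p : W × W => SzZ W (S p.2).1 p.1.1 :=
    MD.szZ h (DFc.comp hS (DFc.snd DFc.id)) (DFc.fst DFc.id)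
  have hI : Sz W (ordW h Ordinal.omega0).1 Ordinal.omega0 := sz_ord h _
  obtain ⟨i, Y, hi, hY, hYsz⟩ := pigeon h hω (I := ordW h Ordinal.omega0)
    (R := fun i z => SzZ W (S z).1 i.1) hZ hI hR (by
      intro z hz
      obtain ⟨n, hn⟩ := sz_finite h (S z).2 (hc z hz).fin.fin
      refine ⟨ordW h n, ?_, szZ_iff.2 hn⟩
      exact (mem_ordW h).2 ⟨n, Ordinal.natCast_lt_omega0 n, rfl⟩)
  obtain ⟨η, hη, rfl⟩ := (mem_ordW h).1 hi
  obtain ⟨n, rfl⟩ := Ordinal.lt_omega0.1 hη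
  have hYn : ∀ z : W, z.1 ∈ Y.1 → {t : ZFSet.{0} | t ∈ (S z).1}.ncard ≤ n := fun z hz =>
    ncard_le_of_sz h (szZ_iff.1 ((hY z).1 hz).2)
  have hYZ : ∀ z : W, z.1 ∈ Y.1 → z.1 ∈ Z.1 := fun z hz => ((hY z).1 hz).1
  -- the set of elements of `Y` is infinite
  have hinf : {z : W | z.1 ∈ Y.1}.Infinite := by
    intro hfin
    refine hYsz (sz_omega_of_finite h Y.2 ?_)
    refine (hfin.image Subtype.val).subset ?_
    intro z hz
    exact ⟨⟨z, h.trans _ Y.2 _ hz⟩, hz, rfl⟩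
  obtain ⟨F, hFY, hFc⟩ := hinf.exists_subset_card_eq (2 ^ (n + 1))
  by_contra hno
  push Not at hno
  have hdis : Set.Pairwise (F : Set W)
      (Function.onFun (AEDisjoint lam) fun z : W => cyl (S z).1 \ opn (B z).1) := by
    intro z hz z' hz' hne
    by_contra hpos
    have hp : 0 < lam ((cyl (S z).1 \ opn (B z).1) ∩ (cyl (S z').1 \ opn (B z').1)) :=
      pos_iff_ne_zero.2 hpos
    exact hno z z' (hYZ z (hFY hz)) (hYZ z' (hFY hz')) hne
      (bc_of_pos h (hc z (hYZ z (hFY hz))) (hc z' (hYZ z' (hFY hz'))) hp)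
  have hsum := measure_biUnion_finset₀ (μ := lam) (s := F)
    (f := fun z : W => cyl (S z).1 \ opn (B z).1) hdis
    (fun z hz => (meas_diff (hc z (hYZ z (hFY hz)))).nullMeasurableSet)
  have hle : ∑ z ∈ F, lam (cyl (S z).1 \ opn (B z).1) ≤ 1 := by
    rw [← hsum]
    exact prob_le_one
  have hne : F.Nonempty := by
    rw [← Finset.card_pos, hFc]
    positivity
  have hgt : ∑ _z ∈ F, (2⁻¹ : ENNReal) ^ (n + 1) < ∑ z ∈ F, lam (cyl (S z).1 \ opn (B z).1) := by
    refine ENNReal.sum_lt_sum_of_nonempty hne ?_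
    intro z hz
    exact lam_diff_gt (hc z (hYZ z (hFY hz))) (hYn z (hFY hz))
  rw [Finset.sum_const, hFc] at hgt
  have h1 : (2 ^ (n + 1)) • (2⁻¹ : ENNReal) ^ (n + 1) = 1 := by
    rw [nsmul_eq_mul]
    push_cast
    rw [← mul_pow, ENNReal.mul_inv_cancel (by simp) (by simp), one_pow]
  rw [h1] at hgt
  exact absurd (hgt.trans_le hle) (lt_irrefl _)

end HNF
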