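import Pool.Agent.HNF.Lvl
import Pool.Agent.HNF.Mea3

/-!
HNF CCL: the chain condition for the part of the forcing below a level.

`OKd W δ l`: the cases `(δ, l)`: `(0, ω)`, `(γ + 1, nu (γ + 1))` with `γ + 1 < nu 1`, `(nu 1, κ⁺)`.
`LowC W δ c d`: the parts of `c` and `d` below level `δ` (including the measure part) are compatible.

PROOFS.
`OKd.wcard`: `l` is `nu 0`, `nu (γ + 1)` or `nu (nu 1 + 1)`.
`OKd.le_nu`: for `δ = 0`: `ω = nu 0 ≤ nu β`; for `δ = γ + 1 ≤ β`: `nu (γ + 1) ≤ nu β`; for `δ = nu 1` there is no `β`.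
`MD.lowC`: `CondB W t c` iff `Cond W (trip ∅ t c)` (`condP_empty`, `cond_trip`), `MD.cond`; `FnSet` of an element of `W` with
quantifiers over `W`; `zlt`, `zun`; `mdd`.
`cc_low`: case `δ = 0`, `l = ω`: `levLt _ 0 = ∅`, so only `BC` matters: `bccc` with `S z = zS (C z)`, `B z = zB (C z)`.
Case `δ = γ + 1`, `l = nu (γ + 1)`: apply `ccp` with `β := γ`, `X := nu 1 × (tht × kap)` (`hz.prodZ`) and
`U z = zlt δ (zP (C z))`: it is single-valued, has size `nu γ` (`sz_levLt`), and its elements are pairs of a triple in `X`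
and a value `< nu (β' + 1) ≤ nu (γ + 1)`, `β' ≤ γ`.  This gives `Y ⊆ Z`, not of size `l`, so not of size `ω`
(`Sz.mono`), with `FnSet (U z ∪ U z')` for all `z, z' ∈ Y`.  Apply `bccc` to `Y`.
Case `δ = nu 1`, `l = rho = nu (nu 1 + 1)`: the same with `β := nu 1` (`nu (nu 1) = kap`), `U z = zlt (nu 1) (zP (C z))`, of size
`kap` by `sz_condP`; values `< nu (β' + 1) < kap < rho`.
`cc_low'`: `pigeon` with the relation `i = F z` gives `Y ⊆ Z` not of size `l` on which `F` is constant; `cc_low` for `Y`.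
-/

namespace HNF

open RMK Set

variable {W G : Set ZFSet.{0}} {X : Type 1} [Ctx W X]

/-- the admissible pairs of a level and a cardinal of `W` -/
def OKd (W : Set ZFSet.{0}) (δ l : Ordinal.{0}) : Prop :=
  (δ = 0 ∧ l = Ordinal.omega0) ∨ (∃ γ, δ = γ + 1 ∧ δ < nu W 1 ∧ l = nu W (γ + 1)) ∨
    (δ = nu W 1 ∧ l = rho W)

/-- the parts of `c` and `d` below level `δ` are compatible -/
def LowC (W : Set ZFSet.{0}) (δ : Ordinal.{0}) (c d : ZFSet.{0}) : Prop :=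
  FnSet (levLt (pP c) δ ∪ levLt (pP d) δ) ∧ BC W (pS c) (pB c) (pS d) (pB d)

theorem OKd.exists_nu {δ l : Ordinal.{0}} (hOK : OKd W δ l) : ∃ τ, l = nu W τ := by
  rcases hOK with ⟨-, h1⟩ | ⟨γ, -, -, h1⟩ | ⟨-, h1⟩
  · exact ⟨0, by rw [nu_zero, h1]⟩
  · exact ⟨γ + 1, h1⟩
  · exact ⟨nu W 1 + 1, h1⟩

theorem OKd.wcard {δ l : Ordinal.{0}} (hOK : OKd W δ l) : WCard W l := by
  obtain ⟨τ, rfl⟩ := hOK.exists_nu
  exact nu_wcard W τ

theorem OKd.le_nu {δ l : Ordinal.{0}} (hOK : OKd W δ l) :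
    ∀ β, δ ≤ β → β < nu W 1 → l ≤ nu W β := by
  intro β hβ hβ1
  rcases hOK with ⟨-, h1⟩ | ⟨γ, h0, -, h1⟩ | ⟨h0, h1⟩
  · rw [h1]
    exact omega_le_nu W β
  · rw [h1]
    exact (nu_strictMono W).monotone (h0 ▸ hβ)
  · exact absurd hβ1 (not_lt.2 (h0 ▸ hβ))

theorem LowC.symm {δ : Ordinal.{0}} {c d : ZFSet.{0}} (hcd : LowC W δ c d) : LowC W δ d c := by
  obtain ⟨h1, t, b, h2, h3, h4, h5, h6⟩ := hcd
  refine ⟨?_, t, b, h2, h4, h3, h6, h5⟩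
  intro x y y' hy hy'
  refine h1 x y y' ?_ ?_
  · exact ZFSet.mem_union.2 (ZFSet.mem_union.1 hy).symm
  · exact ZFSet.mem_union.2 (ZFSet.mem_union.1 hy').symm

private theorem md_fnSet (h : InnerZFC W) {f : X → W} (hf : DFc W f) :
    MD W fun x => FnSet (f x).1 := by
  have hz := h.zf0
  refine MD.congr (P := fun x => ∀ a b b' : W, ZFSet.pair a.1 b.1 ∈ (f x).1 →
    ZFSet.pair a.1 b'.1 ∈ (f x).1 → b = b') ?_ ?_
  · intro x
    constructor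
    · intro h1 a b b' hb hb'
      have m1 := h.trans _ (f x).2 _ hb
      have m2 := h.trans _ (f x).2 _ hb'
      exact congrArg Subtype.val
        (h1 ⟨a, hz.pair_left m1⟩ ⟨b, hz.pair_right m1⟩ ⟨b', hz.pair_right m2⟩ hb hb')
    · intro h1 a b b' hb hb'
      exact Subtype.ext (h1 a.1 b.1 b'.1 hb hb')
  · refine MD.all (MD.all (MD.all (MD.imp ?_ (MD.imp ?_ ?_))))
    · exact MD.zpair_mem hz (DFc.snd (DFc.fst (DFc.fst DFc.id))) (DFc.snd (DFc.fst DFc.id))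
        (DFc.comp hf (DFc.fst (DFc.fst (DFc.fst DFc.id))))
    · exact MD.zpair_mem hz (DFc.snd (DFc.fst (DFc.fst DFc.id))) (DFc.snd DFc.id)
        (DFc.comp hf (DFc.fst (DFc.fst (DFc.fst DFc.id))))
    · exact MD.eq (DFc.snd (DFc.fst DFc.id)) (DFc.snd DFc.id)

theorem MD.lowC (h : Ext W G) (δ : Ordinal.{0}) {f g : X → W} (hf : DFc W f) (hg : DFc W g) :
    MD W fun x => LowC W δ (f x).1 (g x).1 := by
  have hz := h.zfc.zf0
  have h1 : MD W fun x => FnSet (zun hz (zlt h.zfc δ (zP h.zfc (f x)))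
      (zlt h.zfc δ (zP h.zfc (g x)))).1 :=
    md_fnSet h.zfc (DFc.zun hz (DFc.zlt h.zfc δ (DFc.zP h.zfc hf))
      (DFc.zlt h.zfc δ (DFc.zP h.zfc hg)))
  have h2 : MD W fun x => BC W (pS (f x).1) (pB (f x).1) (pS (g x).1) (pB (g x).1) := by
    refine MD.congr (P := fun x => ∃ t c : W, Cond W (ztr hz ⟨∅, hz.empty_mem⟩ t c).1 ∧
      (zS h.zfc (f x)).1 ⊆ t.1 ∧ (zS h.zfc (g x)).1 ⊆ t.1 ∧ (zB h.zfc (f x)).1 ⊆ c.1 ∧
      (zB h.zfc (g x)).1 ⊆ c.1) ?_ ?_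
    · intro x
      constructor
      · rintro ⟨t, c, h3, h4, h5, h6, h7⟩
        exact ⟨t.1, c.1, (cond_trip.1 h3).2, h4, h5, h6, h7⟩
      · rintro ⟨t, c, h3, h4, h5, h6, h7⟩
        exact ⟨⟨t, h3.fin.mem h.zfc⟩, ⟨c, h3.mem⟩, cond_trip.2 ⟨condP_empty h.zfc, h3⟩, h4, h5,
          h6, h7⟩
    · refine MD.ex (MD.ex (MD.and ?_ (MD.and ?_ (MD.and ?_ (MD.and ?_ ?_)))))
      · exact MD.cond h (DFc.ztr hz (DFc.const _) (DFc.snd (DFc.fst DFc.id)) (DFc.snd DFc.id))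
      · exact MD.sub h.zfc (DFc.zS h.zfc (DFc.comp hf (DFc.fst (DFc.fst DFc.id))))
          (DFc.snd (DFc.fst DFc.id))
      · exact MD.sub h.zfc (DFc.zS h.zfc (DFc.comp hg (DFc.fst (DFc.fst DFc.id))))
          (DFc.snd (DFc.fst DFc.id))
      · exact MD.sub h.zfc (DFc.zB h.zfc (DFc.comp hf (DFc.fst (DFc.fst DFc.id))))
          (DFc.snd DFc.id)
      · exact MD.sub h.zfc (DFc.zB h.zfc (DFc.comp hg (DFc.fst (DFc.fst DFc.id))))
          (DFc.snd DFc.id)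
  exact MD.and h1 h2

/-- the argument from pairwise compatible first coordinates -/
private theorem cc_fin (h : Ext W G) {δ : Ordinal.{0}} (Y : W)
    (hY : ¬ Sz W Y.1 Ordinal.omega0) {C : W → W} (hC : DFc W C)
    (hc : ∀ z : W, z.1 ∈ Y.1 → Cond W (C z).1)
    (hf : ∀ z z' : W, z.1 ∈ Y.1 → z'.1 ∈ Y.1 →
      FnSet (levLt (pP (C z).1) δ ∪ levLt (pP (C z').1) δ)) :
    ∃ z z' : W, z.1 ∈ Y.1 ∧ z'.1 ∈ Y.1 ∧ z ≠ z' ∧ LowC W δ (C z).1 (C z').1 := by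
  obtain ⟨z, z', h1, h2, h3, h4⟩ := bccc h.zfc Y hY (S := fun z => zS h.zfc (C z))
    (B := fun z => zB h.zfc (C z)) (DFc.zS h.zfc hC) (DFc.zB h.zfc hC)
    (fun z hz => (hc z hz).cB)
  exact ⟨z, z', h1, h2, h3, hf z z' h1 h2, h4⟩

private theorem cc_mid (h : Ext W G) {δ γ : Ordinal.{0}} (Z : W)
    (hZ : ¬ Sz W Z.1 (nu W (γ + 1))) {C : W → W} (hC : DFc W C)
    (hc : ∀ z : W, z.1 ∈ Z.1 → Cond W (C z).1)
    (hs : ∀ z : W, z.1 ∈ Z.1 → Sz W (levLt (pP (C z).1) δ) (nu W γ))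
    (hδ : ∀ β < δ, β < nu W 1 → nu W (β + 1) ≤ nu W (γ + 1)) :
    ∃ z z' : W, z.1 ∈ Z.1 ∧ z'.1 ∈ Z.1 ∧ z ≠ z' ∧ LowC W δ (C z).1 (C z').1 := by
  have hz := h.zfc.zf0
  obtain ⟨Y, hYZ, hY, hYf⟩ := ccp h.zfc h.gch (β := γ)
    (zpd hz (ordW h.zfc (nu W 1)) (zpd hz (ordW h.zfc (tht W)) (ordW h.zfc (kap W)))) Z hZ
    (U := fun z => zlt h.zfc δ (zP h.zfc (C z))) (DFc.zlt h.zfc δ (DFc.zP h.zfc hC)) (by
      intro z hzZ
      have hp : CondP W (pP (C z).1) := (hc z hzZ).cP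
      refine ⟨?_, hs z hzZ, ?_⟩
      · intro x y y' hy hy'
        change _ ∈ levLt (pP (C z).1) δ at hy hy'
        exact hp.fn x y y' (ZFSet.mem_sep.1 hy).1 (ZFSet.mem_sep.1 hy').1
      · intro t ht
        change t ∈ levLt (pP (C z).1) δ at ht
        obtain ⟨ht1, β, ξ, i, η, hβ, e⟩ := ZFSet.mem_sep.1 ht
        obtain ⟨β', ξ', i', η', h1, h2, h3, h4, e'⟩ := hp.form t ht1
        have e2 : β = β' := by
          have e3 := e.symm.trans e'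
          have h5 := (ZFSet.pair_inj.1 e3).1
          unfold trip at h5
          exact Ordinal.toZFSet_injective (ZFSet.pair_inj.1 h5).1
        rw [e2] at hβ
        have h6 : η' < nu W (γ + 1) := h4.trans_le (hδ β' hβ h1)
        rw [e']
        change ZFSet.pair (ZFSet.pair β'.toZFSet (ZFSet.pair ξ'.toZFSet i'.toZFSet)) η'.toZFSet ∈
          ((nu W 1).toZFSet.prod ((tht W).toZFSet.prod (kap W).toZFSet)).prod
            (nu W (γ + 1)).toZFSet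
        refine ZFSet.pair_mem_prod.2 ⟨ZFSet.pair_mem_prod.2 ⟨?_, ZFSet.pair_mem_prod.2 ⟨?_, ?_⟩⟩, ?_⟩
        · exact Ordinal.toZFSet_mem_toZFSet_iff.2 h1
        · exact Ordinal.toZFSet_mem_toZFSet_iff.2 h2
        · exact Ordinal.toZFSet_mem_toZFSet_iff.2 h3
        · exact Ordinal.toZFSet_mem_toZFSet_iff.2 h6)
  have hYω : ¬ Sz W Y.1 Ordinal.omega0 := fun h1 => hY (Sz.mono h.zfc h1 (omega_le_nu W _))
  obtain ⟨z, z', h1, h2, h3, h4⟩ := cc_fin h (δ := δ) Y hYω hC (fun z hz => hc z (hYZ hz)) hYf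
  exact ⟨z, z', hYZ h1, hYZ h2, h3, h4⟩

theorem cc_low (h : Ext W G) {δ l : Ordinal.{0}} (hOK : OKd W δ l) (Z : W)
    (hZ : ¬ Sz W Z.1 l) {C : W → W} (hC : DFc W C)
    (hc : ∀ z : W, z.1 ∈ Z.1 → Cond W (C z).1) :
    ∃ z z' : W, z.1 ∈ Z.1 ∧ z'.1 ∈ Z.1 ∧ z ≠ z' ∧ LowC W δ (C z).1 (C z').1 := by
  rcases hOK with ⟨h0, h1⟩ | ⟨γ, h0, hlt, h1⟩ | ⟨h0, h1⟩
  · subst h0 h1
    refine cc_fin h Z hZ hC hc ?_
    intro z z' _ _ x y y' hy
    rw [levLt_zero, levLt_zero] at hy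
    rcases ZFSet.mem_union.1 hy with hy | hy
    · exact absurd hy (ZFSet.notMem_empty _)
    · exact absurd hy (ZFSet.notMem_empty _)
  · subst h0 h1
    have hγ : γ < nu W 1 := (lt_add_one γ).trans hlt
    refine cc_mid h Z hZ hC hc (fun z hz => sz_levLt h.zfc (hc z hz).cP hγ) ?_
    intro β hβ _
    have h2 : β + 1 ≤ γ + 1 := by
      have h3 : β ≤ γ := Order.lt_add_one_iff.1 hβ
      exact add_le_add_left h3 1
    exact (nu_strictMono W).monotone h2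
  · subst h0 h1
    refine cc_mid h (γ := nu W 1) Z hZ hC hc
      (fun z hz => (sz_condP h.zfc (hc z hz).cP).subset ?_) ?_
    · intro t ht
      exact (ZFSet.mem_sep.1 ht).1
    · intro β hβ _
      have h2 : β + 1 ≤ nu W 1 + 1 := add_le_add_left hβ.le 1
      exact (nu_strictMono W).monotone h2

theorem cc_low' (h : Ext W G) {δ l : Ordinal.{0}} (hOK : OKd W δ l) (Z I : W)
    (hZ : ¬ Sz W Z.1 l) (hI : Sz W I.1 l) {C F : W → W} (hC : DFc W C) (hF : DFc W F)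
    (hc : ∀ z : W, z.1 ∈ Z.1 → Cond W (C z).1) (hFI : ∀ z : W, z.1 ∈ Z.1 → (F z).1 ∈ I.1) :
    ∃ z z' : W, z.1 ∈ Z.1 ∧ z'.1 ∈ Z.1 ∧ z ≠ z' ∧ F z = F z' ∧
      LowC W δ (C z).1 (C z').1 := by
  obtain ⟨i, Y, -, hY, hYs⟩ := pigeon h.zfc hOK.wcard (R := fun i z => i = F z) hZ hI
    (MD.eq (DFc.fst DFc.id) (DFc.comp hF (DFc.snd DFc.id)))
    (fun z hz => ⟨F z, hFI z hz, rfl⟩)
  obtain ⟨z, z', h1, h2, h3, h4⟩ := cc_low h hOK Y hYs hC (fun z hz => hc z ((hY z).1 hz).1)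
  have h5 := (hY z).1 h1
  have h6 := (hY z').1 h2
  exact ⟨z, z', h5.1, h6.1, h3, h5.2.symm.trans h6.2, h4⟩

end HNF
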