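import Pool.Agent.HNF.Ac

/-!
HNF DC: dependent choices of arbitrary length in `W`.

`SeqR h Y R f η`: `f` is a sequence of length `η` of elements of `Y`, and every initial segment `f ↾ ξ`, `ξ < η`, is in
the relation `R` with the next value `f ξ`.

PROOFS.
`MD.seqR`: `SeqR h Y R f η` is definable in `(f, η)` (restricted to ordinals `η`): `IsFn f η ∧ ∀ ξ : W, ξ ∈ η → zap f ξ ∈ Y ∧
R (zres f ξ) (zap f ξ)` (`mem_ordW`; the statement is for `η : W` arbitrary, see `SeqRZ`).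
`SeqR.res`: `resZ_res`, `apZ_res`, `resZ_fn`.
`dc`: Let `e ∈ W` be a function on an ordinal `τ` covering `Y` (`exists_sz`, `sz_iff`).  By `exists_lst` the function
`f ↦ (the least ξ with zap e ξ ∈ Y and R f (zap e ξ))` is definable, so also `N : W → W`,
`N f = zap e (least such ξ)`.  By `recOrd` (`ZRec.lean`) with `F x d k = N k` there is a definable `H` such that for all
ordinals `γ`: `H x γ = N k`, where `k` is the function on `γ` with values `H x ξ`, `ξ < γ`; `k ∈ W`.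
Let `k_γ` be this function.  Suppose that the first alternative fails.  By induction on `γ ≤ lam`: `SeqR Y R k_γ γ`:
for `ξ < γ`, `k_γ ↾ ξ = k_ξ` (`IsFn.ext`), by induction `SeqR Y R k_ξ ξ`, `ξ < lam`, so there is `y ∈ Y` with `R k_ξ y` (the
first alternative fails), so `N k_ξ ∈ Y` and `R k_ξ (N k_ξ)`, and `k_γ ξ = H x ξ = N k_ξ`.  Take `f = k_lam`.
-/

namespace HNF

open RMK Set

variable {W : Set ZFSet.{0}}

/-- `f` is a sequence of length `η` of elements of `Y` following the relation `R` -/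
def SeqR (h : InnerZFC W) (Y : W) (R : W → W → Prop) (f : W) (η : Ordinal.{0}) : Prop :=
  IsFn f.1 η.toZFSet ∧ ∀ ξ < η, (zap h.zf0 f (ordW h ξ)).1 ∈ Y.1 ∧
    R (zres h.zf0 f (ordW h ξ)) (zap h.zf0 f (ordW h ξ))

theorem SeqR.res {h : InnerZFC W} {Y : W} {R : W → W → Prop} {f : W} {η ξ : Ordinal.{0}}
    (hf : SeqR h Y R f η) (hξ : ξ ≤ η) : SeqR h Y R (zres h.zf0 f (ordW h ξ)) ξ := by
  have hsub : ∀ {a b : Ordinal.{0}}, a ≤ b → a.toZFSet ⊆ b.toZFSet := by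
    intro a b hab z hz
    obtain ⟨c, hc, rfl⟩ := Ordinal.mem_toZFSet_iff.1 hz
    exact Ordinal.toZFSet_mem_toZFSet_iff.2 (lt_of_lt_of_le hc hab)
  refine ⟨resZ_fn hf.1 (hsub hξ), fun ζ hζ => ?_⟩
  have h1 : zap h.zf0 (zres h.zf0 f (ordW h ξ)) (ordW h ζ) = zap h.zf0 f (ordW h ζ) :=
    Subtype.ext (apZ_res hf.1 (hsub hξ) (Ordinal.toZFSet_mem_toZFSet_iff.2 hζ))
  have h2 : zres h.zf0 (zres h.zf0 f (ordW h ξ)) (ordW h ζ) = zres h.zf0 f (ordW h ζ) :=
    Subtype.ext (resZ_res (hsub hζ.le))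
  rw [h1, h2]
  exact hf.2 ζ (lt_of_lt_of_le hζ hξ)

/-- the choice of the next element -/
private theorem next_ex (h : InnerZFC W) (Y : W) {R : W → W → Prop}
    (hR : MD W fun p : W × W => R p.1 p.2) :
    ∃ N : W → W, DFc W N ∧ ∀ f : W, (∃ y : W, y.1 ∈ Y.1 ∧ R f y) → (N f).1 ∈ Y.1 ∧ R f (N f) := by
  obtain ⟨τ, hτ⟩ := exists_sz h Y.2
  obtain ⟨e, he1, he2⟩ := (sz_iff h).1 hτ
  have hP : MD W fun p : W × W => (zap h.zf0 e p.2).1 ∈ Y.1 ∧ R p.1 (zap h.zf0 e p.2) := by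
    (repeat' (first | (with_reducible first | exact DFc.id | exact DFc.const _ | exact MD.const _ | apply MD.and | apply MD.or | apply MD.iff | apply MD.not | apply MD.imp | apply MD.ex | apply MD.all | apply MD.zpair_mem h.zf0 | apply MD.eq_zpair h.zf0 | apply MD.isFn h.zf0 | apply MD.isO h.zf0 | apply MD.mem | apply MD.eq | apply DFc.zpr h.zf0 | apply DFc.zap h.zf0 | apply DFc.zun h.zf0 | apply DFc.zsg h.zf0 | apply DFc.zsU h.zf0 | apply DFc.ztr h.zf0 | apply DFc.zup h.zf0 | apply DFc.zpd h.zf0) | (with_reducible first | exact hR | apply hR | apply MD.comp2 hR | apply DFc.comp2 hR | apply MD.comp3 hR | apply DFc.comp3 hR | apply MD.comp hR | apply DFc.comp hR) | (with_reducible apply DFc.fst) | (with_reducible apply DFc.snd) | (with_reducible apply DFc.mk)))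
  obtain ⟨F, hF, hF'⟩ := exists_lst h
    (P := fun f ξ : W => (zap h.zf0 e ξ).1 ∈ Y.1 ∧ R f (zap h.zf0 e ξ)) hP
  refine ⟨fun f => zap h.zf0 e (F f), by (repeat' (first | (with_reducible first | exact DFc.id | exact DFc.const _ | exact MD.const _ | apply MD.and | apply MD.or | apply MD.iff | apply MD.not | apply MD.imp | apply MD.ex | apply MD.all | apply MD.zpair_mem h.zf0 | apply MD.eq_zpair h.zf0 | apply MD.isFn h.zf0 | apply MD.isO h.zf0 | apply MD.mem | apply MD.eq | apply DFc.zpr h.zf0 | apply DFc.zap h.zf0 | apply DFc.zun h.zf0 | apply DFc.zsg h.zf0 | apply DFc.zsU h.zf0 | apply DFc.ztr h.zf0 | apply DFc.zup h.zf0 | apply DFc.zpd h.zf0) | (with_reducible first | exact hF | apply hF | apply MD.comp2 hF | apply DFc.comp2 hF | apply MD.comp3 hF | apply DFc.comp3 hF | apply MD.comp hF | apply DFc.comp hF) | (with_reducible apply DFc.fst) | (with_reducible apply DFc.snd) | (with_reducible apply DFc.mk))),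 ?_⟩
  rintro f ⟨y, hy, hRy⟩
  obtain ⟨ξ, hξ, hξy⟩ := he2 y.1 hy
  have hex : ∃ ξ : Ordinal.{0}, (zap h.zf0 e (ordW h ξ)).1 ∈ Y.1 ∧
      R f (zap h.zf0 e (ordW h ξ)) := by
    refine ⟨ξ, ?_⟩
    have h1 : zap h.zf0 e (ordW h ξ) = y := Subtype.ext hξy
    rw [h1]
    exact ⟨hy, hRy⟩
  obtain ⟨ξ0, h0, hmin⟩ := WellFounded.has_min (wellFounded_lt (α := Ordinal.{0}))
    {ξ : Ordinal.{0} | (zap h.zf0 e (ordW h ξ)).1 ∈ Y.1 ∧ R f (zap h.zf0 e (ordW h ξ))} hex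
  have h2 : F f = ordW h ξ0 := hF' f ξ0 h0 fun η hη hP' => hmin η hP' hη
  change (zap h.zf0 e (F f)).1 ∈ Y.1 ∧ R f (zap h.zf0 e (F f))
  rw [h2]
  exact h0

theorem dc (h : InnerZFC W) (Y : W) {R : W → W → Prop} (hR : MD W fun p : W × W => R p.1 p.2)
    (l : Ordinal.{0}) :
    (∃ η < l, ∃ f : W, SeqR h Y R f η ∧ ∀ y : W, y.1 ∈ Y.1 → ¬ R f y) ∨
      ∃ f : W, SeqR h Y R f l := by
  by_cases hno : ∃ η < l, ∃ f : W, SeqR h Y R f η ∧ ∀ y : W, y.1 ∈ Y.1 → ¬ R f y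
  · exact Or.inl hno
  right
  have hyes : ∀ η < l, ∀ f : W, SeqR h Y R f η → ∃ y : W, y.1 ∈ Y.1 ∧ R f y := by
    intro η hη f hf
    by_contra hc
    exact hno ⟨η, hη, f, hf, fun y hy hRy => hc ⟨y, hy, hRy⟩⟩
  obtain ⟨N, hN, hN'⟩ := next_ex h Y hR
  obtain ⟨H, -, hH⟩ := recOrd h.zf0 (X := W) (F := fun _ _ k => N k)
    (by (repeat' (first | (with_reducible first | exact DFc.id | exact DFc.const _ | exact MD.const _ | apply MD.and | apply MD.or | apply MD.iff | apply MD.not | apply MD.imp | apply MD.ex | apply MD.all | apply MD.zpair_mem h.zf0 | apply MD.eq_zpair h.zf0 | apply MD.isFn h.zf0 | apply MD.isO h.zf0 | apply MD.mem | apply MD.eq | apply DFc.zpr h.zf0 | apply DFc.zap h.zf0 | apply DFc.zun h.zf0 | apply DFc.zsg h.zf0 | apply DFc.zsU h.zf0 | apply DFc.ztr h.zf0 | apply DFc.zup h.zf0 | apply DFc.zpd h.zf0) | (with_reducible first | exact hN | apply hN | apply MD.comp2 hN | apply DFc.comp2 hN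 | apply MD.comp3 hN | apply DFc.comp3 hN | apply MD.comp hN | apply DFc.comp hN) | (with_reducible apply DFc.fst) | (with_reducible apply DFc.snd) | (with_reducible apply DFc.mk))))
  have hkex : ∀ γ : Ordinal.{0}, ∃ k : W, IsFn k.1 γ.toZFSet ∧
      (∀ ξ : W, ξ.1 ∈ γ.toZFSet → zap h.zf0 k ξ = H (ordW h 0) ξ) ∧
      H (ordW h 0) (ordW h γ) = N k := fun γ => hH (ordW h 0) (ordW h γ) ⟨γ, rfl⟩
  choose k hk1 hk2 hk3 using hkex
  have hsub : ∀ {a b : Ordinal.{0}}, a ≤ b → a.toZFSet ⊆ b.toZFSet := by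
    intro a b hab z hz
    obtain ⟨c, hc, rfl⟩ := Ordinal.mem_toZFSet_iff.1 hz
    exact Ordinal.toZFSet_mem_toZFSet_iff.2 (lt_of_lt_of_le hc hab)
  have hres : ∀ γ ξ : Ordinal.{0}, ξ ≤ γ → zres h.zf0 (k γ) (ordW h ξ) = k ξ := by
    intro γ ξ hξ
    refine Subtype.ext (IsFn.ext (resZ_fn (hk1 γ) (hsub hξ)) (hk1 ξ) fun d hd => ?_)
    have hdW : d ∈ W := h.trans _ (h.ord ξ) d hd
    refine (apZ_res (hk1 γ) (hsub hξ) hd).trans ?_
    have e1 := hk2 γ ⟨d, hdW⟩ (hsub hξ hd)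
    have e2 := hk2 ξ ⟨d, hdW⟩ hd
    exact congrArg Subtype.val (e1.trans e2.symm)
  have key : ∀ γ : Ordinal.{0}, γ ≤ l → SeqR h Y R (k γ) γ := by
    intro γ
    induction γ using WellFoundedLT.induction with
    | ind γ ih =>
    intro hγ
    refine ⟨hk1 γ, fun ξ hξ => ?_⟩
    have h1 : zap h.zf0 (k γ) (ordW h ξ) = N (k ξ) := by
      rw [hk2 γ (ordW h ξ) (Ordinal.toZFSet_mem_toZFSet_iff.2 hξ), hk3 ξ]
    rw [h1, hres γ ξ hξ.le]
    exact hN' (k ξ) (hyes ξ (lt_of_lt_of_le hξ hγ) _ (ih ξ hξ (hξ.le.trans hγ)))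
  exact ⟨k l, key l le_rfl⟩

end HNF
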