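import Pool.Agent.HNF.Hul
import Pool.Agent.HNF.Dc

/-!
HNF CCP: the chain condition for small partial functions (Delta-system argument).

`FnSet u`: `u` is single-valued.  Let `l = nu β`, `l' = nu (β + 1)`.  Given a family of partial functions `U z`, `z ∈ Z`, of
size `l` in `W`, with domains contained in `X` and values less than `l'`, where `Z` does not have size `l'` in `W`, there is
a subset `Y` of `Z`, not of size `l'`, such that the `U z`, `z ∈ Y`, are pairwise compatible.

PROOF of `ccp`.  Let `X' = X × l'` (`zpd`), so all `U z` (`z ∈ Z`) are subsets of `X'`.  Write `dm u` for the domain of `u`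
(`exists_dom`).  For `r ⊆ X'` of size `l` say that a sequence `f` of elements of `Z` is `r`-good if all its values `z` satisfy
`r ⊆ U z`, and two different values `z`, `z'` (at different places) are different and satisfy: `dm (U z) \ dm r` and
`dm (U z') \ dm r` are disjoint.  This is `SeqR h Z R f η` with `R f z` iff `r ⊆ U z`, `z ∉ ran f` and for all `w ∈ ran f` the
sets `dm (U z) \ dm r` and `dm (U w) \ dm r` are disjoint (definable, parameter `r`).
Apply `dc` with length `o`, an ordinal with `Sz Z o` replaced by `l'' = nu (β + 2)`; more precisely: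
(1) Suppose that for some `r ∈ W`, `r ⊆ X'` with `Sz r l` there is an `r`-good `f` of length `l'' = nu (β + 2)`.  Let `Y` be the range of
`f`.  `Y` does not have size `l'`: `f` is injective, so `ξ ↦ f ξ` has a definable inverse and `Sz Y l'` would give
`Sz l'' l'` by `Sz.image` (`not_sz_nu`).  The `U z`, `z ∈ Y`, are pairwise compatible: let `z ≠ z' ∈ Y` and `pair x v ∈ U z`,
`pair x v' ∈ U z'`.  If `x ∈ dm r`, say `pair x v0 ∈ r`, then `v = v0 = v'` as `r ⊆ U z`, `r ⊆ U z'` are single-valued.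
Otherwise `x` is in both `dm (U z) \ dm r` and `dm (U z') \ dm r`, a contradiction.  So `Y` is as required.
(2) Otherwise, by `dc` (length `l''`), for every `r ⊆ X'` in `W` with `Sz r l` there are `η < l''` and an `r`-good `f` of length
`η` such that no `z ∈ Z` satisfies `R f z`.  By `ac`, applied to the set of all `r ∈ W` with `r ⊆ X'` and `Sz r l`
(separation from the power set), there is a function `Ψ ∈ W` choosing such an `f = Ψ r` for each `r` (the relation: there
is an ordinal `η ∈ l''` with `IsFn f η` and `SeqR`).  The range of `Ψ r` has size `l'` (`Sz η l'` by `sz_of_lt`).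
Let `Φ r = (⋃_{z ∈ ran (Ψ r)} dm (U z) ∪ dm r) × l'`, intersected with `X'`; for small `r` it has size `l'` (`sz_iUnion`,
`sz_union`, `sz_prod`, `Sz.mono`).  By `hull` there is `S ⊆ X'` of size `l'` with `Φ r ⊆ S` for all small `r ⊆ S`.
`S` is saturated: if `pair x v ∈ S` and `v' < l'` then `pair x v' ∈ Φ {pair x v} ⊆ S`.  The set `Q` of all small
`r ⊆ S` has size `l'` by `k1`, so the set `T = ⋃_{r ∈ Q} ran (Ψ r)` has size `l'` (`sz_iUnion`).  As `Z` does not have size
`l'` there is `z* ∈ Z \ T`.  Let `r = U z* ∩ S`, an element of `Q`.  Claim: `R (Ψ r) z*` holds, a contradiction.  Indeed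
`r ⊆ U z*`; `z* ∉ ran (Ψ r)`; and for `w ∈ ran (Ψ r)`: if `x ∈ dm (U w)`, `x ∈ dm (U z*)`, `x ∉ dm r`, then
`{x} × l' ⊆ Φ r ⊆ S` (all `x ∈ X` since `U w ⊆ X'`), so for `pair x v ∈ U z*` (`v < l'`) we get
`pair x v ∈ U z* ∩ S = r`, `x ∈ dm r`, a contradiction.
-/

namespace HNF

open RMK Set

variable {W : Set ZFSet.{0}}

/-- `u` is a single-valued relation -/
def FnSet (u : ZFSet.{0}) : Prop :=
  ∀ x y y', ZFSet.pair x y ∈ u → ZFSet.pair x y' ∈ u → y = y'

/-- the relation of the sequences: `r ⊆ U z`, `z` is not a value of `f`, and the domains of `U z`, `U w` meet only in the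
domain of `r` for all values `w` of `f` -/
private def Rr (U dm ra : W → W) (r f z : W) : Prop :=
  (∀ t : W, t.1 ∈ r.1 → t.1 ∈ (U z).1) ∧ ¬ z.1 ∈ (ra f).1 ∧
    ∀ w : W, w.1 ∈ (ra f).1 → ∀ x : W, x.1 ∈ (dm (U z)).1 → x.1 ∈ (dm (U w)).1 → x.1 ∈ (dm r).1

private theorem md_Rr (hz : ZF0 W) {U dm ra : W → W} (hU : DFc W U) (hdm : DFc W dm)
    (hra : DFc W ra) : MD W fun p : W × W × W => Rr U dm ra p.1 p.2.1 p.2.2 := by
  unfold Rr
  (repeat' (first | (with_reducible first | exact DFc.id | exact DFc.const _ | exact MD.const _ | apply MD.and | apply MD.or | apply MD.iff | apply MD.not | apply MD.imp | apply MD.ex | apply MD.all | apply MD.zpair_mem hz | apply MD.eq_zpair hz | apply MD.isFn hz | apply MD.isO hz | apply MD.mem | apply MD.eq | apply DFc.zpr hz | apply DFc.zap hz | apply DFc.zun hz | apply DFc.zsg hz | apply DFc.zsU hz | apply DFc.ztr hz | apply DFc.zup hz | apply DFc.zpd hz) | (with_reducible first | exact hU | apply hU | apply MD.comp2 hU | apply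 DFc.comp2 hU | apply MD.comp3 hU | apply DFc.comp3 hU | apply MD.comp hU | apply DFc.comp hU) | (with_reducible first | exact hdm | apply hdm | apply MD.comp2 hdm | apply DFc.comp2 hdm | apply MD.comp3 hdm | apply DFc.comp3 hdm | apply MD.comp hdm | apply DFc.comp hdm) | (with_reducible first | exact hra | apply hra | apply MD.comp2 hra | apply DFc.comp2 hra | apply MD.comp3 hra | apply DFc.comp3 hra | apply MD.comp hra | apply DFc.comp hra) | (with_reducible apply DFc.fst) | (with_reducible apply DFc.snd) | (with_reducible apply DFc.mk)))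

/-- definable version of a maximal sequence -/
private def Gg (h : InnerZFC W) (Z L : W) (U dm ra : W → W) (r f : W) : Prop :=
  (∃ η : W, η.1 ∈ L.1 ∧ IsFn f.1 η.1 ∧ ∀ ξ : W, ξ.1 ∈ η.1 → (zap h.zf0 f ξ).1 ∈ Z.1 ∧
    Rr U dm ra r (zres h.zf0 f ξ) (zap h.zf0 f ξ)) ∧
  ∀ z : W, z.1 ∈ Z.1 → ¬ Rr U dm ra r f z

private theorem md_Gg (h : InnerZFC W) (Z L : W) {U dm ra : W → W} (hU : DFc W U)
    (hdm : DFc W dm) (hra : DFc W ra) :
    MD W fun p : W × W => Gg h Z L U dm ra p.1 p.2 := by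
  have hR := md_Rr h.zf0 hU hdm hra
  unfold Gg
  (repeat' (first | (with_reducible first | exact DFc.id | exact DFc.const _ | exact MD.const _ | apply MD.and | apply MD.or | apply MD.iff | apply MD.not | apply MD.imp | apply MD.ex | apply MD.all | apply MD.zpair_mem h.zf0 | apply MD.eq_zpair h.zf0 | apply MD.isFn h.zf0 | apply MD.isO h.zf0 | apply MD.mem | apply MD.eq | apply DFc.zpr h.zf0 | apply DFc.zap h.zf0 | apply DFc.zun h.zf0 | apply DFc.zsg h.zf0 | apply DFc.zsU h.zf0 | apply DFc.ztr h.zf0 | apply DFc.zup h.zf0 | apply DFc.zpd h.zf0) | (with_reducible first | exact hR | apply hR | apply MD.comp2 hR | apply DFc.comp2 hR | apply MD.comp3 hR | apply DFc.comp3 hR | apply MD.comp hR | apply DFc.comp hR) | (with_reducible first | exact (DFc.zres h.zf0) | apply (DFc.zres h.zf0) | apply MD.comp2 (DFc.zres h.zf0) | apply DFc.comp2 (DFc.zres h.zf0) | apply MD.comp3 (DFc.zres h.zf0) | apply DFc.comp3 (DFc.zres h.zf0) | apply MD.comp (DFc.zres h.zf0) | apply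 DFc.comp (DFc.zres h.zf0)) | (with_reducible apply DFc.fst) | (with_reducible apply DFc.snd) | (with_reducible apply DFc.mk)))

private theorem sz_dom (h : InnerZFC W) {dm : W → W}
    (hdm : ∀ u z : W, z.1 ∈ (dm u).1 ↔ ∃ y : W, ZFSet.pair z.1 y.1 ∈ u.1) (u : W)
    {α : Ordinal.{0}} (hu : Sz W u.1 α) : Sz W (dm u).1 α := by
  refine hu.image h (F := zfst h.zf0) (DFc.zfst h.zf0 DFc.id) ?_
  intro z hz
  obtain ⟨y, hy⟩ := (hdm u ⟨z, h.trans _ (dm u).2 _ hz⟩).1 hz
  refine ⟨⟨_, h.trans _ u.2 _ hy⟩, hy, ?_⟩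
  exact (fstZ_pair _ _).symm

private theorem sz_ran (h : InnerZFC W) {ra : W → W}
    (hra : ∀ u z : W, z.1 ∈ (ra u).1 ↔ ∃ y : W, ZFSet.pair y.1 z.1 ∈ u.1) (f η : W)
    (hf : IsFn f.1 η.1) {α : Ordinal.{0}} (hu : Sz W η.1 α) : Sz W (ra f).1 α := by
  refine hu.image h (F := fun x => zap h.zf0 f x) (DFc.zap h.zf0 (DFc.const _) DFc.id) ?_
  intro z hz
  obtain ⟨y, hy⟩ := (hra f ⟨z, h.trans _ (ra f).2 _ hz⟩).1 hz
  obtain ⟨d, hd, y', e⟩ := hf.1 _ hy
  have e1 := ZFSet.pair_inj.1 e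
  have hd' : y.1 ∈ η.1 := e1.1 ▸ hd
  exact ⟨y, hd', ((apZ_eq hf hd').2 hy).symm⟩

theorem ccp (h : InnerZFC W) (hg : GCHW W) {β : Ordinal.{0}} (X Z : W)
    (hZ : ¬ Sz W Z.1 (nu W (β + 1))) {U : W → W} (hU : DFc W U)
    (h1 : ∀ z : W, z.1 ∈ Z.1 → FnSet (U z).1 ∧ Sz W (U z).1 (nu W β) ∧
      (U z).1 ⊆ X.1.prod (nu W (β + 1)).toZFSet) :
    ∃ Y : W, Y.1 ⊆ Z.1 ∧ ¬ Sz W Y.1 (nu W (β + 1)) ∧
      ∀ z z' : W, z.1 ∈ Y.1 → z'.1 ∈ Y.1 → FnSet ((U z).1 ∪ (U z').1) := by
  classical
  have hz := h.zf0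
  obtain ⟨dm, hdm, dms⟩ := hz.exists_dom
  obtain ⟨ra, hra, ras⟩ := hz.exists_ran
  have hlt : nu W β < nu W (β + 1) := nu_strictMono W (lt_add_one β)
  have hlt2 : β + 1 < β + 1 + 1 := lt_add_one _
  have hcard := nu_wcard W (β + 1)
  let X' : W := zpd hz X (ordW h (nu W (β + 1)))
  have hRr : ∀ r : W, MD W fun p : W × W => Rr U dm ra r p.1 p.2 := fun r =>
    MD.comp (md_Rr hz hU hdm hra) (DFc.mk (DFc.const r) (DFc.mk (DFc.fst DFc.id) (DFc.snd DFc.id)))
  by_cases H : ∃ r : W, r.1 ⊆ X'.1 ∧ Sz W r.1 (nu W β) ∧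
      ∃ f : W, SeqR h Z (Rr U dm ra r) f (nu W (β + 1 + 1))
  · -- a long sequence
    obtain ⟨r, hrX, hrs, f, hf, hfs⟩ := H
    have hval : ∀ y : W, y.1 ∈ (ra f).1 → ∃ ξ < nu W (β + 1 + 1), y = zap hz f (ordW h ξ) := by
      intro y hy
      obtain ⟨x, hx⟩ := (ras f y).1 hy
      obtain ⟨d, hd, y', e⟩ := hf.1 _ hx
      have e1 := ZFSet.pair_inj.1 e
      have hd' : x.1 ∈ (nu W (β + 1 + 1)).toZFSet := e1.1 ▸ hd
      obtain ⟨ξ, hξ, rfl⟩ := (mem_ordW h).1 (show x.1 ∈ (ordW h (nu W (β + 1 + 1))).1 from hd')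
      exact ⟨ξ, hξ, Subtype.ext ((apZ_eq hf hd').2 hx).symm⟩
    have hmem : ∀ ξ < nu W (β + 1 + 1), ZFSet.pair (ordW h ξ).1 (zap hz f (ordW h ξ)).1 ∈ f.1 := by
      intro ξ hξ
      have hd' : (ordW h ξ).1 ∈ (nu W (β + 1 + 1)).toZFSet :=
        (mem_ordW h (ξ := nu W (β + 1 + 1))).2 ⟨ξ, hξ, rfl⟩
      exact (apZ_eq hf hd').1 rfl
    have hin : ∀ η ξ, η < ξ → ξ < nu W (β + 1 + 1) →
        (zap hz f (ordW h η)).1 ∈ (ra (zres hz f (ordW h ξ))).1 := by
      intro η ξ hη hξ
      refine (ras _ _).2 ⟨ordW h η, ?_⟩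
      show _ ∈ resZ f.1 (ordW h ξ).1
      unfold resZ
      rw [ZFSet.mem_sep]
      exact ⟨hmem η (hη.trans hξ), _, (mem_ordW h).2 ⟨η, hη, rfl⟩, _, rfl⟩
    refine ⟨ra f, ?_, ?_, ?_⟩
    · intro y hy
      obtain ⟨ξ, hξ, e⟩ := hval ⟨y, h.trans _ (ra f).2 _ hy⟩ hy
      have := (hfs ξ hξ).1
      rw [← e] at this
      exact this
    · intro hs
      refine not_sz_nu hlt2 (W := W) ?_
      obtain ⟨F, hF, hFs⟩ := exists_lst h (X := W) (P := fun u ξ => ZFSet.pair ξ.1 u.1 ∈ f.1)
        (by (repeat' (first | (with_reducible first | exact DFc.id | exact DFc.const _ | exact MD.const _ | apply MD.and | apply MD.or | apply MD.iff | apply MD.not | apply MD.imp | apply MD.ex | apply MD.all | apply MD.zpair_mem hz | apply MD.eq_zpair hz | apply MD.isFn hz | apply MD.isO hz | apply MD.mem | apply MD.eq | apply DFc.zpr hz | apply DFc.zap hz | apply DFc.zun hz | apply DFc.zsg hz | apply DFc.zsU hz | apply DFc.ztr hz | apply DFc.zup hz | apply DFc.zpd hz) | (with_reducible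 apply DFc.fst) | (with_reducible apply DFc.snd) | (with_reducible apply DFc.mk))))
      refine hs.image h hF ?_
      intro z hzz
      obtain ⟨ξ, hξ, e⟩ := (mem_ordW h (ξ := nu W (β + 1 + 1)) (z := ⟨z, h.trans _ (h.ord _) _ hzz⟩)).1 hzz
      have ez : z = (ordW h ξ).1 := congrArg Subtype.val e
      refine ⟨zap hz f (ordW h ξ), (ras _ _).2 ⟨_, hmem ξ hξ⟩, ?_⟩
      rw [hFs _ ξ (hmem ξ hξ) ?_, ez]
      intro η hη hc
      have hd' : (ordW h η).1 ∈ (nu W (β + 1 + 1)).toZFSet :=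
        (mem_ordW h (ξ := nu W (β + 1 + 1))).2 ⟨η, hη.trans hξ, rfl⟩
      have e2 : zap hz f (ordW h η) = zap hz f (ordW h ξ) := Subtype.ext ((apZ_eq hf hd').2 hc)
      apply (hfs ξ hξ).2.2.1
      rw [← e2]
      exact hin η ξ hη hξ
    · have key : ∀ η ξ, η < ξ → ξ < nu W (β + 1 + 1) → ∀ x : W,
          x.1 ∈ (dm (U (zap hz f (ordW h ξ)))).1 → x.1 ∈ (dm (U (zap hz f (ordW h η)))).1 →
          x.1 ∈ (dm r).1 := by
        intro η ξ hη hξ x hx hx'
        exact (hfs ξ hξ).2.2.2 _ (hin η ξ hη hξ) x hx hx'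
      have key2 : ∀ z z' : W, z.1 ∈ (ra f).1 → z'.1 ∈ (ra f).1 → ∀ x y y',
          ZFSet.pair x y ∈ (U z).1 → ZFSet.pair x y' ∈ (U z').1 → y = y' := by
        intro z z' hzr hzr' x y y' hxy hxy'
        obtain ⟨ξ, hξ, e⟩ := hval z hzr
        obtain ⟨ξ', hξ', e'⟩ := hval z' hzr'
        have hzZ : z.1 ∈ Z.1 := by rw [e]; exact (hfs ξ hξ).1
        have hzZ' : z'.1 ∈ Z.1 := by rw [e']; exact (hfs ξ' hξ').1
        have hxW : x ∈ W := hz.pair_left (h.trans _ (U z).2 _ hxy)
        have hyW : y ∈ W := hz.pair_right (h.trans _ (U z).2 _ hxy)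
        have hyW' : y' ∈ W := hz.pair_right (h.trans _ (U z').2 _ hxy')
        have hd1 : (⟨x, hxW⟩ : W).1 ∈ (dm (U z)).1 := (dms _ _).2 ⟨⟨y, hyW⟩, hxy⟩
        have hd2 : (⟨x, hxW⟩ : W).1 ∈ (dm (U z')).1 := (dms _ _).2 ⟨⟨y', hyW'⟩, hxy'⟩
        have fin : (⟨x, hxW⟩ : W).1 ∈ (dm r).1 → y = y' := by
          intro hd
          obtain ⟨v, hv⟩ := (dms _ _).1 hd
          have hvW := h.trans _ r.2 _ hv
          have a1 : ZFSet.pair x v.1 ∈ (U z).1 := by
            rw [e]; exact (hfs ξ hξ).2.1 ⟨_, hvW⟩ hv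
          have a2 : ZFSet.pair x v.1 ∈ (U z').1 := by
            rw [e']; exact (hfs ξ' hξ').2.1 ⟨_, hvW⟩ hv
          exact ((h1 z hzZ).1 _ _ _ hxy a1).trans ((h1 z' hzZ').1 _ _ _ a2 hxy')
        rcases lt_trichotomy ξ ξ' with hlt | heq | hgt
        · rw [e] at hd1; rw [e'] at hd2
          exact fin (key ξ ξ' hlt hξ' _ hd2 hd1)
        · subst heq
          rw [e] at hxy
          rw [e'] at hxy'
          exact (h1 _ ((hfs ξ hξ).1)).1 _ _ _ hxy hxy'
        · rw [e] at hd1; rw [e'] at hd2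
          exact fin (key ξ' ξ hgt hξ _ hd1 hd2)
      intro z z' hzr hzr' x y y' hxy hxy'
      rw [ZFSet.mem_union] at hxy hxy'
      rcases hxy with a | a <;> rcases hxy' with b | b
      · exact key2 z z hzr hzr x y y' a b
      · exact key2 z z' hzr hzr' x y y' a b
      · exact key2 z' z hzr' hzr x y y' a b
      · exact key2 z' z' hzr' hzr' x y y' a b
  · -- no long sequence
    exfalso
    apply hZ
    let L : W := ordW h (nu W (β + 1 + 1))
    obtain ⟨Pw, hPw, Pws⟩ := exists_powF h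
    obtain ⟨D, hD⟩ := hz.sep (fun r => SzZ W r.1 (ordW h (nu W β)).1)
      (MD.szZ h DFc.id (DFc.const _)) (Pw X')
    have hD' : ∀ r : W, r.1 ∈ D.1 ↔ r.1 ⊆ X'.1 ∧ Sz W r.1 (nu W β) := by
      intro r
      rw [hD, Pws]
      exact and_congr Iff.rfl szZ_iff
    obtain ⟨Ψ, hΨ, hΨs⟩ := ac h D (md_Gg h Z L hU hdm hra) (by
      intro d hd
      rw [hD'] at hd
      rcases dc h Z (hRr d) (nu W (β + 1 + 1)) with ⟨η, hη, f, hf, hfm⟩ | hlong
      · refine ⟨f, ⟨ordW h η, (mem_ordW h).2 ⟨η, hη, rfl⟩, hf.1, ?_⟩, hfm⟩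
        intro ξ hξ
        obtain ⟨ξ', hξ', rfl⟩ := (mem_ordW h).1 hξ
        exact hf.2 ξ' hξ'
      · exact absurd ⟨d, hd.1, hd.2, hlong⟩ H)
    -- the range of a chosen sequence
    have hQ : ∀ r : W, r.1 ∈ D.1 → Sz W (ra (zap hz Ψ r)).1 (nu W (β + 1)) ∧
        ∀ y : W, y.1 ∈ (ra (zap hz Ψ r)).1 → y.1 ∈ Z.1 := by
      intro r hr
      obtain ⟨⟨η, hη, hf, hfs⟩, -⟩ := hΨs r hr
      obtain ⟨η', hη', rfl⟩ := (mem_ordW h).1 hη
      refine ⟨sz_ran h ras _ _ hf (sz_of_lt h hη'), ?_⟩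
      intro y hy
      obtain ⟨x, hx⟩ := (ras _ y).1 hy
      obtain ⟨d, hd, y', e⟩ := hf.1 _ hx
      have e1 := ZFSet.pair_inj.1 e
      have hd' : x.1 ∈ (ordW h η').1 := e1.1 ▸ hd
      have := (hfs x hd').1
      have e3 : zap hz (zap hz Ψ r) x = y := Subtype.ext ((apZ_eq hf hd').2 hx)
      rw [e3] at this
      exact this
    obtain ⟨A, hA, hAs⟩ := hz.unionF (X := W) (a := fun r => ra (zap hz Ψ r))
      (by (repeat' (first | (with_reducible first | exact DFc.id | exact DFc.const _ | exact MD.const _ | apply MD.and | apply MD.or | apply MD.iff | apply MD.not | apply MD.imp | apply MD.ex | apply MD.all | apply MD.zpair_mem hz | apply MD.eq_zpair hz | apply MD.isFn hz | apply MD.isO hz | apply MD.mem | apply MD.eq | apply DFc.zpr hz | apply DFc.zap hz | apply DFc.zun hz | apply DFc.zsg hz | apply DFc.zsU hz | apply DFc.ztr hz | apply DFc.zup hz | apply DFc.zpd hz) | (with_reducible first | exact hra | apply hra | apply MD.comp2 hra | apply DFc.comp2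 hra | apply MD.comp3 hra | apply DFc.comp3 hra | apply MD.comp hra | apply DFc.comp hra) | (with_reducible apply DFc.fst) | (with_reducible apply DFc.snd) | (with_reducible apply DFc.mk)))) (F := fun _ y => dm (U y)) (by (repeat' (first | (with_reducible first | exact DFc.id | exact DFc.const _ | exact MD.const _ | apply MD.and | apply MD.or | apply MD.iff | apply MD.not | apply MD.imp | apply MD.ex | apply MD.all | apply MD.zpair_mem hz | apply MD.eq_zpair hz | apply MD.isFn hz | apply MD.isO hz | apply MD.mem | apply MD.eq | apply DFc.zpr hz | apply DFc.zap hz | apply DFc.zun hz | apply DFc.zsg hz | apply DFc.zsU hz | apply DFc.ztr hz | apply DFc.zup hz | apply DFc.zpd hz) | (with_reducible first | exact hdm | apply hdm | apply MD.comp2 hdm | apply DFc.comp2 hdm | apply MD.comp3 hdm | apply DFc.comp3 hdm | apply MD.comp hdm | apply DFc.comp hdm) | (with_reducible first | exact hU | apply hU | apply MD.comp2 hU | apply DFc.comp2 hU | apply MD.comp3 hU |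 apply DFc.comp3 hU | apply MD.comp hU | apply DFc.comp hU) | (with_reducible apply DFc.fst) | (with_reducible apply DFc.snd) | (with_reducible apply DFc.mk))))
    let Φ : W → W := fun r => zin hz X' (zpd hz (zun hz (A r) (dm r)) (ordW h (nu W (β + 1))))
    have hΦ : DFc W Φ := by
      show DFc W fun r => zin hz X' (zpd hz (zun hz (A r) (dm r)) (ordW h (nu W (β + 1))))
      (repeat' (first | (with_reducible first | exact DFc.id | exact DFc.const _ | exact MD.const _ | apply MD.and | apply MD.or | apply MD.iff | apply MD.not | apply MD.imp | apply MD.ex | apply MD.all | apply MD.zpair_mem hz | apply MD.eq_zpair hz | apply MD.isFn hz | apply MD.isO hz | apply MD.mem | apply MD.eq | apply DFc.zpr hz | apply DFc.zap hz | apply DFc.zun hz | apply DFc.zsg hz | apply DFc.zsU hz | apply DFc.ztr hz | apply DFc.zup hz | apply DFc.zpd hz) | (with_reducible first | exact hA | apply hA | apply MD.comp2 hA | apply DFc.comp2 hA | apply MD.comp3 hA | apply DFc.comp3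 hA | apply MD.comp hA | apply DFc.comp hA) | (with_reducible first | exact hdm | apply hdm | apply MD.comp2 hdm | apply DFc.comp2 hdm | apply MD.comp3 hdm | apply DFc.comp3 hdm | apply MD.comp hdm | apply DFc.comp hdm) | (with_reducible first | exact (DFc.zin hz) | apply (DFc.zin hz) | apply MD.comp2 (DFc.zin hz) | apply DFc.comp2 (DFc.zin hz) | apply MD.comp3 (DFc.zin hz) | apply DFc.comp3 (DFc.zin hz) | apply MD.comp (DFc.zin hz) | apply DFc.comp (DFc.zin hz)) | (with_reducible apply DFc.fst) | (with_reducible apply DFc.snd) | (with_reducible apply DFc.mk)))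
    obtain ⟨S, hSX, hSs, hSc⟩ := hull h hg X' hΦ (by
      intro r hrX hrs
      have hrD : r.1 ∈ D.1 := (hD' r).2 ⟨hrX, hrs⟩
      have e : (Φ r).1 = X'.1 ∩ ((A r).1 ∪ (dm r).1).prod (nu W (β + 1)).toZFSet := rfl
      refine ⟨?_, ?_⟩
      · intro t ht
        rw [e, ZFSet.mem_inter] at ht
        exact ht.1
      · rw [e]
        refine Sz.subset (y := ((A r).1 ∪ (dm r).1).prod (nu W (β + 1)).toZFSet) ?_ ?_
        · refine sz_prod h hcard ?_ (sz_ord h _)
          refine sz_union h hcard (A r).2 (dm r).2 ?_ ?_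
          · refine sz_iUnion h hcard (D := ra (zap hz Ψ r)) (hQ r hrD).1
              (F := fun y => dm (U y)) (by (repeat' (first | (with_reducible first | exact DFc.id | exact DFc.const _ | exact MD.const _ | apply MD.and | apply MD.or | apply MD.iff | apply MD.not | apply MD.imp | apply MD.ex | apply MD.all | apply MD.zpair_mem hz | apply MD.eq_zpair hz | apply MD.isFn hz | apply MD.isO hz | apply MD.mem | apply MD.eq | apply DFc.zpr hz | apply DFc.zap hz | apply DFc.zun hz | apply DFc.zsg hz | apply DFc.zsU hz | apply DFc.ztr hz | apply DFc.zup hz | apply DFc.zpd hz) | (with_reducible first | exact hdm | apply hdm | apply MD.comp2 hdm | apply DFc.comp2 hdm | apply MD.comp3 hdm | apply DFc.comp3 hdm | apply MD.comp hdm | apply DFc.comp hdm) | (with_reducible first | exact hU | apply hU | apply MD.comp2 hU | apply DFc.comp2 hU | apply MD.comp3 hU | apply DFc.comp3 hU | apply MD.comp hU | apply DFc.comp hU) | (with_reducible apply DFc.fst) | (with_reducible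 apply DFc.snd) | (with_reducible apply DFc.mk)))) ?_ ?_
            · intro d hd
              have := (hQ r hrD).2 d hd
              exact (sz_dom h dms _ (h1 d this).2.1).mono h hlt.le
            · intro z hzz
              exact (hAs r ⟨z, h.trans _ (A r).2 _ hzz⟩).1 hzz
          · exact (sz_dom h dms _ hrs).mono h hlt.le
        · intro t ht
          rw [ZFSet.mem_inter] at ht
          exact ht.2)
    obtain ⟨Q, hQs⟩ := hz.sep (fun r => ∀ t : W, t.1 ∈ r.1 → t.1 ∈ S.1) (by (repeat' (first | (with_reducible first | exact DFc.id | exact DFc.const _ | exact MD.const _ | apply MD.and | apply MD.or | apply MD.iff | apply MD.not | apply MD.imp | apply MD.ex | apply MD.all | apply MD.zpair_mem hz | apply MD.eq_zpair hz | apply MD.isFn hz | apply MD.isO hz | apply MD.mem | apply MD.eq | apply DFc.zpr hz | apply DFc.zap hz | apply DFc.zun hz | apply DFc.zsg hz | apply DFc.zsU hz | apply DFc.ztr hz | apply DFc.zup hz | apply DFc.zpd hz) | (with_reducible apply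 DFc.fst) | (with_reducible apply DFc.snd) | (with_reducible apply DFc.mk)))) D
    have hQ' : ∀ r : W, r.1 ∈ Q.1 ↔ r.1 ∈ D.1 ∧ r.1 ⊆ S.1 := by
      intro r
      rw [hQs]
      refine and_congr Iff.rfl ⟨fun H t ht => H ⟨t, h.trans _ r.2 _ ht⟩ ht, fun H t ht => H ht⟩
    have hQsz : Sz W Q.1 (nu W (β + 1)) := by
      refine k1 h hg hSs Q.2 ?_
      intro r hr
      have hrW := h.trans _ Q.2 _ hr
      have := (hQ' ⟨r, hrW⟩).1 hr
      exact ⟨this.2, ((hD' ⟨r, hrW⟩).1 this.1).2⟩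
    refine sz_iUnion h hcard hQsz (F := fun r => ra (zap hz Ψ r)) (by (repeat' (first | (with_reducible first | exact DFc.id | exact DFc.const _ | exact MD.const _ | apply MD.and | apply MD.or | apply MD.iff | apply MD.not | apply MD.imp | apply MD.ex | apply MD.all | apply MD.zpair_mem hz | apply MD.eq_zpair hz | apply MD.isFn hz | apply MD.isO hz | apply MD.mem | apply MD.eq | apply DFc.zpr hz | apply DFc.zap hz | apply DFc.zun hz | apply DFc.zsg hz | apply DFc.zsU hz | apply DFc.ztr hz | apply DFc.zup hz | apply DFc.zpd hz) | (with_reducible first | exact hra | apply hra | apply MD.comp2 hra | apply DFc.comp2 hra | apply MD.comp3 hra | apply DFc.comp3 hra | apply MD.comp hra | apply DFc.comp hra) | (with_reducible apply DFc.fst) | (with_reducible apply DFc.snd) | (with_reducible apply DFc.mk)))) ?_ ?_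
    · intro d hd
      exact (hQ d ((hQ' d).1 hd).1).1
    · intro zs hzs
      by_contra hcon
      push_neg at hcon
      let z : W := ⟨zs, h.trans _ Z.2 _ hzs⟩
      have hzZ : z.1 ∈ Z.1 := hzs
      let r : W := zin hz (U z) S
      have er : r.1 = (U z).1 ∩ S.1 := rfl
      have hrS : r.1 ⊆ S.1 := by
        intro t ht; rw [er, ZFSet.mem_inter] at ht; exact ht.2
      have hrU : r.1 ⊆ (U z).1 := by
        intro t ht; rw [er, ZFSet.mem_inter] at ht; exact ht.1
      have hrs : Sz W r.1 (nu W β) := (h1 z hzZ).2.1.subset hrU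
      have hrX : r.1 ⊆ X'.1 := fun t ht => hSX (hrS ht)
      have hrD : r.1 ∈ D.1 := (hD' r).2 ⟨hrX, hrs⟩
      have hrQ : r.1 ∈ Q.1 := (hQ' r).2 ⟨hrD, hrS⟩
      refine (hΨs r hrD).2 z hzZ ⟨fun t ht => hrU ht, hcon r hrQ, ?_⟩
      intro w hw x hx hx'
      obtain ⟨v, hv⟩ := (dms _ _).1 hx
      have hvX := (h1 z hzZ).2.2 hv
      have hvX2 := ZFSet.pair_mem_prod.1 hvX
      have hmemΦ : ZFSet.pair x.1 v.1 ∈ (Φ r).1 := by
        show ZFSet.pair x.1 v.1 ∈ X'.1 ∩ ((A r).1 ∪ (dm r).1).prod (nu W (β + 1)).toZFSet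
        rw [ZFSet.mem_inter]
        refine ⟨hvX, ZFSet.pair_mem_prod.2 ⟨?_, hvX2.2⟩⟩
        rw [ZFSet.mem_union]
        exact Or.inl ((hAs r x).2 ⟨w, hw, hx'⟩)
      have hS' := hSc r hrS hrs hmemΦ
      refine (dms _ _).2 ⟨v, ?_⟩
      rw [er, ZFSet.mem_inter]
      exact ⟨hv, hS'⟩

end HNF
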