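import Pool.Agent.HNF.Mea2

/-!
HNF CNT: the measure of a clopen set as a number of finite functions (elementary, native).

`Tot κ D t`: `t` is a finite partial function with domain exactly `D`.  `extA κ s F D` is the set of all total functions on `D`
extending `s` and some element of `F`.

PROOFS.
`count_ext`: the set is finite (functions from a finite set to `{0, 1}`; e.g. the map `z ↦ t_z`, `t_z` the set of all
`bitZ j n (z (j, n))` with `pair j n ∈ D`).  The cylinders `cyl t`, `t` total on `D`, are pairwise disjoint, each has measure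
`2⁻¹ ^ n`, `n` the number of elements of `D` (`lam_cyl`; `t` has as many elements as `D`), and `cyl s ∩ opn F` is the union of the
`cyl t` with `t ∈ extA κ s F D`: for a point `z` let `t_z` be as above; `z ∈ cyl s` iff `s ⊆ t_z`, `z ∈ cyl e` iff `e ⊆ t_z` (the
coordinates of `s` and `e` are in `D`).  `measure_biUnion_finset`.
`pos_iff`: let `x = lam (cyl s ∩ opn b)`, `y = lam (cyl s)`, `0 < y ≤ 1` (`lam_cyl`).  `x` is the supremum of `lam (cyl s ∩ opn F)` over the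
finite `F ⊆ b` (if `b` is infinite enumerate it as `e_0, e_1, ...`; `opn b` is the increasing union of the
`opn {e_0, .., e_{m-1}}`; `tendsto_measure_iUnion_atTop`; finite subsets of `b` as sets: `ZFSet.sep`).  (→) if `2 x < y` choose `k`
with `2 x + 2⁻¹ ^ k * y ≤ y` (`2⁻¹ ^ k → 0`), and use `lam (cyl s ∩ opn F) ≤ x`.  (←) taking the supremum,
`2 x + 2⁻¹ ^ k * y ≤ y`, and `2⁻¹ ^ k * y > 0`, all finite.
-/

namespace HNF

open RMK Set MeasureTheory

variable {κ : Ordinal.{0}}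

/-- `t` is a function from `D` to `{0, 1}` -/
def Tot (κ : Ordinal.{0}) (D t : ZFSet.{0}) : Prop :=
  FinP κ t ∧ ∀ x, x ∈ D ↔ ∃ y, ZFSet.pair x y ∈ t

/-- `D` is a finite set of coordinates -/
structure FinD (κ : Ordinal.{0}) (D : ZFSet.{0}) : Prop where
  fin : {x : ZFSet.{0} | x ∈ D}.Finite
  form : ∀ x ∈ D, ∃ j < κ, ∃ n : ℕ, x = ZFSet.pair j.toZFSet (natZ n)

/-- the coordinates of `s` are in `D` -/
def InD (D s : ZFSet.{0}) : Prop := ∀ x y, ZFSet.pair x y ∈ s → x ∈ D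

/-- the total functions on `D` extending `s` and some element of `F` -/
def extA (κ : Ordinal.{0}) (s F D : ZFSet.{0}) : Set ZFSet.{0} :=
  {t | Tot κ D t ∧ s ⊆ t ∧ ∃ e ∈ F, e ⊆ t}

/-- a finite set of sets is the extension of a set -/
private theorem cnt_zf {A : Set ZFSet.{0}} (hA : A.Finite) :
    ∃ t : ZFSet.{0}, ∀ x, x ∈ t ↔ x ∈ A := by
  induction A, hA using Set.Finite.induction_on with
  | empty => exact ⟨∅, fun x => by simp⟩
  | @insert a A _ _ ih =>
    obtain ⟨t, ht⟩ := ih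
    exact ⟨insert a t, fun x => by simp [ht]⟩

private theorem crdf_inj : Function.Injective fun c : Ordinal.{0} × ℕ =>
    ZFSet.pair c.1.toZFSet (natZ c.2) := by
  rintro ⟨j, n⟩ ⟨j', n'⟩ h
  have h2 := ZFSet.pair_injective h
  exact Prod.ext (Ordinal.toZFSet_injective h2.1) (natZ_inj.1 h2.2)

private theorem crd_finD {D : ZFSet.{0}} (hD : FinD κ D) :
    {c : Ordinal.{0} × ℕ | ZFSet.pair c.1.toZFSet (natZ c.2) ∈ D}.Finite :=
  Set.Finite.preimage (f := fun c : Ordinal.{0} × ℕ => ZFSet.pair c.1.toZFSet (natZ c.2))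
    crdf_inj.injOn hD.fin

private theorem bitz_inj (z : Pt) : Function.Injective fun c : Ordinal.{0} × ℕ =>
    bitZ c.1 c.2 (z c) := by
  rintro ⟨j, n⟩ ⟨j', n'⟩ h
  obtain ⟨h1, h2, -⟩ := bitZ_inj.1 h
  exact Prod.ext h1 h2

private theorem exists_T {D : ZFSet.{0}} (hD : FinD κ D) : ∃ T : Pt → ZFSet.{0}, ∀ z x, x ∈ T z ↔
    ∃ j n, ZFSet.pair (Ordinal.toZFSet j) (natZ n) ∈ D ∧ x = bitZ j n (z (j, n)) := by
  have h : ∀ z : Pt, ∃ t : ZFSet.{0}, ∀ x, x ∈ t ↔
      ∃ j n, ZFSet.pair (Ordinal.toZFSet j) (natZ n) ∈ D ∧ x = bitZ j n (z (j, n)) := by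
    intro z
    obtain ⟨t, ht⟩ := cnt_zf ((crd_finD hD).image fun c : Ordinal.{0} × ℕ => bitZ c.1 c.2 (z c))
    refine ⟨t, fun x => (ht x).trans ?_⟩
    constructor
    · rintro ⟨c, hc, rfl⟩
      exact ⟨c.1, c.2, hc, rfl⟩
    · rintro ⟨j, n, hjn, rfl⟩
      exact ⟨(j, n), hjn, rfl⟩
  choose T hT using h
  exact ⟨T, hT⟩

private theorem T_tot {D : ZFSet.{0}} (hD : FinD κ D) {z : Pt} {t : ZFSet.{0}}
    (ht : ∀ x, x ∈ t ↔
      ∃ j n, ZFSet.pair (Ordinal.toZFSet j) (natZ n) ∈ D ∧ x = bitZ j n (z (j, n))) :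
    Tot κ D t := by
  refine ⟨⟨?_, ?_, ?_⟩, ?_⟩
  · refine ((crd_finD hD).image fun c : Ordinal.{0} × ℕ => bitZ c.1 c.2 (z c)).subset ?_
    intro x hx
    obtain ⟨j, n, hjn, rfl⟩ := (ht x).1 hx
    exact ⟨(j, n), hjn, rfl⟩
  · intro x hx
    obtain ⟨j, n, hjn, rfl⟩ := (ht x).1 hx
    obtain ⟨j', hj', n', e⟩ := hD.form _ hjn
    have h2 := ZFSet.pair_injective e
    have h3 : j = j' := Ordinal.toZFSet_injective h2.1
    exact ⟨j, h3 ▸ hj', n, _, rfl⟩
  · rintro j n ⟨h1, h2⟩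
    obtain ⟨j1, n1, -, e1⟩ := (ht _).1 h1
    obtain ⟨j2, n2, -, e2⟩ := (ht _).1 h2
    obtain ⟨rfl, rfl, h3⟩ := bitZ_inj.1 e1
    obtain ⟨rfl, rfl, h4⟩ := bitZ_inj.1 e2
    rw [← h3] at h4
    cases h4
  · intro x
    constructor
    · intro hx
      obtain ⟨j, -, n, rfl⟩ := hD.form x hx
      exact ⟨natZ (if z (j, n) then 1 else 0), (ht _).2 ⟨j, n, hx, rfl⟩⟩
    · rintro ⟨y, hy⟩
      obtain ⟨j, n, hjn, e⟩ := (ht _).1 hy
      have h2 := ZFSet.pair_injective e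
      rw [h2.1]
      exact hjn

private theorem T_sub {D e : ZFSet.{0}} {z : Pt} {t : ZFSet.{0}}
    (ht : ∀ x, x ∈ t ↔
      ∃ j n, ZFSet.pair (Ordinal.toZFSet j) (natZ n) ∈ D ∧ x = bitZ j n (z (j, n)))
    (he : FinP κ e) (heD : InD D e) : z ∈ cyl e ↔ e ⊆ t := by
  constructor
  · intro hz x hx
    obtain ⟨j, -, n, v, rfl⟩ := he.form x hx
    refine (ht _).2 ⟨j, n, heD _ _ hx, ?_⟩
    rw [hz j n v hx]
  · intro h
    refine cyl_anti h ?_
    intro j n v hv
    obtain ⟨j', n', -, e'⟩ := (ht _).1 hv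
    obtain ⟨rfl, rfl, h3⟩ := bitZ_inj.1 e'
    exact h3.symm

private theorem T_eq {D t' : ZFSet.{0}} {z : Pt} {t : ZFSet.{0}}
    (ht : ∀ x, x ∈ t ↔
      ∃ j n, ZFSet.pair (Ordinal.toZFSet j) (natZ n) ∈ D ∧ x = bitZ j n (z (j, n)))
    (ht' : Tot κ D t') (hz : z ∈ cyl t') : t' = t := by
  have h1 : InD D t' := fun x y hxy => (ht'.2 x).2 ⟨y, hxy⟩
  apply ZFSet.ext
  intro x
  constructor
  · intro hx
    exact (T_sub ht ht'.1 h1).1 hz hx
  · intro hx
    obtain ⟨j, n, hjn, rfl⟩ := (ht _).1 hx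
    obtain ⟨y, hy⟩ := (ht'.2 _).1 hjn
    obtain ⟨j', -, n', v, e⟩ := ht'.1.form _ hy
    have h2 := ZFSet.pair_injective e
    have h3 := ZFSet.pair_injective h2.1
    have h4 : j = j' := Ordinal.toZFSet_injective h3.1
    have h5 : n = n' := natZ_inj.1 h3.2
    subst h4 h5
    rw [e] at hy
    rw [hz j n v hy]
    exact hy

private theorem tot_ncard {D t : ZFSet.{0}} (hD : FinD κ D) {z : Pt}
    (ht : ∀ x, x ∈ t ↔
      ∃ j n, ZFSet.pair (Ordinal.toZFSet j) (natZ n) ∈ D ∧ x = bitZ j n (z (j, n))) :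
    {x : ZFSet.{0} | x ∈ t}.ncard = {x : ZFSet.{0} | x ∈ D}.ncard := by
  have h1 : {x : ZFSet.{0} | x ∈ t} = (fun c : Ordinal.{0} × ℕ => bitZ c.1 c.2 (z c)) ''
      {c : Ordinal.{0} × ℕ | ZFSet.pair c.1.toZFSet (natZ c.2) ∈ D} := by
    ext x
    constructor
    · intro hx
      obtain ⟨j, n, hjn, rfl⟩ := (ht x).1 hx
      exact ⟨(j, n), hjn, rfl⟩
    · rintro ⟨c, hc, rfl⟩
      exact (ht _).2 ⟨c.1, c.2, hc, rfl⟩
  have h2 : {x : ZFSet.{0} | x ∈ D} =
      (fun c : Ordinal.{0} × ℕ => ZFSet.pair c.1.toZFSet (natZ c.2)) ''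
      {c : Ordinal.{0} × ℕ | ZFSet.pair c.1.toZFSet (natZ c.2) ∈ D} := by
    ext x
    constructor
    · intro hx
      obtain ⟨j, -, n, rfl⟩ := hD.form x hx
      exact ⟨(j, n), hx, rfl⟩
    · rintro ⟨c, hc, rfl⟩
      exact hc
  rw [h1, h2, Set.ncard_image_of_injective _ (bitz_inj z),
    Set.ncard_image_of_injective _ crdf_inj]

private theorem tot_fin {D : ZFSet.{0}} (hD : FinD κ D) : {t : ZFSet.{0} | Tot κ D t}.Finite := by
  have hU : ((fun p : (Ordinal.{0} × ℕ) × Bool => bitZ p.1.1 p.1.2 p.2) ''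
      ({c : Ordinal.{0} × ℕ | ZFSet.pair c.1.toZFSet (natZ c.2) ∈ D} ×ˢ Set.univ)).Finite :=
    ((crd_finD hD).prod Set.finite_univ).image _
  have hinj : Function.Injective fun t : ZFSet.{0} => {x : ZFSet.{0} | x ∈ t} := by
    intro t t' h
    apply ZFSet.ext
    intro x
    exact Set.ext_iff.1 h x
  refine (Set.Finite.preimage hinj.injOn hU.finite_subsets).subset ?_
  intro t ht x hx
  obtain ⟨j, -, n, v, rfl⟩ := ht.1.form x hx
  exact ⟨((j, n), v), ⟨(ht.2 _).2 ⟨_, hx⟩, Set.mem_univ _⟩, rfl⟩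

theorem count_ext {s F D : ZFSet.{0}} (hs : FinP κ s) (hF : ∀ e ∈ F, FinP κ e)
    (hD : FinD κ D) (hsD : InD D s) (hFD : ∀ e ∈ F, InD D e) :
    (extA κ s F D).Finite ∧ lam (cyl s ∩ opn F) =
      ((extA κ s F D).ncard : ENNReal) * (2⁻¹ : ENNReal) ^ {x : ZFSet.{0} | x ∈ D}.ncard := by
  have hfin : (extA κ s F D).Finite := (tot_fin hD).subset fun t ht => ht.1
  refine ⟨hfin, ?_⟩
  obtain ⟨T, hT⟩ := exists_T hD
  have hset : cyl s ∩ opn F = ⋃ t ∈ hfin.toFinset, cyl t := by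
    ext z
    simp only [Set.mem_inter_iff, Set.mem_iUnion, Set.Finite.mem_toFinset, exists_prop]
    constructor
    · rintro ⟨h1, h2⟩
      simp only [opn, Set.mem_iUnion, Set.mem_ofPred_eq, exists_prop] at h2
      obtain ⟨e, he, hze⟩ := h2
      have htot := T_tot hD (hT z)
      refine ⟨T z, ⟨htot, (T_sub (hT z) hs hsD).1 h1, e, he,
        (T_sub (hT z) (hF e he) (hFD e he)).1 hze⟩, ?_⟩
      refine (T_sub (hT z) htot.1 fun x y hxy => (htot.2 x).2 ⟨y, hxy⟩).2 fun x hx => hx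
    · rintro ⟨t, ⟨-, hst, e, he, het⟩, hzt⟩
      refine ⟨cyl_anti hst hzt, ?_⟩
      simp only [opn, Set.mem_iUnion, Set.mem_ofPred_eq, exists_prop]
      exact ⟨e, he, cyl_anti het hzt⟩
  have hdisj : (↑hfin.toFinset : Set ZFSet.{0}).PairwiseDisjoint cyl := by
    intro t ht t' ht' hne
    rw [Set.Finite.coe_toFinset] at ht ht'
    rw [Function.onFun, Set.disjoint_left]
    intro z hz hz'
    exact hne ((T_eq (hT z) ht.1 hz).trans (T_eq (hT z) ht'.1 hz').symm)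
  rw [hset, measure_biUnion_finset hdisj fun t ht => meas_cyl
    ((Set.Finite.mem_toFinset hfin).1 ht).1.1]
  have hterm : ∀ t ∈ hfin.toFinset, lam (cyl t) =
      (2⁻¹ : ENNReal) ^ {x : ZFSet.{0} | x ∈ D}.ncard := by
    intro t ht
    have ht' := (Set.Finite.mem_toFinset hfin).1 ht
    obtain ⟨z, hz⟩ := ht'.1.1.cyl_nonempty
    rw [lam_cyl ht'.1.1]
    congr 1
    rw [T_eq (hT z) ht'.1 hz]
    exact tot_ncard hD (hT z)
  rw [Finset.sum_congr rfl hterm, Finset.sum_const, nsmul_eq_mul,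
    Set.ncard_eq_toFinset_card _ hfin]

theorem pos_iff {s b : ZFSet.{0}} (hs : FinP κ s) (hb : ∀ e ∈ b, FinP κ e)
    (hc : {e : ZFSet.{0} | e ∈ b}.Countable) :
    2 * lam (cyl s ∩ opn b) < lam (cyl s) ↔ ∃ k : ℕ, ∀ F, F ⊆ b →
      {e : ZFSet.{0} | e ∈ F}.Finite →
      2 * lam (cyl s ∩ opn F) + (2⁻¹ : ENNReal) ^ k * lam (cyl s) ≤ lam (cyl s) := by
  have hy0 : lam (cyl s) ≠ 0 := by
    rw [lam_cyl hs]
    exact (ENNReal.pow_pos (by simp) _).ne'
  have hy1 : lam (cyl s) ≤ 1 := prob_le_one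
  have hyt : lam (cyl s) ≠ ⊤ := (hy1.trans_lt ENNReal.one_lt_top).ne
  constructor
  · intro h
    have hd : lam (cyl s) - 2 * lam (cyl s ∩ opn b) ≠ 0 := (tsub_pos_iff_lt.2 h).ne'
    obtain ⟨k, hk⟩ := ENNReal.exists_inv_two_pow_lt hd
    refine ⟨k, fun F hF _ => ?_⟩
    have h1 : lam (cyl s ∩ opn F) ≤ lam (cyl s ∩ opn b) :=
      measure_mono (Set.inter_subset_inter_right _ (opn_mono hF))
    have h2 : (2⁻¹ : ENNReal) ^ k * lam (cyl s) ≤ lam (cyl s) - 2 * lam (cyl s ∩ opn b) :=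
      (mul_le_of_le_one_right zero_le hy1).trans hk.le
    calc 2 * lam (cyl s ∩ opn F) + (2⁻¹ : ENNReal) ^ k * lam (cyl s)
        ≤ 2 * lam (cyl s ∩ opn b) + (lam (cyl s) - 2 * lam (cyl s ∩ opn b)) :=
          add_le_add (mul_le_mul_right h1 2) h2
      _ = lam (cyl s) := add_tsub_cancel_of_le h.le
  · rintro ⟨k, hk⟩
    have hc0 : (2⁻¹ : ENNReal) ^ k * lam (cyl s) ≠ 0 :=
      mul_ne_zero (ENNReal.pow_pos (by simp) _).ne' hy0
    have hxt : 2 * lam (cyl s ∩ opn b) ≠ ⊤ :=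
      ENNReal.mul_ne_top (by simp) (measure_ne_top _ _)
    have hle : 2 * lam (cyl s ∩ opn b) + (2⁻¹ : ENNReal) ^ k * lam (cyl s) ≤ lam (cyl s) := by
      rcases Set.eq_empty_or_nonempty {e : ZFSet.{0} | e ∈ b} with hbe | hbn
      · exact hk b (fun x hx => hx) (by rw [hbe]; exact Set.finite_empty)
      · obtain ⟨e, he⟩ := hc.exists_eq_range hbn
        have heb : ∀ i, e i ∈ b := by
          intro i
          have : e i ∈ {e : ZFSet.{0} | e ∈ b} := by
            rw [he]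
            exact ⟨i, rfl⟩
          exact this
        have hopn : cyl s ∩ opn b = ⋃ i, (cyl s ∩ cyl (e i)) := by
          rw [← Set.inter_iUnion]
          congr 1
          unfold opn
          rw [he]
          simp
        have hlim := tendsto_measure_iUnion_accumulate (μ := lam)
          (f := fun i => cyl s ∩ cyl (e i))
        rw [← hopn] at hlim
        have h2 := (ENNReal.Tendsto.const_mul hlim (Or.inr (by simp : (2 : ENNReal) ≠ ⊤))).add
          (tendsto_const_nhds (x := (2⁻¹ : ENNReal) ^ k * lam (cyl s)))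
        refine le_of_tendsto' h2 fun i => ?_
        obtain ⟨F, hF⟩ := cnt_zf ((Set.finite_Iic i).image e)
        have hFb : F ⊆ b := by
          intro x hx
          obtain ⟨l, -, rfl⟩ := (hF x).1 hx
          exact heb l
        have hFf : {x : ZFSet.{0} | x ∈ F}.Finite := by
          have : {x : ZFSet.{0} | x ∈ F} = e '' Set.Iic i := by
            ext x
            exact hF x
          rw [this]
          exact (Set.finite_Iic i).image e
        have hacc : Set.accumulate (fun i => cyl s ∩ cyl (e i)) i = cyl s ∩ opn F := by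
          ext z
          simp only [Set.mem_accumulate, Set.mem_inter_iff, opn, Set.mem_iUnion,
            Set.mem_ofPred_eq, exists_prop]
          constructor
          · rintro ⟨l, hl, h3, h4⟩
            exact ⟨h3, e l, (hF _).2 ⟨l, hl, rfl⟩, h4⟩
          · rintro ⟨h3, x, hx, h4⟩
            obtain ⟨l, hl, rfl⟩ := (hF x).1 hx
            exact ⟨l, hl, h3, h4⟩
        rw [hacc]
        exact hk F hFb hFf
    exact (ENNReal.lt_add_right hxt hc0).trans_le hle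

open Classical in
/-- first coordinate of a pair -/
private noncomputable def cntFst (t : ZFSet.{0}) : ZFSet.{0} :=
  if h : ∃ x y, t = ZFSet.pair x y then h.choose else ∅

private theorem cntFst_pair (x y : ZFSet.{0}) : cntFst (ZFSet.pair x y) = x := by
  have h : ∃ x' y', ZFSet.pair x y = ZFSet.pair x' y' := ⟨x, y, rfl⟩
  unfold cntFst
  rw [dif_pos h]
  obtain ⟨y', hy'⟩ := h.choose_spec
  exact (ZFSet.pair_injective hy').1.symm

/-- there is a finite set of coordinates containing those of `s` and of all elements of `F` -/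
theorem exists_finD {s F : ZFSet.{0}} (hs : FinP κ s) (hF : ∀ e ∈ F, FinP κ e)
    (hf : {e : ZFSet.{0} | e ∈ F}.Finite) :
    ∃ D, FinD κ D ∧ InD D s ∧ ∀ e ∈ F, InD D e := by
  have h1 : ∀ e : ZFSet.{0}, FinP κ e → {x : ZFSet.{0} | ∃ y, ZFSet.pair x y ∈ e}.Finite := by
    intro e he
    refine (he.fin.image cntFst).subset ?_
    rintro x ⟨y, hy⟩
    exact ⟨ZFSet.pair x y, hy, cntFst_pair x y⟩
  have h2 : ∀ e : ZFSet.{0}, FinP κ e → ∀ x y, ZFSet.pair x y ∈ e →
      ∃ j < κ, ∃ n : ℕ, x = ZFSet.pair j.toZFSet (natZ n) := by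
    intro e he x y hxy
    obtain ⟨j, hj, n, v, e1⟩ := he.form _ hxy
    exact ⟨j, hj, n, (ZFSet.pair_injective e1).1⟩
  obtain ⟨D, hD⟩ := cnt_zf ((h1 s hs).union
    (hf.biUnion fun e he => h1 e (hF e he)))
  refine ⟨D, ⟨?_, ?_⟩, ?_, ?_⟩
  · have : {x : ZFSet.{0} | x ∈ D} = _ := Set.ext hD
    rw [this]
    exact (h1 s hs).union (hf.biUnion fun e he => h1 e (hF e he))
  · intro x hx
    rcases (hD x).1 hx with ⟨y, hy⟩ | h
    · exact h2 s hs x y hy
    · simp only [Set.mem_iUnion, Set.mem_ofPred_eq, exists_prop] at h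
      obtain ⟨e, he, y, hy⟩ := h
      exact h2 e (hF e he) x y hy
  · intro x y hxy
    exact (hD x).2 (Or.inl ⟨y, hxy⟩)
  · intro e he x y hxy
    refine (hD x).2 (Or.inr ?_)
    simp only [Set.mem_iUnion, Set.mem_ofPred_eq, exists_prop]
    exact ⟨e, he, y, hxy⟩

end HNF
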