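import Pool.Agent.HNF.Reg

/-!
HNF KK: counting small subsets in `W` under GCH.

PROOFS.
`kk`: let `e ∈ W` be a function on `α` covering `H` (`sz_iff`).  For `r ∈ S` let `r'` be the set of all `ξ < α` with
`zap e ξ ∈ r` and `zap e η ≠ zap e ξ` for all `η < ξ` (a definable function of `r`, `sepF`).  `r'` is in `W`, `Sz r' σ`: it
is the image of `r` under the definable function `z ↦` the least `ξ` with `zap e ξ = z` (`exists_lst`); and
`r = {zap e ξ | ξ ∈ r'}` as `r ⊆ H`.  By `hσ` there is `β < α` with `r' ⊆ β`.  Let `P` be the power set function of `W`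
(`exists_powF`).  By `hp` and `sz_iUnion` with `D = α`, `F β = P β` the union `U` of all `P β`, `β < α` (`unionF`), has
size `α`.  `S` is contained in the image of `U` under the definable function `r' ↦ {zap e ξ | ξ ∈ r'}` (`replF`):
`Sz.image`.
`sz_pow`: let `g ∈ W` be a function on `nu β` covering `x`.  Every `r ∈ S` (`r ⊆ x`) is the image under `g` of the set
`{ξ < nu β | zap g ξ ∈ r}`, an element of the power set of `nu β` in `W`, which has size `nu (β + 1)` by `hg`;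
`Sz.image`.
`k1`: `kk` with `α = nu (β + 1)`, `σ = nu β`; `hσ` is `reg`; `hp`: for `γ < nu (β + 1)`, `Sz γ (nu β)` (`sz_of_lt`) and `sz_pow`.
`k2`: `kk` with `α = kap W`, `σ = ω`; `hσ`: `reg_kap` and `nu β < kap` for `β < nu 1`; `hp`: for `γ < kap` there is
`δ < nu 1` with `γ < nu δ` (`nu_limit`); `Sz γ (nu δ)` (`sz_ord`, `Sz.mono`), `sz_pow` gives size `nu (δ + 1) ≤ kap`, as
`δ + 1 < nu 1` (`isSuccLimit_nu`).
`sz_fn`: a function from `x` to `y` is a subset of `x × y`, which has size `nu β` (`sz_prod`); `sz_pow`.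
-/

namespace HNF

open RMK Set

variable {W : Set ZFSet.{0}}

/-- the generalised continuum hypothesis in `W` -/
abbrev GCHW (W : Set ZFSet.{0}) : Prop :=
  ∀ β y, (∀ z, z ∈ y ↔ z ∈ W ∧ z ⊆ (nu W β).toZFSet) → Sz W y (nu W (β + 1))

private theorem kk_min {Q : Ordinal.{0} → Prop} (hQ : ∃ ξ, Q ξ) :
    ∃ ξ, Q ξ ∧ ∀ η < ξ, ¬ Q η := by
  obtain ⟨ξ, h1, h2⟩ := Ordinal.lt_wf.has_min {ξ | Q ξ} hQ
  exact ⟨ξ, h1, fun η hη hq => h2 η hq hη⟩

private theorem kk_pow (h : InnerZFC W) {F : W → W}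
    (hF : ∀ x z : W, z.1 ∈ (F x).1 ↔ z.1 ⊆ x.1) (x : W) (z : ZFSet.{0}) :
    z ∈ (F x).1 ↔ z ∈ W ∧ z ⊆ x.1 := by
  constructor
  · intro hz
    have h1 : z ∈ W := h.trans _ (F x).2 _ hz
    exact ⟨h1, (hF x ⟨z, h1⟩).1 hz⟩
  · rintro ⟨h1, h2⟩
    exact (hF x ⟨z, h1⟩).2 h2

private theorem kk_ran (h : InnerZFC W) (e : W) : ∃ G : W → W, DFc W G ∧
    ∀ s z : W, z.1 ∈ (G s).1 ↔ ∃ ξ : W, ξ.1 ∈ s.1 ∧ z = zap h.zf0 e ξ := by
  have hz := h.zf0
  obtain ⟨G, h1, h2⟩ := hz.replF (X := W) (a := fun x => x) DFc.id (F := fun _ y => zap hz e y)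
    (by (repeat' (first | (with_reducible first | exact DFc.id | exact DFc.const _ | exact MD.const _ | apply MD.and | apply MD.or | apply MD.iff | apply MD.not | apply MD.imp | apply MD.ex | apply MD.all | apply MD.zpair_mem hz | apply MD.eq_zpair hz | apply MD.isFn hz | apply MD.isO hz | apply MD.mem | apply MD.eq | apply DFc.zpr hz | apply DFc.zap hz | apply DFc.zun hz | apply DFc.zsg hz | apply DFc.zsU hz | apply DFc.ztr hz | apply DFc.zup hz | apply DFc.zpd hz) | (with_reducible apply DFc.fst) | (with_reducible apply DFc.snd) | (with_reducible apply DFc.mk))))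
  exact ⟨G, h1, h2⟩

theorem kk (h : InnerZFC W) {α σ : Ordinal.{0}} (hα : WCard W α) {H : ZFSet.{0}}
    (hH : Sz W H α)
    (hσ : ∀ r ∈ W, r ⊆ α.toZFSet → Sz W r σ → ∃ β < α, r ⊆ β.toZFSet)
    (hp : ∀ β < α, ∀ y, (∀ z, z ∈ y ↔ z ∈ W ∧ z ⊆ β.toZFSet) → Sz W y α)
    {S : ZFSet.{0}} (hSW : S ∈ W) (hS : ∀ r ∈ S, r ⊆ H ∧ Sz W r σ) : Sz W S α := by
  have hz := h.zf0
  obtain ⟨e, -, he⟩ := (sz_iff h).1 hH
  have heW : ∀ z : W, z.1 ∈ H → ∃ ξ < α, zap hz e (ordW h ξ) = z := by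
    intro z hzH
    obtain ⟨ξ, h1, h2⟩ := he z.1 hzH
    exact ⟨ξ, h1, Subtype.ext h2⟩
  obtain ⟨F, hF, hFm⟩ := hz.sepF (X := W) (a := fun _ => ordW h α) (by (repeat' (first | (with_reducible first | exact DFc.id | exact DFc.const _ | exact MD.const _ | apply MD.and | apply MD.or | apply MD.iff | apply MD.not | apply MD.imp | apply MD.ex | apply MD.all | apply MD.zpair_mem hz | apply MD.eq_zpair hz | apply MD.isFn hz | apply MD.isO hz | apply MD.mem | apply MD.eq | apply DFc.zpr hz | apply DFc.zap hz | apply DFc.zun hz | apply DFc.zsg hz | apply DFc.zsU hz | apply DFc.ztr hz | apply DFc.zup hz | apply DFc.zpd hz) | (with_reducible apply DFc.fst) | (with_reducible apply DFc.snd) | (with_reducible apply DFc.mk))))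
    (P := fun r ξ => (zap hz e ξ).1 ∈ r.1 ∧ ∀ η : W, η.1 ∈ ξ.1 → zap hz e η ≠ zap hz e ξ)
    (by (repeat' (first | (with_reducible first | exact DFc.id | exact DFc.const _ | exact MD.const _ | apply MD.and | apply MD.or | apply MD.iff | apply MD.not | apply MD.imp | apply MD.ex | apply MD.all | apply MD.zpair_mem hz | apply MD.eq_zpair hz | apply MD.isFn hz | apply MD.isO hz | apply MD.mem | apply MD.eq | apply DFc.zpr hz | apply DFc.zap hz | apply DFc.zun hz | apply DFc.zsg hz | apply DFc.zsU hz | apply DFc.ztr hz | apply DFc.zup hz | apply DFc.zpd hz) | (with_reducible apply DFc.fst) | (with_reducible apply DFc.snd) | (with_reducible apply DFc.mk))))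
  obtain ⟨G, hG, hGm⟩ := kk_ran h e
  obtain ⟨Pw, hPw, hPm⟩ := exists_powF h
  obtain ⟨L, hL, hLm⟩ := exists_lst (X := W) h (P := fun z ξ => zap hz e ξ = z) (by (repeat' (first | (with_reducible first | exact DFc.id | exact DFc.const _ | exact MD.const _ | apply MD.and | apply MD.or | apply MD.iff | apply MD.not | apply MD.imp | apply MD.ex | apply MD.all | apply MD.zpair_mem hz | apply MD.eq_zpair hz | apply MD.isFn hz | apply MD.isO hz | apply MD.mem | apply MD.eq | apply DFc.zpr hz | apply DFc.zap hz | apply DFc.zun hz | apply DFc.zsg hz | apply DFc.zsU hz | apply DFc.ztr hz | apply DFc.zup hz | apply DFc.zpd hz) | (with_reducible apply DFc.fst) | (with_reducible apply DFc.snd) | (with_reducible apply DFc.mk))))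
  obtain ⟨Uf, -, hUm⟩ := hz.unionF (X := W) (a := fun _ => ordW h α) (by (repeat' (first | (with_reducible first | exact DFc.id | exact DFc.const _ | exact MD.const _ | apply MD.and | apply MD.or | apply MD.iff | apply MD.not | apply MD.imp | apply MD.ex | apply MD.all | apply MD.zpair_mem hz | apply MD.eq_zpair hz | apply MD.isFn hz | apply MD.isO hz | apply MD.mem | apply MD.eq | apply DFc.zpr hz | apply DFc.zap hz | apply DFc.zun hz | apply DFc.zsg hz | apply DFc.zsU hz | apply DFc.ztr hz | apply DFc.zup hz | apply DFc.zpd hz) | (with_reducible apply DFc.fst) | (with_reducible apply DFc.snd) | (with_reducible apply DFc.mk))))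
    (F := fun _ β => Pw β) (by (repeat' (first | (with_reducible first | exact DFc.id | exact DFc.const _ | exact MD.const _ | apply MD.and | apply MD.or | apply MD.iff | apply MD.not | apply MD.imp | apply MD.ex | apply MD.all | apply MD.zpair_mem hz | apply MD.eq_zpair hz | apply MD.isFn hz | apply MD.isO hz | apply MD.mem | apply MD.eq | apply DFc.zpr hz | apply DFc.zap hz | apply DFc.zun hz | apply DFc.zsg hz | apply DFc.zsU hz | apply DFc.ztr hz | apply DFc.zup hz | apply DFc.zpd hz) | (with_reducible first | exact hPw | apply hPw | apply MD.comp2 hPw | apply DFc.comp2 hPw | apply MD.comp3 hPw | apply DFc.comp3 hPw | apply MD.comp hPw | apply DFc.comp hPw) | (with_reducible apply DFc.fst) | (with_reducible apply DFc.snd) | (with_reducible apply DFc.mk))))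
  set U : W := Uf (ordW h 0) with hU
  have hUs : Sz W U.1 α := by
    refine sz_iUnion h hα (D := ordW h α) (sz_ord h α) hPw ?_ ?_
    · intro d hd
      obtain ⟨β, hβ, rfl⟩ := (mem_ordW h).1 hd
      exact hp β hβ _ (kk_pow h hPm (ordW h β))
    · intro z hzU
      have hzW : z ∈ W := h.trans _ U.2 _ hzU
      exact (hUm (ordW h 0) ⟨z, hzW⟩).1 hzU
  refine Sz.image h hUs hG ?_
  intro r hr
  have hrW : r ∈ W := h.trans _ hSW _ hr
  obtain ⟨hrH, hrs⟩ := hS r hr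
  have hmem : ∀ ξ : Ordinal.{0}, (ordW h ξ).1 ∈ (F ⟨r, hrW⟩).1 ↔ ξ < α ∧
      (zap hz e (ordW h ξ)).1 ∈ r ∧ ∀ η < ξ, zap hz e (ordW h η) ≠ zap hz e (ordW h ξ) := by
    intro ξ
    rw [hFm]
    have h1 : (ordW h ξ).1 ∈ (ordW h α).1 ↔ ξ < α := by
      rw [mem_ordW]
      constructor
      · rintro ⟨η, hη, h2⟩
        have h3 : ξ.toZFSet = η.toZFSet := congrArg Subtype.val h2
        rw [Ordinal.toZFSet_injective h3]
        exact hη
      · intro h2
        exact ⟨ξ, h2, rfl⟩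
    rw [h1]
    refine and_congr_right fun _ => and_congr_right fun _ => ?_
    constructor
    · intro h2 η hη
      exact h2 (ordW h η) ((mem_ordW h).2 ⟨η, hη, rfl⟩)
    · intro h2 η hη
      obtain ⟨η', h3, rfl⟩ := (mem_ordW h).1 hη
      exact h2 η' h3
  have hFα : ∀ x : W, x.1 ∈ (F ⟨r, hrW⟩).1 → ∃ ξ < α, x = ordW h ξ := by
    intro x hx
    exact (mem_ordW h).1 ((hFm _ _).1 hx).1
  have hsub : (F ⟨r, hrW⟩).1 ⊆ α.toZFSet := by
    intro x hx
    have hxW : x ∈ W := h.trans _ (F ⟨r, hrW⟩).2 _ hx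
    exact ((hFm ⟨r, hrW⟩ ⟨x, hxW⟩).1 hx).1
  have hsz : Sz W (F ⟨r, hrW⟩).1 σ := by
    refine Sz.image h hrs hL ?_
    intro x hx
    have hxW : x ∈ W := h.trans _ (F ⟨r, hrW⟩).2 _ hx
    obtain ⟨ξ, hξ, h1⟩ := hFα ⟨x, hxW⟩ hx
    have h2 : x = (ordW h ξ).1 := congrArg Subtype.val h1
    rw [h2] at hx
    obtain ⟨-, h3, h4⟩ := (hmem ξ).1 hx
    refine ⟨zap hz e (ordW h ξ), h3, ?_⟩
    rw [hLm (zap hz e (ordW h ξ)) ξ rfl h4]
    exact h2
  obtain ⟨β, hβ, hFβ⟩ := hσ _ (F ⟨r, hrW⟩).2 hsub hsz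
  refine ⟨F ⟨r, hrW⟩, ?_, ?_⟩
  · rw [hU, hUm]
    exact ⟨ordW h β, (mem_ordW h).2 ⟨β, hβ, rfl⟩, (hPm (ordW h β) (F ⟨r, hrW⟩)).2 hFβ⟩
  · ext z
    constructor
    · intro hzr
      have hzW : z ∈ W := h.trans _ hrW _ hzr
      obtain ⟨ξ0, -, h0⟩ := heW ⟨z, hzW⟩ (hrH hzr)
      obtain ⟨ξ, h1, h2⟩ := kk_min (Q := fun ξ => ξ < α ∧ zap hz e (ordW h ξ) = ⟨z, hzW⟩)
        (by
          obtain ⟨ξ, h3, h4⟩ := heW ⟨z, hzW⟩ (hrH hzr)
          exact ⟨ξ, h3, h4⟩)
      refine (hGm (F ⟨r, hrW⟩) ⟨z, hzW⟩).2 ⟨ordW h ξ, ?_, h1.2.symm⟩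
      rw [hmem]
      refine ⟨h1.1, ?_, ?_⟩
      · rw [h1.2]
        exact hzr
      · intro η hη h3
        exact h2 η hη ⟨hη.trans h1.1, h3.trans h1.2⟩
    · intro hzG
      have hzW : z ∈ W := h.trans _ (G (F ⟨r, hrW⟩)).2 _ hzG
      obtain ⟨x, hx, h1⟩ := (hGm (F ⟨r, hrW⟩) ⟨z, hzW⟩).1 hzG
      obtain ⟨ξ, hξ, rfl⟩ := hFα x hx
      obtain ⟨-, h3, -⟩ := (hmem ξ).1 hx
      have h4 : z = (zap hz e (ordW h ξ)).1 := congrArg Subtype.val h1
      rw [h4]
      exact h3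

theorem sz_pow (h : InnerZFC W) (hg : GCHW W) {β : Ordinal.{0}} {x S : ZFSet.{0}}
    (hx : Sz W x (nu W β)) (hSW : S ∈ W) (hS : ∀ r ∈ S, r ⊆ x) : Sz W S (nu W (β + 1)) := by
  have hz := h.zf0
  obtain ⟨g, -, hgx⟩ := (sz_iff h).1 hx
  obtain ⟨Pw, hPw, hPm⟩ := exists_powF h
  obtain ⟨G, hG, hGm⟩ := kk_ran h g
  obtain ⟨F, hF, hFm⟩ := hz.sepF (X := W) (a := fun _ => ordW h (nu W β)) (by (repeat' (first | (with_reducible first | exact DFc.id | exact DFc.const _ | exact MD.const _ | apply MD.and | apply MD.or | apply MD.iff | apply MD.not | apply MD.imp | apply MD.ex | apply MD.all | apply MD.zpair_mem hz | apply MD.eq_zpair hz | apply MD.isFn hz | apply MD.isO hz | apply MD.mem | apply MD.eq | apply DFc.zpr hz | apply DFc.zap hz | apply DFc.zun hz | apply DFc.zsg hz | apply DFc.zsU hz | apply DFc.ztr hz | apply DFc.zup hz | apply DFc.zpd hz) | (with_reducible apply DFc.fst) | (with_reducible apply DFc.snd) | (with_reducible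 apply DFc.mk))))
    (P := fun r ξ => (zap hz g ξ).1 ∈ r.1) (by (repeat' (first | (with_reducible first | exact DFc.id | exact DFc.const _ | exact MD.const _ | apply MD.and | apply MD.or | apply MD.iff | apply MD.not | apply MD.imp | apply MD.ex | apply MD.all | apply MD.zpair_mem hz | apply MD.eq_zpair hz | apply MD.isFn hz | apply MD.isO hz | apply MD.mem | apply MD.eq | apply DFc.zpr hz | apply DFc.zap hz | apply DFc.zun hz | apply DFc.zsg hz | apply DFc.zsU hz | apply DFc.ztr hz | apply DFc.zup hz | apply DFc.zpd hz) | (with_reducible apply DFc.fst) | (with_reducible apply DFc.snd) | (with_reducible apply DFc.mk))))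
  have hP : Sz W (Pw (ordW h (nu W β))).1 (nu W (β + 1)) :=
    hg β _ (kk_pow h hPm (ordW h (nu W β)))
  refine Sz.image h hP hG ?_
  intro r hr
  have hrW : r ∈ W := h.trans _ hSW _ hr
  refine ⟨F ⟨r, hrW⟩, ?_, ?_⟩
  · rw [hPm]
    intro y hy
    have hyW : y ∈ W := h.trans _ (F ⟨r, hrW⟩).2 _ hy
    exact ((hFm ⟨r, hrW⟩ ⟨y, hyW⟩).1 hy).1
  · ext z
    constructor
    · intro hzr
      have hzW : z ∈ W := h.trans _ hrW _ hzr
      obtain ⟨ξ, h1, h2⟩ := hgx z (hS r hr hzr)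
      have h3 : (⟨z, hzW⟩ : W) = zap hz g (ordW h ξ) := Subtype.ext h2.symm
      refine (hGm (F ⟨r, hrW⟩) ⟨z, hzW⟩).2 ⟨ordW h ξ, ?_, h3⟩
      rw [hFm]
      refine ⟨(mem_ordW h).2 ⟨ξ, h1, rfl⟩, ?_⟩
      rw [← h3]
      exact hzr
    · intro hzG
      have hzW : z ∈ W := h.trans _ (G (F ⟨r, hrW⟩)).2 _ hzG
      obtain ⟨y, hy, h1⟩ := (hGm (F ⟨r, hrW⟩) ⟨z, hzW⟩).1 hzG
      have h3 := ((hFm _ _).1 hy).2
      have h4 : z = (zap hz g y).1 := congrArg Subtype.val h1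
      rw [h4]
      exact h3

private theorem kk_eq (h : InnerZFC W) {γ : Ordinal.{0}} {y : ZFSet.{0}}
    (hy : ∀ z, z ∈ y ↔ z ∈ W ∧ z ⊆ γ.toZFSet) : y ∈ W := by
  obtain ⟨Pw, hPw, hPm⟩ := exists_powF h
  have h1 : y = (Pw (ordW h γ)).1 := by
    ext z
    rw [hy, kk_pow h hPm (ordW h γ)]
    exact Iff.rfl
  rw [h1]
  exact (Pw (ordW h γ)).2

theorem k1 (h : InnerZFC W) (hg : GCHW W) {β : Ordinal.{0}} {H S : ZFSet.{0}}
    (hH : Sz W H (nu W (β + 1))) (hSW : S ∈ W) (hS : ∀ r ∈ S, r ⊆ H ∧ Sz W r (nu W β)) :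
    Sz W S (nu W (β + 1)) := by
  refine kk h (nu_wcard W (β + 1)) hH (fun r hr hsub hs => reg h hr hs hsub) ?_ hSW hS
  intro γ hγ y hy
  exact sz_pow h hg (sz_of_lt h hγ) (kk_eq h hy) (fun r hr => ((hy r).1 hr).2)

theorem k2 (h : InnerZFC W) (hg : GCHW W) {H S : ZFSet.{0}} (hH : Sz W H (kap W))
    (hSW : S ∈ W) (hS : ∀ r ∈ S, r ⊆ H ∧ Sz W r Ordinal.omega0) : Sz W S (kap W) := by
  refine kk h (nu_wcard W (nu W 1)) hH ?_ ?_ hSW hS
  · intro r hr hsub hs
    obtain ⟨β, hβ, h1⟩ := reg_kap h hr hs hsub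
    exact ⟨nu W β, nu_strictMono W hβ, h1⟩
  · intro γ hγ y hy
    obtain ⟨δ, hδ, h1⟩ := nu_limit (isSuccLimit_nu h 1) hγ
    have h2 : Sz W y (nu W (δ + 1)) :=
      sz_pow h hg (Sz.mono h (sz_ord h γ) h1.le) (kk_eq h hy) (fun r hr => ((hy r).1 hr).2)
    have h3 : δ + 1 < nu W 1 := by
      have := (isSuccLimit_nu h 1).succ_lt hδ
      rwa [Order.succ_eq_add_one] at this
    exact Sz.mono h h2 (nu_strictMono W h3).le

theorem sz_fn (h : InnerZFC W) (hg : GCHW W) {β : Ordinal.{0}} {x y S : ZFSet.{0}}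
    (hx : Sz W x (nu W β)) (hy : Sz W y (nu W β)) (hSW : S ∈ W)
    (hS : ∀ f ∈ S, IsFn f x ∧ ∀ d ∈ x, apZ f d ∈ y) : Sz W S (nu W (β + 1)) := by
  refine sz_pow h hg (sz_prod h (nu_wcard W β) hx hy) hSW ?_
  intro f hf w hw
  obtain ⟨h1, h2⟩ := hS f hf
  obtain ⟨d, hd, v, rfl⟩ := h1.1 w hw
  rw [ZFSet.pair_mem_prod]
  refine ⟨hd, ?_⟩
  rw [← (apZ_eq h1 hd).2 hw]
  exact h2 d hd

end HNF
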