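import Pool.Agent.HNF.Sz1

/-!
HNF PRJ: the coordinates of pairs as operations on `M`.

PROOFS.
`fstZ_pair`: `ZFSet.pair_inj`.  `fstZ_mem`: `fstZ x` is `∅` or `hM.pair_left`.  `DFc.zfst`: the graph is
`(∃ b, x = pair y b) ∨ ((¬ ∃ a b, x = pair a b) ∧ y = ∅)`, quantifiers over `M` (`hM.pair_left`, `hM.pair_right`),
`mdd`.
-/

namespace HNF

open RMK Set

open Classical in
/-- the first coordinate of a pair (`∅` if `x` is not a pair) -/
noncomputable def fstZ (x : ZFSet.{0}) : ZFSet.{0} :=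
  if h : ∃ a b, x = ZFSet.pair a b then h.choose else ∅

open Classical in
/-- the second coordinate of a pair (`∅` if `x` is not a pair) -/
noncomputable def sndZ (x : ZFSet.{0}) : ZFSet.{0} :=
  if h : ∃ b a, x = ZFSet.pair a b then h.choose else ∅

theorem fstZ_pair (a b : ZFSet.{0}) : fstZ (ZFSet.pair a b) = a := by
  have h : ∃ a' b', ZFSet.pair a b = ZFSet.pair a' b' := ⟨a, b, rfl⟩
  unfold fstZ
  rw [dif_pos h]
  obtain ⟨b', hb'⟩ := h.choose_spec
  exact (ZFSet.pair_inj.1 hb').1.symm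

theorem sndZ_pair (a b : ZFSet.{0}) : sndZ (ZFSet.pair a b) = b := by
  have h : ∃ b' a', ZFSet.pair a b = ZFSet.pair a' b' := ⟨b, a, rfl⟩
  unfold sndZ
  rw [dif_pos h]
  obtain ⟨a', ha'⟩ := h.choose_spec
  exact (ZFSet.pair_inj.1 ha').2.symm

theorem fstZ_not {x : ZFSet.{0}} (h : ¬ ∃ a b, x = ZFSet.pair a b) : fstZ x = ∅ := by
  unfold fstZ
  rw [dif_neg h]

theorem sndZ_not {x : ZFSet.{0}} (h : ¬ ∃ a b, x = ZFSet.pair a b) : sndZ x = ∅ := by
  unfold sndZ
  rw [dif_neg]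
  rintro ⟨b, a, hx⟩
  exact h ⟨a, b, hx⟩

variable {M : Set ZFSet.{0}} {X : Type 1} [Ctx M X]

theorem fstZ_mem (hM : ZF0 M) {x : ZFSet.{0}} (hx : x ∈ M) : fstZ x ∈ M := by
  by_cases h : ∃ a b, x = ZFSet.pair a b
  · obtain ⟨a, b, rfl⟩ := h
    rw [fstZ_pair]
    exact hM.pair_left hx
  · rw [fstZ_not h]
    exact hM.empty_mem

theorem sndZ_mem (hM : ZF0 M) {x : ZFSet.{0}} (hx : x ∈ M) : sndZ x ∈ M := by
  by_cases h : ∃ a b, x = ZFSet.pair a b
  · obtain ⟨a, b, rfl⟩ := h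
    rw [sndZ_pair]
    exact hM.pair_right hx
  · rw [sndZ_not h]
    exact hM.empty_mem

/-- first coordinate -/
noncomputable def zfst (hM : ZF0 M) (x : M) : M := ⟨fstZ x.1, fstZ_mem hM x.2⟩

/-- second coordinate -/
noncomputable def zsnd (hM : ZF0 M) (x : M) : M := ⟨sndZ x.1, sndZ_mem hM x.2⟩

theorem eq_zfst (hM : ZF0 M) (x y : M) : ((∃ b : M, x = zpr hM y b) ∨
    ((¬ ∃ a b : M, x = zpr hM a b) ∧ y = (⟨∅, hM.empty_mem⟩ : M))) ↔ y = zfst hM x := by
  by_cases h : ∃ a b, x.1 = ZFSet.pair a b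
  · obtain ⟨a, b, hab⟩ := h
    have hw : ZFSet.pair a b ∈ M := by
      rw [← hab]
      exact x.2
    have hx : x = zpr hM ⟨a, hM.pair_left hw⟩ ⟨b, hM.pair_right hw⟩ := Subtype.ext hab
    have h1 : zfst hM x = ⟨a, hM.pair_left hw⟩ := by
      apply Subtype.ext
      change fstZ x.1 = a
      rw [hab, fstZ_pair]
    rw [h1]
    constructor
    · rintro (⟨b', hb'⟩ | ⟨h2, -⟩)
      · apply Subtype.ext
        have h2 : ZFSet.pair a b = ZFSet.pair y.1 b'.1 := by
          rw [← hab]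
          exact congrArg Subtype.val hb'
        exact (ZFSet.pair_inj.1 h2).1.symm
      · exact absurd ⟨_, _, hx⟩ h2
    · rintro rfl
      exact Or.inl ⟨_, hx⟩
  · have h1 : zfst hM x = ⟨∅, hM.empty_mem⟩ := Subtype.ext (fstZ_not h)
    rw [h1]
    constructor
    · rintro (⟨b', hb'⟩ | ⟨-, h2⟩)
      · exact absurd ⟨_, _, congrArg Subtype.val hb'⟩ h
      · exact h2
    · intro h2
      exact Or.inr ⟨fun ⟨a, b, hab⟩ => h ⟨a.1, b.1, congrArg Subtype.val hab⟩, h2⟩

theorem eq_zsnd (hM : ZF0 M) (x y : M) : ((∃ a : M, x = zpr hM a y) ∨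
    ((¬ ∃ a b : M, x = zpr hM a b) ∧ y = (⟨∅, hM.empty_mem⟩ : M))) ↔ y = zsnd hM x := by
  by_cases h : ∃ a b, x.1 = ZFSet.pair a b
  · obtain ⟨a, b, hab⟩ := h
    have hw : ZFSet.pair a b ∈ M := by
      rw [← hab]
      exact x.2
    have hx : x = zpr hM ⟨a, hM.pair_left hw⟩ ⟨b, hM.pair_right hw⟩ := Subtype.ext hab
    have h1 : zsnd hM x = ⟨b, hM.pair_right hw⟩ := by
      apply Subtype.ext
      change sndZ x.1 = b
      rw [hab, sndZ_pair]
    rw [h1]
    constructor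
    · rintro (⟨a', ha'⟩ | ⟨h2, -⟩)
      · apply Subtype.ext
        have h2 : ZFSet.pair a b = ZFSet.pair a'.1 y.1 := by
          rw [← hab]
          exact congrArg Subtype.val ha'
        exact (ZFSet.pair_inj.1 h2).2.symm
      · exact absurd ⟨_, _, hx⟩ h2
    · rintro rfl
      exact Or.inl ⟨_, hx⟩
  · have h1 : zsnd hM x = ⟨∅, hM.empty_mem⟩ := Subtype.ext (sndZ_not h)
    rw [h1]
    constructor
    · rintro (⟨b', hb'⟩ | ⟨-, h2⟩)
      · exact absurd ⟨_, _, congrArg Subtype.val hb'⟩ h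
      · exact h2
    · intro h2
      exact Or.inr ⟨fun ⟨a, b, hab⟩ => h ⟨a.1, b.1, congrArg Subtype.val hab⟩, h2⟩

theorem DFc.zfst (hM : ZF0 M) {f : X → M} (hf : DFc M f) : DFc M fun x => zfst hM (f x) := by
  apply DFc.of_graph
  refine MD.congr (P := fun p : X × M => (∃ b : M, f p.1 = zpr hM p.2 b) ∨
    ((¬ ∃ a b : M, f p.1 = zpr hM a b) ∧ p.2 = (⟨∅, hM.empty_mem⟩ : M)))
    (fun p => eq_zfst hM _ _) (by (repeat' (first | (with_reducible first | exact DFc.id | exact DFc.const _ | exact MD.const _ | apply MD.and | apply MD.or | apply MD.iff | apply MD.not | apply MD.imp | apply MD.ex | apply MD.all | apply MD.zpair_mem hM | apply MD.eq_zpair hM | apply MD.isFn hM | apply MD.isO hM | apply MD.mem | apply MD.eq | apply DFc.zpr hM | apply DFc.zap hM | apply DFc.zun hM | apply DFc.zsg hM | apply DFc.zsU hM | apply DFc.ztr hM | apply DFc.zup hM | apply DFc.zpd hM) | (with_reducible first | exact hf | apply hf | apply MD.comp2 hf | apply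 DFc.comp2 hf | apply MD.comp3 hf | apply DFc.comp3 hf | apply MD.comp hf | apply DFc.comp hf) | (with_reducible apply DFc.fst) | (with_reducible apply DFc.snd) | (with_reducible apply DFc.mk))))

theorem DFc.zsnd (hM : ZF0 M) {f : X → M} (hf : DFc M f) : DFc M fun x => zsnd hM (f x) := by
  apply DFc.of_graph
  refine MD.congr (P := fun p : X × M => (∃ a : M, f p.1 = zpr hM a p.2) ∨
    ((¬ ∃ a b : M, f p.1 = zpr hM a b) ∧ p.2 = (⟨∅, hM.empty_mem⟩ : M)))
    (fun p => eq_zsnd hM _ _) (by (repeat' (first | (with_reducible first | exact DFc.id | exact DFc.const _ | exact MD.const _ | apply MD.and | apply MD.or | apply MD.iff | apply MD.not | apply MD.imp | apply MD.ex | apply MD.all | apply MD.zpair_mem hM | apply MD.eq_zpair hM | apply MD.isFn hM | apply MD.isO hM | apply MD.mem | apply MD.eq | apply DFc.zpr hM | apply DFc.zap hM | apply DFc.zun hM | apply DFc.zsg hM | apply DFc.zsU hM | apply DFc.ztr hM | apply DFc.zup hM | apply DFc.zpd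 hM) | (with_reducible first | exact hf | apply hf | apply MD.comp2 hf | apply DFc.comp2 hf | apply MD.comp3 hf | apply DFc.comp3 hf | apply MD.comp hf | apply DFc.comp hf) | (with_reducible apply DFc.fst) | (with_reducible apply DFc.snd) | (with_reducible apply DFc.mk))))

theorem zfst_zpr (hM : ZF0 M) (a b : M) : zfst hM (zpr hM a b) = a :=
  Subtype.ext (fstZ_pair _ _)

theorem zsnd_zpr (hM : ZF0 M) (a b : M) : zsnd hM (zpr hM a b) = b :=
  Subtype.ext (sndZ_pair _ _)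

end HNF
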