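import Pool.Agent.HNF.Mea1
import Pool.Agent.HNF.Prj
import Pool.Agent.HNF.Kk

/-!
HNF FIN: the set of all finite partial functions and the set of all (countable) codes of reals, in `W`.

`qd n s b m` is the quadruple `(n, s, b, m)`.  `Cds W a`: `a` is a subset of size `ω` of the set of all quadruples
`(n, s, b, m)`, where `n, m ∈ ω`, `FinP κ s` and `b` is a set of size `ω` of sets `e` with `FinP κ e`.

PROOFS.
`exists_finSet`: `FinP κ s` (`κ = kap W`) holds iff `s ⊆ D := (κ × ω) × 2` (`zpd`), there are `n ∈ ω` with `SzZ W s n`, and for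
no `x` both `pair x 0`, `pair x 1` are in `s`.  (A subset of `D` of size `n` is finite; conversely `sz_finite`; elements of
`FinP` sets are `bitZ j k v = pair (pair j k) (natZ 0 or natZ 1)`; `FinP.mem`.)  So the set of all these `s` is in `W`: separation
from the power set of `D` (`exists_powF`).  Size: `Sz D κ` by `sz_prod` (`κ = nu (nu 1)` is a cardinal of `W`, `ω = nu 0 ≤ κ`),
and every `FinP κ s` is a subset of `D` of size `ω`: `k2`.
`MD.finP`: membership in this set.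
`exists_cdSet`: let `Q` be the set of `exists_finSet`, `QQ` the set of all `b ∈ W`, `b ⊆ Q`, `SzZ W b ω`: size `κ` by `k2`;
`HC = ω × (Q × (QQ × ω))` (`zpd`) has size `κ` (`sz_prod`); let `S` be the set of all `a ∈ W`, `a ⊆ HC`, `SzZ W a ω`: size
`κ` by `k2`.
`exists_enum`: `sz_iff` for `S`.
-/

namespace HNF

open RMK Set

variable {W : Set ZFSet.{0}} {X : Type 1} [Ctx W X]

private theorem sz_nat_finite {s : ZFSet.{0}} {n : ℕ} (hs : Sz W s n) :
    {z : ZFSet.{0} | z ∈ s}.Finite := by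
  classical
  obtain ⟨f, -, h1, h2⟩ := hs
  have h3 : ∀ k : ℕ, k < n → ∃ z, ∀ z', ZFSet.pair ((k : Ordinal.{0}).toZFSet) z' ∈ f → z' = z := by
    intro k hk
    obtain ⟨z, -, hz⟩ := h2 k (by exact_mod_cast hk)
    exact ⟨z, hz⟩
  choose! g hg using h3
  refine ((Set.finite_Iio n).image g).subset ?_
  intro z hz
  obtain ⟨ξ, hξ, hp⟩ := h1 z hz
  obtain ⟨k, rfl⟩ := Ordinal.lt_omega0.1 (hξ.trans (Ordinal.natCast_lt_omega0 n))
  have hk : k < n := by exact_mod_cast hξ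
  exact ⟨k, hk, (hg k hk z hp).symm⟩

private theorem omega_le_kap (W : Set ZFSet.{0}) : Ordinal.omega0 ≤ kap W := omega_le_nu W _

private theorem kap_wcard (W : Set ZFSet.{0}) : WCard W (kap W) := nu_wcard W _

private theorem sz_om (h : InnerZFC W) : Sz W omZ (kap W) :=
  (sz_ord h Ordinal.omega0).mono h (omega_le_kap W)

private theorem mem_T {z : ZFSet.{0}} : z ∈ (({natZ 0} : ZFSet.{0}) ∪ {natZ 1}) ↔
    ∃ v : Bool, z = natZ (if v then 1 else 0) := by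
  rw [ZFSet.mem_union, ZFSet.mem_singleton, ZFSet.mem_singleton]
  constructor
  · rintro (e | e)
    · exact ⟨false, by simpa using e⟩
    · exact ⟨true, by simpa using e⟩
  · rintro ⟨v, e⟩
    cases v
    · left; simpa using e
    · right; simpa using e

theorem exists_finSet (h : InnerZFC W) (hg : GCHW W) :
    ∃ Q : W, (∀ s, s ∈ Q.1 ↔ FinP (kap W) s) ∧ Sz W Q.1 (kap W) := by
  classical
  have hz := h.zf0
  obtain ⟨Pw, hPw, Pws⟩ := exists_powF h
  let T : W := zun hz (zsg hz (znat hz 0)) (zsg hz (znat hz 1))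
  let D : W := zpd hz (zpd hz (ordW h (kap W)) (zom hz)) T
  have eT : T.1 = ({natZ 0} : ZFSet.{0}) ∪ {natZ 1} := rfl
  have eD : D.1 = ((kap W).toZFSet.prod omZ).prod T.1 := rfl
  have hDm : ∀ t, t ∈ D.1 ↔ ∃ j < kap W, ∃ n v, t = bitZ j n v := by
    intro t
    rw [eD, ZFSet.mem_prod]
    constructor
    · rintro ⟨a, ha, b, hb, rfl⟩
      rw [ZFSet.mem_prod] at ha
      obtain ⟨j, hj, k, hk, rfl⟩ := ha
      obtain ⟨j', hj', rfl⟩ := Ordinal.mem_toZFSet_iff.1 hj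
      obtain ⟨n, rfl⟩ := mem_omZ.1 hk
      rw [eT] at hb
      obtain ⟨v, rfl⟩ := mem_T.1 hb
      exact ⟨j', hj', n, v, rfl⟩
    · rintro ⟨j, hj, n, v, rfl⟩
      refine ⟨ZFSet.pair j.toZFSet (natZ n), ?_, natZ (if v then 1 else 0), ?_, rfl⟩
      · rw [ZFSet.mem_prod]
        exact ⟨_, Ordinal.mem_toZFSet_iff.2 ⟨j, hj, rfl⟩, _, natZ_mem_omZ n, rfl⟩
      · rw [eT]; exact mem_T.2 ⟨v, rfl⟩
  obtain ⟨Q, hQ⟩ := hz.sep (fun s => (∃ n : W, n.1 ∈ (zom hz).1 ∧ SzZ W s.1 n.1) ∧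
      ¬ ∃ x : W, ZFSet.pair x.1 (znat hz 0).1 ∈ s.1 ∧ ZFSet.pair x.1 (znat hz 1).1 ∈ s.1)
    (by (repeat' (first | (with_reducible first | exact DFc.id | exact DFc.const _ | exact MD.const _ | apply MD.and | apply MD.or | apply MD.iff | apply MD.not | apply MD.imp | apply MD.ex | apply MD.all | apply MD.zpair_mem hz | apply MD.eq_zpair hz | apply MD.isFn hz | apply MD.isO hz | apply MD.mem | apply MD.eq | apply DFc.zpr hz | apply DFc.zap hz | apply DFc.zun hz | apply DFc.zsg hz | apply DFc.zsU hz | apply DFc.ztr hz | apply DFc.zup hz | apply DFc.zpd hz) | (with_reducible first | exact (MD.szZ h) | apply (MD.szZ h) | apply MD.comp2 (MD.szZ h) | apply DFc.comp2 (MD.szZ h) | apply MD.comp3 (MD.szZ h) | apply DFc.comp3 (MD.szZ h) | apply MD.comp (MD.szZ h) | apply DFc.comp (MD.szZ h)) | (with_reducible apply DFc.fst) | (with_reducible apply DFc.snd) | (with_reducible apply DFc.mk)))) (Pw D)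
  have hQ' : ∀ s, s ∈ Q.1 ↔ FinP (kap W) s := by
    intro s
    constructor
    · intro hs
      have hsW : s ∈ W := h.trans _ Q.2 _ hs
      obtain ⟨h1, ⟨n, hn, hsz⟩, h3⟩ := (hQ ⟨s, hsW⟩).1 hs
      have h1' : s ⊆ D.1 := (Pws D ⟨s, hsW⟩).1 h1
      obtain ⟨k, hk⟩ := mem_omZ.1 (show n.1 ∈ omZ from hn)
      rw [hk] at hsz
      refine ⟨sz_nat_finite (W := W) (n := k) (szZ_iff.1 hsz), fun t ht => (hDm t).1 (h1' ht), ?_⟩
      rintro j m ⟨ha, hb⟩
      apply h3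
      have hpW : ZFSet.pair j.toZFSet (natZ m) ∈ W := hz.pairZ (h.ord j) (hz.natZ_mem m)
      have ha' : ZFSet.pair (ZFSet.pair j.toZFSet (natZ m)) (natZ 1) ∈ s := by
        simpa [bitZ] using ha
      have hb' : ZFSet.pair (ZFSet.pair j.toZFSet (natZ m)) (natZ 0) ∈ s := by
        simpa [bitZ] using hb
      exact ⟨⟨_, hpW⟩, hb', ha'⟩
    · intro hs
      have hsW : s ∈ W := hs.mem h
      refine (hQ ⟨s, hsW⟩).2 ⟨(Pws D ⟨s, hsW⟩).2 (fun t ht => (hDm t).2 (hs.form t ht)), ?_, ?_⟩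
      · obtain ⟨n, hn⟩ := sz_finite h hsW hs.fin
        exact ⟨znat hz n, natZ_mem_omZ n, szZ_iff.2 hn⟩
      · rintro ⟨x, ha, hb⟩
        have ha' : ZFSet.pair x.1 (natZ 0) ∈ s := ha
        have hb' : ZFSet.pair x.1 (natZ 1) ∈ s := hb
        obtain ⟨j, hj, m, v, e⟩ := hs.form _ ha'
        have e1 := (ZFSet.pair_injective e).1
        rw [e1] at ha' hb'
        exact hs.fn j m ⟨by simpa [bitZ] using hb', by simpa [bitZ] using ha'⟩
  refine ⟨Q, hQ', ?_⟩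
  have hT : Sz W T.1 (kap W) := by
    refine (sz_omega_of_finite h T.2 ?_).mono h (omega_le_kap W)
    have : {z : ZFSet.{0} | z ∈ T.1} = {natZ 0, natZ 1} := by
      ext z
      rw [eT]
      simp
    rw [this]
    exact Set.toFinite _
  have hD : Sz W D.1 (kap W) :=
    sz_prod h (kap_wcard W) (sz_prod h (kap_wcard W) (sz_ord h _) (sz_om h)) hT
  refine k2 h hg hD Q.2 ?_
  intro r hr
  have hr' := (hQ' r).1 hr
  exact ⟨fun t ht => (hDm t).2 (hr'.form t ht), sz_omega_of_finite h (hr'.mem h) hr'.fin⟩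

theorem MD.finP (h : InnerZFC W) (hg : GCHW W) {f : X → W} (hf : DFc W f) :
    MD W fun x => FinP (kap W) (f x).1 := by
  obtain ⟨Q, hQ, -⟩ := exists_finSet h hg
  exact (MD.mem hf (DFc.const Q)).congr fun x => (hQ _)

/-- quadruples -/
noncomputable def qd (n s b m : ZFSet.{0}) : ZFSet.{0} := trip n s (ZFSet.pair b m)

/-- codes: countable sets (in `W`) of quadruples `(n, s, b, m)` -/
def Cds (W : Set ZFSet.{0}) (a : ZFSet.{0}) : Prop :=
  a ∈ W ∧ Sz W a Ordinal.omega0 ∧ ∀ w ∈ a, ∃ (n m : ℕ) (s b : ZFSet.{0}),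
    w = qd (natZ n) s b (natZ m) ∧ FinP (kap W) s ∧ b ∈ W ∧ Sz W b Ordinal.omega0 ∧
      ∀ e ∈ b, FinP (kap W) e

/-- the small subsets of a set -/
private theorem small_sub (h : InnerZFC W) (hg : GCHW W) (H : W) (hH : Sz W H.1 (kap W)) :
    ∃ S : W, (∀ a, a ∈ S.1 ↔ a ∈ W ∧ a ⊆ H.1 ∧ Sz W a Ordinal.omega0) ∧ Sz W S.1 (kap W) := by
  have hz := h.zf0
  obtain ⟨Pw, hPw, Pws⟩ := exists_powF h
  obtain ⟨S, hS⟩ := hz.sep (fun s => SzZ W s.1 (zom hz).1) (by (repeat' (first | (with_reducible first | exact DFc.id | exact DFc.const _ | exact MD.const _ | apply MD.and | apply MD.or | apply MD.iff | apply MD.not | apply MD.imp | apply MD.ex | apply MD.all | apply MD.zpair_mem hz | apply MD.eq_zpair hz | apply MD.isFn hz | apply MD.isO hz | apply MD.mem | apply MD.eq | apply DFc.zpr hz | apply DFc.zap hz | apply DFc.zun hz | apply DFc.zsg hz | apply DFc.zsU hz | apply DFc.ztr hz | apply DFc.zup hz | apply DFc.zpd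 hz) | (with_reducible first | exact (MD.szZ h) | apply (MD.szZ h) | apply MD.comp2 (MD.szZ h) | apply DFc.comp2 (MD.szZ h) | apply MD.comp3 (MD.szZ h) | apply DFc.comp3 (MD.szZ h) | apply MD.comp (MD.szZ h) | apply DFc.comp (MD.szZ h)) | (with_reducible apply DFc.fst) | (with_reducible apply DFc.snd) | (with_reducible apply DFc.mk)))) (Pw H)
  have hS' : ∀ a, a ∈ S.1 ↔ a ∈ W ∧ a ⊆ H.1 ∧ Sz W a Ordinal.omega0 := by
    intro a
    constructor
    · intro ha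
      have haW := h.trans _ S.2 _ ha
      have := (hS ⟨a, haW⟩).1 ha
      exact ⟨haW, (Pws H ⟨a, haW⟩).1 this.1, szZ_iff.1 this.2⟩
    · rintro ⟨haW, h1, h2⟩
      exact (hS ⟨a, haW⟩).2 ⟨(Pws H ⟨a, haW⟩).2 h1, szZ_iff.2 h2⟩
  refine ⟨S, hS', k2 h hg hH S.2 ?_⟩
  intro r hr
  exact ((hS' r).1 hr).2

theorem exists_cdSet (h : InnerZFC W) (hg : GCHW W) :
    ∃ S : W, (∀ a, a ∈ S.1 ↔ Cds W a) ∧ Sz W S.1 (kap W) := by
  have hz := h.zf0
  obtain ⟨Q, hQ, hQs⟩ := exists_finSet h hg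
  obtain ⟨QQ, hQQ, hQQs⟩ := small_sub h hg Q hQs
  let HC : W := zpd hz (zom hz) (zpd hz Q (zpd hz QQ (zom hz)))
  have eHC : HC.1 = omZ.prod (Q.1.prod (QQ.1.prod omZ)) := rfl
  have hHC : Sz W HC.1 (kap W) :=
    sz_prod h (kap_wcard W) (sz_om h) (sz_prod h (kap_wcard W) hQs
      (sz_prod h (kap_wcard W) hQQs (sz_om h)))
  obtain ⟨S, hS, hSs⟩ := small_sub h hg HC hHC
  refine ⟨S, ?_, hSs⟩
  have hmem : ∀ w, w ∈ HC.1 ↔ ∃ (n m : ℕ) (s b : ZFSet.{0}),
      w = qd (natZ n) s b (natZ m) ∧ FinP (kap W) s ∧ b ∈ W ∧ Sz W b Ordinal.omega0 ∧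
        ∀ e ∈ b, FinP (kap W) e := by
    intro w
    rw [eHC, ZFSet.mem_prod]
    constructor
    · rintro ⟨n, hn, x, hx, rfl⟩
      rw [ZFSet.mem_prod] at hx
      obtain ⟨s, hs, y, hy, rfl⟩ := hx
      rw [ZFSet.mem_prod] at hy
      obtain ⟨b, hb, m, hm, rfl⟩ := hy
      obtain ⟨n', rfl⟩ := mem_omZ.1 hn
      obtain ⟨m', rfl⟩ := mem_omZ.1 hm
      obtain ⟨hbW, hbQ, hbs⟩ := (hQQ b).1 hb
      exact ⟨n', m', s, b, rfl, (hQ s).1 hs, hbW, hbs, fun e he => (hQ e).1 (hbQ he)⟩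
    · rintro ⟨n, m, s, b, rfl, hs, hbW, hbs, hbQ⟩
      refine ⟨natZ n, natZ_mem_omZ n, ZFSet.pair s (ZFSet.pair b (natZ m)), ?_, rfl⟩
      rw [ZFSet.mem_prod]
      refine ⟨s, (hQ s).2 hs, ZFSet.pair b (natZ m), ?_, rfl⟩
      rw [ZFSet.mem_prod]
      exact ⟨b, (hQQ b).2 ⟨hbW, fun e he => (hQ e).2 (hbQ e he), hbs⟩, natZ m, natZ_mem_omZ m, rfl⟩
  intro a
  rw [hS]
  constructor
  · rintro ⟨haW, h1, h2⟩
    exact ⟨haW, h2, fun w hw => (hmem w).1 (h1 hw)⟩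
  · rintro ⟨haW, h1, h2⟩
    exact ⟨haW, fun w hw => (hmem w).2 (h2 w hw), h1⟩

theorem exists_enum (h : InnerZFC W) (hg : GCHW W) : ∃ e : W, IsFn e.1 (kap W).toZFSet ∧
    ∀ a, Cds W a → ∃ ξ < kap W, apZ e.1 ξ.toZFSet = a := by
  obtain ⟨S, hS, hSs⟩ := exists_cdSet h hg
  obtain ⟨f, hf, hfs⟩ := (sz_iff h).1 hSs
  exact ⟨f, hf, fun a ha => hfs a ((hS a).2 ha)⟩

end HNF
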