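import Pool.Agent.HNF.Mea2

/-!
HNF MEA4: the Borel-Cantelli estimate.

Let `(s i, b i)`, `i ∈ ι` (`ι` countable) be pairs with `2 * lam (cyl (s i) ∩ opn (b i)) < lam (cyl (s i))`; let `K i =
cyl (s i) \ opn (b i)`; suppose `lam (K i ∩ K i') = 0` for `i ≠ i'` with `n i = n i'`; let `j` be an ordinal which does not
occur in any `s i`, and let `e i = s i ∪ blk j (σ i) (n i)`.  Then the union of the `cyl (e i)` with `n i ≥ N` has small
measure if `N` is large.

PROOF.  `lam (cyl (e i)) = lam (cyl (s i)) * 2⁻¹ ^ n i ≤ 2 * lam (K i) * 2⁻¹ ^ n i` (`lam_union_blk`; `lam (cyl (s i)) <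
2 * lam (K i)` as in `CondB.pos_diff`).  For each `n`, `Σ_{n i = n} lam (K i) = lam (⋃ K i) ≤ 1`
(`measure_iUnion₀`, `AEDisjoint`, countable).  So `Σ_{n i ≥ N} lam (cyl (e i)) ≤ Σ_{n ≥ N} 2 * 2⁻¹ ^ n = 4 * 2⁻¹ ^ N`
(`ENNReal.tsum` over `ι` grouped by the value of `n i`: `tsum` over the sigma type / fibres, `ENNReal.tsum_geometric`),
which is less than `ε` for large `N`.
-/

namespace HNF

open RMK Set MeasureTheory

variable {κ : Ordinal.{0}}

private theorem tsum_level_le {ι : Type 1} [Countable ι] (K : ι → Set Pt) (n : ι → ℕ)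
    (hK : ∀ i, MeasurableSet (K i))
    (hdis : ∀ i i', i ≠ i' → n i = n i' → lam (K i ∩ K i') = 0) (m : ℕ) :
    ∑' i, (if n i = m then lam (K i) else 0) ≤ 1 := by
  have h1 : ∀ i, (if n i = m then lam (K i) else 0) = lam (if n i = m then K i else ∅) := by
    intro i
    split_ifs
    · rfl
    · simp
  rw [tsum_congr h1, ← measure_iUnion₀]
  · exact prob_le_one
  · intro i i' hii
    show lam ((if n i = m then K i else ∅) ∩ (if n i' = m then K i' else ∅)) = 0
    by_cases h2 : n i = m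
    · by_cases h3 : n i' = m
      · rw [if_pos h2, if_pos h3]
        exact hdis i i' hii (h2.trans h3.symm)
      · rw [if_neg h3]
        simp
    · rw [if_neg h2]
      simp
  · intro i
    split_ifs
    · exact (hK i).nullMeasurableSet
    · exact MeasurableSet.empty.nullMeasurableSet

theorem borel_cantelli {ι : Type 1} [Countable ι] (s b : ι → ZFSet.{0}) (n : ι → ℕ)
    (σ : ι → ℕ → Bool) (hs : ∀ i, FinP κ (s i)) (hb : ∀ i, ∀ e ∈ b i, FinP κ e)
    (hbc : ∀ i, {e : ZFSet.{0} | e ∈ b i}.Countable)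
    (hpos : ∀ i, 2 * lam (cyl (s i) ∩ opn (b i)) < lam (cyl (s i)))
    (hdis : ∀ i i', i ≠ i' → n i = n i' →
      lam ((cyl (s i) \ opn (b i)) ∩ (cyl (s i') \ opn (b i'))) = 0)
    {j : Ordinal.{0}} (hj : j < κ) (hjs : ∀ i m v, bitZ j m v ∉ s i)
    {ε : ENNReal} (hε : 0 < ε) :
    ∃ N : ℕ, lam (⋃ i ∈ {i | N ≤ n i}, cyl (s i ∪ blk j (σ i) (n i))) < ε := by
  have hfin : ∑' m : ℕ, 2 * (2⁻¹ : ENNReal) ^ m ≠ ⊤ := by
    rw [ENNReal.tsum_mul_left, ENNReal.tsum_geometric, ENNReal.one_sub_inv_two, inv_inv]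
    exact ENNReal.mul_ne_top (by simp) (by simp)
  obtain ⟨N, hN⟩ := ((ENNReal.tendsto_sum_nat_add _ hfin).eventually (gt_mem_nhds hε)).exists
  refine ⟨N, lt_of_le_of_lt ?_ hN⟩
  have hKm : ∀ i, MeasurableSet (cyl (s i) \ opn (b i)) :=
    fun i => (meas_cyl (hs i)).diff (meas_opn (hb i) (hbc i))
  have h2 : ∀ i, lam (cyl (s i)) ≤ 2 * lam (cyl (s i) \ opn (b i)) := by
    intro i
    have h3 : lam (cyl (s i)) ≤ lam (cyl (s i) ∩ opn (b i)) + lam (cyl (s i) \ opn (b i)) := by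
      rw [measure_inter_add_sdiff _ (meas_opn (hb i) (hbc i))]
    have h4 : lam (cyl (s i)) ≠ ⊤ := measure_ne_top _ _
    have h5 : lam (cyl (s i)) + lam (cyl (s i)) ≤
        lam (cyl (s i)) + 2 * lam (cyl (s i) \ opn (b i)) := by
      calc lam (cyl (s i)) + lam (cyl (s i)) = 2 * lam (cyl (s i)) := (two_mul _).symm
        _ ≤ 2 * (lam (cyl (s i) ∩ opn (b i)) + lam (cyl (s i) \ opn (b i))) :=
            mul_le_mul' le_rfl h3
        _ = 2 * lam (cyl (s i) ∩ opn (b i)) + 2 * lam (cyl (s i) \ opn (b i)) := mul_add _ _ _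
        _ ≤ lam (cyl (s i)) + 2 * lam (cyl (s i) \ opn (b i)) :=
            add_le_add (hpos i).le le_rfl
    exact (ENNReal.add_le_add_iff_left h4).mp h5
  have h6 : ∀ i, lam (cyl (s i ∪ blk j (σ i) (n i))) ≤
      2 * (2⁻¹ : ENNReal) ^ (n i) * lam (cyl (s i) \ opn (b i)) := by
    intro i
    rw [lam_union_blk (hs i) hj (hjs i)]
    calc lam (cyl (s i)) * (2⁻¹ : ENNReal) ^ n i
        ≤ (2 * lam (cyl (s i) \ opn (b i))) * (2⁻¹ : ENNReal) ^ n i := mul_le_mul' (h2 i) le_rfl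
      _ = 2 * (2⁻¹ : ENNReal) ^ (n i) * lam (cyl (s i) \ opn (b i)) := by ring
  calc lam (⋃ i ∈ {i | N ≤ n i}, cyl (s i ∪ blk j (σ i) (n i)))
      ≤ ∑' i, lam (⋃ (_ : i ∈ {i | N ≤ n i}), cyl (s i ∪ blk j (σ i) (n i))) :=
        measure_iUnion_le _
    _ ≤ ∑' i, ∑' k : ℕ, (2 * (2⁻¹ : ENNReal) ^ (k + N)) *
          (if n i = k + N then lam (cyl (s i) \ opn (b i)) else 0) := by
        refine ENNReal.tsum_le_tsum fun i => ?_
        by_cases h7 : N ≤ n i
        · have h8 : n i = (n i - N) + N := by omega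
          refine le_trans ?_ (ENNReal.le_tsum (n i - N))
          rw [if_pos h8, ← h8]
          refine le_trans (measure_mono (iUnion_subset fun _ => le_rfl)) (h6 i)
        · have h8 : (⋃ (_ : i ∈ {i | N ≤ n i}), cyl (s i ∪ blk j (σ i) (n i))) = ∅ := by
            simp [h7]
          rw [h8]
          simp
    _ = ∑' k : ℕ, ∑' i, (2 * (2⁻¹ : ENNReal) ^ (k + N)) *
          (if n i = k + N then lam (cyl (s i) \ opn (b i)) else 0) := ENNReal.tsum_comm
    _ ≤ ∑' k : ℕ, 2 * (2⁻¹ : ENNReal) ^ (k + N) := by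
        refine ENNReal.tsum_le_tsum fun k => ?_
        rw [ENNReal.tsum_mul_left]
        calc (2 * (2⁻¹ : ENNReal) ^ (k + N)) *
              ∑' i, (if n i = k + N then lam (cyl (s i) \ opn (b i)) else 0)
            ≤ (2 * (2⁻¹ : ENNReal) ^ (k + N)) * 1 :=
              mul_le_mul' le_rfl (tsum_level_le _ n hKm hdis (k + N))
          _ = 2 * (2⁻¹ : ENNReal) ^ (k + N) := mul_one _

end HNF
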