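import Pool.Agent.HNF.Pai

/-!
HNF UNI: unions of few small sets are small in `W`; pigeonhole principle.

PROOFS.
`sz_iUnion`: by `ac` with `R d f := IsFn f α ∧ ∀ z : W, z ∈ F d → ∃ ξ ∈ α, zap f ξ = z` (`sz_iff`; `α` as the constant
`ordW h α`) there is `Φ ∈ W`, a function on `D`, such that `Φ d` is a function on `α` covering `F d`.  By `sz_prod` the
set `D × α` has size `α`.  `Sz.image` with the definable function `u ↦ zap (zap Φ d) ξ` for `u = pair d ξ` (and `∅` if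
`u` is not a pair) shows that every `x` with `x ⊆ ⋃_{d ∈ D} F d` has size `α`.
`sz_sUnion`: `F = id`.  `sz_union`: `A = {x, y}`, `sz_finite`, `Sz.mono` (`ω ≤ α`).  `sz_insert`: union with a singleton.
`pigeon`: if for every `i ∈ I` the set `Z_i = {z ∈ Z | R i z}` (`∈ W` by separation; as a definable function of `i` by
`sepF`) has size `α`, then `Z = ⋃ Z_i` has size `α` by `sz_iUnion`.
-/

namespace HNF

open RMK Set

variable {W : Set ZFSet.{0}}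

theorem sz_iUnion (h : InnerZFC W) {α : Ordinal.{0}} (hα : WCard W α) {D : W} (hD : Sz W D.1 α)
    {F : W → W} (hF : DFc W F) (hs : ∀ d : W, d.1 ∈ D.1 → Sz W (F d).1 α) {x : ZFSet.{0}}
    (hx : ∀ z ∈ x, ∃ d : W, d.1 ∈ D.1 ∧ z ∈ (F d).1) : Sz W x α := by
  have hz : ZF0 W := h.zf0
  have hR : MD W fun p : W × W => IsFn p.2.1 (ordW h α).1 ∧
      ∀ z : W, z.1 ∈ (F p.1).1 → ∃ ξ : W, ξ.1 ∈ (ordW h α).1 ∧ zap hz p.2 ξ = z := by
    (repeat' (first | (with_reducible first | exact DFc.id | exact DFc.const _ | exact MD.const _ | apply MD.and | apply MD.or | apply MD.iff | apply MD.not | apply MD.imp | apply MD.ex | apply MD.all | apply MD.zpair_mem hz | apply MD.eq_zpair hz | apply MD.isFn hz | apply MD.isO hz | apply MD.mem | apply MD.eq | apply DFc.zpr hz | apply DFc.zap hz | apply DFc.zun hz | apply DFc.zsg hz | apply DFc.zsU hz | apply DFc.ztr hz | apply DFc.zup hz | apply DFc.zpd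 hz) | (with_reducible first | exact hF | apply hF | apply MD.comp2 hF | apply DFc.comp2 hF | apply MD.comp3 hF | apply DFc.comp3 hF | apply MD.comp hF | apply DFc.comp hF) | (with_reducible apply DFc.fst) | (with_reducible apply DFc.snd) | (with_reducible apply DFc.mk)))
  obtain ⟨Φ, hΦ, hΦ2⟩ := ac h D (R := fun d f => IsFn f.1 (ordW h α).1 ∧
      ∀ z : W, z.1 ∈ (F d).1 → ∃ ξ : W, ξ.1 ∈ (ordW h α).1 ∧ zap hz f ξ = z) hR (by
    intro d hd
    obtain ⟨f, hf1, hf2⟩ := (sz_iff h).1 (hs d hd)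
    refine ⟨f, hf1, fun z hz' => ?_⟩
    obtain ⟨ξ, hξ, he⟩ := hf2 z.1 hz'
    exact ⟨ordW h ξ, (mem_ordW h).2 ⟨ξ, hξ, rfl⟩, Subtype.ext he⟩)
  have hp := sz_prod h hα hD (sz_ord h α)
  have hG : DFc W fun u : W => zap hz (zap hz Φ (zfst hz u)) (zsnd hz u) :=
    DFc.zap hz (DFc.zap hz (DFc.const Φ) (DFc.zfst hz DFc.id)) (DFc.zsnd hz DFc.id)
  refine Sz.image h hp hG ?_
  intro z hz'
  obtain ⟨d, hd, hzd⟩ := hx z hz'
  have hzW : z ∈ W := hz.trans _ (F d).2 _ hzd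
  obtain ⟨ξ, hξ, he⟩ := (hΦ2 d hd).2 ⟨z, hzW⟩ hzd
  refine ⟨zpr hz d ξ, ZFSet.pair_mem_prod.2 ⟨hd, hξ⟩, ?_⟩
  rw [zfst_zpr, zsnd_zpr, he]

theorem sz_sUnion (h : InnerZFC W) {α : Ordinal.{0}} (hα : WCard W α) {A : ZFSet.{0}}
    (hA : A ∈ W) (hs : Sz W A α) (ha : ∀ a ∈ A, Sz W a α) : Sz W (ZFSet.sUnion A) α := by
  refine sz_iUnion h hα (D := ⟨A, hA⟩) hs (F := fun x => x) DFc.id (fun d hd => ha d.1 hd) ?_
  intro z hz
  obtain ⟨a, haA, hza⟩ := ZFSet.mem_sUnion.1 hz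
  exact ⟨⟨a, h.trans _ hA _ haA⟩, haA, hza⟩

private theorem finite_sz (h : InnerZFC W) {α : Ordinal.{0}} (hα : WCard W α) {x : ZFSet.{0}}
    (hx : x ∈ W) (hfin : {z : ZFSet.{0} | z ∈ x}.Finite) : Sz W x α :=
  (sz_omega_of_finite h hx hfin).mono h hα.1

theorem sz_union (h : InnerZFC W) {α : Ordinal.{0}} (hα : WCard W α) {x y : ZFSet.{0}}
    (hxW : x ∈ W) (hyW : y ∈ W) (hx : Sz W x α) (hy : Sz W y α) : Sz W (x ∪ y) α := by
  have hA : ({x, y} : ZFSet.{0}) ∈ W := h.pair x hxW y hyW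
  have hfin : {z : ZFSet.{0} | z ∈ ({x, y} : ZFSet.{0})}.Finite := by
    refine (Set.toFinite ({x, y} : Set ZFSet.{0})).subset ?_
    intro z hz
    have hz' : z ∈ ({x, y} : ZFSet.{0}) := hz
    rw [ZFSet.mem_pair] at hz'
    exact hz'
  have h1 := sz_sUnion h hα hA (finite_sz h hα hA hfin) (by
    intro a ha
    rw [ZFSet.mem_pair] at ha
    rcases ha with rfl | rfl
    · exact hx
    · exact hy)
  refine h1.subset ?_
  intro z hz
  rw [ZFSet.mem_union] at hz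
  rw [ZFSet.mem_sUnion]
  rcases hz with hz | hz
  · exact ⟨x, ZFSet.mem_pair.2 (Or.inl rfl), hz⟩
  · exact ⟨y, ZFSet.mem_pair.2 (Or.inr rfl), hz⟩

theorem sz_insert (h : InnerZFC W) {α : Ordinal.{0}} (hα : WCard W α) {x a : ZFSet.{0}}
    (hxW : x ∈ W) (ha : a ∈ W) (hx : Sz W x α) : Sz W (x ∪ {a}) α := by
  have haW : ({a} : ZFSet.{0}) ∈ W := h.zf0.sg ha
  refine sz_union h hα hxW haW hx (finite_sz h hα haW ?_)
  refine (Set.toFinite ({a} : Set ZFSet.{0})).subset ?_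
  intro z hz
  have hz' : z ∈ ({a} : ZFSet.{0}) := hz
  rw [ZFSet.mem_singleton] at hz'
  exact hz'

theorem pigeon (h : InnerZFC W) {α : Ordinal.{0}} (hα : WCard W α) {Z I : W}
    (hZ : ¬ Sz W Z.1 α) (hI : Sz W I.1 α) {R : W → W → Prop}
    (hR : MD W fun p : W × W => R p.1 p.2)
    (hZI : ∀ z : W, z.1 ∈ Z.1 → ∃ i : W, i.1 ∈ I.1 ∧ R i z) :
    ∃ i Y : W, i.1 ∈ I.1 ∧ (∀ z : W, z.1 ∈ Y.1 ↔ z.1 ∈ Z.1 ∧ R i z) ∧ ¬ Sz W Y.1 α := by
  obtain ⟨f, hf, hf2⟩ := h.zf0.sepF (a := fun _ : W => Z) (DFc.const Z) hR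
  by_contra hcon
  push Not at hcon
  refine hZ (sz_iUnion h hα hI hf (fun i hi => hcon i (f i) hi (fun z => hf2 i z)) ?_)
  intro z hz
  have hzW : z ∈ W := h.trans _ Z.2 _ hz
  obtain ⟨i, hi, hR'⟩ := hZI ⟨z, hzW⟩ hz
  exact ⟨i, hi, (hf2 i ⟨z, hzW⟩).2 ⟨hz, hR'⟩⟩

end HNF
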