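import Pool.Agent.HNF.Mea1
import Pool.Agent.HNF.Uni

/-!
HNF MEA2: the extension lemma and compatibility in the measure part of the forcing.

PROOFS.
`exists_ext`: enumerate the countable set of elements of `b` as `e_0, e_1, ...` (if `b` is empty take `t = s`).  Let
`K = cyl s \ opn b` and `K_m = cyl s \ ⋃_{k < m} cyl e_k`; these sets decrease to `K`
(`tendsto_measure_iInter_atTop`), so there is `m` with `lam K_m < 2 * lam K` (as `0 < lam K < ∞`).  Let `D` be the finite set of
the coordinates occurring in `s, e_0, ..., e_{m-1}`.  `K_m` depends only on the coordinates in `D`: it is the disjoint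
union of the cylinders `cyl t`, where `t` ranges over the finitely many codes of functions `τ : D → 2` with `cyl t ⊆ K_m` (for a
point `z` let `t_z` be the set of all `bitZ j n (z (j, n))`, `(j, n) ∈ D`; `z ∈ K_m` iff `cyl t_z ⊆ K_m` since membership of
`z` in `cyl s`, `cyl e_k` depends only on `z ↾ D`).  If `lam (cyl t) ≥ 2 * lam (cyl t ∩ K)` for all these `t` then
`lam K_m = Σ lam (cyl t) ≥ 2 Σ lam (cyl t ∩ K) = 2 lam (K)`, a contradiction.  So some such `t` satisfies
`lam (cyl t) < 2 * lam (cyl t \ opn b)`.  (`K ⊆ K_m`; `cyl t ∩ K = cyl t \ opn b` because `cyl t ⊆ cyl s`.)  Since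
`lam (cyl t ∩ opn b) + lam (cyl t \ opn b) = lam (cyl t) < ∞` this is the claim.  `s ⊆ t` because the coordinates of
`s` are in `D` and `cyl t ⊆ cyl s`.
`CondB.pos_diff`: `lam (cyl s ∩ opn b) < lam (cyl s)`, so the difference has positive measure, indeed
`lam (cyl s) < 2 * lam (cyl s \ opn b)`.
`bc_of_pos`: `(cyl s \ opn b) ∩ (cyl s' \ opn b') = cyl (s ∪ s') \ opn (b ∪ b')`; `s ∪ s'` is a finite partial
function (`FinP.union`), `exists_ext`; `b ∪ b'` is in `W`, has size `ω` (`sz_union` for `ω = nu 0`, `nu_zero`).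
`BC.pos`: the set contains `cyl t \ opn c`.
`condB_empty`: `opn ∅ = ∅`, `lam (cyl ∅) = 1`.
`ext_bit`: one of the two sets `(cyl s \ opn b) ∩ {z (j, n) = v}` has positive measure; it is `cyl (s ∪ {bitZ j n v}) \ opn b`.
-/

namespace HNF

open RMK Set MeasureTheory

variable {W : Set ZFSet.{0}} {κ : Ordinal.{0}}

/-- a finite set of sets is the extension of a set -/
private theorem exists_zf_of_finite {A : Set ZFSet.{0}} (hA : A.Finite) :
    ∃ t : ZFSet.{0}, ∀ x, x ∈ t ↔ x ∈ A := by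
  induction A, hA using Set.Finite.induction_on with
  | empty => exact ⟨∅, fun x => by simp⟩
  | @insert a A _ _ ih =>
    obtain ⟨t, ht⟩ := ih
    exact ⟨insert a t, fun x => by simp [ht]⟩

private theorem exists_code {D : Finset (Ordinal.{0} × ℕ)} (hD : ∀ c ∈ D, c.1 < κ)
    (τ : D → Bool) : ∃ t : ZFSet.{0}, FinP κ t ∧
      (∀ x, x ∈ t ↔ ∃ c : D, x = bitZ c.1.1 c.1.2 (τ c)) ∧
      cyl t = (fun (z : Pt) (c : D) => z c.1) ⁻¹' {τ} := by
  obtain ⟨t, ht⟩ := exists_zf_of_finite (Set.finite_range fun c : D => bitZ c.1.1 c.1.2 (τ c))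
  have ht' : ∀ x, x ∈ t ↔ ∃ c : D, x = bitZ c.1.1 c.1.2 (τ c) := by
    intro x
    rw [ht x, Set.mem_range]
    constructor
    · rintro ⟨c, hc⟩
      exact ⟨c, hc.symm⟩
    · rintro ⟨c, hc⟩
      exact ⟨c, hc.symm⟩
  refine ⟨t, ⟨?_, ?_, ?_⟩, ht', ?_⟩
  · have : {x : ZFSet.{0} | x ∈ t} = Set.range fun c : D => bitZ c.1.1 c.1.2 (τ c) := by
      ext x
      exact ht x
    rw [this]
    exact Set.finite_range _
  · intro x hx
    obtain ⟨c, hc⟩ := (ht' x).1 hx
    exact ⟨c.1.1, hD c.1 c.2, c.1.2, τ c, hc⟩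
  · rintro j n ⟨h1, h2⟩
    obtain ⟨c, hc⟩ := (ht' _).1 h1
    obtain ⟨c', hc'⟩ := (ht' _).1 h2
    obtain ⟨hj, hn, hv⟩ := bitZ_inj.1 hc
    obtain ⟨hj', hn', hv'⟩ := bitZ_inj.1 hc'
    have : c = c' := by
      apply Subtype.ext
      apply Prod.ext
      · rw [← hj, ← hj']
      · rw [← hn, ← hn']
    rw [← this, ← hv] at hv'
    cases hv'
  · ext z
    simp only [Set.mem_preimage, Set.mem_singleton_iff]
    constructor
    · intro hz
      funext c
      exact hz c.1.1 c.1.2 (τ c) ((ht' _).2 ⟨c, rfl⟩)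
    · intro hz j n v hjn
      obtain ⟨c, hc⟩ := (ht' _).1 hjn
      obtain ⟨hj, hn, hv⟩ := bitZ_inj.1 hc
      have := congrFun hz c
      rw [hv, ← this, hj, hn]

/-- the coordinates occurring in a finite partial function -/
private theorem exists_coord {s : ZFSet.{0}} (hs : FinP κ s) :
    ∃ D : Finset (Ordinal.{0} × ℕ), (∀ c ∈ D, c.1 < κ) ∧
      ∀ j n v, bitZ j n v ∈ s → (j, n) ∈ D := by
  have hfin : {c : Ordinal.{0} × ℕ | ∃ v, bitZ c.1 c.2 v ∈ s}.Finite := by
    have h1 : ((fun p : (Ordinal.{0} × ℕ) × Bool => bitZ p.1.1 p.1.2 p.2) ⁻¹'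
        {t : ZFSet.{0} | t ∈ s}).Finite := by
      apply Set.Finite.preimage _ hs.fin
      intro p _ q _ hpq
      obtain ⟨hj, hn, hv⟩ := bitZ_inj.1 hpq
      exact Prod.ext (Prod.ext hj hn) hv
    refine (h1.image Prod.fst).subset ?_
    rintro c ⟨v, hv⟩
    exact ⟨(c, v), hv, rfl⟩
  refine ⟨hfin.toFinset, ?_, ?_⟩
  · intro c hc
    obtain ⟨v, hv⟩ := (Set.Finite.mem_toFinset _).1 hc
    obtain ⟨j, hj, n, v', h'⟩ := hs.form _ hv
    rw [(bitZ_inj.1 h').1]
    exact hj
  · intro j n v hv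
    exact (Set.Finite.mem_toFinset _).2 ⟨v, hv⟩

private theorem exists_coords {e : ℕ → ZFSet.{0}} (he : ∀ k, FinP κ (e k)) (m : ℕ) :
    ∃ D : Finset (Ordinal.{0} × ℕ), (∀ c ∈ D, c.1 < κ) ∧
      ∀ k < m, ∀ j n v, bitZ j n v ∈ e k → (j, n) ∈ D := by
  choose D hD1 hD2 using fun k => exists_coord (he k)
  refine ⟨(Finset.range m).biUnion D, ?_, ?_⟩
  · intro c hc
    obtain ⟨k, _, hk⟩ := Finset.mem_biUnion.1 hc
    exact hD1 k c hk
  · intro k hk j n v hv
    exact Finset.mem_biUnion.2 ⟨k, Finset.mem_range.2 hk, hD2 k j n v hv⟩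

theorem exists_ext {s b : ZFSet.{0}} (hs : FinP κ s) (hb : ∀ e ∈ b, FinP κ e)
    (hc : {e : ZFSet.{0} | e ∈ b}.Countable) (hpos : 0 < lam (cyl s \ opn b)) :
    ∃ t, FinP κ t ∧ s ⊆ t ∧ 2 * lam (cyl t ∩ opn b) < lam (cyl t) := by
  classical
  rcases Set.eq_empty_or_nonempty {e : ZFSet.{0} | e ∈ b} with hbe | hbn
  · refine ⟨s, hs, fun x hx => hx, ?_⟩
    have : opn b = ∅ := by
      unfold opn
      rw [hbe]
      simp
    rw [this] at hpos ⊢
    simpa using hpos
  obtain ⟨e, he⟩ := hc.exists_eq_range hbn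
  have heP : ∀ k, FinP κ (e k) := by
    intro k
    apply hb
    have : e k ∈ {e : ZFSet.{0} | e ∈ b} := by
      rw [he]
      exact ⟨k, rfl⟩
    exact this
  have hopn : opn b = ⋃ k, cyl (e k) := by
    unfold opn
    rw [he]
    simp
  have hmeas : ∀ k, MeasurableSet (cyl (e k)) := fun k => meas_cyl (heP k)
  have hopnm : MeasurableSet (opn b) := meas_opn hb hc
  have hsm : MeasurableSet (cyl s) := meas_cyl hs
  set K : Set Pt := cyl s \ opn b with hK
  set Km : ℕ → Set Pt := fun m => cyl s \ ⋃ k < m, cyl (e k) with hKm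
  have hKmm : ∀ m, MeasurableSet (Km m) := by
    intro m
    apply hsm.diff
    exact MeasurableSet.iUnion fun k => MeasurableSet.iUnion fun _ => hmeas k
  have hKi : ⋂ m, Km m = K := by
    ext z
    simp only [hKm, hK, hopn, Set.mem_iInter, Set.mem_sdiff, Set.mem_iUnion, not_exists]
    constructor
    · intro hz
      refine ⟨(hz 0).1, fun k hk => (hz (k + 1)).2 k (Nat.lt_succ_self k) hk⟩
    · rintro ⟨h1, h2⟩ m
      exact ⟨h1, fun k _ hk => h2 k hk⟩
  have hKanti : Antitone Km := by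
    intro m m' hmm'
    apply Set.sdiff_subset_sdiff_right
    apply Set.iUnion_subset
    intro k
    apply Set.iUnion_subset
    intro hk
    exact Set.subset_iUnion₂ (s := fun k (_ : k < m') => cyl (e k)) k (lt_of_lt_of_le hk hmm')
  have hlim := tendsto_measure_iInter_atTop (μ := lam) (s := Km)
    (fun m => (hKmm m).nullMeasurableSet) hKanti ⟨0, measure_ne_top _ _⟩
  rw [hKi] at hlim
  have hlt : lam K < 2 * lam K := by
    rw [two_mul]
    exact ENNReal.lt_add_right (measure_ne_top _ _) hpos.ne'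
  obtain ⟨m, hm⟩ := (hlim.eventually (gt_mem_nhds hlt)).exists
  simp only [Function.comp] at hm
  obtain ⟨D0, hD01, hD02⟩ := exists_coord hs
  obtain ⟨D1, hD11, hD12⟩ := exists_coords heP m
  set D := D0 ∪ D1 with hD
  have hDκ : ∀ c ∈ D, c.1 < κ := by
    intro c hc
    rcases Finset.mem_union.1 hc with h | h
    · exact hD01 c h
    · exact hD11 c h
  choose t ht1 ht2 ht3 using fun τ : D → Bool => exists_code hDκ τ
  by_contra hcon
  push Not at hcon
  -- for every code: twice the part of K is at most the part of Km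
  have key : ∀ τ : D → Bool, 2 * lam (cyl (t τ) ∩ K) ≤ lam (cyl (t τ) ∩ Km m) := by
    intro τ
    rcases Set.eq_empty_or_nonempty (cyl (t τ) ∩ Km m) with hem | ⟨z, hz1, hz2⟩
    · have : cyl (t τ) ∩ K = ∅ := by
        apply Set.eq_empty_of_subset_empty
        rw [← hem, ← hKi]
        exact Set.inter_subset_inter_right _ (Set.iInter_subset _ m)
      rw [this]
      simp
    · have hsame : ∀ z' ∈ cyl (t τ), ∀ c ∈ D, z' c = z c := by
        intro z' hz' c hc
        have h1 : (fun c : D => z c.1) = τ := by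
          have := hz1
          rw [ht3] at this
          exact this
        have h2 : (fun c : D => z' c.1) = τ := by
          have := hz'
          rw [ht3] at this
          exact this
        have := congrFun (h2.trans h1.symm) ⟨c, hc⟩
        exact this
      have hsub : cyl (t τ) ⊆ Km m := by
        intro z' hz'
        refine ⟨?_, ?_⟩
        · intro j n v hv
          rw [hsame z' hz' (j, n) (Finset.mem_union_left _ (hD02 j n v hv))]
          exact hz2.1 j n v hv
        · intro hmem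
          simp only [Set.mem_iUnion] at hmem
          obtain ⟨k, hk, hzk⟩ := hmem
          apply hz2.2
          simp only [Set.mem_iUnion]
          refine ⟨k, hk, ?_⟩
          intro j n v hv
          rw [← hsame z' hz' (j, n) (Finset.mem_union_right _ (hD12 k hk j n v hv))]
          exact hzk j n v hv
      have hst : s ⊆ t τ := by
        intro x hx
        obtain ⟨j, _, n, v, rfl⟩ := hs.form x hx
        rw [ht2]
        refine ⟨⟨(j, n), Finset.mem_union_left _ (hD02 j n v hx)⟩, ?_⟩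
        have h1 : (fun c : D => z c.1) = τ := by
          have := hz1
          rw [ht3] at this
          exact this
        rw [← h1]
        simp only
        rw [hz2.1 j n v hx]
      have h2 := hcon (t τ) (ht1 τ) hst
      rw [Set.inter_eq_left.2 hsub]
      have h3 : lam (cyl (t τ) ∩ opn b) + lam (cyl (t τ) \ opn b) = lam (cyl (t τ)) :=
        measure_inter_add_sdiff _ hopnm
      have h4 : cyl (t τ) ∩ K = cyl (t τ) \ opn b := by
        rw [hK]
        ext z'
        constructor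
        · rintro ⟨h5, h6, h7⟩
          exact ⟨h5, h7⟩
        · rintro ⟨h5, h6⟩
          exact ⟨h5, cyl_anti hst h5, h6⟩
      rw [h4]
      have hf1 : lam (cyl (t τ) ∩ opn b) ≠ ⊤ := measure_ne_top _ _
      have h5 : lam (cyl (t τ) \ opn b) ≤ lam (cyl (t τ) ∩ opn b) := by
        have h6 : lam (cyl (t τ) ∩ opn b) + lam (cyl (t τ) \ opn b) ≤
            lam (cyl (t τ) ∩ opn b) + lam (cyl (t τ) ∩ opn b) := by
          rw [h3, ← two_mul]
          exact h2
        exact (ENNReal.add_le_add_iff_left hf1).1 h6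
      calc 2 * lam (cyl (t τ) \ opn b)
          = lam (cyl (t τ) \ opn b) + lam (cyl (t τ) \ opn b) := two_mul _
        _ ≤ lam (cyl (t τ) ∩ opn b) + lam (cyl (t τ) \ opn b) := by gcongr
        _ = lam (cyl (t τ)) := h3
  have hfm : Measurable (fun (z : Pt) (c : D) => z c.1) :=
    measurable_pi_lambda _ fun c => measurable_pi_apply _
  have hsum : ∀ A : Set Pt, MeasurableSet A →
      ∑ τ : D → Bool, lam (cyl (t τ) ∩ A) = lam A := by
    intro A hA
    have h1 := sum_measure_preimage_singleton (μ := lam.restrict A)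
      (f := fun (z : Pt) (c : D) => z c.1) (Finset.univ : Finset (D → Bool))
      (fun τ _ => hfm (measurableSet_singleton τ))
    simp only [Finset.coe_univ, Set.preimage_univ, Measure.restrict_apply_univ] at h1
    rw [← h1]
    apply Finset.sum_congr rfl
    intro τ _
    rw [Measure.restrict_apply (hfm (measurableSet_singleton τ)), ht3]
  have hKmeas : MeasurableSet K := hsm.diff hopnm
  have hfinal : 2 * lam K ≤ lam (Km m) := by
    rw [← hsum K hKmeas, ← hsum (Km m) (hKmm m), Finset.mul_sum]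
    exact Finset.sum_le_sum fun τ _ => key τ
  exact absurd hm (not_lt.2 hfinal)

theorem CondB.meas {s b : ZFSet.{0}} (hc : CondB W s b) : MeasurableSet (opn b) :=
  meas_opn hc.sub hc.ctbl.countable

theorem CondB.pos_diff {s b : ZFSet.{0}} (hc : CondB W s b) :
    lam (cyl s) < 2 * lam (cyl s \ opn b) := by
  have h3 : lam (cyl s ∩ opn b) + lam (cyl s \ opn b) = lam (cyl s) :=
    measure_inter_add_sdiff _ hc.meas
  have h1 := hc.pos
  have hf1 : lam (cyl s ∩ opn b) ≠ ⊤ := measure_ne_top _ _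
  have hf2 : lam (cyl s \ opn b) ≠ ⊤ := measure_ne_top _ _
  rw [← h3, two_mul] at h1
  have h2 : lam (cyl s ∩ opn b) < lam (cyl s \ opn b) :=
    (ENNReal.add_lt_add_iff_left hf1).1 h1
  rw [← h3, two_mul]
  exact (ENNReal.add_lt_add_iff_right hf2).2 h2

theorem CondB.pos' {s b : ZFSet.{0}} (hc : CondB W s b) : 0 < lam (cyl s \ opn b) := by
  have h := hc.pos_diff
  rcases eq_or_ne (lam (cyl s \ opn b)) 0 with h0 | h0
  · rw [h0, mul_zero] at h
    exact absurd h not_lt_zero
  · exact pos_iff_ne_zero.2 h0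

/-- the pairs `(s, b)` and `(s', b')` are compatible -/
def BC (W : Set ZFSet.{0}) (s b s' b' : ZFSet.{0}) : Prop :=
  ∃ t c, CondB W t c ∧ s ⊆ t ∧ s' ⊆ t ∧ b ⊆ c ∧ b' ⊆ c

/-- extension of a pair with positive measure to a condition -/
theorem exists_condB {s b : ZFSet.{0}} (hs : FinP (kap W) s) (hbW : b ∈ W)
    (hb : ∀ e ∈ b, FinP (kap W) e) (hc : Sz W b Ordinal.omega0)
    (hpos : 0 < lam (cyl s \ opn b)) : ∃ t, s ⊆ t ∧ CondB W t b := by
  obtain ⟨t, ht, hst, hlt⟩ := exists_ext hs hb hc.countable hpos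
  exact ⟨t, hst, ht, hbW, hb, hc, hlt⟩

theorem bc_of_pos (h : InnerZFC W) {s b s' b' : ZFSet.{0}} (h1 : CondB W s b)
    (h2 : CondB W s' b') (hpos : 0 < lam ((cyl s \ opn b) ∩ (cyl s' \ opn b'))) :
    BC W s b s' b' := by
  have hω : WCard W Ordinal.omega0 := by
    rw [← nu_zero W]
    exact nu_wcard W 0
  have heq : cyl (s ∪ s') \ opn (b ∪ b') = (cyl s \ opn b) ∩ (cyl s' \ opn b') := by
    rw [cyl_union, opn_union]
    ext z
    simp only [Set.mem_sdiff, Set.mem_inter_iff, Set.mem_union]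
    tauto
  have hne : (cyl s ∩ cyl s').Nonempty := by
    obtain ⟨z, hz⟩ := nonempty_of_measure_ne_zero hpos.ne'
    exact ⟨z, hz.1.1, hz.2.1⟩
  have hbb : b ∪ b' ∈ W := by
    have := h.union _ (h.pair b h1.mem b' h2.mem)
    exact this
  obtain ⟨t, hst, hct⟩ := exists_condB (h1.fin.union h2.fin hne) hbb
    (fun e he => by
      rcases ZFSet.mem_union.1 he with he | he
      · exact h1.sub e he
      · exact h2.sub e he)
    (sz_union h hω h1.mem h2.mem h1.ctbl h2.ctbl) (by rw [heq]; exact hpos)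
  refine ⟨t, b ∪ b', hct, ?_, ?_, ?_, ?_⟩
  · intro x hx
    exact hst (ZFSet.mem_union.2 (Or.inl hx))
  · intro x hx
    exact hst (ZFSet.mem_union.2 (Or.inr hx))
  · intro x hx
    exact ZFSet.mem_union.2 (Or.inl hx)
  · intro x hx
    exact ZFSet.mem_union.2 (Or.inr hx)

theorem BC.pos {s b s' b' : ZFSet.{0}} (hbc : BC W s b s' b') :
    0 < lam ((cyl s \ opn b) ∩ (cyl s' \ opn b')) := by
  obtain ⟨t, c, htc, h1, h2, h3, h4⟩ := hbc
  refine lt_of_lt_of_le htc.pos' (measure_mono ?_)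
  rintro z ⟨hz1, hz2⟩
  exact ⟨⟨cyl_anti h1 hz1, fun hz => hz2 (opn_mono h3 hz)⟩,
    ⟨cyl_anti h2 hz1, fun hz => hz2 (opn_mono h4 hz)⟩⟩

private theorem opn_empty : opn ∅ = ∅ := by
  unfold opn
  simp

theorem condB_empty (h : InnerZFC W) : CondB W ∅ ∅ := by
  have hW : (∅ : ZFSet.{0}) ∈ W := (finP_empty (kap W)).mem h
  refine ⟨finP_empty _, hW, ?_, ?_, ?_⟩
  · intro e he
    exact absurd he (ZFSet.notMem_empty e)
  · refine sz_omega_of_finite h hW ?_
    have : {z : ZFSet.{0} | z ∈ (∅ : ZFSet.{0})} = ∅ := by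
      ext z
      simp
    rw [this]
    exact Set.finite_empty
  · rw [opn_empty, cyl_empty]
    simp

private theorem cyl_bit (j : Ordinal.{0}) (n : ℕ) (v : Bool) :
    cyl {bitZ j n v} = {z : Pt | z (j, n) = v} := by
  ext z
  constructor
  · intro hz
    exact hz j n v (ZFSet.mem_singleton.2 rfl)
  · intro hz j' n' v' hm
    obtain ⟨hj, hn, hv⟩ := bitZ_inj.1 (ZFSet.mem_singleton.1 hm)
    rw [hj, hn, hv]
    exact hz

private theorem finP_bit {j : Ordinal.{0}} (hj : j < κ) (n : ℕ) (v : Bool) :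
    FinP κ {bitZ j n v} := by
  refine ⟨?_, ?_, ?_⟩
  · have : {t : ZFSet.{0} | t ∈ ({bitZ j n v} : ZFSet.{0})} = {bitZ j n v} := by
      ext t
      simp
    rw [this]
    exact Set.finite_singleton _
  · intro t ht
    exact ⟨j, hj, n, v, ZFSet.mem_singleton.1 ht⟩
  · rintro j' n' ⟨h1, h2⟩
    have h3 := (bitZ_inj.1 (ZFSet.mem_singleton.1 h1)).2.2
    have h4 := (bitZ_inj.1 (ZFSet.mem_singleton.1 h2)).2.2
    rw [← h4] at h3
    cases h3

/-- extension by a finite function which meets the closed set in positive measure -/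
private theorem CondB.ext_fin {s b e : ZFSet.{0}} (hc : CondB W s b) (he : FinP (kap W) e)
    (hpos : 0 < lam ((cyl s \ opn b) ∩ cyl e)) :
    ∃ t, s ⊆ t ∧ e ⊆ t ∧ CondB W t b := by
  have heq : cyl (s ∪ e) \ opn b = (cyl s \ opn b) ∩ cyl e := by
    rw [cyl_union]
    ext z
    simp only [Set.mem_sdiff, Set.mem_inter_iff]
    tauto
  have hne : (cyl s ∩ cyl e).Nonempty := by
    obtain ⟨z, hz⟩ := nonempty_of_measure_ne_zero hpos.ne'
    exact ⟨z, hz.1.1, hz.2⟩
  obtain ⟨t, hst, hct⟩ := exists_condB (hc.fin.union he hne) hc.mem hc.sub hc.ctbl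
    (by rw [heq]; exact hpos)
  exact ⟨t, fun x hx => hst (ZFSet.mem_union.2 (Or.inl hx)),
    fun x hx => hst (ZFSet.mem_union.2 (Or.inr hx)), hct⟩

theorem CondB.ext_bit {s b : ZFSet.{0}} (hc : CondB W s b) {j : Ordinal.{0}} (hj : j < kap W)
    (n : ℕ) : ∃ t v, s ⊆ t ∧ bitZ j n v ∈ t ∧ CondB W t b := by
  have hcov : cyl s \ opn b ⊆
      ((cyl s \ opn b) ∩ cyl {bitZ j n true}) ∪ ((cyl s \ opn b) ∩ cyl {bitZ j n false}) := by
    intro z hz
    rw [cyl_bit, cyl_bit]
    rcases hb : z (j, n) with _ | _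
    · exact Or.inr ⟨hz, hb⟩
    · exact Or.inl ⟨hz, hb⟩
  have h1 : ∃ v, 0 < lam ((cyl s \ opn b) ∩ cyl {bitZ j n v}) := by
    by_contra hcon
    push Not at hcon
    have ht := hcon true
    have hf := hcon false
    have := (measure_mono hcov).trans (measure_union_le (μ := lam) _ _)
    rw [nonpos_iff_eq_zero.1 ht, nonpos_iff_eq_zero.1 hf, add_zero] at this
    exact absurd hc.pos' (not_lt.2 this)
  obtain ⟨v, hv⟩ := h1
  obtain ⟨t, h2, h3, h4⟩ := hc.ext_fin (finP_bit hj n v) hv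
  exact ⟨t, v, h2, h3 (ZFSet.mem_singleton.2 rfl), h4⟩

/-- a condition can be extended into any open set (given by a set of finite functions) which meets it in a set of
positive measure -/
theorem CondB.ext_opn {s b d : ZFSet.{0}} (hc : CondB W s b) (hd : ∀ e ∈ d, FinP (kap W) e)
    (hdc : {e : ZFSet.{0} | e ∈ d}.Countable) (hpos : 0 < lam ((cyl s \ opn b) ∩ opn d)) :
    ∃ t, ∃ e ∈ d, s ⊆ t ∧ e ⊆ t ∧ CondB W t b := by
  have h1 : ∃ e ∈ d, 0 < lam ((cyl s \ opn b) ∩ cyl e) := by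
    by_contra hcon
    push Not at hcon
    have heq : (cyl s \ opn b) ∩ opn d = ⋃ e ∈ {e : ZFSet.{0} | e ∈ d}, (cyl s \ opn b) ∩ cyl e := by
      unfold opn
      rw [Set.inter_iUnion₂]
    rw [heq] at hpos
    have h0 : lam (⋃ e ∈ {e : ZFSet.{0} | e ∈ d}, (cyl s \ opn b) ∩ cyl e) = 0 := by
      rw [measure_biUnion_null_iff hdc]
      intro e he
      exact nonpos_iff_eq_zero.1 (hcon e he)
    rw [h0] at hpos
    exact lt_irrefl _ hpos
  obtain ⟨e, he, hpe⟩ := h1
  obtain ⟨t, h2, h3, h4⟩ := hc.ext_fin (hd e he) hpe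
  exact ⟨t, e, he, h2, h3, h4⟩

end HNF
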