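import Pool.Agent.HNF.Gen
import Pool.Agent.HNF.Mea2
import Pool.Agent.HNF.Ccp

/-!
HNF LVL: the levels of a condition; unions of conditions.

`pP c`, `pS c`, `pB c` are the coordinates of `c = trip p s b`.  `levLt p δ` is the part of `p` of levels `< δ`, `levGe p δ` the
part of levels `≥ δ`.

PROOFS.
`MD.lev` etc.: `t ∈ lev p β` iff `t ∈ p` and there are ordinals `ξ, i, η` with `t = pair (trip β ξ i) η`; all quantifiers over
`↥W`, `MD.isO`; `zlev` as in `Res.lean` (`DFc.of_graph`).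
`condP_empty`: `sz_finite`/`Sz.mono` (a function on an ordinal covering `∅`).  `CondP.sub`: `Sz.subset`.
`CondP.union`: `lev (p ∪ q) β = lev p β ∪ lev q β`, `sz_union` with `α = nu β` (`nu_wcard`).
`CondP.insert`: `p ∪ {t}`: `lev (p ∪ {t}) β'` is `lev p β'` or `lev p β' ∪ {t}`; `sz_insert`; single-valued because the key is
new.
`sz_levLt`: let `γ < nu 1`.  `levLt p (γ + 1) = ⋃_{β ∈ γ + 1} lev p β`; the index set `γ + 1 < nu 1 = nu (0 + 1)` has
size `nu 0 ≤ nu γ` (`sz_of_lt`, `Sz.mono`), each `lev p β` has size `nu β ≤ nu γ`; `sz_iUnion` with `α = nu γ`, `F β = lev p β`.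
`sz_condP`: `p = ⋃_{β ∈ nu 1} lev p β`, `nu 1 ≤ kap`, `sz_iUnion` with `α = kap`.
`closed_high`: the set `q` of all `t ∈ ⋃ A` (`⋃` of the set of the `p ∈ A`) of level `≥ δ` is in `W` by separation.  It is
single-valued: if `pair x y ∈ levGe p δ`, `pair x y' ∈ levGe p' δ` use `hch`.  For a level `β ≥ δ`, `β < nu 1`:
`lev q β ⊆ ⋃_{p ∈ A} lev p β`, each of size `nu β`, and `A` has size `l ≤ nu β`: `sz_iUnion` with `α = nu β`.  For `β < δ` the
level is empty.
`levLt_union_levGe`: every `t ∈ p` has a level.  `amalg`: `levLt p δ ∪ levGe q δ` is single-valued because the keys of the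
two parts have different levels; then `CondP.union`, `CondP.sub`.
-/

namespace HNF

open RMK Set

variable {W G : Set ZFSet.{0}} {X : Type 1} [Ctx W X]

/-- the first coordinate of `c = trip p s b` -/
noncomputable def pP (c : ZFSet.{0}) : ZFSet.{0} := fstZ c

/-- the second coordinate of `c = trip p s b` -/
noncomputable def pS (c : ZFSet.{0}) : ZFSet.{0} := fstZ (sndZ c)

/-- the third coordinate of `c = trip p s b` -/
noncomputable def pB (c : ZFSet.{0}) : ZFSet.{0} := sndZ (sndZ c)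

theorem pP_trip (p s b : ZFSet.{0}) : pP (trip p s b) = p := fstZ_pair _ _

theorem pS_trip (p s b : ZFSet.{0}) : pS (trip p s b) = s := by
  unfold pS trip
  rw [sndZ_pair, fstZ_pair]

theorem pB_trip (p s b : ZFSet.{0}) : pB (trip p s b) = b := by
  unfold pB trip
  rw [sndZ_pair, sndZ_pair]

theorem Cond.eq {c : ZFSet.{0}} (hc : Cond W c) : c = trip (pP c) (pS c) (pB c) := by
  obtain ⟨p, s, b, rfl, -, -⟩ := hc
  rw [pP_trip, pS_trip, pB_trip]

theorem Cond.cP {c : ZFSet.{0}} (hc : Cond W c) : CondP W (pP c) := by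
  obtain ⟨p, s, b, rfl, h1, -⟩ := hc
  rwa [pP_trip]

theorem Cond.cB {c : ZFSet.{0}} (hc : Cond W c) : CondB W (pS c) (pB c) := by
  obtain ⟨p, s, b, rfl, -, h1⟩ := hc
  rwa [pS_trip, pB_trip]

theorem le_iff {c d : ZFSet.{0}} (hc : Cond W c) (hd : Cond W d) :
    Le c d ↔ pP d ⊆ pP c ∧ pS d ⊆ pS c ∧ pB d ⊆ pB c := by
  obtain ⟨p, s, b, rfl, -, -⟩ := hc
  obtain ⟨p', s', b', rfl, -, -⟩ := hd
  rw [le_trip, pP_trip, pS_trip, pB_trip, pP_trip, pS_trip, pB_trip]

/-- first coordinate of a condition, as an operation on `W` -/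
noncomputable def zP (h : InnerZFC W) (c : W) : W := zfst h.zf0 c

/-- second coordinate of a condition, as an operation on `W` -/
noncomputable def zS (h : InnerZFC W) (c : W) : W := zfst h.zf0 (zsnd h.zf0 c)

/-- third coordinate of a condition, as an operation on `W` -/
noncomputable def zB (h : InnerZFC W) (c : W) : W := zsnd h.zf0 (zsnd h.zf0 c)

theorem DFc.zP (h : InnerZFC W) {f : X → W} (hf : DFc W f) : DFc W fun x => zP h (f x) :=
  DFc.zfst h.zf0 hf

theorem DFc.zS (h : InnerZFC W) {f : X → W} (hf : DFc W f) : DFc W fun x => zS h (f x) :=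
  DFc.zfst h.zf0 (DFc.zsnd h.zf0 hf)

theorem DFc.zB (h : InnerZFC W) {f : X → W} (hf : DFc W f) : DFc W fun x => zB h (f x) :=
  DFc.zsnd h.zf0 (DFc.zsnd h.zf0 hf)

/-- the part of `p` of levels less than `δ` -/
noncomputable def levLt (p : ZFSet.{0}) (δ : Ordinal.{0}) : ZFSet.{0} :=
  ZFSet.sep (fun t => ∃ β ξ i η : Ordinal.{0}, β < δ ∧
    t = ZFSet.pair (trip β.toZFSet ξ.toZFSet i.toZFSet) η.toZFSet) p

/-- the part of `p` of levels at least `δ` -/
noncomputable def levGe (p : ZFSet.{0}) (δ : Ordinal.{0}) : ZFSet.{0} :=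
  ZFSet.sep (fun t => ∃ β ξ i η : Ordinal.{0}, δ ≤ β ∧
    t = ZFSet.pair (trip β.toZFSet ξ.toZFSet i.toZFSet) η.toZFSet) p

/-- `t` is an element of the level `β` -/
private def Ky (t : ZFSet.{0}) (β : Ordinal.{0}) : Prop :=
  ∃ ξ i η : Ordinal.{0}, t = ZFSet.pair (trip β.toZFSet ξ.toZFSet i.toZFSet) η.toZFSet

private theorem tinj40 {a b c a' b' c' : ZFSet.{0}} :
    trip a b c = trip a' b' c' ↔ a = a' ∧ b = b' ∧ c = c' := by
  unfold trip
  rw [ZFSet.pair_inj, ZFSet.pair_inj]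

private theorem Ky.uniq {t : ZFSet.{0}} {β β' : Ordinal.{0}} (h : Ky t β) (h' : Ky t β') :
    β = β' := by
  obtain ⟨ξ, i, η, e⟩ := h
  obtain ⟨ξ', i', η', e'⟩ := h'
  rw [e, ZFSet.pair_inj, tinj40] at e'
  exact Ordinal.toZFSet_injective e'.1.1

private theorem mem_lev40 {p t : ZFSet.{0}} {β : Ordinal.{0}} : t ∈ lev p β ↔ t ∈ p ∧ Ky t β :=
  ZFSet.mem_sep

private theorem mem_lt40 {p t : ZFSet.{0}} {δ : Ordinal.{0}} :
    t ∈ levLt p δ ↔ t ∈ p ∧ ∃ β < δ, Ky t β := by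
  unfold levLt
  rw [ZFSet.mem_sep]
  constructor
  · rintro ⟨h1, β, ξ, i, η, h2, h3⟩
    exact ⟨h1, β, h2, ξ, i, η, h3⟩
  · rintro ⟨h1, β, h2, ξ, i, η, h3⟩
    exact ⟨h1, β, ξ, i, η, h2, h3⟩

private theorem mem_ge40 {p t : ZFSet.{0}} {δ : Ordinal.{0}} :
    t ∈ levGe p δ ↔ t ∈ p ∧ ∃ β, δ ≤ β ∧ Ky t β := by
  unfold levGe
  rw [ZFSet.mem_sep]
  constructor
  · rintro ⟨h1, β, ξ, i, η, h2, h3⟩
    exact ⟨h1, β, h2, ξ, i, η, h3⟩
  · rintro ⟨h1, β, h2, ξ, i, η, h3⟩
    exact ⟨h1, β, ξ, i, η, h2, h3⟩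

/-- `t` has the level `b`, in `W` -/
private def KyW (h : InnerZFC W) (b t : W) : Prop :=
  ∃ x i e : W, IsO b.1 ∧ IsO x.1 ∧ IsO i.1 ∧ IsO e.1 ∧ t = zpr h.zf0 (ztr h.zf0 b x i) e

private theorem MD.kyW (h : InnerZFC W) {f g : X → W} (hf : DFc W f) (hg : DFc W g) :
    MD W fun x => KyW h (f x) (g x) := by
  have hz := h.zf0
  unfold KyW
  (repeat' (first | (with_reducible first | exact DFc.id | exact DFc.const _ | exact MD.const _ | apply MD.and | apply MD.or | apply MD.iff | apply MD.not | apply MD.imp | apply MD.ex | apply MD.all | apply MD.zpair_mem hz | apply MD.eq_zpair hz | apply MD.isFn hz | apply MD.isO hz | apply MD.mem | apply MD.eq | apply DFc.zpr hz | apply DFc.zap hz | apply DFc.zun hz | apply DFc.zsg hz | apply DFc.zsU hz | apply DFc.ztr hz | apply DFc.zup hz | apply DFc.zpd hz) | (with_reducible first | exact hf | apply hf | apply MD.comp2 hf | apply DFc.comp2 hf | apply MD.comp3 hf | apply DFc.comp3 hf | apply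 MD.comp hf | apply DFc.comp hf) | (with_reducible first | exact hg | apply hg | apply MD.comp2 hg | apply DFc.comp2 hg | apply MD.comp3 hg | apply DFc.comp3 hg | apply MD.comp hg | apply DFc.comp hg) | (with_reducible apply DFc.fst) | (with_reducible apply DFc.snd) | (with_reducible apply DFc.mk)))

private theorem kyW_iff (h : InnerZFC W) {b t : W} :
    KyW h b t ↔ ∃ β, b = ordW h β ∧ Ky t.1 β := by
  constructor
  · rintro ⟨x, i, e, ⟨β, h1⟩, ⟨ξ, h2⟩, ⟨ι, h3⟩, ⟨η, h4⟩, h5⟩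
    refine ⟨β, Subtype.ext h1, ξ, ι, η, ?_⟩
    rw [h5, ← h1, ← h2, ← h3, ← h4]
    rfl
  · rintro ⟨β, h1, ξ, ι, η, h2⟩
    refine ⟨ordW h ξ, ordW h ι, ordW h η, ⟨β, congrArg Subtype.val h1⟩, ⟨ξ, rfl⟩, ⟨ι, rfl⟩,
      ⟨η, rfl⟩, Subtype.ext ?_⟩
    rw [h2, h1]
    rfl

private theorem kyW_ord (h : InnerZFC W) {β : Ordinal.{0}} {t : W} :
    KyW h (ordW h β) t ↔ Ky t.1 β := by
  rw [kyW_iff]
  constructor
  · rintro ⟨β', h1, h2⟩
    have e : β = β' := Ordinal.toZFSet_injective (congrArg Subtype.val h1)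
    rwa [e]
  · intro h1
    exact ⟨β, rfl, h1⟩

private theorem ltW_iff (h : InnerZFC W) {δ : Ordinal.{0}} {t : W} :
    (∃ b : W, b.1 ∈ (ordW h δ).1 ∧ KyW h b t) ↔ ∃ β < δ, Ky t.1 β := by
  constructor
  · rintro ⟨b, h1, h2⟩
    obtain ⟨η, h3, h4⟩ := (mem_ordW h).1 h1
    subst h4
    exact ⟨η, h3, (kyW_ord h).1 h2⟩
  · rintro ⟨β, h1, h2⟩
    exact ⟨ordW h β, (mem_ordW h).2 ⟨β, h1, rfl⟩, (kyW_ord h).2 h2⟩

private theorem geW_iff (h : InnerZFC W) {δ : Ordinal.{0}} {t : W} :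
    (∃ b : W, ¬ b.1 ∈ (ordW h δ).1 ∧ KyW h b t) ↔ ∃ β, δ ≤ β ∧ Ky t.1 β := by
  constructor
  · rintro ⟨b, h1, h2⟩
    obtain ⟨β, h3, h4⟩ := (kyW_iff h).1 h2
    refine ⟨β, ?_, h4⟩
    by_contra h5
    exact h1 ((mem_ordW h).2 ⟨β, not_le.1 h5, h3⟩)
  · rintro ⟨β, h1, h2⟩
    refine ⟨ordW h β, ?_, (kyW_ord h).2 h2⟩
    intro h3
    obtain ⟨η, h4, h5⟩ := (mem_ordW h).1 h3
    have e : β = η := Ordinal.toZFSet_injective (congrArg Subtype.val h5)
    rw [← e] at h4
    exact absurd h4 (not_lt.2 h1)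

theorem levLt_mem (h : InnerZFC W) {p : ZFSet.{0}} (hp : p ∈ W) (δ : Ordinal.{0}) :
    levLt p δ ∈ W := by
  have hz := h.zf0
  obtain ⟨b, hb⟩ := hz.sep (fun t : W => ∃ b : W, b.1 ∈ (ordW h δ).1 ∧ KyW h b t)
    (by (repeat' (first | (with_reducible first | exact DFc.id | exact DFc.const _ | exact MD.const _ | apply MD.and | apply MD.or | apply MD.iff | apply MD.not | apply MD.imp | apply MD.ex | apply MD.all | apply MD.zpair_mem hz | apply MD.eq_zpair hz | apply MD.isFn hz | apply MD.isO hz | apply MD.mem | apply MD.eq | apply DFc.zpr hz | apply DFc.zap hz | apply DFc.zun hz | apply DFc.zsg hz | apply DFc.zsU hz | apply DFc.ztr hz | apply DFc.zup hz | apply DFc.zpd hz) | (with_reducible first | exact (MD.kyW h) | apply (MD.kyW h) | apply MD.comp2 (MD.kyW h) | apply DFc.comp2 (MD.kyW h) | apply MD.comp3 (MD.kyW h) | apply DFc.comp3 (MD.kyW h) | apply MD.comp (MD.kyW h) | apply DFc.comp (MD.kyW h)) | (with_reducible apply DFc.fst)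 | (with_reducible apply DFc.snd) | (with_reducible apply DFc.mk)))) ⟨p, hp⟩
  have e : levLt p δ = b.1 := by
    ext t
    rw [mem_lt40]
    constructor
    · rintro ⟨h1, h2⟩
      have hw := hz.trans _ hp _ h1
      exact (hb ⟨_, hw⟩).2 ⟨h1, (ltW_iff h).2 h2⟩
    · intro h1
      have hw := hz.trans _ b.2 _ h1
      obtain ⟨h2, h3⟩ := (hb ⟨_, hw⟩).1 h1
      exact ⟨h2, (ltW_iff h).1 h3⟩
  rw [e]
  exact b.2

theorem levGe_mem (h : InnerZFC W) {p : ZFSet.{0}} (hp : p ∈ W) (δ : Ordinal.{0}) :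
    levGe p δ ∈ W := by
  have hz := h.zf0
  obtain ⟨b, hb⟩ := hz.sep (fun t : W => ∃ b : W, ¬ b.1 ∈ (ordW h δ).1 ∧ KyW h b t)
    (by (repeat' (first | (with_reducible first | exact DFc.id | exact DFc.const _ | exact MD.const _ | apply MD.and | apply MD.or | apply MD.iff | apply MD.not | apply MD.imp | apply MD.ex | apply MD.all | apply MD.zpair_mem hz | apply MD.eq_zpair hz | apply MD.isFn hz | apply MD.isO hz | apply MD.mem | apply MD.eq | apply DFc.zpr hz | apply DFc.zap hz | apply DFc.zun hz | apply DFc.zsg hz | apply DFc.zsU hz | apply DFc.ztr hz | apply DFc.zup hz | apply DFc.zpd hz) | (with_reducible first | exact (MD.kyW h) | apply (MD.kyW h) | apply MD.comp2 (MD.kyW h) | apply DFc.comp2 (MD.kyW h) | apply MD.comp3 (MD.kyW h) | apply DFc.comp3 (MD.kyW h) | apply MD.comp (MD.kyW h) | apply DFc.comp (MD.kyW h)) | (with_reducible apply DFc.fst) | (with_reducible apply DFc.snd) | (with_reducible apply DFc.mk)))) ⟨p, hp⟩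
  have e : levGe p δ = b.1 := by
    ext t
    rw [mem_ge40]
    constructor
    · rintro ⟨h1, h2⟩
      have hw := hz.trans _ hp _ h1
      exact (hb ⟨_, hw⟩).2 ⟨h1, (geW_iff h).2 h2⟩
    · intro h1
      have hw := hz.trans _ b.2 _ h1
      obtain ⟨h2, h3⟩ := (hb ⟨_, hw⟩).1 h1
      exact ⟨h2, (geW_iff h).1 h3⟩
  rw [e]
  exact b.2

/-- `levLt` as an operation on `W` -/
noncomputable def zlt (h : InnerZFC W) (δ : Ordinal.{0}) (p : W) : W :=
  ⟨levLt p.1 δ, levLt_mem h p.2 δ⟩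

/-- `levGe` as an operation on `W` -/
noncomputable def zge (h : InnerZFC W) (δ : Ordinal.{0}) (p : W) : W :=
  ⟨levGe p.1 δ, levGe_mem h p.2 δ⟩

theorem DFc.zlt (h : InnerZFC W) (δ : Ordinal.{0}) {f : X → W} (hf : DFc W f) :
    DFc W fun x => zlt h δ (f x) := by
  have hz := h.zf0
  refine DFc.of_memZ hz (P := fun x t => t.1 ∈ (f x).1 ∧
    ∃ b : W, b.1 ∈ (ordW h δ).1 ∧ KyW h b t) (by (repeat' (first | (with_reducible first | exact DFc.id | exact DFc.const _ | exact MD.const _ | apply MD.and | apply MD.or | apply MD.iff | apply MD.not | apply MD.imp | apply MD.ex | apply MD.all | apply MD.zpair_mem hz | apply MD.eq_zpair hz | apply MD.isFn hz | apply MD.isO hz | apply MD.mem | apply MD.eq | apply DFc.zpr hz | apply DFc.zap hz | apply DFc.zun hz | apply DFc.zsg hz | apply DFc.zsU hz | apply DFc.ztr hz | apply DFc.zup hz | apply DFc.zpd hz) | (with_reducible first | exact hf | apply hf | apply MD.comp2 hf | apply DFc.comp2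 hf | apply MD.comp3 hf | apply DFc.comp3 hf | apply MD.comp hf | apply DFc.comp hf) | (with_reducible first | exact (MD.kyW h) | apply (MD.kyW h) | apply MD.comp2 (MD.kyW h) | apply DFc.comp2 (MD.kyW h) | apply MD.comp3 (MD.kyW h) | apply DFc.comp3 (MD.kyW h) | apply MD.comp (MD.kyW h) | apply DFc.comp (MD.kyW h)) | (with_reducible apply DFc.fst) | (with_reducible apply DFc.snd) | (with_reducible apply DFc.mk)))) ?_
  intro x t
  change t.1 ∈ levLt (f x).1 δ ↔ _
  rw [mem_lt40, ltW_iff]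

theorem DFc.zge (h : InnerZFC W) (δ : Ordinal.{0}) {f : X → W} (hf : DFc W f) :
    DFc W fun x => zge h δ (f x) := by
  have hz := h.zf0
  refine DFc.of_memZ hz (P := fun x t => t.1 ∈ (f x).1 ∧
    ∃ b : W, ¬ b.1 ∈ (ordW h δ).1 ∧ KyW h b t) (by (repeat' (first | (with_reducible first | exact DFc.id | exact DFc.const _ | exact MD.const _ | apply MD.and | apply MD.or | apply MD.iff | apply MD.not | apply MD.imp | apply MD.ex | apply MD.all | apply MD.zpair_mem hz | apply MD.eq_zpair hz | apply MD.isFn hz | apply MD.isO hz | apply MD.mem | apply MD.eq | apply DFc.zpr hz | apply DFc.zap hz | apply DFc.zun hz | apply DFc.zsg hz | apply DFc.zsU hz | apply DFc.ztr hz | apply DFc.zup hz | apply DFc.zpd hz) | (with_reducible first | exact hf | apply hf | apply MD.comp2 hf | apply DFc.comp2 hf | apply MD.comp3 hf | apply DFc.comp3 hf | apply MD.comp hf | apply DFc.comp hf) | (with_reducible first | exact (MD.kyW h) | apply (MD.kyW h)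 | apply MD.comp2 (MD.kyW h) | apply DFc.comp2 (MD.kyW h) | apply MD.comp3 (MD.kyW h) | apply DFc.comp3 (MD.kyW h) | apply MD.comp (MD.kyW h) | apply DFc.comp (MD.kyW h)) | (with_reducible apply DFc.fst) | (with_reducible apply DFc.snd) | (with_reducible apply DFc.mk)))) ?_
  intro x t
  change t.1 ∈ levGe (f x).1 δ ↔ _
  rw [mem_ge40, geW_iff]

/-- the function `β ↦ lev p β` is definable -/
theorem exists_lev (h : InnerZFC W) : ∃ L : W → W → W, (DFc W fun p : W × W => L p.1 p.2) ∧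
    ∀ (p : W) (β : Ordinal.{0}), (L p (ordW h β)).1 = lev p.1 β := by
  have hz := h.zf0
  obtain ⟨f, hf, hf'⟩ := hz.sepF (X := W × W) (a := fun x => x.1) (by (repeat' (first | (with_reducible first | exact DFc.id | exact DFc.const _ | exact MD.const _ | apply MD.and | apply MD.or | apply MD.iff | apply MD.not | apply MD.imp | apply MD.ex | apply MD.all | apply MD.zpair_mem hz | apply MD.eq_zpair hz | apply MD.isFn hz | apply MD.isO hz | apply MD.mem | apply MD.eq | apply DFc.zpr hz | apply DFc.zap hz | apply DFc.zun hz | apply DFc.zsg hz | apply DFc.zsU hz | apply DFc.ztr hz | apply DFc.zup hz | apply DFc.zpd hz) | (with_reducible apply DFc.fst) | (with_reducible apply DFc.snd) | (with_reducible apply DFc.mk))))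
    (P := fun x t => KyW h x.2 t) (by (repeat' (first | (with_reducible first | exact DFc.id | exact DFc.const _ | exact MD.const _ | apply MD.and | apply MD.or | apply MD.iff | apply MD.not | apply MD.imp | apply MD.ex | apply MD.all | apply MD.zpair_mem hz | apply MD.eq_zpair hz | apply MD.isFn hz | apply MD.isO hz | apply MD.mem | apply MD.eq | apply DFc.zpr hz | apply DFc.zap hz | apply DFc.zun hz | apply DFc.zsg hz | apply DFc.zsU hz | apply DFc.ztr hz | apply DFc.zup hz | apply DFc.zpd hz) | (with_reducible first | exact (MD.kyW h) | apply (MD.kyW h) | apply MD.comp2 (MD.kyW h) | apply DFc.comp2 (MD.kyW h) | apply MD.comp3 (MD.kyW h) | apply DFc.comp3 (MD.kyW h) | apply MD.comp (MD.kyW h) | apply DFc.comp (MD.kyW h)) | (with_reducible apply DFc.fst) | (with_reducible apply DFc.snd) | (with_reducible apply DFc.mk))))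
  refine ⟨fun p b => f (p, b), hf, fun p β => ?_⟩
  ext t
  rw [mem_lev40]
  constructor
  · intro h1
    have hw := hz.trans _ (f (p, ordW h β)).2 _ h1
    obtain ⟨h2, h3⟩ := (hf' (p, ordW h β) ⟨_, hw⟩).1 h1
    exact ⟨h2, (kyW_ord h).1 h3⟩
  · rintro ⟨h1, h2⟩
    have hw := hz.trans _ p.2 _ h1
    exact (hf' (p, ordW h β) ⟨_, hw⟩).2 ⟨h1, (kyW_ord h).2 h2⟩

theorem levLt_zero (p : ZFSet.{0}) : levLt p 0 = ∅ := by
  ext t
  rw [mem_lt40]
  constructor
  · rintro ⟨-, β, h1, -⟩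
    exact absurd h1 (not_lt.2 (zero_le))
  · intro h1
    exact absurd h1 (ZFSet.notMem_empty t)

theorem levLt_levLt (p : ZFSet.{0}) (δ : Ordinal.{0}) : levLt (levLt p δ) δ = levLt p δ := by
  ext t
  rw [mem_lt40, mem_lt40]
  exact ⟨fun h1 => h1.1, fun h1 => ⟨h1, h1.2⟩⟩

theorem levLt_union (p q : ZFSet.{0}) (δ : Ordinal.{0}) :
    levLt (p ∪ q) δ = levLt p δ ∪ levLt q δ := by
  ext t
  rw [mem_lt40, ZFSet.mem_union, ZFSet.mem_union, mem_lt40, mem_lt40, or_and_right]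

theorem levGe_union (p q : ZFSet.{0}) (δ : Ordinal.{0}) :
    levGe (p ∪ q) δ = levGe p δ ∪ levGe q δ := by
  ext t
  rw [mem_ge40, ZFSet.mem_union, ZFSet.mem_union, mem_ge40, mem_ge40, or_and_right]

theorem levGe_levGe (p : ZFSet.{0}) (δ : Ordinal.{0}) : levGe (levGe p δ) δ = levGe p δ := by
  ext t
  rw [mem_ge40, mem_ge40]
  exact ⟨fun h1 => h1.1, fun h1 => ⟨h1, h1.2⟩⟩

theorem levLt_levGe (p : ZFSet.{0}) (δ : Ordinal.{0}) : levLt (levGe p δ) δ = ∅ := by
  ext t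
  rw [mem_lt40, mem_ge40]
  constructor
  · rintro ⟨⟨-, β, h1, h2⟩, β', h3, h4⟩
    rw [h2.uniq h4] at h1
    exact absurd h3 (not_lt.2 h1)
  · intro h1
    exact absurd h1 (ZFSet.notMem_empty t)

theorem levGe_levLt (p : ZFSet.{0}) (δ : Ordinal.{0}) : levGe (levLt p δ) δ = ∅ := by
  ext t
  rw [mem_ge40, mem_lt40]
  constructor
  · rintro ⟨⟨-, β, h1, h2⟩, β', h3, h4⟩
    rw [h2.uniq h4] at h1
    exact absurd h1 (not_lt.2 h3)
  · intro h1
    exact absurd h1 (ZFSet.notMem_empty t)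

theorem levLt_mono {p q : ZFSet.{0}} (hpq : p ⊆ q) (δ : Ordinal.{0}) : levLt p δ ⊆ levLt q δ := by
  intro t h1
  rw [mem_lt40] at h1 ⊢
  exact ⟨hpq h1.1, h1.2⟩

theorem levGe_mono {p q : ZFSet.{0}} (hpq : p ⊆ q) (δ : Ordinal.{0}) : levGe p δ ⊆ levGe q δ := by
  intro t h1
  rw [mem_ge40] at h1 ⊢
  exact ⟨hpq h1.1, h1.2⟩

private theorem CondP.ky {p : ZFSet.{0}} (hp : CondP W p) {t : ZFSet.{0}} (ht : t ∈ p) :
    ∃ β < nu W 1, Ky t β := by
  obtain ⟨β, ξ, i, η, h1, -, -, -, h2⟩ := hp.form t ht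
  exact ⟨β, h1, ξ, i, η, h2⟩

private theorem lev_mono40 {p q : ZFSet.{0}} (hpq : p ⊆ q) (β : Ordinal.{0}) :
    lev p β ⊆ lev q β := by
  intro t h1
  rw [mem_lev40] at h1 ⊢
  exact ⟨hpq h1.1, h1.2⟩

private theorem lev_union40 (p q : ZFSet.{0}) (β : Ordinal.{0}) :
    lev (p ∪ q) β = lev p β ∪ lev q β := by
  ext t
  rw [mem_lev40, ZFSet.mem_union, ZFSet.mem_union, mem_lev40, mem_lev40, or_and_right]

private theorem lev_mem40 (h : InnerZFC W) {p : ZFSet.{0}} (hp : p ∈ W) (β : Ordinal.{0}) :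
    lev p β ∈ W := by
  obtain ⟨L, -, hL⟩ := exists_lev h
  have h1 := hL ⟨p, hp⟩ β
  rw [← h1]
  exact (L _ _).2

theorem CondP.union_eq {p : ZFSet.{0}} (hp : CondP W p) (δ : Ordinal.{0}) :
    levLt p δ ∪ levGe p δ = p := by
  ext t
  rw [ZFSet.mem_union, mem_lt40, mem_ge40]
  constructor
  · rintro (h1 | h1)
    · exact h1.1
    · exact h1.1
  · intro h1
    obtain ⟨β, -, h2⟩ := hp.ky h1
    rcases lt_or_ge β δ with h3 | h3
    · exact Or.inl ⟨h1, β, h3, h2⟩
    · exact Or.inr ⟨h1, β, h3, h2⟩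

theorem CondP.levLt_top {p : ZFSet.{0}} (hp : CondP W p) : levLt p (nu W 1) = p := by
  ext t
  rw [mem_lt40]
  exact ⟨fun h1 => h1.1, fun h1 => ⟨h1, hp.ky h1⟩⟩

theorem condP_empty (h : InnerZFC W) : CondP W ∅ := by
  refine ⟨h.zf0.empty_mem, fun t ht => absurd ht (ZFSet.notMem_empty t),
    fun x y y' hy _ => absurd hy (ZFSet.notMem_empty _), fun β _ => ?_⟩
  refine ((sz_omega_of_finite h h.zf0.empty_mem ?_).mono h (omega_le_nu W β)).subset ?_
  · have e : {z : ZFSet.{0} | z ∈ (∅ : ZFSet.{0})} = ∅ := by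
      ext z
      simp
    rw [e]
    exact Set.finite_empty
  · intro t ht
    exact (mem_lev40.1 ht).1

theorem CondP.sub {p q : ZFSet.{0}} (hp : CondP W p) (hq : q ∈ W) (hqp : q ⊆ p) :
    CondP W q :=
  ⟨hq, fun t ht => hp.form t (hqp ht), fun x y y' h1 h2 => hp.fn x y y' (hqp h1) (hqp h2),
    fun β hβ => (hp.small β hβ).subset (lev_mono40 hqp β)⟩

theorem CondP.union (h : InnerZFC W) {p q : ZFSet.{0}} (hp : CondP W p) (hq : CondP W q)
    (hf : FnSet (p ∪ q)) : CondP W (p ∪ q) := by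
  refine ⟨h.zf0.un hp.mem hq.mem, fun t ht => ?_, fun x y y' h1 h2 => hf x y y' h1 h2,
    fun β hβ => ?_⟩
  · rcases ZFSet.mem_union.1 ht with h1 | h1
    · exact hp.form t h1
    · exact hq.form t h1
  · rw [lev_union40]
    exact sz_union h (nu_wcard W β) (lev_mem40 h hp.mem β) (lev_mem40 h hq.mem β)
      (hp.small β hβ) (hq.small β hβ)

theorem CondP.insert (h : InnerZFC W) {p : ZFSet.{0}} (hp : CondP W p) {β ξ i η : Ordinal.{0}}
    (hβ : β < nu W 1) (hξ : ξ < tht W) (hi : i < kap W) (hη : η < nu W (β + 1))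
    (hn : ∀ y, ZFSet.pair (trip β.toZFSet ξ.toZFSet i.toZFSet) y ∉ p) :
    CondP W (p ∪ {ZFSet.pair (trip β.toZFSet ξ.toZFSet i.toZFSet) η.toZFSet}) := by
  have hz := h.zf0
  have ht : ZFSet.pair (trip β.toZFSet ξ.toZFSet i.toZFSet) η.toZFSet ∈ W :=
    hz.pairZ (hz.trip_mem (h.ord β) (h.ord ξ) (h.ord i)) (h.ord η)
  refine ⟨hz.un hp.mem (hz.sg ht), fun t h1 => ?_, fun x y y' h1 h2 => ?_, fun β' hβ' => ?_⟩
  · rcases ZFSet.mem_union.1 h1 with h1 | h1
    · exact hp.form t h1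
    · exact ⟨β, ξ, i, η, hβ, hξ, hi, hη, ZFSet.mem_singleton.1 h1⟩
  · rcases ZFSet.mem_union.1 h1 with h1 | h1
    · rcases ZFSet.mem_union.1 h2 with h2 | h2
      · exact hp.fn x y y' h1 h2
      · obtain ⟨e1, e2⟩ := ZFSet.pair_inj.1 (ZFSet.mem_singleton.1 h2)
        rw [e1] at h1
        exact absurd h1 (hn y)
    · obtain ⟨e1, e2⟩ := ZFSet.pair_inj.1 (ZFSet.mem_singleton.1 h1)
      rcases ZFSet.mem_union.1 h2 with h2 | h2
      · rw [e1] at h2
        exact absurd h2 (hn y')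
      · obtain ⟨e3, e4⟩ := ZFSet.pair_inj.1 (ZFSet.mem_singleton.1 h2)
        rw [e2, e4]
  · refine (sz_insert h (nu_wcard W β') (lev_mem40 h hp.mem β') ht (hp.small β' hβ')).subset ?_
    intro t h1
    rw [lev_union40] at h1
    rcases ZFSet.mem_union.1 h1 with h2 | h2
    · exact ZFSet.mem_union.2 (Or.inl h2)
    · exact ZFSet.mem_union.2 (Or.inr (mem_lev40.1 h2).1)

theorem sz_levLt (h : InnerZFC W) {p : ZFSet.{0}} (hp : CondP W p) {γ : Ordinal.{0}}
    (hγ : γ < nu W 1) : Sz W (levLt p (γ + 1)) (nu W γ) := by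
  have hz := h.zf0
  obtain ⟨L, hL1, hL2⟩ := exists_lev h
  have hγ1 : γ + 1 < nu W 1 := by
    rw [← Order.succ_eq_add_one]
    exact (isSuccLimit_nu h 1).succ_lt hγ
  have h0 : Sz W (γ + 1).toZFSet (nu W 0) := sz_of_lt h (by rwa [zero_add])
  have h1 : Sz W (ordW h (γ + 1)).1 (nu W γ) :=
    h0.mono h ((nu_strictMono W).monotone zero_le)
  refine sz_iUnion h (nu_wcard W γ) (D := ordW h (γ + 1)) h1 (F := fun d => L ⟨p, hp.mem⟩ d)
    (by (repeat' (first | (with_reducible first | exact DFc.id | exact DFc.const _ | exact MD.const _ | apply MD.and | apply MD.or | apply MD.iff | apply MD.not | apply MD.imp | apply MD.ex | apply MD.all | apply MD.zpair_mem hz | apply MD.eq_zpair hz | apply MD.isFn hz | apply MD.isO hz | apply MD.mem | apply MD.eq | apply DFc.zpr hz | apply DFc.zap hz | apply DFc.zun hz | apply DFc.zsg hz | apply DFc.zsU hz | apply DFc.ztr hz | apply DFc.zup hz | apply DFc.zpd hz) | (with_reducible first | exact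 hL1 | apply hL1 | apply MD.comp2 hL1 | apply DFc.comp2 hL1 | apply MD.comp3 hL1 | apply DFc.comp3 hL1 | apply MD.comp hL1 | apply DFc.comp hL1) | (with_reducible apply DFc.fst) | (with_reducible apply DFc.snd) | (with_reducible apply DFc.mk)))) ?_ ?_
  · intro d hd
    obtain ⟨β, hβ, rfl⟩ := (mem_ordW h).1 hd
    rw [hL2]
    have hβγ : β ≤ γ := by
      rw [← Order.succ_eq_add_one] at hβ
      exact Order.lt_succ_iff.1 hβ
    exact (hp.small β (hβγ.trans_lt hγ)).mono h ((nu_strictMono W).monotone hβγ)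
  · intro z hz1
    obtain ⟨h2, β, hβ, h3⟩ := mem_lt40.1 hz1
    refine ⟨ordW h β, (mem_ordW h).2 ⟨β, hβ, rfl⟩, ?_⟩
    rw [hL2]
    exact mem_lev40.2 ⟨h2, h3⟩

theorem sz_condP (h : InnerZFC W) {p : ZFSet.{0}} (hp : CondP W p) : Sz W p (kap W) := by
  have hz := h.zf0
  obtain ⟨L, hL1, hL2⟩ := exists_lev h
  have hle : ∀ β < nu W 1, nu W β ≤ kap W := fun β hβ => (nu_strictMono W).monotone hβ.le
  have h1k : nu W 1 ≤ kap W := (nu_strictMono W).le_apply
  refine sz_iUnion h (nu_wcard W _) (D := ordW h (nu W 1)) ((sz_ord h (nu W 1)).mono h h1k)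
    (F := fun d => L ⟨p, hp.mem⟩ d) (by (repeat' (first | (with_reducible first | exact DFc.id | exact DFc.const _ | exact MD.const _ | apply MD.and | apply MD.or | apply MD.iff | apply MD.not | apply MD.imp | apply MD.ex | apply MD.all | apply MD.zpair_mem hz | apply MD.eq_zpair hz | apply MD.isFn hz | apply MD.isO hz | apply MD.mem | apply MD.eq | apply DFc.zpr hz | apply DFc.zap hz | apply DFc.zun hz | apply DFc.zsg hz | apply DFc.zsU hz | apply DFc.ztr hz | apply DFc.zup hz | apply DFc.zpd hz) | (with_reducible first | exact hL1 | apply hL1 | apply MD.comp2 hL1 | apply DFc.comp2 hL1 | apply MD.comp3 hL1 | apply DFc.comp3 hL1 | apply MD.comp hL1 | apply DFc.comp hL1) | (with_reducible apply DFc.fst) | (with_reducible apply DFc.snd) | (with_reducible apply DFc.mk)))) ?_ ?_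
  · intro d hd
    obtain ⟨β, hβ, rfl⟩ := (mem_ordW h).1 hd
    rw [hL2]
    exact (hp.small β hβ).mono h (hle β hβ)
  · intro z hz1
    obtain ⟨β, hβ, h3⟩ := hp.ky hz1
    refine ⟨ordW h β, (mem_ordW h).2 ⟨β, hβ, rfl⟩, ?_⟩
    rw [hL2]
    exact mem_lev40.2 ⟨hz1, h3⟩

theorem closed_high (h : InnerZFC W) {δ l : Ordinal.{0}}
    (hl : ∀ β, δ ≤ β → β < nu W 1 → l ≤ nu W β) {A : W} (hA : Sz W A.1 l)
    (hc : ∀ p ∈ A.1, CondP W p)
    (hch : ∀ p ∈ A.1, ∀ q ∈ A.1, FnSet (levGe p δ ∪ levGe q δ)) :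
    ∃ q : W, CondP W q.1 ∧ ∀ t, t ∈ q.1 ↔ ∃ p ∈ A.1, t ∈ levGe p δ := by
  have hz := h.zf0
  obtain ⟨L, hL1, hL2⟩ := exists_lev h
  have hq : ∀ t, t ∈ levGe (ZFSet.sUnion A.1) δ ↔ ∃ p ∈ A.1, t ∈ levGe p δ := by
    intro t
    rw [mem_ge40, ZFSet.mem_sUnion]
    constructor
    · rintro ⟨⟨p, hp, h1⟩, h2⟩
      exact ⟨p, hp, mem_ge40.2 ⟨h1, h2⟩⟩
    · rintro ⟨p, hp, h1⟩
      obtain ⟨h2, h3⟩ := mem_ge40.1 h1
      exact ⟨⟨p, hp, h2⟩, h3⟩
  have hqW : levGe (ZFSet.sUnion A.1) δ ∈ W := levGe_mem h (h.union _ A.2) δ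
  refine ⟨⟨_, hqW⟩, ⟨hqW, fun t ht => ?_, fun x y y' h1 h2 => ?_, fun β hβ => ?_⟩, hq⟩
  · obtain ⟨p, hp, h1⟩ := (hq t).1 ht
    exact (hc p hp).form t (mem_ge40.1 h1).1
  · obtain ⟨p, hp, h3⟩ := (hq _).1 h1
    obtain ⟨p', hp', h4⟩ := (hq _).1 h2
    exact hch p hp p' hp' x y y' (ZFSet.mem_union.2 (Or.inl h3)) (ZFSet.mem_union.2 (Or.inr h4))
  · rcases lt_or_ge β δ with h3 | h3
    · refine (condP_empty h).small β hβ |>.subset ?_
      intro t ht
      obtain ⟨h4, h5⟩ := mem_lev40.1 ht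
      obtain ⟨-, β', h6, h7⟩ := mem_ge40.1 h4
      rw [← h5.uniq h7] at h6
      exact absurd h3 (not_lt.2 h6)
    · refine sz_iUnion h (nu_wcard W β) (D := A) (hA.mono h (hl β h3 hβ))
        (F := fun d => L d (ordW h β)) (by (repeat' (first | (with_reducible first | exact DFc.id | exact DFc.const _ | exact MD.const _ | apply MD.and | apply MD.or | apply MD.iff | apply MD.not | apply MD.imp | apply MD.ex | apply MD.all | apply MD.zpair_mem hz | apply MD.eq_zpair hz | apply MD.isFn hz | apply MD.isO hz | apply MD.mem | apply MD.eq | apply DFc.zpr hz | apply DFc.zap hz | apply DFc.zun hz | apply DFc.zsg hz | apply DFc.zsU hz | apply DFc.ztr hz | apply DFc.zup hz | apply DFc.zpd hz) | (with_reducible first | exact hL1 | apply hL1 | apply MD.comp2 hL1 | apply DFc.comp2 hL1 | apply MD.comp3 hL1 | apply DFc.comp3 hL1 | apply MD.comp hL1 | apply DFc.comp hL1) | (with_reducible apply DFc.fst) | (with_reducible apply DFc.snd) | (with_reducible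 apply DFc.mk)))) ?_ ?_
      · intro d hd
        rw [hL2]
        exact (hc d.1 hd).small β hβ
      · intro z hz1
        obtain ⟨h4, h5⟩ := mem_lev40.1 hz1
        obtain ⟨p, hp, h6⟩ := (hq z).1 h4
        refine ⟨⟨p, hz.trans _ A.2 _ hp⟩, hp, ?_⟩
        rw [hL2]
        exact mem_lev40.2 ⟨(mem_ge40.1 h6).1, h5⟩

theorem amalg (h : InnerZFC W) {p q : ZFSet.{0}} (hp : CondP W p) (hq : CondP W q)
    (δ : Ordinal.{0}) : CondP W (levLt p δ ∪ levGe q δ) := by
  have hpl : CondP W (levLt p δ) := hp.sub (levLt_mem h hp.mem δ) fun t ht => (mem_lt40.1 ht).1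
  have hqg : CondP W (levGe q δ) := hq.sub (levGe_mem h hq.mem δ) fun t ht => (mem_ge40.1 ht).1
  have key : ∀ x y y', ZFSet.pair x y ∈ levLt p δ → ZFSet.pair x y' ∈ levGe q δ → False := by
    intro x y y' h1 h2
    obtain ⟨-, β, h3, ξ, i, η, h4⟩ := mem_lt40.1 h1
    obtain ⟨-, β', h5, ξ', i', η', h6⟩ := mem_ge40.1 h2
    have e1 := (ZFSet.pair_inj.1 h4).1
    have e2 := (ZFSet.pair_inj.1 h6).1
    rw [e1] at e2
    have e3 : β = β' := Ordinal.toZFSet_injective (tinj40.1 e2).1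
    rw [← e3] at h5
    exact absurd h3 (not_lt.2 h5)
  refine hpl.union h hqg fun x y y' h1 h2 => ?_
  rcases ZFSet.mem_union.1 h1 with h1 | h1
  · rcases ZFSet.mem_union.1 h2 with h2 | h2
    · exact hpl.fn x y y' h1 h2
    · exact (key x y y' h1 h2).elim
  · rcases ZFSet.mem_union.1 h2 with h2 | h2
    · exact (key x y' y h2 h1).elim
    · exact hqg.fn x y y' h1 h2

end HNF
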