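import Pool.Agent.HNF.Gen
import Pool.Agent.HNF.Lvl
import Pool.Agent.HNF.Mea2

/-!
HNF RND: the generic point `r` of `2^(κ × ω)`.

`IsR W G r`: `r` is in `cyl s` and not in `opn b` for all `trip p s b ∈ G`, and for `j < κ` every digit of the `j`-th real is
decided by some element of `G`.

PROOFS.
`exists_rnd`: for `j < κ`, `n < ω` the set of the conditions `c` with `bitZ j n v ∈ pS c` for some `v` is dense
(`CondB.ext_bit`; definable: `bitZ j n true`, `bitZ j n false` are constants), so it meets `G` (`gen_meets`).  Let `r (j, n) = v`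
iff `j < κ` and `bitZ j n v ∈ pS c` for some `c ∈ G`; it is well defined by `gen_dir` and `FinP.fn`; put `false` for `j ≥ κ`.
`cyl`: elements of `s` are `bitZ j n v` with `j < κ` and `r (j, n) = v` by definition.  `opn`: suppose that
`r ∈ cyl e`, `e ∈ pB c`, `c ∈ G`.  Each of the finitely many elements `bitZ j n v` of `e` satisfies `r (j, n) = v`, so it is in
`pS c'` for some `c' ∈ G`; by `gen_dir` there is `c'' ∈ G` with `e ⊆ pS c''`, `e ∈ pB c''`.  Then
`cyl (pS c'') ⊆ cyl e ⊆ opn (pB c'')`, a contradiction to `CondB.pos`.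
`rnd_opn`: let `c` be a condition; as `lam (opn d) = 1`, `lam ((cyl (pS c) \ opn (pB c)) ∩ opn d) > 0` (`CondB.pos'`), so by
`CondB.ext_opn` there are `t` and `e ∈ d` with `pS c ⊆ t`, `e ⊆ t`, `CondB W t (pB c)`.  So the (definable) set of the
conditions `c` with `∃ e ∈ d, e ⊆ pS c` is dense; by `gen_meets` there are `c ∈ G`, `e ∈ d`, `e ⊆ pS c`, and
`r ∈ cyl (pS c) ⊆ cyl e`.
`rnd_bc`: suppose `¬ BC`; by `bc_of_pos` `lam ((cyl s \ opn b) ∩ (cyl s' \ opn b')) = 0`.  Let `d` be the union of `b`, `b'` and the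
finite set of all `{bitZ j n (!v)}` with `bitZ j n v ∈ s ∪ s'`.  Then `opn d` is the complement of the null set above, so has
measure 1; `d ∈ W` (finite sets of elements of `W` are in `W`; `hz.un`), `Sz W d ω`, all elements are `FinP`.  So
`r ∈ opn d` by `rnd_opn`.
`rnd_avoid`: let `D c` say: there is `n ∈ ω` with `d n ⊆ pB c`.  Density: let `c` be a condition, `ε =
lam (cyl (pS c) \ opn (pB c)) > 0`.  Choose `N` with `lam (opn (d N)) < ε`.  Then `lam (cyl (pS c) \ opn (pB c ∪ d N)) > 0`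
(`opn_union`), so `exists_condB` gives `t ⊇ pS c` with `CondB W t (pB c ∪ d N)` (`sz_union` with `ω = nu 0`).  So there are `c ∈ G`,
`n = natZ N` with `d N ⊆ pB c`, and `r ∉ opn (pB c) ⊇ opn (d N)`.
-/

namespace HNF

open RMK Set MeasureTheory

variable {W G : Set ZFSet.{0}}

/-- `r` is the generic point -/
structure IsR (W G : Set ZFSet.{0}) (r : Pt) : Prop where
  cyl : ∀ c ∈ G, r ∈ HNF.cyl (pS c)
  opn : ∀ c ∈ G, r ∉ HNF.opn (pB c)
  bit : ∀ j < kap W, ∀ n, ∃ c ∈ G, bitZ j n (r (j, n)) ∈ pS c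

/-- finitely many elements of the second coordinates of elements of the generic filter -/
private theorem fin_dir (h : Ext W G) {S : Set ZFSet.{0}} (hS : S.Finite)
    (hG : ∀ t ∈ S, ∃ c ∈ G, t ∈ pS c) {c : ZFSet.{0}} (hc : c ∈ G) :
    ∃ d ∈ G, Le d c ∧ ∀ t ∈ S, t ∈ pS d := by
  induction S, hS using Set.Finite.induction_on with
  | empty => exact ⟨c, hc, Le.refl (gen_cond h hc), fun t ht => absurd ht (Set.notMem_empty t)⟩
  | insert ha hS ih =>
    rename_i a S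
    obtain ⟨d, hd, hdc, hdS⟩ := ih fun t ht => hG t (Set.mem_insert_of_mem _ ht)
    obtain ⟨c', hc', hac⟩ := hG a (Set.mem_insert _ _)
    obtain ⟨e, he, hed, hec⟩ := gen_dir h hd hc'
    have h1 := (le_iff (gen_cond h he) (gen_cond h hd)).1 hed
    have h2 := (le_iff (gen_cond h he) (gen_cond h hc')).1 hec
    refine ⟨e, he, hed.trans hdc, fun t ht => ?_⟩
    rcases Set.mem_insert_iff.1 ht with rfl | ht
    · exact h2.2.1 hac
    · exact h1.2.1 (hdS t ht)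

theorem exists_rnd (h : Ext W G) : ∃ r : Pt, IsR W G r := by
  classical
  have hz := h.zfc.zf0
  -- every digit is decided
  have hA : ∀ j < kap W, ∀ n, ∃ c ∈ G, ∃ v, bitZ j n v ∈ pS c := by
    intro j hj n
    obtain ⟨c0, hc0⟩ := gen_ne h
    obtain ⟨d, hd, h1⟩ := gen_meets h (D := fun c : W =>
        (⟨bitZ j n true, bitZ_mem h.zfc j n true⟩ : W).1 ∈ (zS h.zfc c).1 ∨
        (⟨bitZ j n false, bitZ_mem h.zfc j n false⟩ : W).1 ∈ (zS h.zfc c).1)
      (MD.or (MD.mem (DFc.const _) (DFc.zS h.zfc DFc.id))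
        (MD.mem (DFc.const _) (DFc.zS h.zfc DFc.id))) hc0 (by
        intro c hc _
        obtain ⟨p, s, b, hcc, hp, hb⟩ := hc
        obtain ⟨t, v, hst, hv, ht⟩ := hb.ext_bit hj n
        have hd : Cond W (trip p t b) := cond_trip.2 ⟨hp, ht⟩
        refine ⟨⟨trip p t b, hd.mem h⟩, hd, ?_, ?_⟩
        · rw [hcc]
          exact le_trip.2 ⟨subset_rfl, hst, subset_rfl⟩
        · have e : (zS h.zfc ⟨trip p t b, hd.mem h⟩).1 = t := pS_trip p t b
          rw [e]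
          cases v
          · exact Or.inr hv
          · exact Or.inl hv)
    rcases h1 with h1 | h1
    · exact ⟨d.1, hd, true, h1⟩
    · exact ⟨d.1, hd, false, h1⟩
  -- the values are unique
  have hB : ∀ j n, ∀ c ∈ G, ∀ c' ∈ G, bitZ j n true ∈ pS c → bitZ j n false ∉ pS c' := by
    intro j n c hc c' hc' h1 h2
    obtain ⟨e, he, hec, hec'⟩ := gen_dir h hc hc'
    have h3 := (le_iff (gen_cond h he) (gen_cond h hc)).1 hec
    have h4 := (le_iff (gen_cond h he) (gen_cond h hc')).1 hec'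
    exact (gen_cond h he).cB.fin.fn j n ⟨h3.2.1 h1, h4.2.1 h2⟩
  obtain ⟨r, hr⟩ : ∃ r : Pt, ∀ j n, r (j, n) = decide (∃ c ∈ G, bitZ j n true ∈ pS c) :=
    ⟨fun q => decide (∃ c ∈ G, bitZ q.1 q.2 true ∈ pS c), fun j n => rfl⟩
  have hcyl : ∀ c ∈ G, r ∈ HNF.cyl (pS c) := by
    intro c hc j n v hv
    rw [hr]
    cases v
    · rw [decide_eq_false_iff_not]
      rintro ⟨c', hc', h1⟩
      exact hB j n c' hc' c hc h1 hv
    · rw [decide_eq_true_iff]
      exact ⟨c, hc, hv⟩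
  have hbit : ∀ j < kap W, ∀ n, ∃ c ∈ G, bitZ j n (r (j, n)) ∈ pS c := by
    intro j hj n
    obtain ⟨c, hc, v, hv⟩ := hA j hj n
    have h1 := hcyl c hc j n v hv
    exact ⟨c, hc, by rw [h1]; exact hv⟩
  refine ⟨r, hcyl, fun c hc hop => ?_, hbit⟩
  unfold HNF.opn at hop
  rw [Set.mem_iUnion₂] at hop
  obtain ⟨e, he, hre⟩ := hop
  have hef : FinP (kap W) e := (gen_cond h hc).cB.sub e he
  obtain ⟨d, hd, hdc, hde⟩ := fin_dir h hef.fin (fun t ht => by
    obtain ⟨j, hj, n, v, rfl⟩ := hef.form t ht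
    obtain ⟨c', hc', h1⟩ := hbit j hj n
    rw [hre j n v ht] at h1
    exact ⟨c', hc', h1⟩) hc
  have h1 := (le_iff (gen_cond h hd) (gen_cond h hc)).1 hdc
  have h2 : HNF.cyl (pS d) ⊆ HNF.opn (pB d) := by
    intro z hz
    unfold HNF.opn
    rw [Set.mem_iUnion₂]
    exact ⟨e, h1.2.2 he, cyl_anti hde hz⟩
  have h3 := (gen_cond h hd).cB.pos'
  rw [Set.sdiff_eq_empty.2 h2, measure_empty] at h3
  exact lt_irrefl _ h3

/-- `r` belongs to every open set of `W` which meets every condition below `c0` -/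
private theorem gen_opn (h : Ext W G) {r : Pt} (hr : IsR W G r) {c0 : ZFSet.{0}} (hc0 : c0 ∈ G)
    {d : W} (hd : ∀ e ∈ d.1, FinP (kap W) e) (hdc : Sz W d.1 Ordinal.omega0)
    (hpos : ∀ c, Cond W c → Le c c0 →
      0 < lam ((HNF.cyl (pS c) \ HNF.opn (pB c)) ∩ HNF.opn d.1)) :
    r ∈ HNF.opn d.1 := by
  obtain ⟨c, hc, e, he, hec⟩ := gen_meets h (D := fun c : W => ∃ e : W, e.1 ∈ d.1 ∧
      e.1 ⊆ (zS h.zfc c).1)
    (MD.ex (P := fun c e : W => e.1 ∈ d.1 ∧ e.1 ⊆ (zS h.zfc c).1)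
      (MD.and (MD.mem (DFc.snd DFc.id) (DFc.const _))
        (MD.sub h.zfc (DFc.snd DFc.id) (DFc.zS h.zfc (DFc.fst DFc.id))))) hc0 (by
      intro c hc hcc0
      have hp := hpos c.1 hc hcc0
      obtain ⟨t, e, he, hst, het, ht⟩ := hc.cB.ext_opn hd hdc.countable hp
      have hd' : Cond W (trip (pP c.1) t (pB c.1)) := cond_trip.2 ⟨hc.cP, ht⟩
      refine ⟨⟨_, hd'.mem h⟩, hd', ?_, ⟨e, h.zfc.trans _ d.2 e he⟩, he, ?_⟩
      · have h1 : Le (trip (pP c.1) t (pB c.1)) (trip (pP c.1) (pS c.1) (pB c.1)) :=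
          le_trip.2 ⟨subset_rfl, hst, subset_rfl⟩
        rwa [← hc.eq] at h1
      · have e' : (zS h.zfc ⟨trip (pP c.1) t (pB c.1), hd'.mem h⟩).1 = t := pS_trip _ _ _
        rw [e']
        exact het)
  unfold HNF.opn
  rw [Set.mem_iUnion₂]
  exact ⟨e.1, he, cyl_anti hec (hr.cyl c.1 hc)⟩

theorem rnd_opn (h : Ext W G) {r : Pt} (hr : IsR W G r) {d : W}
    (hd : ∀ e ∈ d.1, FinP (kap W) e) (hdc : Sz W d.1 Ordinal.omega0) (hfull : lam (opn d.1) = 1) :
    r ∈ opn d.1 := by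
  obtain ⟨c0, hc0⟩ := gen_ne h
  refine gen_opn h hr hc0 hd hdc fun c hc _ => ?_
  have hm := meas_opn hd hdc.countable
  have h1 := measure_inter_add_sdiff (μ := lam) (HNF.cyl (pS c) \ HNF.opn (pB c)) hm
  have h2 : lam ((HNF.cyl (pS c) \ HNF.opn (pB c)) \ HNF.opn d.1) = 0 := by
    refine measure_mono_null (fun z hz => hz.2) ?_ (t := (HNF.opn d.1)ᶜ)
    exact (prob_compl_eq_zero_iff hm).2 hfull
  rw [h2, add_zero] at h1
  rw [h1]
  exact hc.cB.pos'

private theorem wcard_omega (W : Set ZFSet.{0}) : WCard W Ordinal.omega0 := by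
  rw [← nu_zero W]
  exact nu_wcard W 0

theorem rnd_bc (h : Ext W G) {r : Pt} (hr : IsR W G r) {s b s' b' : ZFSet.{0}}
    (h1 : CondB W s b) (h2 : CondB W s' b') (h3 : r ∈ cyl s \ opn b) (h4 : r ∈ cyl s' \ opn b') :
    BC W s b s' b' := by
  by_contra hno
  have hnull : lam ((HNF.cyl s \ HNF.opn b) ∩ (HNF.cyl s' \ HNF.opn b')) = 0 := by
    by_contra hne
    exact hno (bc_of_pos h.zfc h1 h2 (pos_iff_ne_zero.2 hne))
  have hbit : ∀ {u : ZFSet.{0}}, FinP (kap W) u → r ∈ HNF.cyl u → ∀ t ∈ u, ∃ c ∈ G, t ∈ pS c := by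
    intro u hu hru t ht
    obtain ⟨j, hj, n, v, rfl⟩ := hu.form t ht
    obtain ⟨c', hc', h5⟩ := hr.bit j hj n
    rw [hru j n v ht] at h5
    exact ⟨c', hc', h5⟩
  obtain ⟨c, hc⟩ := gen_ne h
  obtain ⟨c1, hc1, -, h5⟩ := fin_dir h h1.fin.fin (hbit h1.fin h3.1) hc
  obtain ⟨c2, hc2, h12, h6⟩ := fin_dir h h2.fin.fin (hbit h2.fin h4.1) hc1
  have hbb : b ∪ b' ∈ W := h.zfc.zf0.un h1.mem h2.mem
  have hsub : ∀ e ∈ b ∪ b', FinP (kap W) e := by
    intro e he
    rcases ZFSet.mem_union.1 he with he | he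
    · exact h1.sub e he
    · exact h2.sub e he
  have hsz : Sz W (b ∪ b') Ordinal.omega0 :=
    sz_union h.zfc (wcard_omega W) h1.mem h2.mem h1.ctbl h2.ctbl
  have hr' := gen_opn h hr hc2 (d := ⟨b ∪ b', hbb⟩) hsub hsz fun c hcc hle => by
    have hm := meas_opn hsub hsz.countable
    have e1 := measure_inter_add_sdiff (μ := lam) (HNF.cyl (pS c) \ HNF.opn (pB c)) hm
    have l1 := (le_iff hcc (gen_cond h hc2)).1 hle
    have l2 := (le_iff (gen_cond h hc2) (gen_cond h hc1)).1 h12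
    have e2 : lam ((HNF.cyl (pS c) \ HNF.opn (pB c)) \ HNF.opn (b ∪ b')) = 0 := by
      refine measure_mono_null ?_ hnull
      rintro z ⟨⟨hz1, hz2⟩, hz3⟩
      rw [opn_union, Set.mem_union, not_or] at hz3
      refine ⟨⟨cyl_anti (fun t ht => l1.2.1 (l2.2.1 (h5 t ht))) hz1, hz3.1⟩,
        ⟨cyl_anti (fun t ht => l1.2.1 (h6 t ht)) hz1, hz3.2⟩⟩
    rw [e2, add_zero] at e1
    change 0 < lam ((HNF.cyl (pS c) \ HNF.opn (pB c)) ∩ HNF.opn (b ∪ b'))
    rw [e1]
    exact hcc.cB.pos'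
  change r ∈ HNF.opn (b ∪ b') at hr'
  rw [opn_union] at hr'
  rcases hr' with hr' | hr'
  · exact h3.2 hr'
  · exact h4.2 hr'

theorem rnd_avoid (h : Ext W G) {r : Pt} (hr : IsR W G r) {d : W → W} (hd : DFc W d)
    (hf : ∀ n : ℕ, ∀ e ∈ (d (znat h.zfc.zf0 n)).1, FinP (kap W) e)
    (hc : ∀ n : ℕ, Sz W (d (znat h.zfc.zf0 n)).1 Ordinal.omega0)
    (hε : ∀ ε : ENNReal, 0 < ε → ∃ n : ℕ, lam (opn (d (znat h.zfc.zf0 n)).1) < ε) :
    ∃ n : ℕ, r ∉ opn (d (znat h.zfc.zf0 n)).1 := by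
  have hz := h.zfc.zf0
  obtain ⟨c0, hc0⟩ := gen_ne h
  obtain ⟨c, hcG, n, hn, hdn⟩ := gen_meets h (D := fun c : W => ∃ n : W, n.1 ∈ (zom h.zfc.zf0).1 ∧
      (d n).1 ⊆ (zB h.zfc c).1)
    (MD.ex (P := fun c n : W => n.1 ∈ (zom h.zfc.zf0).1 ∧ (d n).1 ⊆ (zB h.zfc c).1)
      (MD.and (MD.mem (DFc.snd DFc.id) (DFc.const _))
        (MD.sub h.zfc (DFc.comp hd (DFc.snd DFc.id)) (DFc.zB h.zfc (DFc.fst DFc.id))))) hc0 (by
      intro c hcc _
      obtain ⟨N, hN⟩ := hε _ hcc.cB.pos'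
      have hW : pB c.1 ∪ (d (znat h.zfc.zf0 N)).1 ∈ W := hz.un hcc.cB.mem (d _).2
      have hpos : 0 < lam (HNF.cyl (pS c.1) \ HNF.opn (pB c.1 ∪ (d (znat h.zfc.zf0 N)).1)) := by
        rw [pos_iff_ne_zero]
        intro h0
        refine absurd hN (not_lt.2 ?_)
        calc lam (HNF.cyl (pS c.1) \ HNF.opn (pB c.1))
            ≤ lam ((HNF.cyl (pS c.1) \ HNF.opn (pB c.1 ∪ (d (znat h.zfc.zf0 N)).1)) ∪
              HNF.opn (d (znat h.zfc.zf0 N)).1) := by
              refine measure_mono fun z hz => ?_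
              by_cases hzd : z ∈ HNF.opn (d (znat h.zfc.zf0 N)).1
              · exact Or.inr hzd
              · left
                refine ⟨hz.1, ?_⟩
                rw [opn_union]
                rintro (h5 | h5)
                · exact hz.2 h5
                · exact hzd h5
          _ ≤ lam (HNF.cyl (pS c.1) \ HNF.opn (pB c.1 ∪ (d (znat h.zfc.zf0 N)).1)) +
              lam (HNF.opn (d (znat h.zfc.zf0 N)).1) := measure_union_le _ _
          _ = _ := by rw [h0, zero_add]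
      obtain ⟨t, hst, ht⟩ := exists_condB (W := W) hcc.cB.fin hW (fun e he => by
          rcases ZFSet.mem_union.1 he with he | he
          · exact hcc.cB.sub e he
          · exact hf N e he)
        (sz_union h.zfc (wcard_omega W) hcc.cB.mem (d _).2 hcc.cB.ctbl (hc N)) hpos
      have hd' : Cond W (trip (pP c.1) t (pB c.1 ∪ (d (znat h.zfc.zf0 N)).1)) :=
        cond_trip.2 ⟨hcc.cP, ht⟩
      refine ⟨⟨_, hd'.mem h⟩, hd', ?_, znat h.zfc.zf0 N, natZ_mem_omZ N, ?_⟩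
      · have h1 : Le (trip (pP c.1) t (pB c.1 ∪ (d (znat h.zfc.zf0 N)).1))
            (trip (pP c.1) (pS c.1) (pB c.1)) :=
          le_trip.2 ⟨subset_rfl, hst, fun z hz => ZFSet.mem_union.2 (Or.inl hz)⟩
        rwa [← hcc.eq] at h1
      · have e' : (zB h.zfc ⟨trip (pP c.1) t (pB c.1 ∪ (d (znat h.zfc.zf0 N)).1), hd'.mem h⟩).1 =
            pB c.1 ∪ (d (znat h.zfc.zf0 N)).1 := pB_trip _ _ _
        rw [e']
        exact fun z hz => ZFSet.mem_union.2 (Or.inr hz))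
  obtain ⟨N, hN⟩ := mem_omZ.1 hn
  have e1 : n = znat h.zfc.zf0 N := Subtype.ext hN
  refine ⟨N, fun hr1 => hr.opn c.1 hcG ?_⟩
  rw [← e1] at hr1
  exact opn_mono hdn hr1

end HNF
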