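import Pool.Agent.HNF.Read
import Pool.Agent.HNF.Rnd
import Pool.Agent.HNF.Fin
import Pool.Agent.HNF.Mea4

/-!
HNF CODA: the random reals avoid (in the sense of `≠*`) all reals with a code not mentioning them.

`rr r j` is the `j`-th random real: its value at `n` is the number of the sequence `r (j, 0), ..., r (j, n - 1)`.  `tt m` is the
sequence (padded with `false`) with number `m`.  `shfZ j t` is the set of all `bitZ j k v` with `bitZ 0 k v ∈ t`.

PROOFS.
`tt_rr`: `Encodable.encodek`, `List.getD` of `List.ofFn`.  `shf_blk`: `mem_blk`, `bitZ_inj`.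
`DFc.zshf`: the graph of `t ↦ shfZ j t`: `∀ w : W, w ∈ y ↔ w ∈ D ∧ ∃ k u : W, w = pair (pair j k) u ∧ pair (pair 0 k) u ∈ t`,
`D = ({j} × ω) × 2`.
`MD.isBlk`: `IsBlk (natZ n) t` iff `FinP κ t` (`MD.finP`), every element of `t` is `pair (pair 0 k) u` with `k ∈ n`, `u ∈ 2`, and for
every `k ∈ n` there is such an element (quantifiers over `W`; in general for `x` in place of `natZ n` require `x ∈ ω`).
`ne_code`.  `A`, `f` as in the statement (`RdP` with `δ = 0`, `l = ω`).  For `N ∈ ω` let `dd N` be the set of all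
`pS d ∪ shfZ j t` such that `ztr n d (pair m t) ∈ A`, `N ⊆ n` and `IsBlk n t` (image of a definable subset of `A` under a
definable function, with parameter `N`: `sepF`, `replF`, `zfst`, `zsnd`, `zun`, `zS`); so `DFc W dd`.  If `t = blk 0 σ n` then
`shfZ j t = blk j σ n`, and `pS d ∪ blk j σ n` is `FinP κ` (`finP_union_blk`, by the hypothesis on `j`).  `Sz W (dd N) ω` as an
image of a subset of `A`.  Apply `borel_cantelli` to the countable (`Sz.countable`) type `ι` of all `w ∈ A`, `w =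
ztr n d (pair m t)` with `IsBlk n t` (choose `n w : ℕ`, `d w`, `σ w` with `t = blk 0 (σ w) (n w)`), `s w = pS (d w)`,
`b w = pB (d w)` (`Cond.cB`).  `hdis`: if `w ≠ w'`, `n w = n w'`, then `d w ≠ d w'` (by `uniq`), so `¬ LowC W 0 (d w) (d w')` by
`inc`, i.e. `¬ BC` (`levLt_zero`), and the intersection is a null set by `bc_of_pos`.  So for all `ε > 0` there is `N` with
`lam (opn (dd N)) < ε`.  By `rnd_avoid` there is `N` with `r ∉ opn (dd N)`.  Claim: `rr r j n ≠ x n` for all `n ≥ N`.  Let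
`rr r j n = x n`, `n ≥ N`.  By `real` there are `d ∈ G` and `v` with `ztr n d v ∈ A` and
`v = f n = pair (natZ (x n)) (blk 0 (tt (x n)) n)`.  By `tt_rr`, `tt (x n) k = r (j, k)` for `k < n`, so
`r ∈ cyl (blk j (tt (x n)) n)` (`mem_cyl_blk`), and `r ∈ cyl (pS d)` (`IsR.cyl`).  So `r ∈ opn (dd N)`, a contradiction.
-/

namespace HNF

open RMK Set MeasureTheory Pool.Agent.Helper66.HD

variable {W G : Set ZFSet.{0}} {X : Type 1} [Ctx W X]

/-- the `j`-th random real -/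
noncomputable def rr (r : Pt) (j : Ordinal.{0}) : ℕ → ℕ := fun n =>
  Encodable.encode (List.ofFn fun k : Fin n => r (j, (k : ℕ)))

/-- the finite sequence with number `m` -/
noncomputable def tt (m : ℕ) : ℕ → Bool := fun k =>
  ((Encodable.decode (α := List Bool) m).getD []).getD k false

theorem tt_rr (r : Pt) (j : Ordinal.{0}) {n k : ℕ} (hk : k < n) : tt (rr r j n) k = r (j, k) := by
  unfold tt rr
  rw [Encodable.encodek, Option.getD_some]
  rw [List.getD_eq_getElem _ _ (by simpa using hk)]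
  simp

private theorem digit_mem (v : Bool) : natZ (if v then 1 else 0) ∈ natZ 2 := by
  unfold natZ
  rw [Ordinal.toZFSet_mem_toZFSet_iff]
  cases v
  · norm_num
  · norm_num

private theorem mem_natZ {n : ℕ} {x : ZFSet.{0}} : x ∈ natZ n ↔ ∃ k < n, x = natZ k := by
  unfold natZ
  rw [Ordinal.mem_toZFSet_iff]
  constructor
  · rintro ⟨a, ha, rfl⟩
    obtain ⟨k, rfl⟩ := Ordinal.lt_omega0.1 (ha.trans (Ordinal.natCast_lt_omega0 n))
    exact ⟨k, by exact_mod_cast ha, rfl⟩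
  · rintro ⟨k, hk, rfl⟩
    exact ⟨k, by exact_mod_cast hk, rfl⟩

private theorem natZ_sub {m n : ℕ} : natZ m ⊆ natZ n ↔ m ≤ n := by
  unfold natZ
  rw [Ordinal.toZFSet_subset_toZFSet_iff]
  exact_mod_cast Iff.rfl

private theorem mem_two {u : ZFSet.{0}} (hu : u ∈ natZ 2) :
    ∃ v : Bool, u = natZ (if v then 1 else 0) := by
  obtain ⟨k, hk, rfl⟩ := mem_natZ.1 hu
  interval_cases k
  · exact ⟨false, rfl⟩
  · exact ⟨true, rfl⟩

/-- the digits at coordinate `0` moved to coordinate `j` -/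
noncomputable def shfZ (j : Ordinal.{0}) (t : ZFSet.{0}) : ZFSet.{0} :=
  ZFSet.sep (fun w => ∃ k v, w = bitZ j k v ∧ bitZ 0 k v ∈ t)
    ((({j.toZFSet} : ZFSet.{0}).prod omZ).prod (natZ 2))

theorem mem_shfZ {j : Ordinal.{0}} {t w : ZFSet.{0}} :
    w ∈ shfZ j t ↔ ∃ k v, w = bitZ j k v ∧ bitZ 0 k v ∈ t := by
  unfold shfZ
  rw [ZFSet.mem_sep]
  constructor
  · exact fun h => h.2
  · rintro ⟨k, v, rfl, h⟩
    refine ⟨?_, k, v, rfl, h⟩
    unfold bitZ
    rw [ZFSet.pair_mem_prod, ZFSet.pair_mem_prod]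
    exact ⟨⟨ZFSet.mem_singleton.2 rfl, natZ_mem_omZ k⟩, digit_mem v⟩

theorem shf_blk (j : Ordinal.{0}) (σ : ℕ → Bool) (n : ℕ) : shfZ j (blk 0 σ n) = blk j σ n := by
  ext w
  rw [mem_shfZ, mem_blk]
  constructor
  · rintro ⟨k, v, rfl, h⟩
    obtain ⟨k', hk', e⟩ := mem_blk.1 h
    obtain ⟨-, rfl, rfl⟩ := bitZ_inj.1 e
    exact ⟨k, hk', rfl⟩
  · rintro ⟨k, hk, rfl⟩
    exact ⟨k, σ k, rfl, mem_blk.2 ⟨k, hk, rfl⟩⟩

private theorem exists_shf (h : InnerZFC W) (j : Ordinal.{0}) :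
    ∃ f : W → W, DFc W f ∧ ∀ t : W, (f t).1 = shfZ j t.1 := by
  have hz := h.zf0
  obtain ⟨f, hf, hf'⟩ := hz.sepF (X := W)
    (a := fun _ => zpd hz (zpd hz (zsg hz (ordW h j)) (zom hz)) (znat hz 2)) (DFc.const _)
    (P := fun t w => ∃ k u : W, k.1 ∈ (zom hz).1 ∧ u.1 ∈ (znat hz 2).1 ∧
      w = zpr hz (zpr hz (ordW h j) k) u ∧ (zpr hz (zpr hz (ordW h 0) k) u).1 ∈ t.1)
    (by (repeat' (first | (with_reducible first | exact DFc.id | exact DFc.const _ | exact MD.const _ | apply MD.and | apply MD.or | apply MD.iff | apply MD.not | apply MD.imp | apply MD.ex | apply MD.all | apply MD.zpair_mem hz | apply MD.eq_zpair hz | apply MD.isFn hz | apply MD.isO hz | apply MD.mem | apply MD.eq | apply DFc.zpr hz | apply DFc.zap hz | apply DFc.zun hz | apply DFc.zsg hz | apply DFc.zsU hz | apply DFc.ztr hz | apply DFc.zup hz | apply DFc.zpd hz) | (with_reducible apply DFc.fst) | (with_reducible apply DFc.snd) | (with_reducible apply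 DFc.mk))))
  refine ⟨f, hf, fun t => ?_⟩
  ext w
  rw [mem_shfZ]
  constructor
  · intro hw
    obtain ⟨-, k, u, hk, hu, e, ht⟩ := (hf' t ⟨w, h.trans _ (f t).2 _ hw⟩).1 hw
    obtain ⟨k', hk'⟩ := mem_omZ.1 hk
    obtain ⟨v, hv⟩ := mem_two hu
    refine ⟨k', v, ?_, ?_⟩
    · have e1 := congrArg Subtype.val e
      change w = ZFSet.pair (ZFSet.pair j.toZFSet k.1) u.1 at e1
      rw [e1, hk', hv]
      rfl
    · change ZFSet.pair (ZFSet.pair (0 : Ordinal.{0}).toZFSet k.1) u.1 ∈ t.1 at ht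
      rw [hk', hv] at ht
      exact ht
  · rintro ⟨k, v, rfl, ht⟩
    refine (hf' t ⟨bitZ j k v, bitZ_mem h j k v⟩).2 ⟨?_, znat hz k,
      znat hz (if v then 1 else 0), natZ_mem_omZ k, digit_mem v, rfl, ht⟩
    change bitZ j k v ∈ ((({j.toZFSet} : ZFSet.{0}).prod omZ).prod (natZ 2))
    unfold bitZ
    rw [ZFSet.pair_mem_prod, ZFSet.pair_mem_prod]
    exact ⟨⟨ZFSet.mem_singleton.2 rfl, natZ_mem_omZ k⟩, digit_mem v⟩

theorem shfZ_mem (h : InnerZFC W) (j : Ordinal.{0}) {t : ZFSet.{0}} (ht : t ∈ W) :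
    shfZ j t ∈ W := by
  obtain ⟨f, -, hf⟩ := exists_shf h j
  rw [← hf ⟨t, ht⟩]
  exact (f ⟨t, ht⟩).2

/-- `shfZ` as an operation on `W` -/
noncomputable def zshf (h : InnerZFC W) (j : Ordinal.{0}) (t : W) : W :=
  ⟨shfZ j t.1, shfZ_mem h j t.2⟩

theorem DFc.zshf (h : InnerZFC W) (j : Ordinal.{0}) {f : X → W} (hf : DFc W f) :
    DFc W fun x => zshf h j (f x) := by
  obtain ⟨g, hg, hg'⟩ := exists_shf h j
  have e : (fun x => HNF.zshf h j (f x)) = fun x => g (f x) := by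
    funext x
    exact Subtype.ext (hg' (f x)).symm
  rw [e]
  exact DFc.comp hg hf

/-- `t` codes a sequence of length `x ∈ ω` -/
def IsBlk (x t : ZFSet.{0}) : Prop := ∃ (n : ℕ) (σ : ℕ → Bool), x = natZ n ∧ t = blk 0 σ n

theorem MD.isBlk (h : InnerZFC W) (hg : GCHW W) {f g : X → W} (hf : DFc W f) (hg' : DFc W g) :
    MD W fun x => IsBlk (f x).1 (g x).1 := by
  have hz := h.zf0
  have hκ : (0 : Ordinal.{0}) < kap W := lt_of_lt_of_le Ordinal.omega0_pos (omega_le_nu W _)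
  have h1 : MD W fun p : W × W => p.1.1 ∈ (zom hz).1 ∧ FinP (kap W) p.2.1 ∧
      (∀ w : W, w.1 ∈ p.2.1 → ∃ k u : W, k.1 ∈ p.1.1 ∧ u.1 ∈ (znat hz 2).1 ∧
        w = zpr hz (zpr hz (ordW h 0) k) u) ∧
      ∀ k : W, k.1 ∈ p.1.1 → ∃ u : W, (zpr hz (zpr hz (ordW h 0) k) u).1 ∈ p.2.1 := by
    (repeat' (first | (with_reducible first | exact DFc.id | exact DFc.const _ | exact MD.const _ | apply MD.and | apply MD.or | apply MD.iff | apply MD.not | apply MD.imp | apply MD.ex | apply MD.all | apply MD.zpair_mem hz | apply MD.eq_zpair hz | apply MD.isFn hz | apply MD.isO hz | apply MD.mem | apply MD.eq | apply DFc.zpr hz | apply DFc.zap hz | apply DFc.zun hz | apply DFc.zsg hz | apply DFc.zsU hz | apply DFc.ztr hz | apply DFc.zup hz | apply DFc.zpd hz) | (with_reducible first | exact (MD.finP h hg) | apply (MD.finP h hg) | apply MD.comp2 (MD.finP h hg) | apply DFc.comp2 (MD.finP h hg) | apply MD.comp3 (MD.finP h hg) | apply DFc.comp3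 (MD.finP h hg) | apply MD.comp (MD.finP h hg) | apply DFc.comp (MD.finP h hg)) | (with_reducible apply DFc.fst) | (with_reducible apply DFc.snd) | (with_reducible apply DFc.mk)))
  refine MD.comp2 (P := fun a b : W => IsBlk a.1 b.1) ?_ hf hg'
  refine MD.congr ?_ h1
  rintro ⟨a, b⟩
  change (a.1 ∈ omZ ∧ FinP (kap W) b.1 ∧
      (∀ w : W, w.1 ∈ b.1 → ∃ k u : W, k.1 ∈ a.1 ∧ u.1 ∈ natZ 2 ∧
        w = zpr hz (zpr hz (ordW h 0) k) u) ∧
      ∀ k : W, k.1 ∈ a.1 → ∃ u : W, (zpr hz (zpr hz (ordW h 0) k) u).1 ∈ b.1) ↔ IsBlk a.1 b.1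
  constructor
  · rintro ⟨ha, hb, h2, h3⟩
    obtain ⟨n, hn⟩ := mem_omZ.1 ha
    have key : ∀ w ∈ b.1, ∃ k < n, ∃ v, w = bitZ 0 k v := by
      intro w hw
      obtain ⟨k, u, hk, hu, e⟩ := h2 ⟨w, h.trans _ b.2 _ hw⟩ hw
      rw [hn] at hk
      obtain ⟨k', hk', ek⟩ := mem_natZ.1 hk
      obtain ⟨v, hv⟩ := mem_two hu
      refine ⟨k', hk', v, ?_⟩
      have e1 := congrArg Subtype.val e
      change w = ZFSet.pair (ZFSet.pair (0 : Ordinal.{0}).toZFSet k.1) u.1 at e1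
      rw [e1, ek, hv]
      rfl
    classical
    have hv : ∀ k v, bitZ 0 k v ∈ b.1 → v = decide (bitZ 0 k true ∈ b.1) := by
      intro k v hk
      cases v
      · symm
        rw [decide_eq_false_iff_not]
        intro h5
        exact hb.fn 0 k ⟨h5, hk⟩
      · symm
        rw [decide_eq_true_iff]
        exact hk
    refine ⟨n, fun k => decide (bitZ 0 k true ∈ b.1), hn, ?_⟩
    ext w
    rw [mem_blk]
    constructor
    · intro hw
      obtain ⟨k, hk, v, rfl⟩ := key w hw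
      exact ⟨k, hk, by rw [← hv k v hw]⟩
    · rintro ⟨k, hk, rfl⟩
      obtain ⟨u, hu⟩ := h3 (znat hz k) (by rw [hn]; exact mem_natZ.2 ⟨k, hk, rfl⟩)
      obtain ⟨k', -, v, e⟩ := key _ hu
      have e2 : (zpr hz (zpr hz (ordW h 0) (znat hz k)) u).1 =
          ZFSet.pair (ZFSet.pair (0 : Ordinal.{0}).toZFSet (natZ k)) u.1 := rfl
      have e3 := e
      rw [e2] at e3
      unfold bitZ at e3
      rw [ZFSet.pair_inj, ZFSet.pair_inj, natZ_inj] at e3
      obtain ⟨⟨-, rfl⟩, -⟩ := e3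
      rw [e] at hu
      rw [← hv k v hu]
      exact hu
  · rintro ⟨n, σ, ha, hb⟩
    rw [ha, hb]
    refine ⟨natZ_mem_omZ n, finP_blk hκ σ n, ?_, ?_⟩
    · intro w hw
      obtain ⟨k, hk, e⟩ := mem_blk.1 hw
      exact ⟨znat hz k, znat hz (if σ k then 1 else 0), mem_natZ.2 ⟨k, hk, rfl⟩, digit_mem _,
        Subtype.ext e⟩
    · intro k hk
      obtain ⟨k', hk', e⟩ := mem_natZ.1 hk
      refine ⟨znat hz (if σ k' then 1 else 0), ?_⟩
      change ZFSet.pair (ZFSet.pair (0 : Ordinal.{0}).toZFSet k.1) (natZ (if σ k' then 1 else 0)) ∈ _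
      rw [e]
      exact mem_blk.2 ⟨k', hk', rfl⟩

theorem ne_code (h : Ext W G) {r : Pt} (hr : IsR W G r) {x : ℕ → ℕ} {V c1 A : W} {f : W → W}
    (hf : ∀ n : ℕ, (f (znat h.zfc.zf0 n)).1 = ZFSet.pair (natZ (x n)) (blk 0 (tt (x n)) n))
    (hA : RdP h 0 Ordinal.omega0 (zom h.zfc.zf0) V f c1 A) {j : Ordinal.{0}} (hj : j < kap W)
    (hjA : ∀ i d v : W, (ztr h.zfc.zf0 i d v).1 ∈ A.1 → ∀ k u, bitZ j k u ∉ pS d.1) :
    neStar (rr r j) x := by
  have hz := h.zfc.zf0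
  have hblk : ∀ i t : W, IsBlk i.1 t.1 → ∃ (n : ℕ) (σ : ℕ → Bool), i.1 = natZ n ∧
      t.1 = blk 0 σ n := fun i t hb => hb
  -- the function giving the finite functions
  set F : W → W := fun w => zun hz (zS h.zfc (zfst hz (zsnd hz w)))
    (zshf h.zfc j (zsnd hz (zsnd hz (zsnd hz w)))) with hFdef
  have hF : DFc W F :=
    DFc.zun hz (DFc.zS h.zfc (DFc.zfst hz (DFc.zsnd hz DFc.id)))
      (DFc.zshf h.zfc j (DFc.zsnd hz (DFc.zsnd hz (DFc.zsnd hz DFc.id))))
  have hFv : ∀ i d m t : W, (F (ztr hz i d (zpr hz m t))).1 = pS d.1 ∪ shfZ j t.1 := by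
    intro i d m t
    have e1 : zsnd hz (ztr hz i d (zpr hz m t)) = zpr hz d (zpr hz m t) :=
      Subtype.ext (sndZ_pair _ _)
    rw [hFdef]
    change (zS h.zfc (zfst hz (zsnd hz (ztr hz i d (zpr hz m t))))).1 ∪
      (zshf h.zfc j (zsnd hz (zsnd hz (zsnd hz (ztr hz i d (zpr hz m t)))))).1 = _
    rw [e1, zfst_zpr, zsnd_zpr, zsnd_zpr]
    rfl
  obtain ⟨a, ha, ha'⟩ := hz.sepF (X := W) (a := fun _ => A) (DFc.const _)
    (P := fun N w => ∃ i d m t : W, w = ztr hz i d (zpr hz m t) ∧ N.1 ⊆ i.1 ∧ IsBlk i.1 t.1)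
    (by (repeat' (first | (with_reducible first | exact DFc.id | exact DFc.const _ | exact MD.const _ | apply MD.and | apply MD.or | apply MD.iff | apply MD.not | apply MD.imp | apply MD.ex | apply MD.all | apply MD.zpair_mem hz | apply MD.eq_zpair hz | apply MD.isFn hz | apply MD.isO hz | apply MD.mem | apply MD.eq | apply DFc.zpr hz | apply DFc.zap hz | apply DFc.zun hz | apply DFc.zsg hz | apply DFc.zsU hz | apply DFc.ztr hz | apply DFc.zup hz | apply DFc.zpd hz) | (with_reducible first | exact (MD.isBlk h.zfc h.gch) | apply (MD.isBlk h.zfc h.gch) | apply MD.comp2 (MD.isBlk h.zfc h.gch) | apply DFc.comp2 (MD.isBlk h.zfc h.gch) | apply MD.comp3 (MD.isBlk h.zfc h.gch) | apply DFc.comp3 (MD.isBlk h.zfc h.gch) | apply MD.comp (MD.isBlk h.zfc h.gch) | apply DFc.comp (MD.isBlk h.zfc h.gch)) | (with_reducible first | exact (MD.sub h.zfc) | apply (MD.sub h.zfc) | apply MD.comp2 (MD.sub h.zfc) | apply DFc.comp2 (MD.sub h.zfc)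 | apply MD.comp3 (MD.sub h.zfc) | apply DFc.comp3 (MD.sub h.zfc) | apply MD.comp (MD.sub h.zfc) | apply DFc.comp (MD.sub h.zfc)) | (with_reducible apply DFc.fst) | (with_reducible apply DFc.snd) | (with_reducible apply DFc.mk))))
  obtain ⟨dd, hdd, hdd'⟩ := hz.replF (X := W) (a := a) ha (F := fun _ w => F w)
    (DFc.comp hF (DFc.snd DFc.id))
  have hdd1 : ∀ (N : ℕ) (e : ZFSet.{0}), e ∈ (dd (znat hz N)).1 ↔ ∃ (n : ℕ) (σ : ℕ → Bool)
      (d m t : W), (ztr hz (znat hz n) d (zpr hz m t)).1 ∈ A.1 ∧ N ≤ n ∧ t.1 = blk 0 σ n ∧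
      e = pS d.1 ∪ blk j σ n := by
    intro N e
    constructor
    · intro he
      obtain ⟨w, hw, ew⟩ := (hdd' (znat hz N) ⟨e, h.zfc.trans _ (dd (znat hz N)).2 _ he⟩).1 he
      obtain ⟨hwA, i, d, m, t, rfl, hNi, hit⟩ := (ha' (znat hz N) w).1 hw
      obtain ⟨n, σ, hn, ht⟩ := hblk i t hit
      have ei : i = znat hz n := Subtype.ext hn
      subst ei
      refine ⟨n, σ, d, m, t, hwA, natZ_sub.1 hNi, ht, ?_⟩
      have e1 := congrArg Subtype.val ew
      change e = (F (ztr hz (znat hz n) d (zpr hz m t))).1 at e1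
      rw [e1, hFv, ht, shf_blk]
    · rintro ⟨n, σ, d, m, t, hA1, hNn, ht, rfl⟩
      have e1 : (F (ztr hz (znat hz n) d (zpr hz m t))).1 = pS d.1 ∪ blk j σ n := by
        rw [hFv, ht, shf_blk]
      rw [← e1]
      refine (hdd' (znat hz N) _).2 ⟨ztr hz (znat hz n) d (zpr hz m t), ?_, rfl⟩
      exact (ha' (znat hz N) _).2 ⟨hA1, znat hz n, d, m, t, rfl, natZ_sub.2 hNn, n, σ, rfl, ht⟩
  have hcond : ∀ i d v : W, (ztr hz i d v).1 ∈ A.1 → Cond W d.1 := by
    intro i d v hw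
    obtain ⟨i', d', v', e, -, hc, -⟩ := hA.form _ hw
    have e1 : ZFSet.pair i.1 (ZFSet.pair d.1 v.1) = ZFSet.pair i'.1 (ZFSet.pair d'.1 v'.1) :=
      congrArg Subtype.val e
    rw [ZFSet.pair_inj, ZFSet.pair_inj] at e1
    rw [e1.2.1]
    exact hc
  -- the index type
  let ι : Type 1 := {w : W // w.1 ∈ A.1 ∧ ∃ i d m t : W, w = ztr hz i d (zpr hz m t) ∧
    IsBlk i.1 t.1}
  have hcnt : Countable ι := by
    have h1 : Countable {z : ZFSet.{0} | z ∈ A.1} := (hA.sz.countable).to_subtype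
    refine Function.Injective.countable (f := fun w : ι =>
      (⟨w.1.1, w.2.1⟩ : {z : ZFSet.{0} | z ∈ A.1})) ?_
    intro w w' e
    have e1 : w.1.1 = w'.1.1 := congrArg (fun z : {z : ZFSet.{0} | z ∈ A.1} => z.1) e
    exact Subtype.ext (Subtype.ext e1)
  have hch : ∀ w : ι, ∃ (n : ℕ) (σ : ℕ → Bool) (d m t : W),
      w.1 = ztr hz (znat hz n) d (zpr hz m t) ∧ t.1 = blk 0 σ n := by
    rintro ⟨w, hw, i, d, m, t, e, hit⟩
    obtain ⟨n, σ, hn, ht⟩ := hblk i t hit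
    have ei : i = znat hz n := Subtype.ext hn
    subst ei
    exact ⟨n, σ, d, m, t, e, ht⟩
  choose nn σσ D M T hw1 hw2 using hch
  have hDA : ∀ w : ι, (ztr hz (znat hz (nn w)) (D w) (zpr hz (M w) (T w))).1 ∈ A.1 := by
    intro w
    rw [← hw1 w]
    exact w.2.1
  have hDc : ∀ w : ι, CondB W (pS (D w).1) (pB (D w).1) := fun w => (hcond _ _ _ (hDA w)).cB
  have hε : ∀ ε : ENNReal, 0 < ε → ∃ N : ℕ, lam (opn (dd (znat hz N)).1) < ε := by
    intro ε hε
    obtain ⟨N, hN⟩ := borel_cantelli (κ := kap W) (fun w : ι => pS (D w).1)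
      (fun w => pB (D w).1) nn σσ (fun w => (hDc w).fin) (fun w => (hDc w).sub)
      (fun w => (hDc w).ctbl.countable) (fun w => (hDc w).pos)
      (by
        intro w w' hne hnn
        have hd : D w ≠ D w' := by
          intro e
          apply hne
          have h1 := hDA w
          have h2 := hDA w'
          rw [← hnn, ← e] at h2
          have h3 := hA.uniq _ _ _ _ h1 h2
          apply Subtype.ext
          rw [hw1 w, hw1 w', ← hnn, ← e, h3]
        have h1 := hDA w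
        have h2 := hDA w'
        rw [← hnn] at h2
        have h3 := hA.inc _ _ _ _ _ h1 h2 hd
        by_contra h4
        apply h3
        refine ⟨?_, bc_of_pos h.zfc (hDc w) (hDc w') (pos_iff_ne_zero.2 h4)⟩
        rw [levLt_zero, levLt_zero]
        intro x y y' hx
        rw [ZFSet.mem_union] at hx
        rcases hx with hx | hx
        · exact absurd hx (ZFSet.notMem_empty _)
        · exact absurd hx (ZFSet.notMem_empty _))
      hj (fun w m v => hjA _ _ _ (hDA w) m v) hε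
    refine ⟨N, lt_of_le_of_lt (measure_mono ?_) hN⟩
    intro z hzo
    unfold opn at hzo
    rw [Set.mem_iUnion₂] at hzo
    obtain ⟨e, he, hze⟩ := hzo
    obtain ⟨n, σ, d, m, t, hA1, hNn, ht, rfl⟩ := (hdd1 N e).1 he
    let w : ι := ⟨ztr hz (znat hz n) d (zpr hz m t), hA1, znat hz n, d, m, t, rfl, n, σ, rfl, ht⟩
    have e1 : ZFSet.pair (natZ n) (ZFSet.pair d.1 (ZFSet.pair m.1 t.1)) =
        ZFSet.pair (natZ (nn w)) (ZFSet.pair (D w).1 (ZFSet.pair (M w).1 (T w).1)) :=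
      congrArg Subtype.val (hw1 w)
    rw [ZFSet.pair_inj, ZFSet.pair_inj, ZFSet.pair_inj, natZ_inj] at e1
    obtain ⟨e2, e3, -, e4⟩ := e1
    rw [Set.mem_iUnion₂]
    refine ⟨w, ?_, ?_⟩
    · change N ≤ nn w
      rw [← e2]
      exact hNn
    · have e5 : blk j (σσ w) (nn w) = blk j σ n := by
        rw [← shf_blk j (σσ w), ← shf_blk j σ, ← hw2 w, ← e4, ht]
      rw [e5, ← e3]
      exact hze
  obtain ⟨N, hN⟩ := rnd_avoid h hr hdd
    (by
      intro N e he
      obtain ⟨n, σ, d, m, t, hA1, hNn, ht, rfl⟩ := (hdd1 N e).1 he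
      exact finP_union_blk (hcond _ _ _ hA1).cB.fin hj (fun k v => hjA _ _ _ hA1 k v) σ n)
    (by
      intro N
      refine hA.sz.image h.zfc hF (y := (dd (znat hz N)).1) ?_
      intro e he
      obtain ⟨n, σ, d, m, t, hA1, hNn, ht, rfl⟩ := (hdd1 N e).1 he
      refine ⟨_, hA1, ?_⟩
      rw [hFv, ht, shf_blk])
    hε
  refine (Set.finite_Iio N).subset ?_
  intro n hn
  rw [Set.mem_Iio]
  by_contra hNn
  rw [not_lt] at hNn
  have hn' : rr r j n = x n := by
    by_contra h1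
    exact hn h1
  obtain ⟨d, v, hA1, hdG, hfv⟩ := hA.real (znat hz n) (natZ_mem_omZ n)
  have e1 : v.1 = ZFSet.pair (natZ (x n)) (blk 0 (tt (x n)) n) := by
    rw [← hfv, hf n]
  have ht : blk 0 (tt (x n)) n ∈ W := hz.pair_right (by rw [← e1]; exact v.2)
  have e2 : v = zpr hz (znat hz (x n)) ⟨blk 0 (tt (x n)) n, ht⟩ := Subtype.ext e1
  apply hN
  unfold opn
  rw [Set.mem_iUnion₂]
  refine ⟨pS d.1 ∪ blk j (tt (x n)) n, ?_, ?_⟩
  · refine (hdd1 N _).2 ⟨n, tt (x n), d, znat hz (x n), ⟨blk 0 (tt (x n)) n, ht⟩, ?_, hNn, rfl, rfl⟩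
    rw [← e2]
    exact hA1
  · rw [cyl_union]
    refine ⟨hr.cyl _ hdG, ?_⟩
    rw [mem_cyl_blk]
    intro k hk
    rw [← hn', tt_rr r j hk]

end HNF
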