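import Pool.Agent.HNF.Coda

/-!
HNF CODB: every real of the extension has a code in `W`.

`Val r a x`: `x` is the real with code `a`.  `InSup a j`: the ordinal `j` occurs in the code `a`.

PROOF of `exists_code`.  Let `Q` be the set of `exists_finSet`, `V = ω × Q` (`zpd`), and let `f : W → W` map `natZ n` to
`pair (natZ (x n)) (blk 0 (tt (x n)) n)` (`finP_blk`, `0 < kap`; an element of `V`, hence of `W`) and everything else to some fixed
element.  `read` with `δ = 0`, `l = ω` (`OKd`), `I = zom` (`Sz ω ω`: `sz_ord`) gives `c1`, `A` with `RdP`.  Let `a` be the set of all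
`qd n (pS d) (pB d) m` such that `ztr n d (pair m t) ∈ A` for some `t` (an image of `A` under the definable function
`w ↦ qd (fst w) (zS (fst (snd w))) (zB (fst (snd w))) (fst (snd (snd w)))`; `hz.repl`, `Sz.image`).  `Cds W a`: `Cond.cB`.
`Val`: let `x n = m`.  By `real` there are `d ∈ G`, `v = f n = pair (natZ m) t` with `ztr n d v ∈ A`; `r ∈ cyl (pS d)`,
`r ∉ opn (pB d)` by `IsR`.  Conversely let `qd n s b m ∈ a` with `r ∈ cyl s \ opn b`, from `ztr n d v ∈ A`, `v = pair m t`,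
`s = pS d`, `b = pB d`.  By `real` there are `d' ∈ G`, `v'` with `ztr n d' v' ∈ A`, `v' = f n`.  If `d ≠ d'` then
`¬ LowC W 0 d d'` (`inc`), so `¬ BC` (`levLt_zero`), which contradicts `rnd_bc` (both closed sets contain `r`).  So `d = d'`,
`v = v'` (`uniq`) and `m = x n`.
The last clause is `ne_code`: if `j` does not occur in `a` then it does not occur in `pS d` for any `ztr i d v ∈ A` (`v` is a pair
since `v ∈ V`).
`Val.inj`: immediate.  `countable_inSup`: `a` is countable (`Sz.countable`) and each `s` is finite (`FinP.fin`).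
-/

namespace HNF

open RMK Set MeasureTheory Pool.Agent.Helper66.HD

variable {W G : Set ZFSet.{0}}

/-- `x` is the real with code `a` -/
def Val (r : Pt) (a : ZFSet.{0}) (x : ℕ → ℕ) : Prop :=
  ∀ n m, x n = m ↔ ∃ s b, qd (natZ n) s b (natZ m) ∈ a ∧ r ∈ cyl s ∧ r ∉ opn b

/-- the ordinal `j` occurs in the code `a` -/
def InSup (a : ZFSet.{0}) (j : Ordinal.{0}) : Prop :=
  ∃ n s b m k v, qd n s b m ∈ a ∧ bitZ j k v ∈ s

theorem Val.inj {r : Pt} {a : ZFSet.{0}} {x y : ℕ → ℕ} (hx : Val r a x) (hy : Val r a y) :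
    x = y := by
  funext n
  exact ((hy n (x n)).2 ((hx n (x n)).1 rfl)).symm

theorem countable_inSup {a : ZFSet.{0}} (ha : Cds W a) : {j | InSup a j}.Countable := by
  have h1 : (⋃ w ∈ {w : ZFSet.{0} | w ∈ a}, {t : ZFSet.{0} | t ∈ fstZ (sndZ w)}).Countable := by
    refine ha.2.1.countable.biUnion fun w hw => Set.Finite.countable ?_
    obtain ⟨n, m, s, b, rfl, hs, -⟩ := ha.2.2 w hw
    have e : fstZ (sndZ (qd (natZ n) s b (natZ m))) = s := by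
      unfold qd trip
      rw [sndZ_pair, fstZ_pair]
    rw [e]
    exact hs.fin
  refine (h1.biUnion (t := fun t _ => {j : Ordinal.{0} | ∃ k v, t = bitZ j k v}) fun t _ =>
    Set.Subsingleton.countable ?_).mono ?_
  · rintro j ⟨k, v, hj⟩ j' ⟨k', v', hj'⟩
    exact (bitZ_inj.1 (hj.symm.trans hj')).1
  · rintro j ⟨n, s, b, m, k, v, hq, hs⟩
    refine Set.mem_biUnion (x := bitZ j k v) ?_ ⟨k, v, rfl⟩
    refine Set.mem_biUnion (x := qd n s b m) hq ?_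
    have e : fstZ (sndZ (qd n s b m)) = s := by
      unfold qd trip
      rw [sndZ_pair, fstZ_pair]
    rw [Set.mem_ofPred_eq, e]
    exact hs

theorem exists_code (h : Ext W G) {r : Pt} (hr : IsR W G r) (x : ℕ → ℕ) :
    ∃ a, Cds W a ∧ Val r a x ∧ ∀ j < kap W, ¬ InSup a j → neStar (rr r j) x := by
  classical
  have hz := h.zfc.zf0
  obtain ⟨Q, hQ, -⟩ := exists_finSet h.zfc h.gch
  have hk0 : 0 < kap W := Ordinal.omega0_pos.trans_le (omega_le_nu W _)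
  have hblk : ∀ n, blk 0 (tt (x n)) n ∈ Q.1 := fun n => (hQ _).2 (finP_blk hk0 _ n)
  obtain ⟨g, hg⟩ : ∃ g : ℕ → W, ∀ n, (g n).1 =
      ZFSet.pair (natZ (x n)) (blk 0 (tt (x n)) n) :=
    ⟨fun n => ⟨_, h.zfc.zf0.pairZ (h.zfc.zf0.natZ_mem (x n)) (h.zfc.trans _ Q.2 _ (hblk n))⟩,
      fun n => rfl⟩
  have hgV : ∀ n, (g n).1 ∈ (zpd h.zfc.zf0 (zom h.zfc.zf0) Q).1 := by
    intro n
    rw [hg]
    exact ZFSet.pair_mem_prod.2 ⟨natZ_mem_omZ _, hblk n⟩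
  obtain ⟨f, hf1, hf2⟩ : ∃ f : W → W, (∀ n, f (znat h.zfc.zf0 n) = g n) ∧
      ∀ i, ∃ n, f i = g n := by
    refine ⟨fun i => if hi : ∃ n, i.1 = natZ n then g hi.choose else g 0, fun n => ?_,
      fun i => ?_⟩
    · have hi : ∃ n', (znat h.zfc.zf0 n).1 = natZ n' := ⟨n, rfl⟩
      simp only [dif_pos hi]
      have h1 := hi.choose_spec
      have h2 : n = hi.choose := natZ_inj.1 h1
      rw [← h2]
    · by_cases hi : ∃ n, i.1 = natZ n
      · simp only [dif_pos hi]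
        exact ⟨_, rfl⟩
      · simp only [dif_neg hi]
        exact ⟨0, rfl⟩
  have hI : Sz W (zom h.zfc.zf0).1 Ordinal.omega0 := sz_ord h.zfc Ordinal.omega0
  obtain ⟨c1, A, hA⟩ := read h (δ := 0) (l := Ordinal.omega0) (Or.inl ⟨rfl, rfl⟩) hI
    (V := zpd h.zfc.zf0 (zom h.zfc.zf0) Q) f (fun i _ => by
      obtain ⟨n, hn⟩ := hf2 i
      rw [hn]
      exact hgV n)
  -- the code
  obtain ⟨F, hF, hFv⟩ : ∃ F : W → W, DFc W F ∧ ∀ y : W, (F y).1 = qd (fstZ y.1)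
      (pS (fstZ (sndZ y.1))) (pB (fstZ (sndZ y.1))) (fstZ (sndZ (sndZ y.1))) := by
    refine ⟨fun y => ztr h.zfc.zf0 (zfst h.zfc.zf0 y)
      (zS h.zfc (zfst h.zfc.zf0 (zsnd h.zfc.zf0 y)))
      (zpr h.zfc.zf0 (zB h.zfc (zfst h.zfc.zf0 (zsnd h.zfc.zf0 y)))
        (zfst h.zfc.zf0 (zsnd h.zfc.zf0 (zsnd h.zfc.zf0 y)))), ?_, fun y => rfl⟩
    have e1 : DFc W fun y : W => zsnd h.zfc.zf0 y := DFc.zsnd h.zfc.zf0 DFc.id
    have e2 : DFc W fun y : W => zfst h.zfc.zf0 (zsnd h.zfc.zf0 y) := DFc.zfst h.zfc.zf0 e1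
    exact DFc.ztr h.zfc.zf0 (DFc.zfst h.zfc.zf0 DFc.id) (DFc.zS h.zfc e2)
      (DFc.zpr h.zfc.zf0 (DFc.zB h.zfc e2) (DFc.zfst h.zfc.zf0 (DFc.zsnd h.zfc.zf0 e1)))
  have hFt : ∀ i d v : W, (F (ztr h.zfc.zf0 i d v)).1 = qd i.1 (pS d.1) (pB d.1) (fstZ v.1) := by
    intro i d v
    rw [hFv]
    have e0 : (ztr h.zfc.zf0 i d v).1 = ZFSet.pair i.1 (ZFSet.pair d.1 v.1) := rfl
    rw [e0, fstZ_pair, sndZ_pair, fstZ_pair, sndZ_pair]
  obtain ⟨a, ha⟩ := hz.repl F hF A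
  have haA : ∀ w ∈ a.1, ∃ i d v : W, (ztr h.zfc.zf0 i d v).1 ∈ A.1 ∧
      w = qd i.1 (pS d.1) (pB d.1) (fstZ v.1) ∧ i.1 ∈ (zom h.zfc.zf0).1 ∧ Cond W d.1 ∧
        v.1 ∈ (zpd h.zfc.zf0 (zom h.zfc.zf0) Q).1 := by
    intro w hw
    obtain ⟨y, hy, hwy⟩ := (ha ⟨w, h.zfc.trans _ a.2 w hw⟩).1 hw
    obtain ⟨i, d, v, rfl, h1, h2, h3⟩ := hA.form y hy
    exact ⟨i, d, v, hy, (congrArg Subtype.val hwy).trans (hFt i d v), h1, h2, h3⟩
  have hAa : ∀ i d v : W, (ztr h.zfc.zf0 i d v).1 ∈ A.1 →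
      qd i.1 (pS d.1) (pB d.1) (fstZ v.1) ∈ a.1 := by
    intro i d v hy
    rw [← hFt]
    exact (ha _).2 ⟨_, hy, rfl⟩
  have hqd : ∀ {n s b m n' s' b' m' : ZFSet.{0}}, qd n s b m = qd n' s' b' m' →
      n = n' ∧ s = s' ∧ b = b' ∧ m = m' := by
    intro n s b m n' s' b' m' he
    unfold qd trip at he
    obtain ⟨h1, h2⟩ := ZFSet.pair_inj.1 he
    obtain ⟨h3, h4⟩ := ZFSet.pair_inj.1 h2
    obtain ⟨h5, h6⟩ := ZFSet.pair_inj.1 h4
    exact ⟨h1, h3, h5, h6⟩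
  refine ⟨a.1, ⟨a.2, ?_, ?_⟩, ?_, ?_⟩
  · refine hA.sz.image h.zfc hF fun z hz' => ?_
    obtain ⟨y, hy, hzy⟩ := (ha ⟨z, h.zfc.trans _ a.2 z hz'⟩).1 hz'
    exact ⟨y, hy, congrArg Subtype.val hzy⟩
  · intro w hw
    obtain ⟨i, d, v, -, rfl, h1, h2, h3⟩ := haA w hw
    obtain ⟨n, hn⟩ := mem_omZ.1 h1
    obtain ⟨m', hm', t, ht, hv⟩ := ZFSet.mem_prod.1 h3
    obtain ⟨m, hm⟩ := mem_omZ.1 hm'
    refine ⟨n, m, pS d.1, pB d.1, ?_, h2.cB.fin, h2.cB.mem, h2.cB.ctbl, h2.cB.sub⟩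
    rw [hn, hv, fstZ_pair, hm]
  · intro n m
    constructor
    · rintro rfl
      obtain ⟨d, v, h1, h2, h3⟩ := hA.real (znat h.zfc.zf0 n) (natZ_mem_omZ n)
      refine ⟨pS d.1, pB d.1, ?_, hr.cyl _ h2, hr.opn _ h2⟩
      have h4 := hAa _ _ _ h1
      rw [← h3, hf1, hg, fstZ_pair] at h4
      exact h4
    · rintro ⟨s, b, h1, h2, h3⟩
      obtain ⟨i, d, v, h4, h5, h6, h7, h8⟩ := haA _ h1
      obtain ⟨e1, e2, e3, e4⟩ := hqd h5
      have ei : i = znat h.zfc.zf0 n := Subtype.ext e1.symm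
      rw [ei] at h4
      obtain ⟨d', v', h9, h10, h11⟩ := hA.real (znat h.zfc.zf0 n) (natZ_mem_omZ n)
      have hdd : d = d' := by
        by_contra hne
        refine hA.inc _ _ _ _ _ h4 h9 hne ⟨?_, ?_⟩
        · rw [levLt_zero, levLt_zero]
          intro y z z' hy
          rw [ZFSet.mem_union] at hy
          rcases hy with hy | hy
          · exact absurd hy (ZFSet.notMem_empty _)
          · exact absurd hy (ZFSet.notMem_empty _)
        · refine rnd_bc h hr h7.cB (gen_cond h h10).cB ⟨?_, ?_⟩ ⟨hr.cyl _ h10, hr.opn _ h10⟩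
          · rw [← e2]
            exact h2
          · rw [← e3]
            exact h3
      rw [← hdd] at h9
      have hvv := hA.uniq _ _ _ _ h4 h9
      rw [hvv, ← h11, hf1, hg, fstZ_pair] at e4
      exact (natZ_inj.1 e4).symm
  · intro j hj hjs
    refine ne_code h hr (fun n => ?_) hA hj fun i d v hA' k u hu => ?_
    · rw [hf1, hg]
    · exact hjs ⟨_, _, _, _, k, u, hAa i d v hA', hu⟩

end HNF
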