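import Pool.Agent.HNF.Read

/-!
HNF COV: covering of functions of the extension by functions of `W`.  Here `f : W → W` is an arbitrary function.

PROOFS.
`cov_succ`: `read` for `(δ, l) = (δ, nu δ)` (`OKd`; for `δ = 0`, `nu 0 = ω`) gives `A`; let `Y` be the set of all `v ∈ V` such
that there are `i, d` with `ztr i d v ∈ A` (separation); `Sz Y (nu δ)` as an image of `A` under `w ↦ snd (snd w)`; `real`.
`cov_nu`: for `β < nu 1`.  If `β = 0` or a successor: `cov_succ`.  Let `β` be a limit.  By `sz_of_lt` (`nu 1 = nu (0 + 1)`)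
`Sz β (nu 0)`, so `β` is a countable ordinal (`Sz.countable`, `nu_zero`), and there is a sequence `β_n < β`, `n < ω`, of ordinals
with `sup β_n = β` (every `γ < β` satisfies `γ < β_n` for some `n`), and we can take all `β_n` successors (replace `β_n` by
`β_n + 1`).  Let `e` be a function on `nu β` covering `I` (`sz_iff`), and `f' ξ = f (zap e ξ)` if `zap e ξ ∈ I`, and an
element of `V` otherwise (if `V` is empty then `I` is empty: trivial).  For each `n`, `cov_succ` for `I := ordW (nu β_n)`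
gives `Y_n ∈ W`, `Y_n ⊆ V`, `Sz Y_n (nu β_n)`, `f' ξ ∈ Y_n` for `ξ < nu β_n`.  The function `natZ n ↦ Y_n` on `ω` has values in the power
set `V'` of `V` in `W`; `cov_succ` with `δ = 0`, `I := zom` gives `Z ⊆ V'`, `Sz Z (nu 0)`, with all `Y_n ∈ Z`.  Let `Z'` be the
set of the `y ∈ Z` with `SzZ W y (ordW (nu β))`, and `Y = ⋃ Z'`: `Sz Y (nu β)` by `sz_sUnion`, `Y ⊆ V`.  Every `i ∈ I` is
`zap e ξ`, `ξ < nu β`, so `ξ < nu β_n` for some `n` (`nu_limit`), and `f i = f' ξ ∈ Y_n ∈ Z'`.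
-/

namespace HNF

open RMK Set

variable {W G : Set ZFSet.{0}}

private theorem okd_of {δ : Ordinal.{0}} (hδ : δ = 0 ∨ ∃ γ, δ = γ + 1) (hδ1 : δ < nu W 1) :
    OKd W δ (nu W δ) := by
  rcases hδ with rfl | ⟨γ, rfl⟩
  · exact Or.inl ⟨rfl, nu_zero W⟩
  · exact Or.inr (Or.inl ⟨γ, rfl, hδ1, rfl⟩)

theorem cov_succ (h : Ext W G) {δ : Ordinal.{0}} (hδ : δ = 0 ∨ ∃ γ, δ = γ + 1)
    (hδ1 : δ < nu W 1) {I V : W} (hI : Sz W I.1 (nu W δ)) (f : W → W)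
    (hf : ∀ i : W, i.1 ∈ I.1 → (f i).1 ∈ V.1) :
    ∃ Y : W, Y.1 ⊆ V.1 ∧ Sz W Y.1 (nu W δ) ∧ ∀ i : W, i.1 ∈ I.1 → (f i).1 ∈ Y.1 := by
  have hz := h.zfc.zf0
  obtain ⟨c1, A, hR⟩ := read h (okd_of hδ hδ1) hI f hf
  have hMD : MD W fun v : W => ∃ i d : W, (ztr hz i d v).1 ∈ A.1 :=
    MD.ex (P := fun (v i : W) => ∃ d : W, (ztr hz i d v).1 ∈ A.1)
      (MD.ex (P := fun (p : W × W) (d : W) => (ztr hz p.2 d p.1).1 ∈ A.1)
        (MD.mem (DFc.ztr hz (DFc.snd (DFc.fst DFc.id)) (DFc.snd DFc.id)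
          (DFc.fst (DFc.fst DFc.id))) (DFc.const _)))
  obtain ⟨Y, hY⟩ := hz.sep (fun v : W => ∃ i d : W, (ztr hz i d v).1 ∈ A.1) hMD V
  refine ⟨Y, ?_, ?_, ?_⟩
  · intro z hzY
    have hzW : z ∈ W := h.zfc.trans Y.1 Y.2 z hzY
    exact ((hY ⟨z, hzW⟩).1 hzY).1
  · refine Sz.image h.zfc hR.sz (F := fun w : W => zsnd hz (zsnd hz w))
      (DFc.zsnd hz (DFc.zsnd hz DFc.id)) ?_
    intro z hzY
    have hzW : z ∈ W := h.zfc.trans Y.1 Y.2 z hzY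
    obtain ⟨i, d, hid⟩ := ((hY ⟨z, hzW⟩).1 hzY).2
    refine ⟨_, hid, ?_⟩
    show z = sndZ (sndZ (trip i.1 d.1 z))
    unfold trip
    rw [sndZ_pair, sndZ_pair]
  · intro i hi
    obtain ⟨d, v, hdv, -, hv⟩ := hR.real i hi
    exact (hY (f i)).2 ⟨hf i hi, i, d, by rw [hv]; exact hdv⟩

/-- a sequence for a limit ordinal which is countable in `W` -/
private theorem exists_seq (h : InnerZFC W) {β : Ordinal.{0}} (hβ : β < nu W 1)
    (hl : Order.IsSuccLimit β) : ∃ b : ℕ → Ordinal.{0}, (∀ n, b n + 1 < β) ∧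
      ∀ γ < β, ∃ n, γ = b n := by
  have h1 : Sz W β.toZFSet (nu W 0) := sz_of_lt h (by rwa [zero_add])
  rw [nu_zero] at h1
  have h2 := h1.countable
  have h3 : (Set.Iio β).Countable := by
    have h4 : (Set.Iio β) = (fun γ : Ordinal.{0} => γ.toZFSet) ⁻¹' {z : ZFSet.{0} | z ∈ β.toZFSet} := by
      ext γ
      simp only [Set.mem_Iio, Set.mem_preimage, Set.mem_setOf_eq]
      exact Ordinal.toZFSet_mem_toZFSet_iff.symm
    rw [h4]
    refine h2.preimage ?_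
    intro γ γ' he
    have he' : γ.toZFSet = γ'.toZFSet := he
    exact Ordinal.toZFSet_injective he'
  have h5 : (Set.Iio β).Nonempty := ⟨0, hl.bot_lt⟩
  obtain ⟨b, hb⟩ := h3.exists_eq_range h5
  refine ⟨b, fun n => ?_, fun γ hγ => ?_⟩
  · have h6 : b n ∈ Set.Iio β := by rw [hb]; exact Set.mem_range_self n
    exact hl.succ_lt h6
  · have h6 : γ ∈ Set.range b := by rw [← hb]; exact hγ
    obtain ⟨n, hn⟩ := h6
    exact ⟨n, hn.symm⟩

theorem cov_nu (h : Ext W G) {β : Ordinal.{0}} (hβ : β < nu W 1) {I V : W}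
    (hI : Sz W I.1 (nu W β)) (f : W → W) (hf : ∀ i : W, i.1 ∈ I.1 → (f i).1 ∈ V.1) :
    ∃ Y : W, Y.1 ⊆ V.1 ∧ Sz W Y.1 (nu W β) ∧ ∀ i : W, i.1 ∈ I.1 → (f i).1 ∈ Y.1 := by
  classical
  have hz := h.zfc.zf0
  rcases Ordinal.zero_or_succ_or_isSuccLimit β with rfl | ⟨γ, rfl⟩ | hl
  · exact cov_succ h (Or.inl rfl) hβ hI f hf
  · exact cov_succ h (Or.inr ⟨γ, rfl⟩) hβ hI f hf
  by_cases hne : ∃ i : W, i.1 ∈ I.1
  swap
  · refine ⟨⟨∅, hz.empty_mem⟩, ?_, ?_, ?_⟩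
    · intro z hz'
      exact absurd hz' (ZFSet.notMem_empty z)
    · refine hI.subset ?_
      intro z hz'
      exact absurd hz' (ZFSet.notMem_empty z)
    · intro i hi
      exact absurd ⟨i, hi⟩ hne
  obtain ⟨i0, hi0⟩ := hne
  obtain ⟨b, hb1, hb2⟩ := exists_seq h.zfc hβ hl
  obtain ⟨e, he1, he2⟩ := (sz_iff h.zfc).1 hI
  obtain ⟨f', hf'⟩ : ∃ f' : W → W, f' = fun x => if (zap hz e x).1 ∈ I.1 then f (zap hz e x)
      else f i0 := ⟨_, rfl⟩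
  have hf'V : ∀ x, (f' x).1 ∈ V.1 := by
    intro x
    rw [hf']
    simp only
    split_ifs with hx
    · exact hf _ hx
    · exact hf _ hi0
  -- the sets `Y n`
  have hYn : ∀ n, ∃ Y : W, Y.1 ⊆ V.1 ∧ Sz W Y.1 (nu W (b n + 1)) ∧
      ∀ i : W, i.1 ∈ (ordW h.zfc (nu W (b n + 1))).1 → (f' i).1 ∈ Y.1 := by
    intro n
    exact cov_succ h (Or.inr ⟨b n, rfl⟩) ((hb1 n).trans hβ) (sz_ord h.zfc _) f'
      fun i _ => hf'V i
  choose Y hY1 hY2 hY3 using hYn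
  -- the power set
  obtain ⟨V', hV'W, hV'⟩ := h.zfc.power V.1 V.2
  obtain ⟨g, hg⟩ : ∃ g : W → W, g = fun i => if H : ∃ n, i.1 = natZ n then Y H.choose else V :=
    ⟨_, rfl⟩
  have hgn : ∀ n, g (znat hz n) = Y n := by
    intro n
    have H : ∃ k, (znat hz n).1 = natZ k := ⟨n, rfl⟩
    rw [hg]
    simp only
    rw [dif_pos H]
    have h1 : natZ n = natZ H.choose := H.choose_spec
    rw [← natZ_inj.1 h1]
  have h0 : (0 : Ordinal.{0}) < nu W 1 :=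
    lt_of_lt_of_le Ordinal.omega0_pos (omega_le_nu W 1)
  have hom : Sz W (zom hz).1 (nu W 0) := by
    rw [nu_zero]
    exact sz_ord h.zfc _
  obtain ⟨Z, hZ1, hZ2, hZ3⟩ := cov_succ h (δ := 0) (Or.inl rfl) h0 (I := zom hz)
    (V := ⟨V', hV'W⟩) hom g (by
      intro i hi
      obtain ⟨n, hn⟩ := mem_omZ.1 hi
      have e1 : i = znat hz n := Subtype.ext hn
      rw [e1, hgn]
      exact (hV' _).2 ⟨(Y n).2, hY1 n⟩)
  obtain ⟨Z', hZ'⟩ := hz.sep (fun y : W => SzZ W y.1 (ordW h.zfc (nu W β)).1)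
    (MD.szZ h.zfc DFc.id (DFc.const _)) Z
  have hZ'mem : ∀ z ∈ Z'.1, z ∈ Z.1 ∧ Sz W z (nu W β) := by
    intro z hzZ
    have hzW : z ∈ W := h.zfc.trans Z'.1 Z'.2 z hzZ
    obtain ⟨h1, h2⟩ := (hZ' ⟨z, hzW⟩).1 hzZ
    exact ⟨h1, szZ_iff.1 h2⟩
  have hnu0 : nu W 0 ≤ nu W β := (nu_strictMono W).monotone (zero_le)
  refine ⟨zsU hz Z', ?_, ?_, ?_⟩
  · intro z hzU
    obtain ⟨y, hy, hzy⟩ := ZFSet.mem_sUnion.1 hzU
    have h1 := hZ1 (hZ'mem y hy).1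
    exact ((hV' y).1 h1).2 hzy
  · refine sz_sUnion h.zfc (nu_wcard W β) Z'.2 ?_ fun a ha => (hZ'mem a ha).2
    exact (hZ2.mono h.zfc hnu0).subset fun z hzZ => (hZ'mem z hzZ).1
  · intro i hi
    obtain ⟨ξ, hξ, hξi⟩ := he2 i.1 hi
    obtain ⟨γ, hγ, hξγ⟩ := nu_limit hl hξ
    obtain ⟨n, rfl⟩ := hb2 γ hγ
    have h1 : ξ < nu W (b n + 1) := hξγ.trans (nu_strictMono W (lt_add_one (b n)))
    have h2 : zap hz e (ordW h.zfc ξ) = i := Subtype.ext hξi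
    have h3 := hY3 n (ordW h.zfc ξ) ((mem_ordW h.zfc).2 ⟨ξ, h1, rfl⟩)
    have h4 : f' (ordW h.zfc ξ) = f i := by
      rw [hf']
      simp only
      rw [h2, if_pos hi]
    rw [h4] at h3
    have h5 : (Y n).1 ∈ Z.1 := by
      have h6 := hZ3 (znat hz n) (natZ_mem_omZ n)
      rwa [hgn] at h6
    have h7 : (Y n).1 ∈ Z'.1 := by
      refine (hZ' (Y n)).2 ⟨h5, szZ_iff.2 ((hY2 n).mono h.zfc ?_)⟩
      exact (nu_strictMono W).monotone (hb1 n).le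
    exact ZFSet.mem_sUnion.2 ⟨_, h7, h3⟩

end HNF
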