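import Pool.Agent.HNF.Cov

/-!
HNF CRD: the cardinals of the extension.

PROOFS.
`nu_eq`: by induction on `β ≤ nu 1`: `nu W β = ω_ β`.  `ω_ β = (ℵ_ β).ord` is a `WCard` (`wcard_ord`).  Suppose that
`nu γ = ω_ γ` for all `γ < β`.  Since `ω_ β` is a `WCard` which is greater than all `nu γ`, `γ < β`, we have `nu β ≤ ω_ β`
(`exists_nu`: `ω_ β = nu δ`, and `δ ≥ β` as `nu` is strictly monotone).  Suppose `nu β < ω_ β`.  `β = 0`: `nu 0 = ω = ω_ 0`.
`β = γ + 1`: then `γ < nu 1` and the cardinality of `nu β` is at most `ℵ_ γ`, the cardinality of `nu γ`; so there is a function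
`g` from `Set.Iio (nu γ)` onto `Set.Iio (nu β)`.  Let `f : W → W` map `ordW ξ` to `ordW (g ξ)` for `ξ < nu γ`; `cov_nu` with
`I = ordW (nu γ)`, `V = ordW (nu β)` gives `Y ⊇ nu β` with `Sz Y (nu γ)`, a contradiction to `not_sz_nu`.  `β` limit: some
`γ < β` satisfies `nu β < ω_ γ` (`Ordinal.omega` is normal) `= nu γ < nu β`, a contradiction.
`nu_one`: `nu 1 = ω_ 1` (`β = 1 ≤ nu 1`).  `kap_eq`: `β = nu 1`.
`cov_small`: the cardinality of `ι` is less than `ℵ_ ω₁`, so it is at most `ℵ_ β` for some `β < ω₁ = nu 1` (`Cardinal.aleph` is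
normal, `ω₁` is a limit), and there is a surjection from `Set.Iio (ω_ β) = Set.Iio (nu β)` onto `ι` (if `ι` is not empty).  Apply
`cov_nu` to `I = ordW (nu β)`.  If `ι` is empty take `Y = ∅`.
-/

namespace HNF

open RMK Set Cardinal

variable {W G : Set ZFSet.{0}}

private theorem cov_emb (h : Ext W G) {γ : Ordinal.{0}} (hγ : γ < nu W 1) {V : W} {ι : Type*}
    [Nonempty ι] (e : ι ↪ Iio (nu W γ)) (g : ι → W) (hg : ∀ i, (g i).1 ∈ V.1) :
    ∃ Y : W, Y.1 ⊆ V.1 ∧ Sz W Y.1 (nu W γ) ∧ ∀ i, (g i).1 ∈ Y.1 := by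
  classical
  obtain ⟨Y, hY1, hY2, hY3⟩ := cov_nu h hγ (I := ordW h.zfc (nu W γ)) (V := V)
    (sz_ord h.zfc (nu W γ))
    (fun w => if hw : ∃ i, w = ordW h.zfc (e i).1 then g (Classical.choose hw) else
      g (Classical.arbitrary ι)) (fun w _ => by
      split_ifs
      · exact hg _
      · exact hg _)
  refine ⟨Y, hY1, hY2, fun i => ?_⟩
  have h1 := hY3 (ordW h.zfc (e i).1) ((mem_ordW h.zfc).2 ⟨(e i).1, (e i).2, rfl⟩)
  have hw : ∃ j, ordW h.zfc (e i).1 = ordW h.zfc (e j).1 := ⟨i, rfl⟩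
  rw [dif_pos hw] at h1
  have h2 := Classical.choose_spec hw
  have h3 : (e i).1 = (e (Classical.choose hw)).1 :=
    Ordinal.toZFSet_injective (congrArg Subtype.val h2)
  rw [← e.injective (Subtype.ext h3)] at h1
  exact h1

private theorem nu_pos (W : Set ZFSet.{0}) (β : Ordinal.{0}) : 0 < nu W β :=
  Ordinal.omega0_pos.trans_le (omega_le_nu W β)

theorem nu_eq (h : Ext W G) {β : Ordinal.{0}} (hβ : β ≤ nu W 1) :
    nu W β = Ordinal.omega β := by
  induction β using WellFoundedLT.induction with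
  | ind β ih =>
    have ih' : ∀ γ < β, nu W γ = Ordinal.omega γ := fun γ hγ => ih γ hγ (hγ.le.trans hβ)
    have hle : nu W β ≤ Ordinal.omega β := by
      obtain ⟨δ, hδ⟩ := exists_nu (W := W) (wcard_ord (aleph0_le_aleph β))
      rw [ord_aleph] at hδ
      have h1 : β ≤ δ := by
        by_contra hc
        rw [not_le] at hc
        rw [ih' δ hc] at hδ
        exact absurd hδ (Ordinal.omega_lt_omega.2 hc).ne
      rw [← hδ]
      exact (nu_strictMono W).monotone h1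
    rcases hle.eq_or_lt with h0 | hlt
    · exact h0
    · exfalso
      rcases Ordinal.zero_or_succ_or_isSuccLimit β with h0 | ⟨γ, rfl⟩ | hl
      · rw [h0, nu_zero, Ordinal.omega_zero] at hlt
        exact lt_irrefl _ hlt
      · have hγ : γ < Order.succ γ := Order.lt_succ γ
        have hγ1 : γ < nu W 1 := hγ.trans_le hβ
        have hcard : (nu W (Order.succ γ)).card ≤ (nu W γ).card := by
          rw [lt_omega_iff_card_lt, Order.succ_eq_add_one, ← succ_aleph, Order.lt_succ_iff] at hlt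
          rw [ih' γ hγ, Ordinal.card_omega, Order.succ_eq_add_one]
          exact hlt
        have hmk : #(Iio (nu W (Order.succ γ))) ≤ #(Iio (nu W γ)) := by
          rw [mk_Iio_ordinal, mk_Iio_ordinal]
          exact lift_le.2 hcard
        obtain ⟨e⟩ := (Cardinal.le_def _ _).1 hmk
        have : Nonempty (Iio (nu W (Order.succ γ))) := ⟨⟨0, nu_pos W _⟩⟩
        obtain ⟨Y, hY1, hY2, hY3⟩ := cov_emb h hγ1 (V := ordW h.zfc (nu W (Order.succ γ))) e
          (fun i => ordW h.zfc i.1) (fun i => (mem_ordW h.zfc).2 ⟨i.1, i.2, rfl⟩)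
        refine not_sz_nu (W := W) hγ (hY2.subset fun z hz => ?_)
        obtain ⟨η, hη, rfl⟩ := Ordinal.mem_toZFSet_iff.1 hz
        exact hY3 ⟨η, hη⟩
      · obtain ⟨γ, hγ, h1⟩ := (Ordinal.isNormal_omega.lt_iff_exists_lt hl).1 hlt
        rw [← ih' γ hγ] at h1
        exact absurd h1 (not_lt.2 ((nu_strictMono W).monotone hγ.le))

theorem nu_one (h : Ext W G) : nu W 1 = Ordinal.omega 1 :=
  nu_eq h (Ordinal.one_lt_omega0.le.trans (omega_le_nu W 1))

theorem kap_eq (h : Ext W G) : kap W = Ordinal.omega (Ordinal.omega 1) := by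
  unfold kap
  rw [nu_eq h le_rfl, nu_one h]

theorem cov_small (h : Ext W G) {V : W} {ι : Type} (hι : #ι < ℵ_ (Ordinal.omega 1)) (g : ι → W)
    (hg : ∀ i, (g i).1 ∈ V.1) :
    ∃ β < nu W 1, ∃ Y : W, Y.1 ⊆ V.1 ∧ Sz W Y.1 (nu W β) ∧ ∀ i, (g i).1 ∈ Y.1 := by
  obtain ⟨β, hβ, h1⟩ := (isNormal_aleph.lt_iff_exists_lt (isSuccLimit_omega 1)).1 hι
  rw [← nu_one h] at hβ
  refine ⟨β, hβ, ?_⟩
  rcases isEmpty_or_nonempty ι with he | he
  · refine ⟨⟨∅, h.zfc.zf0.empty_mem⟩, ZFSet.empty_subset _, ?_, fun i => he.elim i⟩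
    exact (sz_ord h.zfc (nu W β)).subset (ZFSet.empty_subset _)
  · have hmk : Cardinal.lift.{1} #ι ≤ Cardinal.lift.{0} #(Iio (nu W β)) := by
      rw [mk_Iio_ordinal, nu_eq h hβ.le, Ordinal.card_omega, Cardinal.lift_uzero]
      exact lift_le.2 h1.le
    obtain ⟨e⟩ := lift_mk_le'.1 hmk
    exact cov_emb h hβ e g hg

end HNF
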