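import Pool.Agent.RMK.S.SDefs
import Pool.Agent.Helper66.HDDefs

/-!
HNF DEFS: definitions used in the final statement.  `W` is an inner model of ZFC, `G` is a filter, generic
over `W`, on the product of the forcing adding generic functions `κ → ν (β + 1)` (`β < ν 1`) and the measure
algebra adding `κ` random reals.
-/

namespace HNF

open RMK Set MeasureTheory

/-- In `W` there is a function defined on the ordinal `α` whose range contains `x`. -/
def Sz (W : Set ZFSet.{0}) (x : ZFSet.{0}) (α : Ordinal.{0}) : Prop :=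
  ∃ f ∈ W, (∀ z ∈ x, ∃ ξ < α, ZFSet.pair ξ.toZFSet z ∈ f) ∧
    ∀ ξ < α, ∃! z, ZFSet.pair ξ.toZFSet z ∈ f

/-- `α` is an infinite cardinal in `W`. -/
def WCard (W : Set ZFSet.{0}) (α : Ordinal.{0}) : Prop :=
  Ordinal.omega0 ≤ α ∧ ∀ β < α, ¬ Sz W α.toZFSet β

/-- `nu W β` is the `β`-th infinite cardinal of `W` (`ℵ_β` in `W`). -/
noncomputable def nu (W : Set ZFSet.{0}) : Ordinal.{0} → Ordinal.{0} :=
  Ordinal.enumOrd {α | WCard W α}

/-- `κ = ℵ_{ω₁}` in `W` -/
noncomputable def kap (W : Set ZFSet.{0}) : Ordinal.{0} := nu W (nu W 1)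

/-- `κ⁺` in `W` -/
noncomputable def rho (W : Set ZFSet.{0}) : Ordinal.{0} := nu W (nu W 1 + 1)

/-- `κ⁺⁺` in `W` -/
noncomputable def tht (W : Set ZFSet.{0}) : Ordinal.{0} := nu W (nu W 1 + 2)

/-- The elements `((β, ξ, i), η)` of `p`. -/
noncomputable def lev (p : ZFSet.{0}) (β : Ordinal.{0}) : ZFSet.{0} :=
  ZFSet.sep (fun t => ∃ ξ i η : Ordinal.{0},
    t = ZFSet.pair (trip β.toZFSet ξ.toZFSet i.toZFSet) η.toZFSet) p

/-- `p ∈ W` is a partial function assigning to triples `(β, ξ, i)` with `β < ω₁`, `ξ < κ⁺⁺`, `i < κ`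
ordinals less than `ℵ_{β + 1}`; for each `β` it is defined at no more than `ℵ_β` triples `(β, ξ, i)` (all
cardinals are those of `W`). -/
structure CondP (W : Set ZFSet.{0}) (p : ZFSet.{0}) : Prop where
  mem : p ∈ W
  form : ∀ t ∈ p, ∃ β ξ i η : Ordinal.{0}, β < nu W 1 ∧ ξ < tht W ∧ i < kap W ∧ η < nu W (β + 1) ∧
    t = ZFSet.pair (trip β.toZFSet ξ.toZFSet i.toZFSet) η.toZFSet
  fn : ∀ x y y', ZFSet.pair x y ∈ p → ZFSet.pair x y' ∈ p → y = y'
  small : ∀ β < nu W 1, Sz W (lev p β) (nu W β)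

/-- the code of the statement that the `n`-th digit of the `j`-th real is `v` -/
noncomputable def bitZ (j : Ordinal.{0}) (n : ℕ) (v : Bool) : ZFSet.{0} :=
  ZFSet.pair (ZFSet.pair j.toZFSet (natZ n)) (natZ (if v then 1 else 0))

/-- `s` is a finite partial function from `κ × ω` to `{0, 1}`. -/
structure FinP (κ : Ordinal.{0}) (s : ZFSet.{0}) : Prop where
  fin : {t : ZFSet.{0} | t ∈ s}.Finite
  form : ∀ t ∈ s, ∃ j < κ, ∃ n v, t = bitZ j n v
  fn : ∀ j n, ¬ (bitZ j n true ∈ s ∧ bitZ j n false ∈ s)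

/-- the space `2^(Ord × ω)` (only the coordinates in `κ × ω` matter) -/
abbrev Pt : Type 1 := Ordinal.{0} × ℕ → Bool

/-- the product of the fair coin measures -/
noncomputable def lam : Measure Pt := Measure.infinitePi fun _ => (PMF.uniformOfFintype Bool).toMeasure

/-- the set of points which extend the finite function `s` -/
def cyl (s : ZFSet.{0}) : Set Pt := {z | ∀ j n v, bitZ j n v ∈ s → z (j, n) = v}

/-- the open set covered by `b` -/
def opn (b : ZFSet.{0}) : Set Pt := ⋃ e ∈ {e : ZFSet.{0} | e ∈ b}, cyl e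

/-- `(s, b)` represents the closed set `cyl s \ opn b`: `s` is a finite partial function, `b ∈ W` is a
set of finite partial functions, countable in `W`, and the closed set has more than half of the measure of
`cyl s`. -/
structure CondB (W : Set ZFSet.{0}) (s b : ZFSet.{0}) : Prop where
  fin : FinP (kap W) s
  mem : b ∈ W
  sub : ∀ e ∈ b, FinP (kap W) e
  ctbl : Sz W b Ordinal.omega0
  pos : 2 * lam (cyl s ∩ opn b) < lam (cyl s)

/-- conditions -/
def Cond (W : Set ZFSet.{0}) (c : ZFSet.{0}) : Prop :=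
  ∃ p s b, c = trip p s b ∧ CondP W p ∧ CondB W s b

/-- `c'` is stronger than `c` -/
def Le (c' c : ZFSet.{0}) : Prop :=
  ∃ p' s' b' p s b, c' = trip p' s' b' ∧ c = trip p s b ∧ p ⊆ p' ∧ s ⊆ s' ∧ b ⊆ b'

/-- The universe is the generic extension `W[G]`: `W` is an inner model of ZFC satisfying the generalised
continuum hypothesis, the set `P` of all conditions and the ordering `R` belong to `W`, `G` is a filter on `P`
generic over `W`, and every subset of an element of `W` has a name in `W`. -/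
structure Ext (W G : Set ZFSet.{0}) : Prop where
  zfc : InnerZFC W
  gch : ∀ β y, (∀ z, z ∈ y ↔ z ∈ W ∧ z ⊆ (nu W β).toZFSet) → Sz W y (nu W (β + 1))
  gen : ∃ P ∈ W, ∃ R ∈ W, (∀ c, c ∈ P ↔ Cond W c) ∧
    (∀ z, z ∈ R ↔ ∃ c' ∈ P, ∃ c ∈ P, z = ZFSet.pair c' c ∧ Le c' c) ∧ IsGeneric W P R G
  names : ∀ a ∈ W, ∀ z, z ⊆ a → ∃ σ ∈ W, ∀ x, x ∈ z ↔ x ∈ a ∧ ∃ p ∈ G, ZFSet.pair x p ∈ σ

end HNF
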