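import Pool.Agent.HNF.Sz1

/-!
HNF RES: functions in a model: existence of functions given by definable rules, restrictions,
compositions, unions of two sets.

PROOFS.
`exists_fnF`: `hM.replF` with the definable function `d ↦ zpr hM d (F x d)` gives the set
`{pair d (F x d) | d ∈ D x}`; it is a function and `apZ_eq` computes the values.
`resZ_mem`: separation.  `DFc.zres`: the graph is `∀ z : M, z ∈ w ↔ z ∈ f ∧ ∃ x y : M, x ∈ d ∧ z = pair x y`
(`DFc.of_graph`, `ZF0.ext`, `mdd`).  `resZ_fn`: immediate; `apZ_res`: `apZ_eq`.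
`sub`, `inter`, `union`: `hM.sep`; `exists_powF` is in `WZf.lean`.
`DFc.zdf`, `DFc.zin`: the graphs, as for `zun` in `ZOps.lean`.
-/

namespace HNF

open RMK Set

variable {M : Set ZFSet.{0}} {X : Type 1} [Ctx M X]

/-- a function with values in `M` is definable if the membership relation of its values is -/
theorem DFc.of_memZ (hM : ZF0 M) {op : X → M} {P : X → M → Prop}
    (hP : MD M fun p : X × M => P p.1 p.2) (h : ∀ x (z : M), z.1 ∈ (op x).1 ↔ P x z) :
    DFc M op := by
  apply DFc.of_graph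
  refine MD.congr (P := fun p : X × M => ∀ z : M, z.1 ∈ p.2.1 ↔ P p.1 z) ?_ ?_
  · intro p
    constructor
    · intro h1
      apply hM.ext
      intro z
      rw [h1 z, h]
    · intro h1 z
      rw [h1, h]
  · (repeat' (first | (with_reducible first | exact DFc.id | exact DFc.const _ | exact MD.const _ | apply MD.and | apply MD.or | apply MD.iff | apply MD.not | apply MD.imp | apply MD.ex | apply MD.all | apply MD.zpair_mem hM | apply MD.eq_zpair hM | apply MD.isFn hM | apply MD.isO hM | apply MD.mem | apply MD.eq | apply DFc.zpr hM | apply DFc.zap hM | apply DFc.zun hM | apply DFc.zsg hM | apply DFc.zsU hM | apply DFc.ztr hM | apply DFc.zup hM | apply DFc.zpd hM) | (with_reducible apply DFc.fst) | (with_reducible apply DFc.snd) | (with_reducible apply DFc.mk)))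
    exact MD.comp (P := fun p : X × M => P p.1 p.2) hP
      (DFc.mk (DFc.fst (DFc.fst DFc.id)) (DFc.snd DFc.id))

theorem exists_fnF (hM : ZF0 M) {D : X → M} (hD : DFc M D) {F : X → M → M}
    (hF : DFc M fun p : X × M => F p.1 p.2) : ∃ f : X → M, DFc M f ∧
      ∀ x, IsFn (f x).1 (D x).1 ∧ ∀ d : M, d.1 ∈ (D x).1 → zap hM (f x) d = F x d := by
  obtain ⟨f, hf, hf'⟩ := hM.replF hD (F := fun x d => zpr hM d (F x d))
    (DFc.zpr hM (DFc.snd DFc.id) hF)
  have hfn : ∀ x, IsFn (f x).1 (D x).1 := by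
    intro x
    constructor
    · intro w hw
      obtain ⟨d, hd, he⟩ := (hf' x ⟨w, hM.trans _ (f x).2 _ hw⟩).1 hw
      exact ⟨d.1, hd, (F x d).1, congrArg Subtype.val he⟩
    · intro d hd
      have hdM : d ∈ M := hM.trans _ (D x).2 _ hd
      refine ⟨(F x ⟨d, hdM⟩).1,
        (hf' x (zpr hM ⟨d, hdM⟩ (F x ⟨d, hdM⟩))).2 ⟨⟨d, hdM⟩, hd, rfl⟩, ?_⟩
      intro y hy
      have hyM : ZFSet.pair d y ∈ M := hM.trans _ (f x).2 _ hy
      obtain ⟨d', hd', he⟩ := (hf' x ⟨_, hyM⟩).1 hy
      have he' : ZFSet.pair d y = ZFSet.pair d'.1 (F x d').1 := congrArg Subtype.val he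
      obtain ⟨h1, h2⟩ := ZFSet.pair_inj.1 he'
      have h3 : d' = ⟨d, hdM⟩ := Subtype.ext h1.symm
      rw [h2, h3]
  refine ⟨f, hf, fun x => ⟨hfn x, fun d hd => ?_⟩⟩
  exact Subtype.ext ((apZ_eq (hfn x) hd).2 ((hf' x (zpr hM d (F x d))).2 ⟨d, hd, rfl⟩))

theorem exists_fn (hM : ZF0 M) (D : M) {F : M → M} (hF : DFc M F) :
    ∃ f : M, IsFn f.1 D.1 ∧ ∀ d : M, d.1 ∈ D.1 → zap hM f d = F d := by
  obtain ⟨f, -, h⟩ := exists_fnF (X := M) hM (D := fun _ => D) (DFc.const _)
    (F := fun _ d => F d) (DFc.comp hF (DFc.snd DFc.id))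
  exact ⟨f D, h D⟩

/-- the restriction of the relation `f` to the set `d` -/
noncomputable def resZ (f d : ZFSet.{0}) : ZFSet.{0} :=
  ZFSet.sep (fun w => ∃ x ∈ d, ∃ y, w = ZFSet.pair x y) f

theorem mem_resZ_iff {f d w : ZFSet.{0}} :
    w ∈ resZ f d ↔ w ∈ f ∧ ∃ x ∈ d, ∃ y, w = ZFSet.pair x y := ZFSet.mem_sep

theorem mem_resZ_pair {f d x y : ZFSet.{0}} (hx : x ∈ d) :
    ZFSet.pair x y ∈ resZ f d ↔ ZFSet.pair x y ∈ f := by
  rw [mem_resZ_iff]
  exact ⟨fun h => h.1, fun h => ⟨h, x, hx, y, rfl⟩⟩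

theorem resZ_mem (hM : ZF0 M) {f d : ZFSet.{0}} (hf : f ∈ M) (hd : d ∈ M) : resZ f d ∈ M := by
  obtain ⟨b, hb⟩ := hM.sep (fun w : M => ∃ x y : M, x.1 ∈ (⟨d, hd⟩ : M).1 ∧ w = zpr hM x y)
    (by (repeat' (first | (with_reducible first | exact DFc.id | exact DFc.const _ | exact MD.const _ | apply MD.and | apply MD.or | apply MD.iff | apply MD.not | apply MD.imp | apply MD.ex | apply MD.all | apply MD.zpair_mem hM | apply MD.eq_zpair hM | apply MD.isFn hM | apply MD.isO hM | apply MD.mem | apply MD.eq | apply DFc.zpr hM | apply DFc.zap hM | apply DFc.zun hM | apply DFc.zsg hM | apply DFc.zsU hM | apply DFc.ztr hM | apply DFc.zup hM | apply DFc.zpd hM) | (with_reducible apply DFc.fst) | (with_reducible apply DFc.snd) | (with_reducible apply DFc.mk)))) ⟨f, hf⟩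
  have e : resZ f d = b.1 := by
    ext w
    rw [mem_resZ_iff]
    constructor
    · rintro ⟨h1, x, hx, y, rfl⟩
      have hw := hM.trans _ hf _ h1
      exact (hb ⟨_, hw⟩).2 ⟨h1, ⟨x, hM.pair_left hw⟩, ⟨y, hM.pair_right hw⟩, hx, rfl⟩
    · intro h1
      obtain ⟨h2, x, y, hx, he⟩ := (hb ⟨w, hM.trans _ b.2 _ h1⟩).1 h1
      exact ⟨h2, x.1, hx, y.1, congrArg Subtype.val he⟩
  rw [e]
  exact b.2

/-- restriction as an operation on `M` -/
noncomputable def zres (hM : ZF0 M) (f d : M) : M := ⟨resZ f.1 d.1, resZ_mem hM f.2 d.2⟩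

theorem DFc.zres (hM : ZF0 M) {f d : X → M} (hf : DFc M f) (hd : DFc M d) :
    DFc M fun x => zres hM (f x) (d x) := by
  refine DFc.of_memZ hM (P := fun x z => z.1 ∈ (f x).1 ∧ ∃ u v : M, u.1 ∈ (d x).1 ∧
    z = zpr hM u v) (by (repeat' (first | (with_reducible first | exact DFc.id | exact DFc.const _ | exact MD.const _ | apply MD.and | apply MD.or | apply MD.iff | apply MD.not | apply MD.imp | apply MD.ex | apply MD.all | apply MD.zpair_mem hM | apply MD.eq_zpair hM | apply MD.isFn hM | apply MD.isO hM | apply MD.mem | apply MD.eq | apply DFc.zpr hM | apply DFc.zap hM | apply DFc.zun hM | apply DFc.zsg hM | apply DFc.zsU hM | apply DFc.ztr hM | apply DFc.zup hM | apply DFc.zpd hM) | (with_reducible first | exact hf | apply hf | apply MD.comp2 hf | apply DFc.comp2 hf | apply MD.comp3 hf | apply DFc.comp3 hf | apply MD.comp hf | apply DFc.comp hf) | (with_reducible first | exact hd | apply hd | apply MD.comp2 hd | apply DFc.comp2 hd | apply MD.comp3 hd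 | apply DFc.comp3 hd | apply MD.comp hd | apply DFc.comp hd) | (with_reducible apply DFc.fst) | (with_reducible apply DFc.snd) | (with_reducible apply DFc.mk)))) ?_
  intro x z
  change z.1 ∈ resZ (f x).1 (d x).1 ↔ _
  rw [mem_resZ_iff]
  constructor
  · rintro ⟨h1, u, hu, v, hz⟩
    have hw : ZFSet.pair u v ∈ M := by
      rw [← hz]
      exact z.2
    exact ⟨h1, ⟨u, hM.pair_left hw⟩, ⟨v, hM.pair_right hw⟩, hu, Subtype.ext hz⟩
  · rintro ⟨h1, u, v, hu, hz⟩
    exact ⟨h1, u.1, hu, v.1, congrArg Subtype.val hz⟩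

theorem resZ_fn {f D d : ZFSet.{0}} (hf : IsFn f D) (hd : d ⊆ D) : IsFn (resZ f d) d := by
  constructor
  · intro w hw
    exact (mem_resZ_iff.1 hw).2
  · intro x hx
    obtain ⟨y, hy, hu⟩ := hf.2 x (hd hx)
    exact ⟨y, (mem_resZ_pair hx).2 hy, fun y' hy' => hu y' ((mem_resZ_pair hx).1 hy')⟩

theorem apZ_res {f D d x : ZFSet.{0}} (hf : IsFn f D) (hd : d ⊆ D) (hx : x ∈ d) :
    apZ (resZ f d) x = apZ f x :=
  (apZ_eq (resZ_fn hf hd) hx).2 ((mem_resZ_pair hx).2 ((apZ_eq hf (hd hx)).1 rfl))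

theorem resZ_res {f d e : ZFSet.{0}} (hd : e ⊆ d) : resZ (resZ f d) e = resZ f e := by
  ext w
  rw [mem_resZ_iff, mem_resZ_iff, mem_resZ_iff]
  constructor
  · rintro ⟨⟨h1, _⟩, h2⟩
    exact ⟨h1, h2⟩
  · rintro ⟨h1, x, hx, y, hw⟩
    exact ⟨⟨h1, x, hd hx, y, hw⟩, x, hx, y, hw⟩

theorem resZ_self {f D : ZFSet.{0}} (hf : IsFn f D) : resZ f D = f := by
  ext w
  rw [mem_resZ_iff]
  exact ⟨fun h => h.1, fun h => ⟨h, hf.1 w h⟩⟩

theorem diff_mem (hM : ZF0 M) {x y : ZFSet.{0}} (hx : x ∈ M) (hy : y ∈ M) : x \ y ∈ M := by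
  obtain ⟨b, hb⟩ := hM.sep (fun w : M => ¬ w.1 ∈ (⟨y, hy⟩ : M).1) (by (repeat' (first | (with_reducible first | exact DFc.id | exact DFc.const _ | exact MD.const _ | apply MD.and | apply MD.or | apply MD.iff | apply MD.not | apply MD.imp | apply MD.ex | apply MD.all | apply MD.zpair_mem hM | apply MD.eq_zpair hM | apply MD.isFn hM | apply MD.isO hM | apply MD.mem | apply MD.eq | apply DFc.zpr hM | apply DFc.zap hM | apply DFc.zun hM | apply DFc.zsg hM | apply DFc.zsU hM | apply DFc.ztr hM | apply DFc.zup hM | apply DFc.zpd hM) | (with_reducible apply DFc.fst) | (with_reducible apply DFc.snd) | (with_reducible apply DFc.mk)))) ⟨x, hx⟩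
  have e : x \ y = b.1 := by
    ext w
    rw [ZFSet.mem_sdiff]
    constructor
    · rintro ⟨h1, h2⟩
      exact (hb ⟨w, hM.trans _ hx _ h1⟩).2 ⟨h1, h2⟩
    · intro h1
      exact (hb ⟨w, hM.trans _ b.2 _ h1⟩).1 h1
  rw [e]
  exact b.2

theorem inter_mem (hM : ZF0 M) {x y : ZFSet.{0}} (hx : x ∈ M) (hy : y ∈ M) : x ∩ y ∈ M := by
  obtain ⟨b, hb⟩ := hM.sep (fun w : M => w.1 ∈ (⟨y, hy⟩ : M).1) (by (repeat' (first | (with_reducible first | exact DFc.id | exact DFc.const _ | exact MD.const _ | apply MD.and | apply MD.or | apply MD.iff | apply MD.not | apply MD.imp | apply MD.ex | apply MD.all | apply MD.zpair_mem hM | apply MD.eq_zpair hM | apply MD.isFn hM | apply MD.isO hM | apply MD.mem | apply MD.eq | apply DFc.zpr hM | apply DFc.zap hM | apply DFc.zun hM | apply DFc.zsg hM | apply DFc.zsU hM | apply DFc.ztr hM | apply DFc.zup hM | apply DFc.zpd hM) | (with_reducible apply DFc.fst) | (with_reducible apply DFc.snd) | (with_reducible apply DFc.mk)))) ⟨x, hx⟩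
  have e : x ∩ y = b.1 := by
    ext w
    rw [ZFSet.mem_inter]
    constructor
    · rintro ⟨h1, h2⟩
      exact (hb ⟨w, hM.trans _ hx _ h1⟩).2 ⟨h1, h2⟩
    · intro h1
      exact (hb ⟨w, hM.trans _ b.2 _ h1⟩).1 h1
  rw [e]
  exact b.2

/-- difference as an operation on `M` -/
noncomputable def zdf (hM : ZF0 M) (x y : M) : M := ⟨x.1 \ y.1, diff_mem hM x.2 y.2⟩

/-- intersection as an operation on `M` -/
noncomputable def zin (hM : ZF0 M) (x y : M) : M := ⟨x.1 ∩ y.1, inter_mem hM x.2 y.2⟩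

theorem DFc.zdf (hM : ZF0 M) {f g : X → M} (hf : DFc M f) (hg : DFc M g) :
    DFc M fun x => zdf hM (f x) (g x) := by
  refine DFc.of_memZ hM (P := fun x z => z.1 ∈ (f x).1 ∧ ¬ z.1 ∈ (g x).1)
    (by (repeat' (first | (with_reducible first | exact DFc.id | exact DFc.const _ | exact MD.const _ | apply MD.and | apply MD.or | apply MD.iff | apply MD.not | apply MD.imp | apply MD.ex | apply MD.all | apply MD.zpair_mem hM | apply MD.eq_zpair hM | apply MD.isFn hM | apply MD.isO hM | apply MD.mem | apply MD.eq | apply DFc.zpr hM | apply DFc.zap hM | apply DFc.zun hM | apply DFc.zsg hM | apply DFc.zsU hM | apply DFc.ztr hM | apply DFc.zup hM | apply DFc.zpd hM) | (with_reducible first | exact hf | apply hf | apply MD.comp2 hf | apply DFc.comp2 hf | apply MD.comp3 hf | apply DFc.comp3 hf | apply MD.comp hf | apply DFc.comp hf) | (with_reducible first | exact hg | apply hg | apply MD.comp2 hg | apply DFc.comp2 hg | apply MD.comp3 hg | apply DFc.comp3 hg | apply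 MD.comp hg | apply DFc.comp hg) | (with_reducible apply DFc.fst) | (with_reducible apply DFc.snd) | (with_reducible apply DFc.mk)))) ?_
  intro x z
  exact ZFSet.mem_sdiff

theorem DFc.zin (hM : ZF0 M) {f g : X → M} (hf : DFc M f) (hg : DFc M g) :
    DFc M fun x => zin hM (f x) (g x) := by
  refine DFc.of_memZ hM (P := fun x z => z.1 ∈ (f x).1 ∧ z.1 ∈ (g x).1)
    (by (repeat' (first | (with_reducible first | exact DFc.id | exact DFc.const _ | exact MD.const _ | apply MD.and | apply MD.or | apply MD.iff | apply MD.not | apply MD.imp | apply MD.ex | apply MD.all | apply MD.zpair_mem hM | apply MD.eq_zpair hM | apply MD.isFn hM | apply MD.isO hM | apply MD.mem | apply MD.eq | apply DFc.zpr hM | apply DFc.zap hM | apply DFc.zun hM | apply DFc.zsg hM | apply DFc.zsU hM | apply DFc.ztr hM | apply DFc.zup hM | apply DFc.zpd hM) | (with_reducible first | exact hf | apply hf | apply MD.comp2 hf | apply DFc.comp2 hf | apply MD.comp3 hf | apply DFc.comp3 hf | apply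 MD.comp hf | apply DFc.comp hf) | (with_reducible first | exact hg | apply hg | apply MD.comp2 hg | apply DFc.comp2 hg | apply MD.comp3 hg | apply DFc.comp3 hg | apply MD.comp hg | apply DFc.comp hg) | (with_reducible apply DFc.fst) | (with_reducible apply DFc.snd) | (with_reducible apply DFc.mk)))) ?_
  intro x z
  exact ZFSet.mem_inter

end HNF
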