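import Pool.Agent.HNF.Prj
import Pool.Agent.HNF.Res

/-!
HNF GEN: the generic filter, names.

PROOFS.
`exists_condSet`: field `gen`.  `Cond.mem`: the set of conditions is in `W`, `W` is transitive.
`MD.cond`: `Cond W x` iff `x ∈ P` for the element `P` of `exists_condSet`.
`MD.le`: all quantifiers over `↥W` (the coordinates of an element of `W` are in `W`), `⊆` between elements of `W` is
`∀ z : W, z ∈ a → z ∈ b`.
`Le.refl`, `Le.trans`: `trip` is injective.
`gen_cond`, `gen_up`, `gen_dir`, `gen_ne`: fields of `IsGeneric` for the sets `P`, `R` of the field `gen`.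
`gen_meets`: let `D'` be the set of all `d ∈ P` with `D d` or such that no condition `e` satisfies `Le e d ∧ Le e c0`
(separation; `MD.cond`, `MD.le`).  `D'` is dense: let `x ∈ P`; if some `e ∈ P` satisfies `Le e x`, `Le e c0`, then by `hd` there
is `d`, `Le d e`, `D d`; otherwise `x ∈ D'`.  So there is `d ∈ G ∩ D'`; by `gen_dir` `d` and `c0` have a common extension
in `G`, so `D d`.
`exists_name`: let `σ` be the name of `z` (field `names`) and `E x c` iff `x ∈ a`, `Cond c` and there is a condition `c'`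
with `Le c c'` and `pair x c' ∈ σ`.  Definable by `mdd`.  If `x ∈ z` there is `c ∈ G` with `pair x c ∈ σ`, `E x c`.
Conversely if `c ∈ G`, `E x c` then `c' ∈ G` (`gen_up`), so `x ∈ z`.
`dense_below`: apply `gen_meets` with any `c0 ∈ G` and `D c` iff (there is `i ∈ I` such that `¬ E i d` for all conditions
`d`, `Le d c`) or (for all `i ∈ I` and all conditions `c'` with `Le c' c` there is a condition `d` with `Le d c'` and
`E i d`).  Density: let `c` be a condition; if the second alternative fails for `c` then there are `i` and `c'`,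
`Le c' c`, without `d`, and the first alternative holds for `c'`.  So some `c ∈ G` satisfies `D c`.  The first
alternative is impossible: there is `e ∈ G` with `E i e`, and a common extension `d ∈ G` of `c`, `e`, `E i d` by `down`.
-/

namespace HNF

open RMK Set

variable {W G : Set ZFSet.{0}} {X : Type 1} [Ctx W X]

private theorem tinj' {a b c a' b' c' : ZFSet.{0}} :
    trip a b c = trip a' b' c' ↔ a = a' ∧ b = b' ∧ c = c' := by
  unfold trip
  rw [ZFSet.pair_inj, ZFSet.pair_inj]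

theorem exists_condSet (h : Ext W G) : ∃ P : W, ∀ c, c ∈ P.1 ↔ Cond W c := by
  obtain ⟨P, hP, R, hR, h1, h2, h3⟩ := h.gen
  exact ⟨⟨P, hP⟩, h1⟩

theorem Cond.mem (h : Ext W G) {c : ZFSet.{0}} (hc : Cond W c) : c ∈ W := by
  obtain ⟨P, hP⟩ := exists_condSet h
  exact h.zfc.trans _ P.2 _ ((hP c).2 hc)

theorem MD.cond (h : Ext W G) {f : X → W} (hf : DFc W f) : MD W fun x => Cond W (f x).1 := by
  obtain ⟨P, hP⟩ := exists_condSet h
  exact MD.congr (fun x => hP (f x).1) (MD.mem hf (DFc.const P))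

theorem MD.sub (h : InnerZFC W) {f g : X → W} (hf : DFc W f) (hg : DFc W g) :
    MD W fun x => (f x).1 ⊆ (g x).1 := by
  have hz := h.zf0
  refine MD.congr (P := fun x => ∀ z : W, z.1 ∈ (f x).1 → z.1 ∈ (g x).1) ?_ ?_
  · intro x
    exact ⟨fun h1 z hz' => h1 ⟨z, h.trans _ (f x).2 _ hz'⟩ hz', fun h1 z hz' => h1 hz'⟩
  · (repeat' (first | (with_reducible first | exact DFc.id | exact DFc.const _ | exact MD.const _ | apply MD.and | apply MD.or | apply MD.iff | apply MD.not | apply MD.imp | apply MD.ex | apply MD.all | apply MD.zpair_mem hz | apply MD.eq_zpair hz | apply MD.isFn hz | apply MD.isO hz | apply MD.mem | apply MD.eq | apply DFc.zpr hz | apply DFc.zap hz | apply DFc.zun hz | apply DFc.zsg hz | apply DFc.zsU hz | apply DFc.ztr hz | apply DFc.zup hz | apply DFc.zpd hz) | (with_reducible first | exact hf | apply hf | apply MD.comp2 hf | apply DFc.comp2 hf | apply MD.comp3 hf | apply DFc.comp3 hf | apply MD.comp hf |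 apply DFc.comp hf) | (with_reducible first | exact hg | apply hg | apply MD.comp2 hg | apply DFc.comp2 hg | apply MD.comp3 hg | apply DFc.comp3 hg | apply MD.comp hg | apply DFc.comp hg) | (with_reducible apply DFc.fst) | (with_reducible apply DFc.snd) | (with_reducible apply DFc.mk)))

theorem MD.le (h : InnerZFC W) {f g : X → W} (hf : DFc W f) (hg : DFc W g) :
    MD W fun x => Le (f x).1 (g x).1 := by
  have hz := h.zf0
  refine MD.congr (P := fun x => ∃ p' s' b' p s b : W, f x = ztr hz p' s' b' ∧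
    g x = ztr hz p s b ∧ p.1 ⊆ p'.1 ∧ s.1 ⊆ s'.1 ∧ b.1 ⊆ b'.1) ?_ ?_
  · intro x
    constructor
    · rintro ⟨p', s', b', p, s, b, e1, e2, h1, h2, h3⟩
      exact ⟨p'.1, s'.1, b'.1, p.1, s.1, b.1, congrArg Subtype.val e1, congrArg Subtype.val e2,
        h1, h2, h3⟩
    · rintro ⟨p', s', b', p, s, b, e1, e2, h1, h2, h3⟩
      have m1 : ZFSet.pair p' (ZFSet.pair s' b') ∈ W := by
        have h4 := (f x).2
        rwa [e1] at h4
      have m2 : ZFSet.pair p (ZFSet.pair s b) ∈ W := by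
        have h4 := (g x).2
        rwa [e2] at h4
      have n1 := hz.pair_right m1
      have n2 := hz.pair_right m2
      exact ⟨⟨p', hz.pair_left m1⟩, ⟨s', hz.pair_left n1⟩, ⟨b', hz.pair_right n1⟩,
        ⟨p, hz.pair_left m2⟩, ⟨s, hz.pair_left n2⟩, ⟨b, hz.pair_right n2⟩,
        Subtype.ext e1, Subtype.ext e2, h1, h2, h3⟩
  · (repeat' (first | (with_reducible first | exact DFc.id | exact DFc.const _ | exact MD.const _ | apply MD.and | apply MD.or | apply MD.iff | apply MD.not | apply MD.imp | apply MD.ex | apply MD.all | apply MD.zpair_mem hz | apply MD.eq_zpair hz | apply MD.isFn hz | apply MD.isO hz | apply MD.mem | apply MD.eq | apply DFc.zpr hz | apply DFc.zap hz | apply DFc.zun hz | apply DFc.zsg hz | apply DFc.zsU hz | apply DFc.ztr hz | apply DFc.zup hz | apply DFc.zpd hz) | (with_reducible first | exact hf | apply hf | apply MD.comp2 hf | apply DFc.comp2 hf | apply MD.comp3 hf | apply DFc.comp3 hf | apply MD.comp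 hf | apply DFc.comp hf) | (with_reducible first | exact hg | apply hg | apply MD.comp2 hg | apply DFc.comp2 hg | apply MD.comp3 hg | apply DFc.comp3 hg | apply MD.comp hg | apply DFc.comp hg) | (with_reducible first | exact (MD.sub h) | apply (MD.sub h) | apply MD.comp2 (MD.sub h) | apply DFc.comp2 (MD.sub h) | apply MD.comp3 (MD.sub h) | apply DFc.comp3 (MD.sub h) | apply MD.comp (MD.sub h) | apply DFc.comp (MD.sub h)) | (with_reducible apply DFc.fst) | (with_reducible apply DFc.snd) | (with_reducible apply DFc.mk)))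

theorem Le.refl {c : ZFSet.{0}} (hc : Cond W c) : Le c c := by
  obtain ⟨p, s, b, e, h1, h2⟩ := hc
  exact ⟨p, s, b, p, s, b, e, e, fun _ h => h, fun _ h => h, fun _ h => h⟩

theorem Le.trans {c d e : ZFSet.{0}} (h1 : Le c d) (h2 : Le d e) : Le c e := by
  obtain ⟨p1, s1, b1, p2, s2, b2, e1, e2, a1, a2, a3⟩ := h1
  obtain ⟨p3, s3, b3, p4, s4, b4, e3, e4, a4, a5, a6⟩ := h2
  obtain ⟨f1, f2, f3⟩ := tinj'.1 (e2.symm.trans e3)
  subst f1 f2 f3
  exact ⟨p1, s1, b1, p4, s4, b4, e1, e4, fun _ h => a1 (a4 h), fun _ h => a2 (a5 h),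
    fun _ h => a3 (a6 h)⟩

theorem le_trip {p' s' b' p s b : ZFSet.{0}} :
    Le (trip p' s' b') (trip p s b) ↔ p ⊆ p' ∧ s ⊆ s' ∧ b ⊆ b' := by
  constructor
  · rintro ⟨p1, s1, b1, p2, s2, b2, e1, e2, a1, a2, a3⟩
    obtain ⟨f1, f2, f3⟩ := tinj'.1 e1
    obtain ⟨g1, g2, g3⟩ := tinj'.1 e2
    subst f1 f2 f3 g1 g2 g3
    exact ⟨a1, a2, a3⟩
  · rintro ⟨a1, a2, a3⟩
    exact ⟨p', s', b', p, s, b, rfl, rfl, a1, a2, a3⟩

theorem cond_trip {p s b : ZFSet.{0}} : Cond W (trip p s b) ↔ CondP W p ∧ CondB W s b := by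
  constructor
  · rintro ⟨p1, s1, b1, e1, h1, h2⟩
    obtain ⟨f1, f2, f3⟩ := tinj'.1 e1
    subst f1 f2 f3
    exact ⟨h1, h2⟩
  · rintro ⟨h1, h2⟩
    exact ⟨p, s, b, rfl, h1, h2⟩

theorem gen_cond (h : Ext W G) {c : ZFSet.{0}} (hc : c ∈ G) : Cond W c := by
  obtain ⟨P, hP, R, hR, h1, h2, h3⟩ := h.gen
  exact (h1 c).1 (h3.sub c hc)

theorem gen_up (h : Ext W G) {c d : ZFSet.{0}} (hc : c ∈ G) (hd : Cond W d) (hcd : Le c d) :
    d ∈ G := by
  obtain ⟨P, hP, R, hR, h1, h2, h3⟩ := h.gen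
  have hdP : d ∈ P := (h1 d).2 hd
  exact h3.up c hc d hdP ((h2 _).2 ⟨c, h3.sub c hc, d, hdP, rfl, hcd⟩)

theorem gen_dir (h : Ext W G) {c d : ZFSet.{0}} (hc : c ∈ G) (hd : d ∈ G) :
    ∃ e ∈ G, Le e c ∧ Le e d := by
  obtain ⟨P, hP, R, hR, h1, h2, h3⟩ := h.gen
  obtain ⟨z, hz, a1, a2⟩ := h3.dir c hc d hd
  have key : ∀ x y, ZFSet.pair x y ∈ R → Le x y := by
    intro x y hxy
    obtain ⟨x', -, y', -, e, h4⟩ := (h2 _).1 hxy
    obtain ⟨e1, e2⟩ := ZFSet.pair_inj.1 e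
    rw [e1, e2]
    exact h4
  exact ⟨z, hz, key _ _ a1, key _ _ a2⟩

theorem gen_ne (h : Ext W G) : ∃ c, c ∈ G := by
  obtain ⟨P, hP, R, hR, h1, h2, h3⟩ := h.gen
  exact h3.ne

theorem gen_meets (h : Ext W G) {D : W → Prop} (hD : MD W D) {c0 : ZFSet.{0}} (hc0 : c0 ∈ G)
    (hd : ∀ c : W, Cond W c.1 → Le c.1 c0 → ∃ d : W, Cond W d.1 ∧ Le d.1 c.1 ∧ D d) :
    ∃ d : W, d.1 ∈ G ∧ D d := by
  have hz := h.zfc.zf0
  have hcW : c0 ∈ W := (gen_cond h hc0).mem h
  obtain ⟨P, hP, R, hR, h1, h2, h3⟩ := h.gen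
  obtain ⟨b, hb⟩ := hz.sep (fun d : W => D d ∨ ¬ ∃ e : W, Cond W e.1 ∧ Le e.1 d.1 ∧
    Le e.1 (⟨c0, hcW⟩ : W).1) (by (repeat' (first | (with_reducible first | exact DFc.id | exact DFc.const _ | exact MD.const _ | apply MD.and | apply MD.or | apply MD.iff | apply MD.not | apply MD.imp | apply MD.ex | apply MD.all | apply MD.zpair_mem hz | apply MD.eq_zpair hz | apply MD.isFn hz | apply MD.isO hz | apply MD.mem | apply MD.eq | apply DFc.zpr hz | apply DFc.zap hz | apply DFc.zun hz | apply DFc.zsg hz | apply DFc.zsU hz | apply DFc.ztr hz | apply DFc.zup hz | apply DFc.zpd hz) | (with_reducible first | exact hD | apply hD | apply MD.comp2 hD | apply DFc.comp2 hD | apply MD.comp3 hD | apply DFc.comp3 hD | apply MD.comp hD | apply DFc.comp hD) | (with_reducible first | exact (MD.cond h) | apply (MD.cond h) | apply MD.comp2 (MD.cond h) | apply DFc.comp2 (MD.cond h) | apply MD.comp3 (MD.cond h) | apply DFc.comp3 (MD.cond h) | apply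 MD.comp (MD.cond h) | apply DFc.comp (MD.cond h)) | (with_reducible first | exact (MD.le h.zfc) | apply (MD.le h.zfc) | apply MD.comp2 (MD.le h.zfc) | apply DFc.comp2 (MD.le h.zfc) | apply MD.comp3 (MD.le h.zfc) | apply DFc.comp3 (MD.le h.zfc) | apply MD.comp (MD.le h.zfc) | apply DFc.comp (MD.le h.zfc)) | (with_reducible apply DFc.fst) | (with_reducible apply DFc.snd) | (with_reducible apply DFc.mk)))) ⟨P, hP⟩
  have hbP : b.1 ⊆ P := by
    intro x hx
    exact ((hb ⟨x, h.zfc.trans _ b.2 _ hx⟩).1 hx).1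
  obtain ⟨d, hdG, hdb⟩ := h3.meets b.1 b.2 hbP (by
    intro x hx
    have hxW : x ∈ W := h.zfc.trans _ hP _ hx
    have hxC : Cond W x := (h1 x).1 hx
    by_cases hex : ∃ e : W, Cond W e.1 ∧ Le e.1 x ∧ Le e.1 c0
    · obtain ⟨e, he1, he2, he3⟩ := hex
      obtain ⟨d, hd1, hd2, hd3⟩ := hd e he1 he3
      have hdP : d.1 ∈ P := (h1 _).2 hd1
      exact ⟨d.1, (hb d).2 ⟨hdP, Or.inl hd3⟩, (h2 _).2 ⟨d.1, hdP, x, hx, rfl, hd2.trans he2⟩⟩
    · exact ⟨x, (hb ⟨x, hxW⟩).2 ⟨hx, Or.inr hex⟩, (h2 _).2 ⟨x, hx, x, hx, rfl, Le.refl hxC⟩⟩)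
  have hdW : d ∈ W := h.zfc.trans _ b.2 _ hdb
  refine ⟨⟨d, hdW⟩, hdG, ?_⟩
  rcases ((hb ⟨d, hdW⟩).1 hdb).2 with h4 | h4
  · exact h4
  · exfalso
    obtain ⟨e, heG, he1, he2⟩ := gen_dir h hdG hc0
    exact h4 ⟨⟨e, (gen_cond h heG).mem h⟩, gen_cond h heG, he1, he2⟩

theorem exists_name (h : Ext W G) {a : W} {z : ZFSet.{0}} (hz : z ⊆ a.1) :
    ∃ E : W → W → Prop, (MD W fun p : W × W => E p.1 p.2) ∧
      (∀ x c c' : W, E x c → Cond W c'.1 → Le c'.1 c.1 → E x c') ∧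
      ∀ x : W, x.1 ∈ z ↔ ∃ c : W, c.1 ∈ G ∧ E x c := by
  have hz0 := h.zfc.zf0
  obtain ⟨σ, hσ, hσ'⟩ := h.names a.1 a.2 z hz
  obtain ⟨s, hs⟩ : ∃ s : W, s.1 = σ := ⟨⟨σ, hσ⟩, rfl⟩
  refine ⟨fun x c => x.1 ∈ a.1 ∧ Cond W c.1 ∧ ∃ c' : W, Cond W c'.1 ∧ Le c.1 c'.1 ∧
    ZFSet.pair x.1 c'.1 ∈ s.1, ?_, ?_, ?_⟩
  · (repeat' (first | (with_reducible first | exact DFc.id | exact DFc.const _ | exact MD.const _ | apply MD.and | apply MD.or | apply MD.iff | apply MD.not | apply MD.imp | apply MD.ex | apply MD.all | apply MD.zpair_mem hz0 | apply MD.eq_zpair hz0 | apply MD.isFn hz0 | apply MD.isO hz0 | apply MD.mem | apply MD.eq | apply DFc.zpr hz0 | apply DFc.zap hz0 | apply DFc.zun hz0 | apply DFc.zsg hz0 | apply DFc.zsU hz0 | apply DFc.ztr hz0 | apply DFc.zup hz0 | apply DFc.zpd hz0) | (with_reducible first | exact (MD.cond h) | apply (MD.cond h) | apply MD.comp2 (MD.cond h) | apply DFc.comp2 (MD.cond h) | apply MD.comp3 (MD.cond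 h) | apply DFc.comp3 (MD.cond h) | apply MD.comp (MD.cond h) | apply DFc.comp (MD.cond h)) | (with_reducible first | exact (MD.le h.zfc) | apply (MD.le h.zfc) | apply MD.comp2 (MD.le h.zfc) | apply DFc.comp2 (MD.le h.zfc) | apply MD.comp3 (MD.le h.zfc) | apply DFc.comp3 (MD.le h.zfc) | apply MD.comp (MD.le h.zfc) | apply DFc.comp (MD.le h.zfc)) | (with_reducible apply DFc.fst) | (with_reducible apply DFc.snd) | (with_reducible apply DFc.mk)))
  · rintro x c c' ⟨h1, h2, d, h3, h4, h5⟩ h6 h7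
    exact ⟨h1, h6, d, h3, h7.trans h4, h5⟩
  · intro x
    rw [hσ']
    constructor
    · rintro ⟨h1, p, hp, h2⟩
      have hpC := gen_cond h hp
      exact ⟨⟨p, hpC.mem h⟩, hp, h1, hpC, ⟨p, hpC.mem h⟩, hpC, Le.refl hpC, by rw [hs]; exact h2⟩
    · rintro ⟨c, hc, h1, h2, d, h3, h4, h5⟩
      rw [hs] at h5
      exact ⟨h1, d.1, gen_up h hc h3 h4, h5⟩

theorem dense_below (h : Ext W G) {I : W} {E : W → W → Prop}
    (hE : MD W fun p : W × W => E p.1 p.2)
    (down : ∀ x c c' : W, E x c → Cond W c'.1 → Le c'.1 c.1 → E x c')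
    (hI : ∀ i : W, i.1 ∈ I.1 → ∃ c : W, c.1 ∈ G ∧ E i c) :
    ∃ c0 : W, c0.1 ∈ G ∧ ∀ i : W, i.1 ∈ I.1 → ∀ c : W, Cond W c.1 → Le c.1 c0.1 →
      ∃ d : W, Cond W d.1 ∧ Le d.1 c.1 ∧ E i d := by
  have hz := h.zfc.zf0
  obtain ⟨c1, hc1⟩ := gen_ne h
  obtain ⟨c, hcG, hc⟩ := gen_meets h (D := fun c => (∃ i : W, i.1 ∈ I.1 ∧ ∀ d : W, Cond W d.1 →
      Le d.1 c.1 → ¬ E i d) ∨ (∀ i : W, i.1 ∈ I.1 → ∀ c' : W, Cond W c'.1 → Le c'.1 c.1 →
      ∃ d : W, Cond W d.1 ∧ Le d.1 c'.1 ∧ E i d))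
    (by (repeat' (first | (with_reducible first | exact DFc.id | exact DFc.const _ | exact MD.const _ | apply MD.and | apply MD.or | apply MD.iff | apply MD.not | apply MD.imp | apply MD.ex | apply MD.all | apply MD.zpair_mem hz | apply MD.eq_zpair hz | apply MD.isFn hz | apply MD.isO hz | apply MD.mem | apply MD.eq | apply DFc.zpr hz | apply DFc.zap hz | apply DFc.zun hz | apply DFc.zsg hz | apply DFc.zsU hz | apply DFc.ztr hz | apply DFc.zup hz | apply DFc.zpd hz) | (with_reducible first | exact hE | apply hE | apply MD.comp2 hE | apply DFc.comp2 hE | apply MD.comp3 hE | apply DFc.comp3 hE | apply MD.comp hE | apply DFc.comp hE) | (with_reducible first | exact (MD.cond h) | apply (MD.cond h) | apply MD.comp2 (MD.cond h) | apply DFc.comp2 (MD.cond h) | apply MD.comp3 (MD.cond h) | apply DFc.comp3 (MD.cond h) | apply MD.comp (MD.cond h) | apply DFc.comp (MD.cond h)) | (with_reducible first | exact (MD.le h.zfc) | apply (MD.le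 h.zfc) | apply MD.comp2 (MD.le h.zfc) | apply DFc.comp2 (MD.le h.zfc) | apply MD.comp3 (MD.le h.zfc) | apply DFc.comp3 (MD.le h.zfc) | apply MD.comp (MD.le h.zfc) | apply DFc.comp (MD.le h.zfc)) | (with_reducible apply DFc.fst) | (with_reducible apply DFc.snd) | (with_reducible apply DFc.mk)))) hc1 (by
    intro c hc hcc
    by_cases hex : ∀ i : W, i.1 ∈ I.1 → ∀ c' : W, Cond W c'.1 → Le c'.1 c.1 →
      ∃ d : W, Cond W d.1 ∧ Le d.1 c'.1 ∧ E i d
    · exact ⟨c, hc, Le.refl hc, Or.inr hex⟩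
    · push Not at hex
      obtain ⟨i, hi, c', h1, h2, h3⟩ := hex
      exact ⟨c', h1, h2, Or.inl ⟨i, hi, h3⟩⟩)
  rcases hc with ⟨i, hi, h1⟩ | h1
  · exfalso
    obtain ⟨e, heG, he⟩ := hI i hi
    obtain ⟨d, hdG, hd1, hd2⟩ := gen_dir h hcG heG
    have hdC := gen_cond h hdG
    exact h1 ⟨d, hdC.mem h⟩ hdC hd1 (down i e ⟨d, hdC.mem h⟩ he hdC hd2)
  · exact ⟨c, hcG, h1⟩

end HNF
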