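import Pool.Agent.RMK.S.WZf

/-!
HNF TACL: composition of definable predicates and functions of several variables.
-/

namespace RMK

variable {M : Set ZFSet.{0}} {X : Type 1} [Ctx M X]

theorem MD.comp2 {P : M → M → Prop} (hP : MD M fun p : M × M => P p.1 p.2) {f g : X → M}
    (hf : DFc M f) (hg : DFc M g) : MD M fun x => P (f x) (g x) :=
  MD.comp hP (DFc.mk hf hg)

theorem DFc.comp2 {F : M → M → M} (hF : DFc M fun p : M × M => F p.1 p.2) {f g : X → M}
    (hf : DFc M f) (hg : DFc M g) : DFc M fun x => F (f x) (g x) :=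
  DFc.comp hF (DFc.mk hf hg)

theorem MD.comp3 {P : M → M → M → Prop} (hP : MD M fun p : M × M × M => P p.1 p.2.1 p.2.2)
    {f g h : X → M} (hf : DFc M f) (hg : DFc M g) (hh : DFc M h) :
    MD M fun x => P (f x) (g x) (h x) :=
  MD.comp hP (DFc.mk hf (DFc.mk hg hh))

theorem DFc.comp3 {F : M → M → M → M} (hF : DFc M fun p : M × M × M => F p.1 p.2.1 p.2.2)
    {f g h : X → M} (hf : DFc M f) (hg : DFc M g) (hh : DFc M h) :
    DFc M fun x => F (f x) (g x) (h x) :=
  DFc.comp hF (DFc.mk hf (DFc.mk hg hh))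

end RMK
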