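import Pool.Agent.HNF.Cnt
import Pool.Agent.HNF.Fin
import Pool.Agent.HNF.Gen
import Pool.Agent.HNF.TacL

/-!
HNF DFB: `CondB W s b` is definable in `W` (without assuming that the set of conditions is in `W`).

PROOF.  Let `κ = kap W`, `Q` the set of `exists_finSet`.  For elements `s, F, D` of `W` the sets `extA κ s F D` and `extA κ s {∅} D` (all total
functions on `D` extending `s`) are sets of elements of `Q`, so they are sets `A s F D`, `B s D` in `W`, depending definably on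
`(s, F, D)` (`sepF` in `Q`; `Tot` is definable: `MD.finP`).  Let `P k` be the power set of `k` (`exists_powF`).  For `k ∈ ω` let
`X = {pair 0 (pair t u) | t ∈ A, u ∈ P (k ∪ {k})} ∪ {pair 1 (pair t ∅) | t ∈ B}` and `Y = B × P k` (`zpd`, `zun`, products with
singletons: `X = {0} × (A × P (k + 1)) ∪ {1} × (B × {∅})`), definable functions of `(s, F, D, k)`.
`card_le`: for natural `k`, finite `D`, with `a, b` the numbers of elements of `A`, `B`, `b > 0` (every `FinP` function `s` with coordinates in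
`D` has a total extension): `SzZ W X Y ↔ 2 ^ (k + 1) * a + b ≤ 2 ^ k * b`.  Indeed `X` and `Y` are finite sets with
`2 ^ (k + 1) * a + b` and `b * 2 ^ k` elements (`P (natZ k)` contains all `2 ^ k` subsets, as finite subsets are in `W`), and for
finite sets `X, Y ∈ W`, `Y` nonempty, there is a function on `Y` in `W` whose range contains `X` iff `X` has at most as many elements as `Y`
(→ counting; ← a function between finite sets is a finite set of pairs of elements of `W`, so in `W`).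
By `count_ext` (for `F` and for `{∅}`, `opn {∅} = univ`; the factor `2⁻¹ ^ n` cancels) the inequality is equivalent to
`2 * lam (cyl s ∩ opn F) + 2⁻¹ ^ k * lam (cyl s) ≤ lam (cyl s)`.
So by `pos_iff` and `exists_finD`: `CondB W s b` iff `FinP κ s`, `b ⊆ Q`, `SzZ W b ω` and there is `k ∈ ω` such that for all `F ⊆ b` with
`SzZ W F n` for some `n ∈ ω` and for all `D ⊆ κ × ω` with `SzZ W D n` for some `n ∈ ω` and `InD D s`, `∀ e ∈ F, InD D e`:
`SzZ W X Y`.  (Finite subsets of elements of `W` are elements of `W`; `sz_finite`; a set `F` with `SzZ W F (natZ n)` is finite.)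
This is definable: `mdd`-style proof (calculus of `MDc.lean`).
-/

namespace HNF

open RMK Set MeasureTheory

variable {W : Set ZFSet.{0}} {X : Type 1} [Ctx W X]

private theorem dfb_fin (hz : ZF0 W) {A : Set ZFSet.{0}} (hA : A.Finite) (hW : ∀ t ∈ A, t ∈ W) :
    ∃ p : W, ∀ t, t ∈ p.1 ↔ t ∈ A := by
  induction A, hA using Set.Finite.induction_on with
  | empty => exact ⟨⟨∅, hz.empty_mem⟩, fun t => by simp⟩
  | @insert a A ha hA ih =>
    obtain ⟨p, hp⟩ := ih (fun t ht => hW t (Set.mem_insert_of_mem _ ht))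
    refine ⟨⟨p.1 ∪ {a}, hz.un p.2 (hz.sg (hW a (Set.mem_insert _ _)))⟩, fun t => ?_⟩
    rw [ZFSet.mem_union, ZFSet.mem_singleton, hp, Set.mem_insert_iff]
    tauto

/-- for finite sets `SzZ` compares the numbers of elements -/
private theorem dfb_szZ (hz : ZF0 W) {x y : ZFSet.{0}} (hx : x ∈ W) (hy : y ∈ W)
    (fx : {z : ZFSet.{0} | z ∈ x}.Finite) (fy : {z : ZFSet.{0} | z ∈ y}.Finite) :
    SzZ W x y ↔ {z : ZFSet.{0} | z ∈ x}.ncard ≤ {z : ZFSet.{0} | z ∈ y}.ncard := by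
  classical
  constructor
  · rintro ⟨f, hf, h1, h2⟩
    choose! g hg hg' using h1
    refine Set.ncard_le_ncard_of_injOn g (fun z hz => hg z hz) ?_ fy
    intro z hz' z' hz'' e
    refine (h2 _ (hg z hz')).unique (hg' z hz') ?_
    have h3 := hg' z' hz''
    rwa [← e] at h3
  · intro hc
    have hc' : {z : ZFSet.{0} | z ∈ x}.encard ≤ {z : ZFSet.{0} | z ∈ y}.encard := by
      rw [← fx.cast_ncard_eq, ← fy.cast_ncard_eq]
      exact_mod_cast hc
    obtain ⟨g, hg1, hg2⟩ := fx.exists_injOn_of_encard_le hc'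
    let φ : ZFSet.{0} → ZFSet.{0} := fun w =>
      if w ∈ g '' {z : ZFSet.{0} | z ∈ x} then Function.invFunOn g {z : ZFSet.{0} | z ∈ x} w else ∅
    have hφW : ∀ w, φ w ∈ W := by
      intro w
      simp only [φ]
      split_ifs with h1
      · exact hz.trans _ hx _ (Function.invFunOn_mem h1)
      · exact hz.empty_mem
    have hφ : ∀ z ∈ x, φ (g z) = z := by
      intro z hz'
      have h1 : g z ∈ g '' {z : ZFSet.{0} | z ∈ x} := ⟨z, hz', rfl⟩
      simp only [φ, if_pos h1]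
      exact hg2 (Function.invFunOn_mem h1) hz' (Function.invFunOn_eq h1)
    obtain ⟨f, hf⟩ := dfb_fin hz (A := (fun w => ZFSet.pair w (φ w)) '' {z : ZFSet.{0} | z ∈ y})
      (fy.image _) (by
        rintro t ⟨w, hw, rfl⟩
        exact hz.pairZ (hz.trans _ hy _ hw) (hφW w))
    refine ⟨f.1, f.2, fun z hz' => ⟨g z, hg1 hz', (hf _).2 ⟨g z, hg1 hz', ?_⟩⟩, fun w hw => ?_⟩
    · simp only [hφ z hz']
    · refine ⟨φ w, (hf _).2 ⟨w, hw, rfl⟩, fun w' hw' => ?_⟩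
      obtain ⟨w'', -, e⟩ := (hf _).1 hw'
      obtain ⟨e1, e2⟩ := ZFSet.pair_inj.1 e
      rw [← e2, e1]

private theorem dfb_prod {a b : ZFSet.{0}} (fa : {z : ZFSet.{0} | z ∈ a}.Finite)
    (fb : {z : ZFSet.{0} | z ∈ b}.Finite) : {z : ZFSet.{0} | z ∈ a.prod b}.Finite ∧
      {z : ZFSet.{0} | z ∈ a.prod b}.ncard =
        {z : ZFSet.{0} | z ∈ a}.ncard * {z : ZFSet.{0} | z ∈ b}.ncard := by
  have e : {z : ZFSet.{0} | z ∈ a.prod b} =
      (fun p : ZFSet.{0} × ZFSet.{0} => ZFSet.pair p.1 p.2) ''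
        ({z : ZFSet.{0} | z ∈ a} ×ˢ {z : ZFSet.{0} | z ∈ b}) := by
    ext z
    constructor
    · intro hz'
      obtain ⟨u, hu, v, hv, rfl⟩ := ZFSet.mem_prod.1 hz'
      exact ⟨(u, v), ⟨hu, hv⟩, rfl⟩
    · rintro ⟨⟨u, v⟩, ⟨hu, hv⟩, rfl⟩
      exact ZFSet.mem_prod.2 ⟨u, hu, v, hv, rfl⟩
  have hinj : Function.Injective (fun p : ZFSet.{0} × ZFSet.{0} => ZFSet.pair p.1 p.2) := by
    rintro ⟨u, v⟩ ⟨u', v'⟩ h1
    obtain ⟨rfl, rfl⟩ := ZFSet.pair_inj.1 h1
    rfl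
  rw [e]
  refine ⟨(fa.prod fb).image _, ?_⟩
  rw [Set.ncard_image_of_injective _ hinj, Set.ncard_prod]

private theorem dfb_mem_natZ {n : ℕ} {x : ZFSet.{0}} : x ∈ natZ n ↔ ∃ k < n, x = natZ k := by
  unfold natZ
  rw [Ordinal.mem_toZFSet_iff]
  constructor
  · rintro ⟨a, ha, rfl⟩
    obtain ⟨k, rfl⟩ := Ordinal.lt_omega0.1 (ha.trans (Ordinal.natCast_lt_omega0 n))
    exact ⟨k, by exact_mod_cast ha, rfl⟩
  · rintro ⟨k, hk, rfl⟩
    exact ⟨k, by exact_mod_cast hk, rfl⟩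

private theorem dfb_nat (n : ℕ) : {z : ZFSet.{0} | z ∈ natZ n}.Finite ∧
    {z : ZFSet.{0} | z ∈ natZ n}.ncard = n := by
  have e : {z : ZFSet.{0} | z ∈ natZ n} = natZ '' Set.Iio n := by
    ext z
    constructor
    · intro hz'
      obtain ⟨k, hk, rfl⟩ := dfb_mem_natZ.1 hz'
      exact ⟨k, hk, rfl⟩
    · rintro ⟨k, hk, rfl⟩
      exact dfb_mem_natZ.2 ⟨k, hk, rfl⟩
  rw [e]
  refine ⟨(Set.finite_Iio n).image _, ?_⟩
  rw [Set.ncard_image_of_injective _ (fun a b hab => natZ_inj.1 hab)]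
  simp [Set.ncard_eq_toFinset_card']

private theorem dfb_zero : natZ 0 = ∅ := by
  refine (ZFSet.eq_empty _).2 fun y hy => ?_
  obtain ⟨k, hk, -⟩ := dfb_mem_natZ.1 hy
  exact absurd hk (Nat.not_lt_zero k)

private theorem dfb_union {A B m : ZFSet.{0}} (fA : {z : ZFSet.{0} | z ∈ A}.Finite)
    (fB : {z : ZFSet.{0} | z ∈ B}.Finite) (fm : {z : ZFSet.{0} | z ∈ m}.Finite) :
    {z : ZFSet.{0} | z ∈ A.prod (m.prod (natZ 2)) ∪ B.prod (natZ 1)}.Finite ∧
      {z : ZFSet.{0} | z ∈ A.prod (m.prod (natZ 2)) ∪ B.prod (natZ 1)}.ncard =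
        {z : ZFSet.{0} | z ∈ A}.ncard * ({z : ZFSet.{0} | z ∈ m}.ncard * 2) +
          {z : ZFSet.{0} | z ∈ B}.ncard := by
  obtain ⟨f1, c1⟩ := dfb_prod fm (dfb_nat 2).1
  obtain ⟨f2, c2⟩ := dfb_prod fA f1
  obtain ⟨f3, c3⟩ := dfb_prod fB (dfb_nat 1).1
  have e : {z : ZFSet.{0} | z ∈ A.prod (m.prod (natZ 2)) ∪ B.prod (natZ 1)} =
      {z : ZFSet.{0} | z ∈ A.prod (m.prod (natZ 2))} ∪ {z : ZFSet.{0} | z ∈ B.prod (natZ 1)} := by
    ext z
    exact ZFSet.mem_union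
  rw [e]
  refine ⟨f2.union f3, ?_⟩
  rw [Set.ncard_union_eq ?_ f2 f3, c2, c1, c3, (dfb_nat 2).2, (dfb_nat 1).2, mul_one]
  rw [Set.disjoint_left]
  intro z h1 h2
  obtain ⟨u, -, v, hv, e1⟩ := ZFSet.mem_prod.1 h1
  obtain ⟨u', -, v', hv', e2⟩ := ZFSet.mem_prod.1 h2
  obtain ⟨i, -, j, -, e3⟩ := ZFSet.mem_prod.1 hv
  obtain ⟨k, hk, e4⟩ := dfb_mem_natZ.1 hv'
  have hk0 : k = 0 := by omega
  rw [e1] at e2
  have e5 := (ZFSet.pair_inj.1 e2).2
  rw [e3, e4, hk0, dfb_zero] at e5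
  have h6 : ({i} : ZFSet.{0}) ∈ ZFSet.pair i j := by
    rw [ZFSet.pair]
    simp
  rw [e5] at h6
  exact ZFSet.notMem_empty _ h6

private theorem dfb_ennreal (a b m n : ℕ) (hm : m ≠ 0) :
    2 * ((a : ENNReal) * (2⁻¹ : ENNReal) ^ n) + (m : ENNReal)⁻¹ * ((b : ENNReal) * (2⁻¹ : ENNReal) ^ n) ≤
      (b : ENNReal) * (2⁻¹ : ENNReal) ^ n ↔ a * (m * 2) + b ≤ b * m := by
  have h0 : (2⁻¹ : ENNReal) ^ n ≠ 0 := pow_ne_zero _ (by simp)
  have h1 : (2⁻¹ : ENNReal) ^ n ≠ ⊤ := ENNReal.pow_ne_top (by simp)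
  have m0 : (m : ENNReal) ≠ 0 := by exact_mod_cast hm
  have m1 : (m : ENNReal) ≠ ⊤ := ENNReal.natCast_ne_top m
  have e1 : 2 * ((a : ENNReal) * (2⁻¹ : ENNReal) ^ n) +
      (m : ENNReal)⁻¹ * ((b : ENNReal) * (2⁻¹ : ENNReal) ^ n) =
      (2 * a + (m : ENNReal)⁻¹ * b) * (2⁻¹ : ENNReal) ^ n := by ring
  rw [e1, ENNReal.mul_le_mul_iff_left h0 h1, ← ENNReal.mul_le_mul_iff_right m0 m1, mul_add,
    ← mul_assoc (m : ENNReal) ((m : ENNReal)⁻¹), ENNReal.mul_inv_cancel m0 m1, one_mul]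
  have e2 : (m : ENNReal) * (2 * a) + b = ((a * (m * 2) + b : ℕ) : ENNReal) := by
    push_cast
    ring
  have e3 : (m : ENNReal) * b = ((b * m : ℕ) : ENNReal) := by
    push_cast
    ring
  rw [e2, e3]
  exact Nat.cast_le

private theorem dfb_key {κ : Ordinal.{0}} (hz : ZF0 W) {A : W × W × W → W}
    (hA : ∀ s F D : W, ∀ t, t ∈ (A (s, F, D)).1 ↔ t ∈ extA κ s.1 F.1 D.1) (s F D : W) {m : ℕ}
    (hm : m ≠ 0) (hs : FinP κ s.1) (hF : ∀ e ∈ F.1, FinP κ e) (hD : FinD κ D.1)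
    (h1 : InD D.1 s.1) (h2 : ∀ e ∈ F.1, InD D.1 e) :
    SzZ W (zun hz (zpd hz (A (s, F, D)) (zpd hz (znat hz m) (znat hz 2)))
      (zpd hz (A (s, znat hz 1, D)) (znat hz 1))).1
      (zpd hz (A (s, znat hz 1, D)) (znat hz m)).1 ↔
      2 * lam (cyl s.1 ∩ opn F.1) + (m : ENNReal)⁻¹ * lam (cyl s.1) ≤ lam (cyl s.1) := by
  have h3 : ∀ e ∈ natZ 1, FinP κ e := by
    intro e he
    obtain ⟨k, hk, rfl⟩ := dfb_mem_natZ.1 he
    have hk0 : k = 0 := by omega
    rw [hk0, dfb_zero]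
    exact finP_empty κ
  have h4 : ∀ e ∈ natZ 1, InD D.1 e := by
    intro e he
    obtain ⟨k, hk, rfl⟩ := dfb_mem_natZ.1 he
    have hk0 : k = 0 := by omega
    rw [hk0, dfb_zero]
    intro x y hxy
    exact absurd hxy (ZFSet.notMem_empty _)
  have h5 : opn (natZ 1) = Set.univ := by
    refine Set.eq_univ_of_forall fun z => ?_
    simp only [opn, Set.mem_iUnion, Set.mem_ofPred_eq]
    refine ⟨∅, ?_, ?_⟩
    · exact dfb_mem_natZ.2 ⟨0, Nat.one_pos, dfb_zero.symm⟩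
    · rw [cyl_empty]
      exact Set.mem_univ z
  obtain ⟨fA, cA⟩ := count_ext hs hF hD h1 h2
  obtain ⟨fB, cB⟩ := count_ext hs h3 hD h1 h4
  rw [h5, Set.inter_univ] at cB
  have eA : {z : ZFSet.{0} | z ∈ (A (s, F, D)).1} = extA κ s.1 F.1 D.1 := by
    ext t
    exact hA s F D t
  have eB : {z : ZFSet.{0} | z ∈ (A (s, znat hz 1, D)).1} = extA κ s.1 (natZ 1) D.1 := by
    ext t
    exact hA s (znat hz 1) D t
  have fA' : {z : ZFSet.{0} | z ∈ (A (s, F, D)).1}.Finite := by rw [eA]; exact fA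
  have fB' : {z : ZFSet.{0} | z ∈ (A (s, znat hz 1, D)).1}.Finite := by rw [eB]; exact fB
  obtain ⟨fX, cX⟩ := dfb_union fA' fB' (dfb_nat m).1
  obtain ⟨fY, cY⟩ := dfb_prod fB' (dfb_nat m).1
  rw [cA, cB, dfb_ennreal _ _ _ _ hm]
  have key := dfb_szZ hz (zun hz (zpd hz (A (s, F, D)) (zpd hz (znat hz m) (znat hz 2)))
      (zpd hz (A (s, znat hz 1, D)) (znat hz 1))).2 (zpd hz (A (s, znat hz 1, D)) (znat hz m)).2
      fX fY
  rw [key]
  have eX : {z : ZFSet.{0} | z ∈ (zun hz (zpd hz (A (s, F, D)) (zpd hz (znat hz m) (znat hz 2)))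
      (zpd hz (A (s, znat hz 1, D)) (znat hz 1))).1}.ncard =
      (extA κ s.1 F.1 D.1).ncard * (m * 2) + (extA κ s.1 (natZ 1) D.1).ncard := by
    rw [← eA, ← eB]
    refine cX.trans ?_
    rw [(dfb_nat m).2]
  have eY : {z : ZFSet.{0} | z ∈ (zpd hz (A (s, znat hz 1, D)) (znat hz m)).1}.ncard =
      (extA κ s.1 (natZ 1) D.1).ncard * m := by
    rw [← eB]
    refine cY.trans ?_
    rw [(dfb_nat m).2]
  rw [eX, eY]

private theorem dfb_pos {κ : Ordinal.{0}} {s b : ZFSet.{0}} (hs : FinP κ s)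
    (hb : ∀ e ∈ b, FinP κ e) (hc : {e : ZFSet.{0} | e ∈ b}.Countable) :
    2 * lam (cyl s ∩ opn b) < lam (cyl s) ↔ ∃ m : ℕ, m ≠ 0 ∧ ∀ F, F ⊆ b →
      {e : ZFSet.{0} | e ∈ F}.Finite →
      2 * lam (cyl s ∩ opn F) + (m : ENNReal)⁻¹ * lam (cyl s) ≤ lam (cyl s) := by
  rw [pos_iff hs hb hc]
  constructor
  · rintro ⟨k, hk⟩
    refine ⟨2 ^ k, pow_ne_zero _ (by norm_num), fun F hF hF' => ?_⟩
    have h1 := hk F hF hF'
    have e : (((2 ^ k : ℕ) : ENNReal))⁻¹ = (2⁻¹ : ENNReal) ^ k := by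
      push_cast
      rw [ENNReal.inv_pow]
    rw [e]
    exact h1
  · rintro ⟨m, hm, h1⟩
    refine ⟨m, fun F hF hF' => le_trans ?_ (h1 F hF hF')⟩
    refine add_le_add_right ?_ _
    refine mul_le_mul_left ?_ _
    rw [← ENNReal.inv_pow, ENNReal.inv_le_inv]
    exact_mod_cast (Nat.lt_two_pow_self (n := m)).le

private theorem dfb_szfin {x : ZFSet.{0}} {n : ℕ} (hs : Sz W x n) :
    {z : ZFSet.{0} | z ∈ x}.Finite := by
  obtain ⟨f, -, h1, h2⟩ := hs
  have h3 : ∀ k : ℕ, k < n → ∃ z, ∀ z', ZFSet.pair ((k : Ordinal.{0}).toZFSet) z' ∈ f → z' = z := by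
    intro k hk
    obtain ⟨z, -, hz⟩ := h2 k (by exact_mod_cast hk)
    exact ⟨z, hz⟩
  choose! g hg using h3
  refine ((Set.finite_Iio n).image g).subset ?_
  intro z hz
  obtain ⟨ξ, hξ, hp⟩ := h1 z hz
  obtain ⟨k, rfl⟩ := Ordinal.lt_omega0.1 (hξ.trans (Ordinal.natCast_lt_omega0 n))
  have hk : k < n := by exact_mod_cast hξ
  exact ⟨k, hk, (hg k hk z hp).symm⟩

/-- finiteness of an element of `W`, expressed in `W` -/
private theorem dfb_finite (h : InnerZFC W) (x : W) : {z : ZFSet.{0} | z ∈ x.1}.Finite ↔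
    ∃ n : W, n.1 ∈ (zom h.zf0).1 ∧ SzZ W x.1 n.1 := by
  constructor
  · intro hf
    obtain ⟨n, hn⟩ := sz_finite h x.2 hf
    exact ⟨znat h.zf0 n, natZ_mem_omZ n, szZ_iff.2 hn⟩
  · rintro ⟨n, hn, hs⟩
    obtain ⟨k, hk⟩ := mem_omZ.1 (show n.1 ∈ omZ from hn)
    rw [hk] at hs
    exact dfb_szfin (W := W) (n := k) (szZ_iff.1 hs)

theorem MD.condB (h : InnerZFC W) (hg : GCHW W) {f g : X → W} (hf : DFc W f) (hg' : DFc W g) :
    MD W fun x => CondB W (f x).1 (g x).1 := by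
  have hz := h.zf0
  obtain ⟨Q, hQ, -⟩ := exists_finSet h hg
  obtain ⟨A, hA, hA'⟩ := hz.sepF (X := W × W × W) (a := fun _ => Q) (DFc.const _)
    (P := fun p t => (∀ x : W, x.1 ∈ p.2.2.1 ↔ ∃ y : W, ZFSet.pair x.1 y.1 ∈ t.1) ∧
      p.1.1 ⊆ t.1 ∧ ∃ e : W, e.1 ∈ p.2.1.1 ∧ e.1 ⊆ t.1) (by (repeat' (first | (with_reducible first | exact DFc.id | exact DFc.const _ | exact MD.const _ | apply MD.and | apply MD.or | apply MD.iff | apply MD.not | apply MD.imp | apply MD.ex | apply MD.all | apply MD.zpair_mem hz | apply MD.eq_zpair hz | apply MD.isFn hz | apply MD.isO hz | apply MD.mem | apply MD.eq | apply DFc.zpr hz | apply DFc.zap hz | apply DFc.zun hz | apply DFc.zsg hz | apply DFc.zsU hz | apply DFc.ztr hz | apply DFc.zup hz | apply DFc.zpd hz) | (with_reducible first | exact (MD.sub h) | apply (MD.sub h) | apply MD.comp2 (MD.sub h) | apply DFc.comp2 (MD.sub h) | apply MD.comp3 (MD.sub h) | apply DFc.comp3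 (MD.sub h) | apply MD.comp (MD.sub h) | apply DFc.comp (MD.sub h)) | (with_reducible apply DFc.fst) | (with_reducible apply DFc.snd) | (with_reducible apply DFc.mk))))
  have hAe : ∀ s F D : W, ∀ t, t ∈ (A (s, F, D)).1 ↔ t ∈ extA (kap W) s.1 F.1 D.1 := by
    intro s F D t
    constructor
    · intro ht
      have htW : t ∈ W := h.trans _ (A (s, F, D)).2 _ ht
      obtain ⟨h1, h2, h3, e, he, h4⟩ := (hA' (s, F, D) ⟨t, htW⟩).1 ht
      refine ⟨⟨(hQ t).1 h1, fun x => ⟨fun hx => ?_, fun hx => ?_⟩⟩, h3, e.1, he, h4⟩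
      · obtain ⟨y, hy⟩ := (h2 ⟨x, h.trans _ D.2 _ hx⟩).1 hx
        exact ⟨y.1, hy⟩
      · obtain ⟨y, hy⟩ := hx
        have hp := h.trans _ htW _ hy
        exact (h2 ⟨x, hz.pair_left hp⟩).2 ⟨⟨y, hz.pair_right hp⟩, hy⟩
    · rintro ⟨⟨h1, h2⟩, h3, e, he, h4⟩
      have htW : t ∈ W := h1.mem h
      refine (hA' (s, F, D) ⟨t, htW⟩).2 ⟨(hQ t).2 h1, fun x => ?_, h3,
        ⟨e, h.trans _ F.2 _ he⟩, he, h4⟩
      rw [show x.1 ∈ (s, F, D).2.2.1 ↔ x.1 ∈ D.1 from Iff.rfl, h2]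
      constructor
      · rintro ⟨y, hy⟩
        exact ⟨⟨y, hz.pair_right (h.trans _ htW _ hy)⟩, hy⟩
      · rintro ⟨y, hy⟩
        exact ⟨y.1, hy⟩
  let K : W := zpd hz (ordW h (kap W)) (zom hz)
  have hK : ∀ x, x ∈ K.1 ↔ ∃ j < kap W, ∃ n : ℕ, x = ZFSet.pair j.toZFSet (natZ n) := by
    intro x
    rw [show K.1 = ((kap W).toZFSet.prod omZ) from rfl, ZFSet.mem_prod]
    constructor
    · rintro ⟨a, ha, b, hb, rfl⟩
      obtain ⟨j, hj, rfl⟩ := Ordinal.mem_toZFSet_iff.1 ha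
      obtain ⟨n, rfl⟩ := mem_omZ.1 hb
      exact ⟨j, hj, n, rfl⟩
    · rintro ⟨j, hj, n, rfl⟩
      exact ⟨_, Ordinal.mem_toZFSet_iff.2 ⟨j, hj, rfl⟩, _, natZ_mem_omZ n, rfl⟩
  have hInD : ∀ D e : W, InD D.1 e.1 ↔ ∀ x y : W, ZFSet.pair x.1 y.1 ∈ e.1 → x.1 ∈ D.1 := by
    intro D e
    constructor
    · intro h1 x y hxy
      exact h1 _ _ hxy
    · intro h1 x y hxy
      have hp := h.trans _ e.2 _ hxy
      exact h1 ⟨x, hz.pair_left hp⟩ ⟨y, hz.pair_right hp⟩ hxy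
  have main : MD W fun p : W × W => CondB W p.1.1 p.2.1 := by
    refine MD.congr (P := fun p : W × W => FinP (kap W) p.1.1 ∧
      (∀ e : W, e.1 ∈ p.2.1 → FinP (kap W) e.1) ∧ SzZ W p.2.1 (zom hz).1 ∧
      ∃ m : W, m.1 ∈ (zom hz).1 ∧ ¬ m = znat hz 0 ∧ ∀ F : W, F.1 ⊆ p.2.1 →
        (∃ n : W, n.1 ∈ (zom hz).1 ∧ SzZ W F.1 n.1) → ∀ D : W, D.1 ⊆ K.1 →
        (∃ n : W, n.1 ∈ (zom hz).1 ∧ SzZ W D.1 n.1) →
        (∀ x y : W, ZFSet.pair x.1 y.1 ∈ p.1.1 → x.1 ∈ D.1) →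
        (∀ e : W, e.1 ∈ F.1 → ∀ x y : W, ZFSet.pair x.1 y.1 ∈ e.1 → x.1 ∈ D.1) →
        SzZ W (zun hz (zpd hz (A (p.1, F, D)) (zpd hz m (znat hz 2)))
          (zpd hz (A (p.1, znat hz 1, D)) (znat hz 1))).1
          (zpd hz (A (p.1, znat hz 1, D)) m).1) ?_ ?_
    · rintro ⟨s, b⟩
      dsimp only
      constructor
      · rintro ⟨h1, h2, h3, m, hm, hm0, h4⟩
        have h2' : ∀ e ∈ b.1, FinP (kap W) e := fun e he =>
          h2 ⟨e, h.trans _ b.2 _ he⟩ he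
        have h3' : Sz W b.1 Ordinal.omega0 := szZ_iff.1 h3
        refine ⟨h1, b.2, h2', h3', (dfb_pos h1 h2' h3'.countable).2 ?_⟩
        obtain ⟨k, hk⟩ := mem_omZ.1 (show m.1 ∈ omZ from hm)
        have hk' : m = znat hz k := Subtype.ext hk
        have hk0 : k ≠ 0 := by
          rintro rfl
          exact hm0 hk'
        refine ⟨k, hk0, fun F hF fF => ?_⟩
        obtain ⟨F', hF'⟩ := dfb_fin hz fF (fun t ht => h.trans _ b.2 _ (hF ht))
        have eF : F'.1 = F := by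
          ext t
          exact hF' t
        subst eF
        have hFP : ∀ e ∈ F'.1, FinP (kap W) e := fun e he => h2' e (hF he)
        obtain ⟨D, hD, hD1, hD2⟩ := exists_finD h1 hFP fF
        obtain ⟨D', hD'⟩ := dfb_fin hz hD.fin (fun t ht => by
          obtain ⟨j, -, n, rfl⟩ := hD.form t ht
          exact hz.pairZ (h.ord j) (hz.natZ_mem n))
        have eD : D'.1 = D := by
          ext t
          exact hD' t
        subst eD
        have h5 := h4 F' hF ((dfb_finite h F').1 fF) D' (fun x hx => (hK x).2 (hD.form x hx))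
          ((dfb_finite h D').1 hD.fin) ((hInD D' s).1 hD1)
          (fun e he => (hInD D' e).1 (hD2 e.1 he))
        rw [hk'] at h5
        exact (dfb_key hz hAe s F' D' hk0 h1 hFP hD hD1 hD2).1 h5
      · rintro ⟨h1, -, h2, h3, h4⟩
        obtain ⟨k, hk0, h5⟩ := (dfb_pos h1 h2 h3.countable).1 h4
        refine ⟨h1, fun e he => h2 _ he, szZ_iff.2 h3, znat hz k, natZ_mem_omZ k, ?_, ?_⟩
        · intro e
          exact hk0 (natZ_inj.1 (congrArg Subtype.val e))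
        · intro F hF hFn D hDK hDn hDs hDF
          have fF := (dfb_finite h F).2 hFn
          have fD := (dfb_finite h D).2 hDn
          have hFP : ∀ e ∈ F.1, FinP (kap W) e := fun e he => h2 e (hF he)
          have hDF' : ∀ e ∈ F.1, InD D.1 e := fun e he =>
            (hInD D ⟨e, h.trans _ F.2 _ he⟩).2 (hDF ⟨e, h.trans _ F.2 _ he⟩ he)
          exact (dfb_key hz hAe s F D hk0 h1 hFP ⟨fD, fun x hx => (hK x).1 (hDK hx)⟩
            ((hInD D s).2 hDs) hDF').2 (h5 F.1 hF fF)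
    · (repeat' (first | (with_reducible first | exact DFc.id | exact DFc.const _ | exact MD.const _ | apply MD.and | apply MD.or | apply MD.iff | apply MD.not | apply MD.imp | apply MD.ex | apply MD.all | apply MD.zpair_mem hz | apply MD.eq_zpair hz | apply MD.isFn hz | apply MD.isO hz | apply MD.mem | apply MD.eq | apply DFc.zpr hz | apply DFc.zap hz | apply DFc.zun hz | apply DFc.zsg hz | apply DFc.zsU hz | apply DFc.ztr hz | apply DFc.zup hz | apply DFc.zpd hz) | (with_reducible first | exact (MD.szZ h) | apply (MD.szZ h) | apply MD.comp2 (MD.szZ h) | apply DFc.comp2 (MD.szZ h) | apply MD.comp3 (MD.szZ h) | apply DFc.comp3 (MD.szZ h) | apply MD.comp (MD.szZ h) | apply DFc.comp (MD.szZ h)) | (with_reducible first | exact (MD.sub h) | apply (MD.sub h) | apply MD.comp2 (MD.sub h) | apply DFc.comp2 (MD.sub h) | apply MD.comp3 (MD.sub h) | apply DFc.comp3 (MD.sub h) | apply MD.comp (MD.sub h) | apply DFc.comp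 (MD.sub h)) | (with_reducible first | exact (MD.finP h hg) | apply (MD.finP h hg) | apply MD.comp2 (MD.finP h hg) | apply DFc.comp2 (MD.finP h hg) | apply MD.comp3 (MD.finP h hg) | apply DFc.comp3 (MD.finP h hg) | apply MD.comp (MD.finP h hg) | apply DFc.comp (MD.finP h hg)) | (with_reducible first | exact hA | apply hA | apply MD.comp2 hA | apply DFc.comp2 hA | apply MD.comp3 hA | apply DFc.comp3 hA | apply MD.comp hA | apply DFc.comp hA) | (with_reducible apply DFc.fst) | (with_reducible apply DFc.snd) | (with_reducible apply DFc.mk)))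
  exact MD.comp2 (P := fun s b : W => CondB W s.1 b.1) main hf hg'

end HNF
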