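import Pool.Agent.HNF.Dfb
import Pool.Agent.HNF.Lvl

/-!
HNF DFP: the set of conditions and its ordering are elements of `W`.

PROOFS.
`MD.condP`: `CondP W p` for `p ∈ W`: with `N` as in `exists_nuF` and `L` as in `exists_lev` and the constants `ordW (nu 1)`, `ordW (tht)`,
`ordW (kap)`: every `t ∈ p` has the form `pair (trip β ξ i) η` with `β ∈ nu 1`, `ξ ∈ tht`, `i ∈ kap`, `η ∈ N (β ∪ {β})`
(`ordW β ∪ {ordW β} = ordW (β + 1)`); `p` is single-valued (quantifiers over `W`); for all `β ∈ nu 1`: `SzZ W (L p β) (N β)` (`szZ_iff`,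
`mem_ordW`).
`exists_PR`: let `K = nu 1 × (tht × kap)` and let `Pw` be the power set function, `Q` the set of `exists_finSet`.  A condition `trip p s b` is
an element of `Pw (K × kap) × (Q × Pw Q)` (values `η < nu (β + 1) ≤ kap`, as `β + 1 < nu 1`).  `P` is the set of all elements `c` of
this set with `CondP W (fst c)` and `CondB W (fst (snd c)) (snd (snd c))` (`hz.sep`, `zfst`, `zsnd`).  `R` is the set of all
`z ∈ P × P` with `∃ c' c, z = pair c' c ∧ Le c' c` (`MD.le`).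
-/

namespace HNF

open RMK Set

variable {W : Set ZFSet.{0}} {X : Type 1} [Ctx W X]

private noncomputable def sucW (h : InnerZFC W) (b : W) : W := zun h.zf0 b (zsg h.zf0 b)

private theorem sucW_ord (h : InnerZFC W) (β : Ordinal.{0}) :
    sucW h (ordW h β) = ordW h (β + 1) := by
  apply Subtype.ext
  change β.toZFSet ∪ {β.toZFSet} = (β + 1).toZFSet
  ext z
  rw [ZFSet.mem_union, ZFSet.mem_singleton, Ordinal.toZFSet_add_one, ZFSet.mem_insert_iff, or_comm]

private def PP (h : InnerZFC W) (N : W → W) (L : W → W → W) (p : W) : Prop :=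
  (∀ t : W, t.1 ∈ p.1 → ∃ b x i e : W, b.1 ∈ (ordW h (nu W 1)).1 ∧ x.1 ∈ (ordW h (tht W)).1 ∧
    i.1 ∈ (ordW h (kap W)).1 ∧ e.1 ∈ (N (zun h.zf0 b (zsg h.zf0 b))).1 ∧
    t = zpr h.zf0 (ztr h.zf0 b x i) e) ∧
  (∀ x y y' : W, ZFSet.pair x.1 y.1 ∈ p.1 → ZFSet.pair x.1 y'.1 ∈ p.1 → y = y') ∧
  ∀ b : W, b.1 ∈ (ordW h (nu W 1)).1 → SzZ W (L p b).1 (N b).1

private theorem condP_iff (h : InnerZFC W) {N : W → W}
    (hN : ∀ β, N (ordW h β) = ordW h (nu W β)) {L : W → W → W}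
    (hL : ∀ (p : W) (β : Ordinal.{0}), (L p (ordW h β)).1 = lev p.1 β) (p : W) :
    PP h N L p ↔ CondP W p.1 := by
  have hz := h.zf0
  constructor
  · rintro ⟨h1, h2, h3⟩
    refine ⟨p.2, fun t ht => ?_, fun x y y' hy hy' => ?_, fun β hβ => ?_⟩
    · obtain ⟨b, x, i, e, hb, hx, hi, he, h4⟩ := h1 ⟨t, hz.trans _ p.2 _ ht⟩ ht
      obtain ⟨β, hβ, rfl⟩ := (mem_ordW h).1 hb
      obtain ⟨ξ, hξ, rfl⟩ := (mem_ordW h).1 hx
      obtain ⟨ι, hι, rfl⟩ := (mem_ordW h).1 hi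
      rw [show zun h.zf0 (ordW h β) (zsg h.zf0 (ordW h β)) = ordW h (β + 1) from sucW_ord h β,
        hN] at he
      obtain ⟨η, hη, rfl⟩ := (mem_ordW h).1 he
      exact ⟨β, ξ, ι, η, hβ, hξ, hι, hη, congrArg Subtype.val h4⟩
    · have h4 := hz.trans _ p.2 _ hy
      have h5 := hz.trans _ p.2 _ hy'
      exact congrArg Subtype.val
        (h2 ⟨x, hz.pair_left h4⟩ ⟨y, hz.pair_right h4⟩ ⟨y', hz.pair_right h5⟩ hy hy')
    · have h4 := h3 (ordW h β) ((mem_ordW h).2 ⟨β, hβ, rfl⟩)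
      rw [hL, hN] at h4
      exact szZ_iff.1 h4
  · intro hp
    refine ⟨fun t ht => ?_, fun x y y' hy hy' => Subtype.ext (hp.fn _ _ _ hy hy'), fun b hb => ?_⟩
    · obtain ⟨β, ξ, ι, η, hβ, hξ, hι, hη, h4⟩ := hp.form _ ht
      refine ⟨ordW h β, ordW h ξ, ordW h ι, ordW h η, (mem_ordW h).2 ⟨β, hβ, rfl⟩,
        (mem_ordW h).2 ⟨ξ, hξ, rfl⟩, (mem_ordW h).2 ⟨ι, hι, rfl⟩, ?_, Subtype.ext h4⟩
      rw [show zun h.zf0 (ordW h β) (zsg h.zf0 (ordW h β)) = ordW h (β + 1) from sucW_ord h β, hN]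
      exact (mem_ordW h).2 ⟨η, hη, rfl⟩
    · obtain ⟨β, hβ, rfl⟩ := (mem_ordW h).1 hb
      rw [hL, hN]
      exact szZ_iff.2 (hp.small β hβ)

theorem MD.condP (h : InnerZFC W) {f : X → W} (hf : DFc W f) :
    MD W fun x => CondP W (f x).1 := by
  have hz := h.zf0
  obtain ⟨N, hN1, hN2⟩ := exists_nuF h
  obtain ⟨L, hL1, hL2⟩ := exists_lev h
  have hP : MD W fun p : W => PP h N L p := by
    unfold PP
    (repeat' (first | (with_reducible first | exact DFc.id | exact DFc.const _ | exact MD.const _ | apply MD.and | apply MD.or | apply MD.iff | apply MD.not | apply MD.imp | apply MD.ex | apply MD.all | apply MD.zpair_mem hz | apply MD.eq_zpair hz | apply MD.isFn hz | apply MD.isO hz | apply MD.mem | apply MD.eq | apply DFc.zpr hz | apply DFc.zap hz | apply DFc.zun hz | apply DFc.zsg hz | apply DFc.zsU hz | apply DFc.ztr hz | apply DFc.zup hz | apply DFc.zpd hz) | (with_reducible first | exact hN1 | apply hN1 | apply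 MD.comp2 hN1 | apply DFc.comp2 hN1 | apply MD.comp3 hN1 | apply DFc.comp3 hN1 | apply MD.comp hN1 | apply DFc.comp hN1) | (with_reducible first | exact hL1 | apply hL1 | apply MD.comp2 hL1 | apply DFc.comp2 hL1 | apply MD.comp3 hL1 | apply DFc.comp3 hL1 | apply MD.comp hL1 | apply DFc.comp hL1) | (with_reducible first | exact (MD.szZ h) | apply (MD.szZ h) | apply MD.comp2 (MD.szZ h) | apply DFc.comp2 (MD.szZ h) | apply MD.comp3 (MD.szZ h) | apply DFc.comp3 (MD.szZ h) | apply MD.comp (MD.szZ h) | apply DFc.comp (MD.szZ h)) | (with_reducible apply DFc.fst) | (with_reducible apply DFc.snd) | (with_reducible apply DFc.mk)))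
  exact MD.congr (fun x => condP_iff h hN2 hL2 (f x)) (MD.comp hP hf)

theorem exists_PR (h : InnerZFC W) (hg : GCHW W) : ∃ P ∈ W, ∃ R ∈ W, (∀ c, c ∈ P ↔ Cond W c) ∧
    ∀ z, z ∈ R ↔ ∃ c' ∈ P, ∃ c ∈ P, z = ZFSet.pair c' c ∧ Le c' c := by
  have hz := h.zf0
  obtain ⟨Pw, -, hPw⟩ := exists_powF h
  obtain ⟨Q, hQ, -⟩ := exists_finSet h hg
  let K : W := zpd hz (ordW h (nu W 1)) (zpd hz (ordW h (tht W)) (ordW h (kap W)))
  let U : W := zpd hz (Pw (zpd hz K (ordW h (kap W)))) (zpd hz Q (Pw Q))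
  obtain ⟨P, hP⟩ := hz.sep (fun c : W => CondP W (zfst hz c).1 ∧
      CondB W (zfst hz (zsnd hz c)).1 (zsnd hz (zsnd hz c)).1)
    (MD.and (MD.condP h (DFc.zfst hz DFc.id))
      (MD.condB h hg (DFc.zfst hz (DFc.zsnd hz DFc.id)) (DFc.zsnd hz (DFc.zsnd hz DFc.id)))) U
  have hPc : ∀ c, c ∈ P.1 ↔ Cond W c := by
    intro c
    constructor
    · intro hc
      have hcW := hz.trans _ P.2 _ hc
      obtain ⟨h1, h2, h3⟩ := (hP ⟨c, hcW⟩).1 hc
      obtain ⟨p, hp, y, hy, h4⟩ := ZFSet.mem_prod.1 h1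
      obtain ⟨s, hs, b, hb, h5⟩ := ZFSet.mem_prod.1 hy
      have h6 : c = trip p s b := by
        change c = ZFSet.pair p y at h4
        rw [h4, h5]
        rfl
      have e1 : (zfst hz ⟨c, hcW⟩).1 = p := by
        change fstZ c = p
        rw [h6]
        exact fstZ_pair _ _
      have e2 : (zfst hz (zsnd hz ⟨c, hcW⟩)).1 = s := by
        change fstZ (sndZ c) = s
        rw [h6]
        unfold trip
        rw [sndZ_pair, fstZ_pair]
      have e3 : (zsnd hz (zsnd hz ⟨c, hcW⟩)).1 = b := by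
        change sndZ (sndZ c) = b
        rw [h6]
        unfold trip
        rw [sndZ_pair, sndZ_pair]
      rw [e1] at h2
      rw [e2, e3] at h3
      exact ⟨p, s, b, h6, h2, h3⟩
    · rintro ⟨p, s, b, rfl, h1, h2⟩
      have hsQ : s ∈ Q.1 := (hQ s).2 h2.fin
      have hsW : s ∈ W := hz.trans _ Q.2 _ hsQ
      have hc : trip p s b ∈ W := hz.trip_mem h1.mem hsW h2.mem
      refine (hP ⟨_, hc⟩).2 ⟨?_, ?_, ?_⟩
      · refine ZFSet.mem_prod.2 ⟨p, ?_, ZFSet.pair s b, ?_, rfl⟩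
        · refine (hPw _ ⟨p, h1.mem⟩).2 fun t ht => ?_
          obtain ⟨β, ξ, ι, η, hβ, hξ, hι, hη, h4⟩ := h1.form t ht
          have hβ1 : β + 1 < nu W 1 := by
            rw [← Order.succ_eq_add_one]
            exact (isSuccLimit_nu h 1).succ_lt hβ
          have hηk : η < kap W := hη.trans (nu_strictMono W hβ1)
          change t ∈ ZFSet.prod K.1 (ordW h (kap W)).1
          refine ZFSet.mem_prod.2 ⟨trip β.toZFSet ξ.toZFSet ι.toZFSet, ?_, η.toZFSet, ?_, h4⟩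
          · change _ ∈ ZFSet.prod (ordW h (nu W 1)).1
              (ZFSet.prod (ordW h (tht W)).1 (ordW h (kap W)).1)
            refine ZFSet.mem_prod.2 ⟨β.toZFSet, ?_, ZFSet.pair ξ.toZFSet ι.toZFSet, ?_, rfl⟩
            · exact (mem_ordW h).2 ⟨β, hβ, rfl⟩
            · exact ZFSet.mem_prod.2 ⟨ξ.toZFSet, (mem_ordW h (z := ordW h ξ)).2 ⟨ξ, hξ, rfl⟩,
                ι.toZFSet, (mem_ordW h (z := ordW h ι)).2 ⟨ι, hι, rfl⟩, rfl⟩
          · exact (mem_ordW h (z := ordW h η)).2 ⟨η, hηk, rfl⟩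
        · refine ZFSet.mem_prod.2 ⟨s, hsQ, b, ?_, rfl⟩
          exact (hPw Q ⟨b, h2.mem⟩).2 fun e he => (hQ e).2 (h2.sub e he)
      · change CondP W (fstZ (trip p s b))
        unfold trip
        rw [fstZ_pair]
        exact h1
      · change CondB W (fstZ (sndZ (trip p s b))) (sndZ (sndZ (trip p s b)))
        unfold trip
        rw [sndZ_pair, fstZ_pair, sndZ_pair]
        exact h2
  obtain ⟨R, hR⟩ := hz.sep (fun z : W => ∃ c' c : W, z = zpr hz c' c ∧ Le c'.1 c.1)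
    (by (repeat' (first | (with_reducible first | exact DFc.id | exact DFc.const _ | exact MD.const _ | apply MD.and | apply MD.or | apply MD.iff | apply MD.not | apply MD.imp | apply MD.ex | apply MD.all | apply MD.zpair_mem hz | apply MD.eq_zpair hz | apply MD.isFn hz | apply MD.isO hz | apply MD.mem | apply MD.eq | apply DFc.zpr hz | apply DFc.zap hz | apply DFc.zun hz | apply DFc.zsg hz | apply DFc.zsU hz | apply DFc.ztr hz | apply DFc.zup hz | apply DFc.zpd hz) | (with_reducible first | exact (MD.le h) | apply (MD.le h) | apply MD.comp2 (MD.le h) | apply DFc.comp2 (MD.le h) | apply MD.comp3 (MD.le h) | apply DFc.comp3 (MD.le h) | apply MD.comp (MD.le h) | apply DFc.comp (MD.le h)) | (with_reducible apply DFc.fst) | (with_reducible apply DFc.snd) | (with_reducible apply DFc.mk)))) (zpd hz P P)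
  refine ⟨P.1, P.2, R.1, R.2, hPc, fun z => ?_⟩
  constructor
  · intro h1
    have hzW := hz.trans _ R.2 _ h1
    obtain ⟨h2, c', c, h3, h4⟩ := (hR ⟨z, hzW⟩).1 h1
    have h5 : z = ZFSet.pair c'.1 c.1 := congrArg Subtype.val h3
    obtain ⟨a, ha, b, hb, h6⟩ := ZFSet.mem_prod.1 h2
    change z = ZFSet.pair a b at h6
    rw [h5] at h6
    obtain ⟨e1, e2⟩ := ZFSet.pair_inj.1 h6
    exact ⟨c'.1, e1 ▸ ha, c.1, e2 ▸ hb, h5, h4⟩
  · rintro ⟨c', hc', c, hc, rfl, h4⟩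
    have h5 := hz.trans _ P.2 _ hc'
    have h6 := hz.trans _ P.2 _ hc
    refine (hR ⟨_, hz.pairZ h5 h6⟩).2 ⟨?_, ⟨c', h5⟩, ⟨c, h6⟩, rfl, h4⟩
    exact ZFSet.mem_prod.2 ⟨c', hc', c, hc, rfl⟩

end HNF
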