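import Pool.Agent.HNF.Kk

/-!
HNF HUL: closing off under a function of small subsets.

PROOF of `hull`.  Write `l = nu β`, `l' = nu (β + 1)`.  Let `P` be the power set function (`exists_powF`), and for a
subset `s` of `X` let `sm s = {r ∈ P s | SzZ W r l}` (`sepF`, `MD.szZ`), a definable function of `s`, and `C s` the union
of `X ∩ Φ r` over `r ∈ sm s` (`unionF`, `zin`).  If `Sz s l'` then `Sz (sm s) l'` by `k1`, so `Sz (C s) l'` by `sz_iUnion`.
By `recOrd` there is a definable `T` with `T γ = ⋃_{ξ < γ} (T ξ ∪ C (T ξ))` for all ordinals `γ` (`F x d k =` union over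
`ξ ∈ d` of `zap k ξ ∪ C (zap k ξ)`, `unionF`).  By induction on `γ ≤ l'`: `T γ ⊆ X` and `Sz (T γ) l'` (`sz_iUnion`,
`D = γ`, `Sz γ l'` by `sz_ord` and `Sz.mono`).  Monotone: `ξ ≤ γ` implies `T ξ ⊆ T γ`, and `C (T ξ) ⊆ T γ` for
`ξ < γ`.  Let `S = T l'`.  As `l'` is a limit ordinal, `S = ⋃_{ξ < l'} T ξ`: an element of `T l'` is in `T ξ ∪ C (T ξ) ⊆
T (ξ + 1)` for some `ξ < l'`.  Let `r ⊆ S` with `Sz r l`, `r ∈ W`.  The set of the least `ξ` with `z ∈ T ξ`, `z ∈ r`, is the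
image of `r` under a definable function (`exists_lst`), so in `W`, of size `l`, and a subset of `l'`; by `reg` it is
bounded by some `γ < l'`; so `r ⊆ T γ`, `r ∈ sm (T γ)`, and `Φ r = X ∩ Φ r ⊆ C (T γ) ⊆ T (γ + 1) ⊆ S`.
-/

namespace HNF

open RMK Set

variable {W : Set ZFSet.{0}}

/-- the iteration: `T γ` is the union of the sets `T ξ ∪ C (T ξ)`, `ξ < γ` -/
private theorem iter (h : InnerZFC W) {C : W → W} (hC : DFc W C) :
    ∃ T : W → W, DFc W T ∧ ∀ (γ : Ordinal.{0}) (z : W), z.1 ∈ (T (ordW h γ)).1 ↔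
      ∃ ξ < γ, z.1 ∈ (T (ordW h ξ)).1 ∨ z.1 ∈ (C (T (ordW h ξ))).1 := by
  have hz := h.zf0
  have hF : DFc W fun p : (W × W × W) × W =>
      zun hz (zap hz p.1.2.2 p.2) (C (zap hz p.1.2.2 p.2)) := by
    (repeat' (first | (with_reducible first | exact DFc.id | exact DFc.const _ | exact MD.const _ | apply MD.and | apply MD.or | apply MD.iff | apply MD.not | apply MD.imp | apply MD.ex | apply MD.all | apply MD.zpair_mem hz | apply MD.eq_zpair hz | apply MD.isFn hz | apply MD.isO hz | apply MD.mem | apply MD.eq | apply DFc.zpr hz | apply DFc.zap hz | apply DFc.zun hz | apply DFc.zsg hz | apply DFc.zsU hz | apply DFc.ztr hz | apply DFc.zup hz | apply DFc.zpd hz) | (with_reducible first | exact hC | apply hC | apply MD.comp2 hC | apply DFc.comp2 hC | apply MD.comp3 hC | apply DFc.comp3 hC | apply MD.comp hC | apply DFc.comp hC) | (with_reducible apply DFc.fst) | (with_reducible apply DFc.snd) | (with_reducible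 apply DFc.mk)))
  have ha : DFc W fun p : W × W × W => p.2.1 := by (repeat' (first | (with_reducible first | exact DFc.id | exact DFc.const _ | exact MD.const _ | apply MD.and | apply MD.or | apply MD.iff | apply MD.not | apply MD.imp | apply MD.ex | apply MD.all | apply MD.zpair_mem hz | apply MD.eq_zpair hz | apply MD.isFn hz | apply MD.isO hz | apply MD.mem | apply MD.eq | apply DFc.zpr hz | apply DFc.zap hz | apply DFc.zun hz | apply DFc.zsg hz | apply DFc.zsU hz | apply DFc.ztr hz | apply DFc.zup hz | apply DFc.zpd hz) | (with_reducible apply DFc.fst) | (with_reducible apply DFc.snd) | (with_reducible apply DFc.mk)))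
  obtain ⟨f, hf, hf'⟩ := hz.unionF (X := W × W × W) (a := fun p => p.2.1) ha
    (F := fun p ξ => zun hz (zap hz p.2.2 ξ) (C (zap hz p.2.2 ξ))) hF
  obtain ⟨H, hH, hH'⟩ := recOrd hz (X := W) (F := fun x d k => f (x, d, k)) hf
  let x0 : W := ordW h 0
  refine ⟨fun γ => H x0 γ, ?_, ?_⟩
  · exact DFc.comp2 hH (DFc.const x0) DFc.id
  · intro γ z
    obtain ⟨k, hk1, hk2, hk3⟩ := hH' x0 (ordW h γ) ⟨γ, rfl⟩
    change z.1 ∈ (H x0 (ordW h γ)).1 ↔ ∃ ξ < γ, z.1 ∈ (H x0 (ordW h ξ)).1 ∨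
      z.1 ∈ (C (H x0 (ordW h ξ))).1
    rw [hk3, hf']
    constructor
    · rintro ⟨y, hy, hzy⟩
      obtain ⟨η, hη, rfl⟩ := (mem_ordW h).1 hy
      refine ⟨η, hη, ?_⟩
      change z.1 ∈ (zun hz (zap hz k (ordW h η)) (C (zap hz k (ordW h η)))).1 at hzy
      rw [hk2 _ hy] at hzy
      exact ZFSet.mem_union.1 hzy
    · rintro ⟨η, hη, hzy⟩
      have hy : (ordW h η).1 ∈ (ordW h γ).1 := (mem_ordW h).2 ⟨η, hη, rfl⟩
      refine ⟨ordW h η, hy, ?_⟩
      change z.1 ∈ (zun hz (zap hz k (ordW h η)) (C (zap hz k (ordW h η)))).1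
      rw [hk2 _ hy]
      exact ZFSet.mem_union.2 hzy

theorem hull (h : InnerZFC W) (hg : GCHW W) {β : Ordinal.{0}} (X : W) {Φ : W → W}
    (hΦ : DFc W Φ)
    (h1 : ∀ r : W, r.1 ⊆ X.1 → Sz W r.1 (nu W β) →
      (Φ r).1 ⊆ X.1 ∧ Sz W (Φ r).1 (nu W (β + 1))) :
    ∃ S : W, S.1 ⊆ X.1 ∧ Sz W S.1 (nu W (β + 1)) ∧
      ∀ r : W, r.1 ⊆ S.1 → Sz W r.1 (nu W β) → (Φ r).1 ⊆ S.1 := by
  have hz := h.zf0
  obtain ⟨P, hP, hP'⟩ := exists_powF h
  have hsm : MD W fun p : W × W => SzZ W p.2.1 (ordW h (nu W β)).1 :=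
    MD.szZ h (DFc.snd DFc.id) (DFc.const _)
  obtain ⟨sm, hsmd, hsm'⟩ := hz.sepF hP (P := fun _ z => SzZ W z.1 (ordW h (nu W β)).1) hsm
  have mem_sm : ∀ s r : W, r.1 ∈ (sm s).1 ↔ r.1 ⊆ s.1 ∧ Sz W r.1 (nu W β) := by
    intro s r
    rw [hsm', hP']
    exact and_congr Iff.rfl szZ_iff
  have hΦ' : DFc W fun p : W × W => Φ p.2 := DFc.comp hΦ (DFc.snd DFc.id)
  obtain ⟨C, hC, hC'⟩ := hz.unionF hsmd (F := fun _ r => Φ r) hΦ'
  obtain ⟨T, hT, hT'⟩ := iter h hC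
  -- the step
  have step : ∀ s : W, s.1 ⊆ X.1 → Sz W s.1 (nu W (β + 1)) →
      (C s).1 ⊆ X.1 ∧ Sz W (C s).1 (nu W (β + 1)) := by
    intro s hs hs1
    constructor
    · intro z hzC
      have hzW : z ∈ W := hz.trans _ (C s).2 z hzC
      obtain ⟨r, hr, hzr⟩ := (hC' s ⟨z, hzW⟩).1 hzC
      obtain ⟨hr1, hr2⟩ := (mem_sm s r).1 hr
      exact (h1 r (fun w hw => hs (hr1 hw)) hr2).1 hzr
    · have hD : Sz W (sm s).1 (nu W (β + 1)) := by
        refine k1 h hg hs1 (sm s).2 fun r hr => ?_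
        have hrW : r ∈ W := hz.trans _ (sm s).2 r hr
        exact (mem_sm s ⟨r, hrW⟩).1 hr
      refine sz_iUnion h (nu_wcard W (β + 1)) hD hΦ ?_ ?_
      · intro r hr
        obtain ⟨hr1, hr2⟩ := (mem_sm s r).1 hr
        exact (h1 r (fun w hw => hs (hr1 hw)) hr2).2
      · intro z hzC
        have hzW : z ∈ W := hz.trans _ (C s).2 z hzC
        obtain ⟨r, hr, hzr⟩ := (hC' s ⟨z, hzW⟩).1 hzC
        exact ⟨r, hr, hzr⟩
  -- all stages
  have stage : ∀ γ : Ordinal.{0}, γ ≤ nu W (β + 1) →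
      (T (ordW h γ)).1 ⊆ X.1 ∧ Sz W (T (ordW h γ)).1 (nu W (β + 1)) := by
    intro γ
    induction γ using WellFoundedLT.induction with
    | ind γ ih =>
      intro hγ
      constructor
      · intro z hzT
        have hzW : z ∈ W := hz.trans _ (T (ordW h γ)).2 z hzT
        obtain ⟨ξ, hξ, hzξ⟩ := (hT' γ ⟨z, hzW⟩).1 hzT
        obtain ⟨i1, i2⟩ := ih ξ hξ (hξ.le.trans hγ)
        rcases hzξ with hzξ | hzξ
        · exact i1 hzξ
        · exact (step _ i1 i2).1 hzξ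
      · have hD : Sz W (ordW h γ).1 (nu W (β + 1)) := (sz_ord h γ).mono h hγ
        have hFd : DFc W fun ξ : W => zun hz (T ξ) (C (T ξ)) := by
          (repeat' (first | (with_reducible first | exact DFc.id | exact DFc.const _ | exact MD.const _ | apply MD.and | apply MD.or | apply MD.iff | apply MD.not | apply MD.imp | apply MD.ex | apply MD.all | apply MD.zpair_mem hz | apply MD.eq_zpair hz | apply MD.isFn hz | apply MD.isO hz | apply MD.mem | apply MD.eq | apply DFc.zpr hz | apply DFc.zap hz | apply DFc.zun hz | apply DFc.zsg hz | apply DFc.zsU hz | apply DFc.ztr hz | apply DFc.zup hz | apply DFc.zpd hz) | (with_reducible first | exact hT | apply hT | apply MD.comp2 hT | apply DFc.comp2 hT | apply MD.comp3 hT | apply DFc.comp3 hT | apply MD.comp hT | apply DFc.comp hT) | (with_reducible first | exact hC | apply hC | apply MD.comp2 hC | apply DFc.comp2 hC | apply MD.comp3 hC | apply DFc.comp3 hC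 | apply MD.comp hC | apply DFc.comp hC) | (with_reducible apply DFc.fst) | (with_reducible apply DFc.snd) | (with_reducible apply DFc.mk)))
        refine sz_iUnion h (nu_wcard W (β + 1)) hD hFd ?_ ?_
        · intro d hd
          obtain ⟨ξ, hξ, rfl⟩ := (mem_ordW h).1 hd
          obtain ⟨i1, i2⟩ := ih ξ hξ (hξ.le.trans hγ)
          exact sz_union h (nu_wcard W (β + 1)) (T (ordW h ξ)).2 (C (T (ordW h ξ))).2 i2
            (step _ i1 i2).2
        · intro z hzT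
          have hzW : z ∈ W := hz.trans _ (T (ordW h γ)).2 z hzT
          obtain ⟨ξ, hξ, hzξ⟩ := (hT' γ ⟨z, hzW⟩).1 hzT
          exact ⟨ordW h ξ, (mem_ordW h).2 ⟨ξ, hξ, rfl⟩, ZFSet.mem_union.2 hzξ⟩
  have mono : ∀ {ξ γ : Ordinal.{0}}, ξ ≤ γ → (T (ordW h ξ)).1 ⊆ (T (ordW h γ)).1 := by
    intro ξ γ hξγ z hzT
    have hzW : z ∈ W := hz.trans _ (T (ordW h ξ)).2 z hzT
    obtain ⟨η, hη, hzη⟩ := (hT' ξ ⟨z, hzW⟩).1 hzT
    exact (hT' γ ⟨z, hzW⟩).2 ⟨η, hη.trans_le hξγ, hzη⟩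
  have monoC : ∀ {ξ γ : Ordinal.{0}}, ξ < γ → (C (T (ordW h ξ))).1 ⊆ (T (ordW h γ)).1 := by
    intro ξ γ hξγ z hzT
    have hzW : z ∈ W := hz.trans _ (C (T (ordW h ξ))).2 z hzT
    exact (hT' γ ⟨z, hzW⟩).2 ⟨ξ, hξγ, Or.inr hzT⟩
  have hlim := isSuccLimit_nu h (β + 1)
  refine ⟨T (ordW h (nu W (β + 1))), (stage _ le_rfl).1, (stage _ le_rfl).2, ?_⟩
  intro r hr hrs
  -- the least stage
  have hPm : MD W fun p : W × W => p.1.1 ∈ (T p.2).1 := by
    (repeat' (first | (with_reducible first | exact DFc.id | exact DFc.const _ | exact MD.const _ | apply MD.and | apply MD.or | apply MD.iff | apply MD.not | apply MD.imp | apply MD.ex | apply MD.all | apply MD.zpair_mem hz | apply MD.eq_zpair hz | apply MD.isFn hz | apply MD.isO hz | apply MD.mem | apply MD.eq | apply DFc.zpr hz | apply DFc.zap hz | apply DFc.zun hz | apply DFc.zsg hz | apply DFc.zsU hz | apply DFc.ztr hz | apply DFc.zup hz | apply DFc.zpd hz)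 | (with_reducible first | exact hT | apply hT | apply MD.comp2 hT | apply DFc.comp2 hT | apply MD.comp3 hT | apply DFc.comp3 hT | apply MD.comp hT | apply DFc.comp hT) | (with_reducible apply DFc.fst) | (with_reducible apply DFc.snd) | (with_reducible apply DFc.mk)))
  obtain ⟨B, hB, hB'⟩ := exists_lst h (X := W) (P := fun z ξ => z.1 ∈ (T ξ).1) hPm
  have key : ∀ z : W, z.1 ∈ r.1 → ∃ ξ < nu W (β + 1), B z = ordW h ξ ∧
      z.1 ∈ (T (ordW h ξ)).1 := by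
    intro z hzr
    obtain ⟨η, hη, hzη⟩ := (hT' _ z).1 (hr hzr)
    have hη1 : η + 1 < nu W (β + 1) := hlim.add_one_lt hη
    have hz1 : z.1 ∈ (T (ordW h (η + 1))).1 := (hT' _ z).2 ⟨η, lt_add_one η, hzη⟩
    let S0 : Set Ordinal.{0} := {ξ | z.1 ∈ (T (ordW h ξ)).1}
    have hne : S0.Nonempty := ⟨η + 1, hz1⟩
    refine ⟨sInf S0, lt_of_le_of_lt (csInf_le' (show η + 1 ∈ S0 from hz1)) hη1, ?_, csInf_mem hne⟩
    refine hB' z (sInf S0) (csInf_mem hne) fun ζ hζ hζ' => ?_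
    exact absurd (csInf_le' (show ζ ∈ S0 from hζ')) (not_le.2 hζ)
  obtain ⟨b, hb⟩ := hz.repl B hB r
  have hb1 : Sz W b.1 (nu W β) := by
    refine Sz.image h hrs hB fun z hzb => ?_
    have hzW : z ∈ W := hz.trans _ b.2 z hzb
    obtain ⟨u, hu, hzu⟩ := (hb ⟨z, hzW⟩).1 hzb
    exact ⟨u, hu, congrArg Subtype.val hzu⟩
  have hb2 : b.1 ⊆ (nu W (β + 1)).toZFSet := by
    intro z hzb
    have hzW : z ∈ W := hz.trans _ b.2 z hzb
    obtain ⟨u, hu, hzu⟩ := (hb ⟨z, hzW⟩).1 hzb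
    obtain ⟨ξ, hξ, hξ1, -⟩ := key u hu
    rw [hξ1] at hzu
    exact (mem_ordW h (z := ⟨z, hzW⟩)).2 ⟨ξ, hξ, hzu⟩
  obtain ⟨α, hα, hbα⟩ := reg h b.2 hb1 hb2
  have hrT : r.1 ⊆ (T (ordW h α)).1 := by
    intro z hzr
    have hzW : z ∈ W := hz.trans _ r.2 z hzr
    obtain ⟨ξ, -, hξ1, hξ2⟩ := key ⟨z, hzW⟩ hzr
    have hmem : (ordW h ξ).1 ∈ b.1 := (hb _).2 ⟨⟨z, hzW⟩, hzr, hξ1.symm⟩
    obtain ⟨η, hη, hηξ⟩ := (mem_ordW h (ξ := α)).1 (hbα hmem)
    rw [hηξ] at hξ2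
    exact mono hη.le hξ2
  intro z hzΦ
  have hzW : z ∈ W := hz.trans _ (Φ r).2 z hzΦ
  refine monoC hα ?_
  exact (hC' _ ⟨z, hzW⟩).2 ⟨r, (mem_sm _ r).2 ⟨hrT, hrs⟩, hzΦ⟩

end HNF
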