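import Pool.Agent.HNF.Lvl

/-!
HNF LWA: the generic functions.

`keyZ β ξ i η` is the element `((β, ξ, i), η)` of a condition.

PROOFS.
`exists_gf`: for `i < kap` the set of the conditions `c` with `keyZ β ξ i η ∈ pP c` for some `η < nu (β + 1)` is dense: given a
condition `c`, either `pair (trip β ξ i) y ∈ pP c` for some `y`, then by `CondP.form` `y = η.toZFSet` with `η < nu (β + 1)` (injectivity of
`trip`, `toZFSet`), or `trip (pP c ∪ {keyZ β ξ i 0}) (pS c) (pB c)` is a condition (`CondP.insert`).  The property is definable (`trip β ξ i`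
as a constant of `W`).  So by `gen_meets` there are `c ∈ G` and `η`; let `F i = η` (choice).  Uniqueness: if `c, c' ∈ G` have values
`η, η'` at the key then by `gen_dir` a common extension has both, `CondP.fn`.
-/

namespace HNF

open RMK Set

variable {W G : Set ZFSet.{0}}

/-- the element `((β, ξ, i), η)` -/
noncomputable def keyZ (β ξ i η : Ordinal.{0}) : ZFSet.{0} :=
  ZFSet.pair (trip β.toZFSet ξ.toZFSet i.toZFSet) η.toZFSet

/-- `F` is the generic function with index `(β, ξ)` -/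
structure GenF (W G : Set ZFSet.{0}) (β ξ : Ordinal.{0}) (F : Ordinal.{0} → Ordinal.{0}) : Prop where
  lt : ∀ i < kap W, F i < nu W (β + 1)
  uniq : ∀ i < kap W, ∀ c ∈ G, ∀ η, keyZ β ξ i η ∈ pP c → η = F i

theorem trip_inj_iff {a b c a' b' c' : ZFSet.{0}} :
    trip a b c = trip a' b' c' ↔ a = a' ∧ b = b' ∧ c = c' := by
  constructor
  · intro h
    obtain ⟨h1, h2⟩ := ZFSet.pair_inj.1 h
    obtain ⟨h3, h4⟩ := ZFSet.pair_inj.1 h2
    exact ⟨h1, h3, h4⟩
  · rintro ⟨rfl, rfl, rfl⟩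
    rfl

/-- the value of a condition at a key of level `β` is an ordinal less than `ν (β + 1)` -/
theorem CondP.val_of_key {p : ZFSet.{0}} (hp : CondP W p) {β ξ i : Ordinal.{0}} {y : ZFSet.{0}}
    (hy : ZFSet.pair (trip β.toZFSet ξ.toZFSet i.toZFSet) y ∈ p) :
    ∃ η < nu W (β + 1), y = η.toZFSet := by
  obtain ⟨β', ξ', i', η, -, -, -, hη, he⟩ := hp.form _ hy
  obtain ⟨h1, h2⟩ := ZFSet.pair_inj.1 he
  obtain ⟨h3, -, -⟩ := trip_inj_iff.1 h1
  have h6 : β = β' := Ordinal.toZFSet_injective h3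
  subst h6
  exact ⟨η, hη, h2⟩

theorem exists_gf (h : Ext W G) {β ξ : Ordinal.{0}} (hβ : β < nu W 1) (hξ : ξ < tht W) :
    ∃ F : Ordinal.{0} → Ordinal.{0}, GenF W G β ξ F := by
  classical
  have hz := h.zfc.zf0
  have key : ∀ i, i < kap W → ∃ η, η < nu W (β + 1) ∧ ∃ c, c ∈ G ∧ keyZ β ξ i η ∈ pP c := by
    intro i hi
    obtain ⟨g, hg⟩ := gen_ne h
    have hD : MD W fun c : W => ∃ y : W,
        ZFSet.pair (ztr hz (ordW h.zfc β) (ordW h.zfc ξ) (ordW h.zfc i)).1 y.1 ∈
          (zP h.zfc c).1 := by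
      (repeat' (first | (with_reducible first | exact DFc.id | exact DFc.const _ | exact MD.const _ | apply MD.and | apply MD.or | apply MD.iff | apply MD.not | apply MD.imp | apply MD.ex | apply MD.all | apply MD.zpair_mem hz | apply MD.eq_zpair hz | apply MD.isFn hz | apply MD.isO hz | apply MD.mem | apply MD.eq | apply DFc.zpr hz | apply DFc.zap hz | apply DFc.zun hz | apply DFc.zsg hz | apply DFc.zsU hz | apply DFc.ztr hz | apply DFc.zup hz | apply DFc.zpd hz) | (with_reducible first | exact (DFc.zP h.zfc) | apply (DFc.zP h.zfc) | apply MD.comp2 (DFc.zP h.zfc) | apply DFc.comp2 (DFc.zP h.zfc) | apply MD.comp3 (DFc.zP h.zfc) | apply DFc.comp3 (DFc.zP h.zfc) | apply MD.comp (DFc.zP h.zfc) | apply DFc.comp (DFc.zP h.zfc)) | (with_reducible apply DFc.fst) | (with_reducible apply DFc.snd) | (with_reducible apply DFc.mk)))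
    obtain ⟨d, hdG, y, hy⟩ := gen_meets h hD hg (by
      intro c hc _
      by_cases hh : ∃ y : W, ZFSet.pair
          (ztr hz (ordW h.zfc β) (ordW h.zfc ξ) (ordW h.zfc i)).1 y.1 ∈ (zP h.zfc c).1
      · exact ⟨c, hc, Le.refl hc, hh⟩
      · have hn : ∀ y, ZFSet.pair (trip β.toZFSet ξ.toZFSet i.toZFSet) y ∉ pP c.1 := by
          intro y hy
          exact hh ⟨⟨y, hz.pair_right (hz.trans _ (zP h.zfc c).2 _ hy)⟩, hy⟩
        have h0 : (0 : Ordinal.{0}) < nu W (β + 1) :=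
          lt_of_lt_of_le Ordinal.omega0_pos (omega_le_nu W _)
        have h1 := hc.cP.insert h.zfc hβ hξ hi h0 hn
        have h2 : Cond W (trip (pP c.1 ∪ {keyZ β ξ i 0}) (pS c.1) (pB c.1)) :=
          cond_trip.2 ⟨h1, hc.cB⟩
        refine ⟨⟨_, h2.mem h⟩, h2, ⟨_, _, _, pP c.1, pS c.1, pB c.1, rfl, hc.eq,
          fun z hz' => ZFSet.mem_union.2 (Or.inl hz'), fun z hz' => hz', fun z hz' => hz'⟩,
          ordW h.zfc 0, ?_⟩
        change keyZ β ξ i 0 ∈ pP (trip (pP c.1 ∪ {keyZ β ξ i 0}) (pS c.1) (pB c.1))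
        rw [pP_trip]
        exact ZFSet.mem_union.2 (Or.inr (ZFSet.mem_singleton.2 rfl)))
    obtain ⟨η, hη, he⟩ := (gen_cond h hdG).cP.val_of_key (y := y.1) hy
    refine ⟨η, hη, d.1, hdG, ?_⟩
    unfold keyZ
    rw [← he]
    exact hy
  choose! F hF1 c hc hF2 using key
  refine ⟨F, fun i hi => hF1 i hi, fun i hi d hd η hη => ?_⟩
  obtain ⟨e, heG, he1, he2⟩ := gen_dir h (hc i hi) hd
  have heC := gen_cond h heG
  have h1 := ((le_iff heC (gen_cond h (hc i hi))).1 he1).1 (hF2 i hi)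
  have h2 := ((le_iff heC (gen_cond h hd)).1 he2).1 hη
  have h3 := heC.cP.fn _ _ _ h1 h2
  exact (Ordinal.toZFSet_injective h3).symm

end HNF
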