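import Pool.Agent.HNF.Antb

/-!
HNF READ: reading functions of the generic extension.

`RdP h δ l I V f c1 A`: `c1 ∈ G`, and `A ∈ W` is a set of triples `(i, d, v)`, of size `l` in `W`, such that `f i = v` whenever
`(i, d, v) ∈ A` and `d ∈ G`, and for all `i ∈ I` the set of the `d` with `(i, d, v) ∈ A` is predense below `c1`.

PROOF of `read`.  Let `z` be the set of all `pair i (f i)`, `i ∈ I` (a subset of `I × V`; `ZFSet.sep`).  Let `E0` be the name of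
`z` (`exists_name`, `a = zpd I V`), and `E i c` iff there is `v ∈ V` with `E0 (zpr i v) c`.  `E` is definable and closed downwards;
for `i ∈ I` there is `c ∈ G` with `E i c` (`pair i (f i) ∈ z`).  `dense_below` gives `c0 ∈ G`.  Let `D c` say: there is `A` with
`AntP h δ l I E c c A`.  Then `D` is definable (`mdd` after unfolding the fields; `MD.szZ`, `MD.lowC`, `MD.cond`, `MD.le`;
the `↔` between `AntP` and the conjunction of its fields).  If `c` is a condition with `Le c c0` then `anti` for `c` in place of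
`c0` gives `c1` and `A` with `AntP h δ l I E c c1 A`, hence `AntP h δ l I E c1 c1 A` (`Le.refl`).  By `gen_meets` there are
`c1 ∈ G` and `A0` with `AntP h δ l I E c1 c1 A0`.  By `ac` with the relation `R w v` iff `v ∈ V ∧ E0 (zpr (fst w) v) (snd w)` on
the set `A0` there is a function `Φ ∈ W`.  Let `A = {ztr i d (Φ (i, d)) | (i, d) ∈ A0}` (`hz.repl`; size by `Sz.image`).
`val`: if `d ∈ G` then `E0 (zpr i v) d` gives `pair i v ∈ z`, so `v = f i`.  `uniq`: `v = Φ (i, d)`.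
`real`: for `i ∈ I` apply `gen_meets` with `c1` and `D e` iff there are `d, v` with `ztr i d v ∈ A` and `Le e d`: dense
below `c1` by `pre`; so some `e ∈ G` with `Le e d`, `d ∈ G` by `gen_up`, and `f i = v`.
-/

namespace HNF

open RMK Set

variable {W G : Set ZFSet.{0}}

/-- the conclusion of the reading lemma -/
structure RdP (h : Ext W G) (δ l : Ordinal.{0}) (I V : W) (f : W → W) (c1 A : W) : Prop where
  mem : c1.1 ∈ G
  sz : Sz W A.1 l
  form : ∀ w : W, w.1 ∈ A.1 → ∃ i d v : W, w = ztr h.zfc.zf0 i d v ∧ i.1 ∈ I.1 ∧ Cond W d.1 ∧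
    v.1 ∈ V.1
  val : ∀ i d v : W, (ztr h.zfc.zf0 i d v).1 ∈ A.1 → d.1 ∈ G → f i = v
  uniq : ∀ i d v v' : W, (ztr h.zfc.zf0 i d v).1 ∈ A.1 → (ztr h.zfc.zf0 i d v').1 ∈ A.1 → v = v'
  inc : ∀ i d v d' v' : W, (ztr h.zfc.zf0 i d v).1 ∈ A.1 → (ztr h.zfc.zf0 i d' v').1 ∈ A.1 →
    d ≠ d' → ¬ LowC W δ d.1 d'.1
  pre : ∀ i c : W, i.1 ∈ I.1 → Cond W c.1 → Le c.1 c1.1 → ∃ d v e : W,
    (ztr h.zfc.zf0 i d v).1 ∈ A.1 ∧ Cond W e.1 ∧ Le e.1 c.1 ∧ Le e.1 d.1
  real : ∀ i : W, i.1 ∈ I.1 → ∃ d v : W, (ztr h.zfc.zf0 i d v).1 ∈ A.1 ∧ d.1 ∈ G ∧ f i = v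

private theorem ztr_inj42 {hz : ZF0 W} {a b c a' b' c' : W} (he : ztr hz a b c = ztr hz a' b' c') :
    a = a' ∧ b = b' ∧ c = c' := by
  have h1 : trip a.1 b.1 c.1 = trip a'.1 b'.1 c'.1 := congrArg Subtype.val he
  unfold trip at h1
  obtain ⟨h2, h3⟩ := ZFSet.pair_inj.1 h1
  obtain ⟨h4, h5⟩ := ZFSet.pair_inj.1 h3
  exact ⟨Subtype.ext h2, Subtype.ext h4, Subtype.ext h5⟩

private theorem antP_iff42 (h : Ext W G) {δ l : Ordinal.{0}} {I : W} {E : W → W → Prop}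
    {c0 c1 A : W} : AntP h δ l I E c0 c1 A ↔
      Cond W c1.1 ∧ Le c1.1 c0.1 ∧ SzZ W A.1 (ordW h.zfc l).1 ∧
      (∀ w : W, w.1 ∈ A.1 → ∃ i d : W, w = zpr h.zfc.zf0 i d ∧ i.1 ∈ I.1 ∧ Cond W d.1 ∧ E i d) ∧
      (∀ i d d' : W, (zpr h.zfc.zf0 i d).1 ∈ A.1 → (zpr h.zfc.zf0 i d').1 ∈ A.1 → ¬ d = d' →
        ¬ LowC W δ d.1 d'.1) ∧
      (∀ i c : W, i.1 ∈ I.1 → Cond W c.1 → Le c.1 c1.1 → ∃ d e : W,
        (zpr h.zfc.zf0 i d).1 ∈ A.1 ∧ Cond W e.1 ∧ Le e.1 c.1 ∧ Le e.1 d.1) := by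
  constructor
  · rintro ⟨h1, h2, h3, h4, h5, h6⟩
    exact ⟨h1, h2, szZ_iff.2 h3, h4, h5, h6⟩
  · rintro ⟨h1, h2, h3, h4, h5, h6⟩
    exact ⟨h1, h2, szZ_iff.1 h3, h4, h5, h6⟩

theorem read (h : Ext W G) {δ l : Ordinal.{0}} (hOK : OKd W δ l) {I V : W} (hI : Sz W I.1 l)
    (f : W → W) (hf : ∀ i : W, i.1 ∈ I.1 → (f i).1 ∈ V.1) :
    ∃ c1 A : W, RdP h δ l I V f c1 A := by
  classical
  have hz := h.zfc.zf0
  let z : ZFSet.{0} := ZFSet.sep (fun w => ∃ i : W, i.1 ∈ I.1 ∧ w = ZFSet.pair i.1 (f i).1)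
    (I.1.prod V.1)
  have hzsub : z ⊆ (zpd h.zfc.zf0 I V).1 := fun w hw => (ZFSet.mem_sep.1 hw).1
  have hzmem : ∀ i v : W, (zpr h.zfc.zf0 i v).1 ∈ z ↔ i.1 ∈ I.1 ∧ v = f i := by
    intro i v
    constructor
    · intro hw
      obtain ⟨i', hi', he⟩ := (ZFSet.mem_sep.1 hw).2
      obtain ⟨h1, h2⟩ := ZFSet.pair_inj.1 (show ZFSet.pair i.1 v.1 = ZFSet.pair i'.1 (f i').1 from he)
      have h3 : i = i' := Subtype.ext h1
      subst h3
      exact ⟨hi', Subtype.ext h2⟩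
    · rintro ⟨hi, rfl⟩
      exact ZFSet.mem_sep.2 ⟨ZFSet.pair_mem_prod.2 ⟨hi, hf i hi⟩, i, hi, rfl⟩
  obtain ⟨E0, hE0, hdown0, hE0z⟩ := exists_name h hzsub
  let E : W → W → Prop := fun i c => ∃ v : W, v.1 ∈ V.1 ∧ E0 (zpr h.zfc.zf0 i v) c
  have hE : MD W fun p : W × W => E p.1 p.2 := by
    show MD W fun p : W × W => ∃ v : W, v.1 ∈ V.1 ∧ E0 (zpr h.zfc.zf0 p.1 v) p.2
    (repeat' (first | (with_reducible first | exact DFc.id | exact DFc.const _ | exact MD.const _ | apply MD.and | apply MD.or | apply MD.iff | apply MD.not | apply MD.imp | apply MD.ex | apply MD.all | apply MD.zpair_mem h.zfc.zf0 | apply MD.eq_zpair h.zfc.zf0 | apply MD.isFn h.zfc.zf0 | apply MD.isO h.zfc.zf0 | apply MD.mem | apply MD.eq | apply DFc.zpr h.zfc.zf0 | apply DFc.zap h.zfc.zf0 | apply DFc.zun h.zfc.zf0 | apply DFc.zsg h.zfc.zf0 | apply DFc.zsU h.zfc.zf0 | apply DFc.ztr h.zfc.zf0 | apply DFc.zup h.zfc.zf0 | apply DFc.zpd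 h.zfc.zf0) | (with_reducible first | exact hE0 | apply hE0 | apply MD.comp2 hE0 | apply DFc.comp2 hE0 | apply MD.comp3 hE0 | apply DFc.comp3 hE0 | apply MD.comp hE0 | apply DFc.comp hE0) | (with_reducible apply DFc.fst) | (with_reducible apply DFc.snd) | (with_reducible apply DFc.mk)))
  have hdown : ∀ x c c' : W, E x c → Cond W c'.1 → Le c'.1 c.1 → E x c' := by
    rintro x c c' ⟨v, hv, hv1⟩ hc' hle
    exact ⟨v, hv, hdown0 _ c c' hv1 hc' hle⟩
  have hIc : ∀ i : W, i.1 ∈ I.1 → ∃ c : W, c.1 ∈ G ∧ E i c := by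
    intro i hi
    obtain ⟨c, hc, hc1⟩ := (hE0z (zpr h.zfc.zf0 i (f i))).1 ((hzmem i (f i)).2 ⟨hi, rfl⟩)
    exact ⟨c, hc, f i, hf i hi, hc1⟩
  obtain ⟨c0, hc0G, hc0⟩ := dense_below h hE hdown hIc
  have hDp : MD W fun c : W => ∃ A : W, AntP h δ l I E c c A := by
    refine MD.congr (P := fun c : W => ∃ A : W, Cond W c.1 ∧ Le c.1 c.1 ∧
      SzZ W A.1 (ordW h.zfc l).1 ∧
      (∀ w : W, w.1 ∈ A.1 → ∃ i d : W, w = zpr h.zfc.zf0 i d ∧ i.1 ∈ I.1 ∧ Cond W d.1 ∧ E i d) ∧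
      (∀ i d d' : W, (zpr h.zfc.zf0 i d).1 ∈ A.1 → (zpr h.zfc.zf0 i d').1 ∈ A.1 → ¬ d = d' →
        ¬ LowC W δ d.1 d'.1) ∧
      (∀ i c' : W, i.1 ∈ I.1 → Cond W c'.1 → Le c'.1 c.1 → ∃ d e : W,
        (zpr h.zfc.zf0 i d).1 ∈ A.1 ∧ Cond W e.1 ∧ Le e.1 c'.1 ∧ Le e.1 d.1))
      (fun c => exists_congr fun A => (antP_iff42 h).symm) ?_
    have hcond : ∀ {Y : Type 1} [Ctx W Y] {g : Y → W}, DFc W g → MD W fun x => Cond W (g x).1 :=
      fun hg => MD.cond h hg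
    have hle : ∀ {Y : Type 1} [Ctx W Y] {g k : Y → W}, DFc W g → DFc W k →
        MD W fun x => Le (g x).1 (k x).1 := fun hg hk => MD.le h.zfc hg hk
    have hsz : ∀ {Y : Type 1} [Ctx W Y] {g k : Y → W}, DFc W g → DFc W k →
        MD W fun x => SzZ W (g x).1 (k x).1 := fun hg hk => MD.szZ h.zfc hg hk
    have hlow : ∀ {Y : Type 1} [Ctx W Y] {g k : Y → W}, DFc W g → DFc W k →
        MD W fun x => LowC W δ (g x).1 (k x).1 := fun hg hk => MD.lowC h δ hg hk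
    (repeat' (first | (with_reducible first | exact DFc.id | exact DFc.const _ | exact MD.const _ | apply MD.and | apply MD.or | apply MD.iff | apply MD.not | apply MD.imp | apply MD.ex | apply MD.all | apply MD.zpair_mem h.zfc.zf0 | apply MD.eq_zpair h.zfc.zf0 | apply MD.isFn h.zfc.zf0 | apply MD.isO h.zfc.zf0 | apply MD.mem | apply MD.eq | apply DFc.zpr h.zfc.zf0 | apply DFc.zap h.zfc.zf0 | apply DFc.zun h.zfc.zf0 | apply DFc.zsg h.zfc.zf0 | apply DFc.zsU h.zfc.zf0 | apply DFc.ztr h.zfc.zf0 | apply DFc.zup h.zfc.zf0 | apply DFc.zpd h.zfc.zf0) | (with_reducible first | exact hcond | apply hcond | apply MD.comp2 hcond | apply DFc.comp2 hcond | apply MD.comp3 hcond | apply DFc.comp3 hcond | apply MD.comp hcond | apply DFc.comp hcond) | (with_reducible first | exact hle | apply hle | apply MD.comp2 hle | apply DFc.comp2 hle | apply MD.comp3 hle | apply DFc.comp3 hle | apply MD.comp hle | apply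 DFc.comp hle) | (with_reducible first | exact hsz | apply hsz | apply MD.comp2 hsz | apply DFc.comp2 hsz | apply MD.comp3 hsz | apply DFc.comp3 hsz | apply MD.comp hsz | apply DFc.comp hsz) | (with_reducible first | exact hlow | apply hlow | apply MD.comp2 hlow | apply DFc.comp2 hlow | apply MD.comp3 hlow | apply DFc.comp3 hlow | apply MD.comp hlow | apply DFc.comp hlow) | (with_reducible first | exact hE0 | apply hE0 | apply MD.comp2 hE0 | apply DFc.comp2 hE0 | apply MD.comp3 hE0 | apply DFc.comp3 hE0 | apply MD.comp hE0 | apply DFc.comp hE0) | (with_reducible apply DFc.fst) | (with_reducible apply DFc.snd) | (with_reducible apply DFc.mk)))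
  obtain ⟨c1, hc1G, A0, hA0⟩ := gen_meets h hDp hc0G (fun c hc hle => by
    obtain ⟨c1, A, hA⟩ := anti h hOK hI hE hdown hc (fun i hi c' hc' hle' =>
      hc0 i hi c' hc' (hle'.trans hle))
    exact ⟨c1, hA.cond, hA.le, A, ⟨hA.cond, Le.refl hA.cond, hA.sz, hA.form, hA.inc, hA.pre⟩⟩)
  have hfst : ∀ {Y : Type 1} [Ctx W Y] {g : Y → W}, DFc W g →
      DFc W fun x => zfst h.zfc.zf0 (g x) := fun hg => DFc.zfst h.zfc.zf0 hg
  have hsnd : ∀ {Y : Type 1} [Ctx W Y] {g : Y → W}, DFc W g →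
      DFc W fun x => zsnd h.zfc.zf0 (g x) := fun hg => DFc.zsnd h.zfc.zf0 hg
  have hR : MD W fun p : W × W => p.2.1 ∈ V.1 ∧
      E0 (zpr h.zfc.zf0 (zfst h.zfc.zf0 p.1) p.2) (zsnd h.zfc.zf0 p.1) := by
    (repeat' (first | (with_reducible first | exact DFc.id | exact DFc.const _ | exact MD.const _ | apply MD.and | apply MD.or | apply MD.iff | apply MD.not | apply MD.imp | apply MD.ex | apply MD.all | apply MD.zpair_mem h.zfc.zf0 | apply MD.eq_zpair h.zfc.zf0 | apply MD.isFn h.zfc.zf0 | apply MD.isO h.zfc.zf0 | apply MD.mem | apply MD.eq | apply DFc.zpr h.zfc.zf0 | apply DFc.zap h.zfc.zf0 | apply DFc.zun h.zfc.zf0 | apply DFc.zsg h.zfc.zf0 | apply DFc.zsU h.zfc.zf0 | apply DFc.ztr h.zfc.zf0 | apply DFc.zup h.zfc.zf0 | apply DFc.zpd h.zfc.zf0) | (with_reducible first | exact hE0 | apply hE0 | apply MD.comp2 hE0 | apply DFc.comp2 hE0 | apply MD.comp3 hE0 | apply DFc.comp3 hE0 | apply MD.comp hE0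 | apply DFc.comp hE0) | (with_reducible first | exact hfst | apply hfst | apply MD.comp2 hfst | apply DFc.comp2 hfst | apply MD.comp3 hfst | apply DFc.comp3 hfst | apply MD.comp hfst | apply DFc.comp hfst) | (with_reducible first | exact hsnd | apply hsnd | apply MD.comp2 hsnd | apply DFc.comp2 hsnd | apply MD.comp3 hsnd | apply DFc.comp3 hsnd | apply MD.comp hsnd | apply DFc.comp hsnd) | (with_reducible apply DFc.fst) | (with_reducible apply DFc.snd) | (with_reducible apply DFc.mk)))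
  obtain ⟨Φ, hΦf, hΦ⟩ := ac h.zfc A0 (R := fun w v => v.1 ∈ V.1 ∧
      E0 (zpr h.zfc.zf0 (zfst h.zfc.zf0 w) v) (zsnd h.zfc.zf0 w)) hR (fun w hw => by
    obtain ⟨i, d, rfl, -, -, v, hv, hv1⟩ := hA0.form w hw
    refine ⟨v, hv, ?_⟩
    rw [zfst_zpr, zsnd_zpr]
    exact hv1)
  let F : W → W := fun w => ztr h.zfc.zf0 (zfst h.zfc.zf0 w) (zsnd h.zfc.zf0 w)
    (zap h.zfc.zf0 Φ w)
  have hF : DFc W F := by
    show DFc W fun w : W => ztr h.zfc.zf0 (zfst h.zfc.zf0 w) (zsnd h.zfc.zf0 w)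
      (zap h.zfc.zf0 Φ w)
    (repeat' (first | (with_reducible first | exact DFc.id | exact DFc.const _ | exact MD.const _ | apply MD.and | apply MD.or | apply MD.iff | apply MD.not | apply MD.imp | apply MD.ex | apply MD.all | apply MD.zpair_mem h.zfc.zf0 | apply MD.eq_zpair h.zfc.zf0 | apply MD.isFn h.zfc.zf0 | apply MD.isO h.zfc.zf0 | apply MD.mem | apply MD.eq | apply DFc.zpr h.zfc.zf0 | apply DFc.zap h.zfc.zf0 | apply DFc.zun h.zfc.zf0 | apply DFc.zsg h.zfc.zf0 | apply DFc.zsU h.zfc.zf0 | apply DFc.ztr h.zfc.zf0 | apply DFc.zup h.zfc.zf0 | apply DFc.zpd h.zfc.zf0) | (with_reducible first | exact hfst | apply hfst | apply MD.comp2 hfst | apply DFc.comp2 hfst | apply MD.comp3 hfst | apply DFc.comp3 hfst | apply MD.comp hfst | apply DFc.comp hfst) | (with_reducible first | exact hsnd | apply hsnd | apply MD.comp2 hsnd | apply DFc.comp2 hsnd | apply MD.comp3 hsnd | apply DFc.comp3 hsnd | apply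 MD.comp hsnd | apply DFc.comp hsnd) | (with_reducible apply DFc.fst) | (with_reducible apply DFc.snd) | (with_reducible apply DFc.mk)))
  obtain ⟨A, hA⟩ := h.zfc.zf0.repl F hF A0
  have hFz : ∀ i d : W, F (zpr h.zfc.zf0 i d) =
      ztr h.zfc.zf0 i d (zap h.zfc.zf0 Φ (zpr h.zfc.zf0 i d)) := by
    intro i d
    show ztr h.zfc.zf0 (zfst h.zfc.zf0 _) (zsnd h.zfc.zf0 _) _ = _
    rw [zfst_zpr, zsnd_zpr]
  have hAm : ∀ i d v : W, (ztr h.zfc.zf0 i d v).1 ∈ A.1 ↔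
      (zpr h.zfc.zf0 i d).1 ∈ A0.1 ∧ v = zap h.zfc.zf0 Φ (zpr h.zfc.zf0 i d) := by
    intro i d v
    rw [hA]
    constructor
    · rintro ⟨y, hy, he⟩
      obtain ⟨i', d', rfl, -, -⟩ := hA0.form y hy
      rw [hFz] at he
      obtain ⟨rfl, rfl, rfl⟩ := ztr_inj42 he
      exact ⟨hy, rfl⟩
    · rintro ⟨hy, rfl⟩
      exact ⟨_, hy, (hFz i d).symm⟩
  have hval : ∀ i d v : W, (ztr h.zfc.zf0 i d v).1 ∈ A.1 → d.1 ∈ G → f i = v := by
    intro i d v hm hd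
    obtain ⟨hm1, rfl⟩ := (hAm i d v).1 hm
    have h1 := (hΦ _ hm1).2
    rw [zfst_zpr, zsnd_zpr] at h1
    exact ((hzmem _ _).1 ((hE0z _).2 ⟨d, hd, h1⟩)).2.symm
  have hform : ∀ w : W, w.1 ∈ A.1 → ∃ i d v : W, w = ztr h.zfc.zf0 i d v ∧ i.1 ∈ I.1 ∧
      Cond W d.1 ∧ v.1 ∈ V.1 := by
    intro w hw
    obtain ⟨y, hy, rfl⟩ := (hA w).1 hw
    obtain ⟨i, d, rfl, hi, hd, -⟩ := hA0.form y hy
    exact ⟨i, d, _, hFz i d, hi, hd, (hΦ _ hy).1⟩
  have hpre : ∀ i c : W, i.1 ∈ I.1 → Cond W c.1 → Le c.1 c1.1 → ∃ d v e : W,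
      (ztr h.zfc.zf0 i d v).1 ∈ A.1 ∧ Cond W e.1 ∧ Le e.1 c.1 ∧ Le e.1 d.1 := by
    intro i c hi hc hle
    obtain ⟨d, e, hd, he, he1, he2⟩ := hA0.pre i c hi hc hle
    exact ⟨d, _, e, (hAm i d _).2 ⟨hd, rfl⟩, he, he1, he2⟩
  refine ⟨c1, A, hc1G, ?_, hform, hval, ?_, ?_, hpre, ?_⟩
  · refine Sz.image h.zfc hA0.sz hF fun w hw => ?_
    have hwW : w ∈ W := h.zfc.trans A.1 A.2 w hw
    obtain ⟨y, hy, he⟩ := (hA ⟨w, hwW⟩).1 hw
    exact ⟨y, hy, congrArg Subtype.val he⟩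
  · intro i d v v' h1 h2
    rw [((hAm i d v).1 h1).2, ((hAm i d v').1 h2).2]
  · intro i d v d' v' h1 h2 hne
    exact hA0.inc i d d' ((hAm i d v).1 h1).1 ((hAm i d' v').1 h2).1 hne
  · intro i hi
    have hcond : ∀ {Y : Type 1} [Ctx W Y] {g : Y → W}, DFc W g → MD W fun x => Cond W (g x).1 :=
      fun hg => MD.cond h hg
    have hle : ∀ {Y : Type 1} [Ctx W Y] {g k : Y → W}, DFc W g → DFc W k →
        MD W fun x => Le (g x).1 (k x).1 := fun hg hk => MD.le h.zfc hg hk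
    have hD : MD W fun e : W => ∃ d v : W, (ztr h.zfc.zf0 i d v).1 ∈ A.1 ∧ Le e.1 d.1 := by
      (repeat' (first | (with_reducible first | exact DFc.id | exact DFc.const _ | exact MD.const _ | apply MD.and | apply MD.or | apply MD.iff | apply MD.not | apply MD.imp | apply MD.ex | apply MD.all | apply MD.zpair_mem h.zfc.zf0 | apply MD.eq_zpair h.zfc.zf0 | apply MD.isFn h.zfc.zf0 | apply MD.isO h.zfc.zf0 | apply MD.mem | apply MD.eq | apply DFc.zpr h.zfc.zf0 | apply DFc.zap h.zfc.zf0 | apply DFc.zun h.zfc.zf0 | apply DFc.zsg h.zfc.zf0 | apply DFc.zsU h.zfc.zf0 | apply DFc.ztr h.zfc.zf0 | apply DFc.zup h.zfc.zf0 | apply DFc.zpd h.zfc.zf0) | (with_reducible first | exact hcond | apply hcond | apply MD.comp2 hcond | apply DFc.comp2 hcond | apply MD.comp3 hcond | apply DFc.comp3 hcond | apply MD.comp hcond | apply DFc.comp hcond) | (with_reducible first | exact hle | apply hle | apply MD.comp2 hle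 | apply DFc.comp2 hle | apply MD.comp3 hle | apply DFc.comp3 hle | apply MD.comp hle | apply DFc.comp hle) | (with_reducible apply DFc.fst) | (with_reducible apply DFc.snd) | (with_reducible apply DFc.mk)))
    obtain ⟨e, heG, d, v, hm, hed⟩ := gen_meets h hD hc1G (fun c hc hle => by
      obtain ⟨d, v, e, hd, he, he1, he2⟩ := hpre i c hi hc hle
      exact ⟨e, he, he1, d, v, hd, he2⟩)
    obtain ⟨i', d', v', he', -, hd', -⟩ := hform _ hm
    obtain ⟨rfl, rfl, rfl⟩ := ztr_inj42 he'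
    have hdG : d.1 ∈ G := gen_up h heG hd' hed
    exact ⟨d, v, hm, hdG, hval i d v hm hdG⟩

end HNF
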