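import Pool.Agent.HNF.Lwa
import Pool.Agent.HNF.Read

/-!
HNF LWB: the generic functions are not dominated by `κ⁺` many functions.

PROOF of `low_main`.  Let `ρ = rho W`, `κ = kap W`.  Let `I = ρ × κ` (`zpd`), of size `ρ` (`sz_prod`), `V = ordW (nu (β + 1))`, and let
`f : W → W` map `pair γ i` to `ordW (H γ i)` for `γ < ρ`, `i < κ`.  `read` with `(δ, l) = (nu 1, ρ)` (`OKd`) gives `c1 ∈ G` and `A`.
Let `T` be the set of all ordinals `ξ < tht` which occur as second coordinates of the keys of `pP d` for some `(i, d, v) ∈ A` or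
of `pP c1` (i.e. `pair (trip a ξ i') η ∈ pP d` for some `a, i', η`).  For a condition `d` the set of these `ξ` is the image of `pP d`
under a definable function, so has size `κ ≤ ρ` (`sz_condP`, `Sz.image`); so `T` has size `ρ` (`sz_iUnion`, `sz_union`;
`T ∈ W` by separation).  By `not_sz_nu` (`tht = nu (nu 1 + 2)`, `rho = nu (nu 1 + 1)`) there is `ξ < tht`, `ξ ∉ T`.  Let `F` be the generic
function with index `(β, ξ)` (`exists_gf`).
Let `γ < ρ`, `β' < nu 1` and `Z ∈ W` with `Sz Z (nu β')`.  Let `D c` say: there are `i ∈ κ`, `i ∉ Z`, ordinals `η, η'` and `d` with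
`ztr (pair γ i) d η ∈ A`, `Le c d`, `η ∈ η'` and `pair (trip β ξ i) η' ∈ pP c`.  `D` is dense below `c1`: let `c` be a condition with
`Le c c1`.  The set of the `i < κ` with `i ∈ Z` or `pair (trip β ξ i) y ∈ pP c` for some `y` has size `nu (max β' β)`: the latter set is an
image of `lev (pP c) β` (`CondP.small`); so there is `i < κ` outside (`κ = nu (nu 1)`, `max β' β < nu 1`, `not_sz_nu`; `sz_union`).
By `pre` there are `d, v, e` with `ztr (pair γ i) d v ∈ A`, `Le e c`, `Le e d`.  `v = ordW η` with `η < nu (β + 1)` (`form`).  Let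
`p = pP c ∪ pP d`; `p ⊆ pP e`, so `p` is single-valued and `CondP W p` (`CondP.sub`).  No element of `p` has the key `trip β ξ i`: for
`pP c` by the choice of `i`, for `pP d` because `ξ ∉ T`.  `η + 1 < nu (β + 1)` (`isSuccLimit_nu`).  So
`c' = trip (p ∪ {keyZ β ξ i (η + 1)}) (pS e) (pB e)` is a condition (`CondP.insert`), `Le c' c`, `Le c' d` and `D c'`.
By `gen_meets` there is `c ∈ G` with `D c`: `i < κ`, `i ∉ Z`, `d ∈ G` (`gen_up`), so `H γ i = η` (`val`), and `F i = η'` (`uniq`), `η < η'`.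
-/

namespace HNF

open RMK Set

variable {W G : Set ZFSet.{0}}

private theorem lwb_k2 {a b c y : ZFSet.{0}} :
    fstZ (sndZ (fstZ (ZFSet.pair (trip a b c) y))) = b := by
  unfold trip
  rw [fstZ_pair, sndZ_pair, fstZ_pair]

private theorem lwb_k3 {a b c y : ZFSet.{0}} :
    sndZ (sndZ (fstZ (ZFSet.pair (trip a b c) y))) = c := by
  unfold trip
  rw [fstZ_pair, sndZ_pair, sndZ_pair]

open Classical in
/-- the ordinal with the given set -/
private noncomputable def lwbRk (x : ZFSet.{0}) : Ordinal.{0} := if h : IsO x then h.choose else 0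

private theorem lwbRk_eq (α : Ordinal.{0}) : lwbRk α.toZFSet = α := by
  unfold lwbRk
  have h : IsO α.toZFSet := ⟨α, rfl⟩
  rw [dif_pos h]
  exact (Ordinal.toZFSet_injective h.choose_spec).symm

/-- an index `ξ` which does not occur in the conditions of `A` -/
private theorem lwb_xi (h : Ext W G) {A : W} (hA : Sz W A.1 (rho W))
    (hform : ∀ w : W, w.1 ∈ A.1 → ∃ i d v : W, w = ztr h.zfc.zf0 i d v ∧ Cond W d.1) :
    ∃ ξ < tht W, ∀ i d v : W, (ztr h.zfc.zf0 i d v).1 ∈ A.1 →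
      ∀ a j y, ZFSet.pair (trip a ξ.toZFSet j) y ∉ pP d.1 := by
  have hz := h.zfc.zf0
  have hK : DFc W fun t : W => zfst hz (zsnd hz (zfst hz t)) :=
    DFc.zfst hz (DFc.zsnd hz (DFc.zfst hz DFc.id))
  obtain ⟨U, hU, hU'⟩ := hz.replF (X := W) (a := fun d => zP h.zfc d) (DFc.zP h.zfc DFc.id)
    (F := fun _ t => zfst hz (zsnd hz (zfst hz t))) (DFc.comp hK (DFc.snd DFc.id))
  have hUs : ∀ d : W, Cond W d.1 → Sz W (U d).1 (rho W) := by
    intro d hd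
    refine ((sz_condP h.zfc hd.cP).image h.zfc hK ?_).mono h.zfc
      ((nu_strictMono W).monotone (le_add_of_nonneg_right zero_le_one))
    intro z hzU
    obtain ⟨u, hu, he⟩ := (hU' d ⟨z, hz.trans _ (U d).2 _ hzU⟩).1 hzU
    exact ⟨u, hu, congrArg Subtype.val he⟩
  by_contra hcon
  push Not at hcon
  have hlt : nu W 1 + 1 < nu W 1 + 2 := by
    have : nu W 1 + 2 = nu W 1 + 1 + 1 := by rw [add_assoc, one_add_one_eq_two]
    rw [this]
    exact lt_add_one _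
  refine not_sz_nu (W := W) hlt ?_
  have hF : DFc W fun w : W => U (zfst hz (zsnd hz w)) :=
    DFc.comp hU (DFc.zfst hz (DFc.zsnd hz DFc.id))
  refine sz_iUnion h.zfc (nu_wcard W _) (D := A) hA hF ?_ ?_
  · intro w hw
    obtain ⟨i, d, v, rfl, hd⟩ := hform w hw
    have e : zfst hz (zsnd hz (ztr h.zfc.zf0 i d v)) = d := by
      apply Subtype.ext
      change fstZ (sndZ (trip i.1 d.1 v.1)) = d.1
      unfold trip
      rw [sndZ_pair, fstZ_pair]
    rw [e]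
    exact hUs d hd
  · intro z hzt
    obtain ⟨ξ, hξ, rfl⟩ := Ordinal.mem_toZFSet_iff.1 hzt
    obtain ⟨i, d, v, hidv, a, j, y, hy⟩ := hcon ξ hξ
    refine ⟨ztr h.zfc.zf0 i d v, hidv, ?_⟩
    have e : zfst hz (zsnd hz (ztr h.zfc.zf0 i d v)) = d := by
      apply Subtype.ext
      change fstZ (sndZ (trip i.1 d.1 v.1)) = d.1
      unfold trip
      rw [sndZ_pair, fstZ_pair]
    rw [e]
    refine (hU' d (ordW h.zfc ξ)).2 ⟨⟨_, hz.trans _ (zP h.zfc d).2 _ hy⟩, hy, ?_⟩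
    apply Subtype.ext
    exact lwb_k2.symm

/-- an index `i` outside a small set and outside the domain of a condition -/
private theorem lwb_i (h : Ext W G) {β β' : Ordinal.{0}} (ξ : Ordinal.{0}) (hβ : β < nu W 1)
    (hβ' : β' < nu W 1) {Z : W} (hZ : Sz W Z.1 (nu W β')) {p : ZFSet.{0}} (hp : CondP W p) :
    ∃ i < kap W, i.toZFSet ∉ Z.1 ∧
      ∀ y, ZFSet.pair (trip β.toZFSet ξ.toZFSet i.toZFSet) y ∉ p := by
  have hz := h.zfc.zf0
  have hK : DFc W fun t : W => zsnd hz (zsnd hz (zfst hz t)) :=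
    DFc.zsnd hz (DFc.zsnd hz (DFc.zfst hz DFc.id))
  by_contra hcon
  push Not at hcon
  obtain ⟨Y, hY⟩ := hz.sep (fun i : W => ∃ y : W,
    ZFSet.pair (ztr hz (ordW h.zfc β) (ordW h.zfc ξ) i).1 y.1 ∈ (⟨p, hp.mem⟩ : W).1)
    (by (repeat' (first | (with_reducible first | exact DFc.id | exact DFc.const _ | exact MD.const _ | apply MD.and | apply MD.or | apply MD.iff | apply MD.not | apply MD.imp | apply MD.ex | apply MD.all | apply MD.zpair_mem hz | apply MD.eq_zpair hz | apply MD.isFn hz | apply MD.isO hz | apply MD.mem | apply MD.eq | apply DFc.zpr hz | apply DFc.zap hz | apply DFc.zun hz | apply DFc.zsg hz | apply DFc.zsU hz | apply DFc.ztr hz | apply DFc.zup hz | apply DFc.zpd hz) | (with_reducible apply DFc.fst) | (with_reducible apply DFc.snd) | (with_reducible apply DFc.mk)))) (ordW h.zfc (kap W))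
  have hYs : Sz W Y.1 (nu W β) := by
    refine (hp.small β hβ).image h.zfc hK ?_
    intro z hzY
    obtain ⟨hzk, y, hy⟩ := (hY ⟨z, hz.trans _ Y.2 _ hzY⟩).1 hzY
    obtain ⟨i, hi, rfl⟩ := Ordinal.mem_toZFSet_iff.1 hzk
    obtain ⟨η, hη, he⟩ := hp.val_of_key (y := y.1) hy
    have hy' : ZFSet.pair (trip β.toZFSet ξ.toZFSet i.toZFSet) y.1 ∈ p := hy
    refine ⟨⟨_, hz.trans _ hp.mem _ hy'⟩, ?_, lwb_k3.symm⟩
    exact ZFSet.mem_sep.2 ⟨hy', ξ, i, η, congrArg (ZFSet.pair _) he⟩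
  have hmax : max β' β < nu W 1 := max_lt hβ' hβ
  refine not_sz_nu (W := W) hmax ?_
  refine (sz_union h.zfc (nu_wcard W _) Z.2 Y.2
    (hZ.mono h.zfc ((nu_strictMono W).monotone (le_max_left β' β)))
    (hYs.mono h.zfc ((nu_strictMono W).monotone (le_max_right β' β)))).subset ?_
  intro z hzk
  obtain ⟨i, hi, rfl⟩ := Ordinal.mem_toZFSet_iff.1 hzk
  rw [ZFSet.mem_union]
  by_cases hiZ : i.toZFSet ∈ Z.1
  · exact Or.inl hiZ
  · obtain ⟨y, hy⟩ := hcon i hi hiZ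
    exact Or.inr ((hY (ordW h.zfc i)).2 ⟨hzk, ⟨y, hz.pair_right (hz.trans _ hp.mem _ hy)⟩, hy⟩)

theorem low_main (h : Ext W G) {β : Ordinal.{0}} (hβ : β < nu W 1)
    (H : Ordinal.{0} → Ordinal.{0} → Ordinal.{0})
    (hH : ∀ γ < rho W, ∀ i < kap W, H γ i < nu W (β + 1)) :
    ∃ F : Ordinal.{0} → Ordinal.{0}, (∀ i < kap W, F i < nu W (β + 1)) ∧
      ∀ γ < rho W, ∀ β' < nu W 1, ∀ Z : W, Sz W Z.1 (nu W β') →
        ∃ i < kap W, i.toZFSet ∉ Z.1 ∧ H γ i < F i := by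
  classical
  have hz := h.zfc.zf0
  have hκρ : kap W ≤ rho W := (nu_strictMono W).monotone (le_add_of_nonneg_right zero_le_one)
  have hI : Sz W (zpd hz (ordW h.zfc (rho W)) (ordW h.zfc (kap W))).1 (rho W) :=
    sz_prod h.zfc (nu_wcard W _) (sz_ord h.zfc _) ((sz_ord h.zfc _).mono h.zfc hκρ)
  let f : W → W := fun u => ordW h.zfc (H (lwbRk (fstZ u.1)) (lwbRk (sndZ u.1)))
  have hfv : ∀ γ i : Ordinal.{0}, f (zpr hz (ordW h.zfc γ) (ordW h.zfc i)) =
      ordW h.zfc (H γ i) := by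
    intro γ i
    change ordW h.zfc (H (lwbRk (fstZ (ZFSet.pair γ.toZFSet i.toZFSet)))
      (lwbRk (sndZ (ZFSet.pair γ.toZFSet i.toZFSet)))) = _
    rw [fstZ_pair, sndZ_pair, lwbRk_eq, lwbRk_eq]
  have hf : ∀ u : W, u.1 ∈ (zpd hz (ordW h.zfc (rho W)) (ordW h.zfc (kap W))).1 →
      (f u).1 ∈ (ordW h.zfc (nu W (β + 1))).1 := by
    intro u hu
    have hu' : u.1 ∈ ZFSet.prod (rho W).toZFSet (kap W).toZFSet := hu
    obtain ⟨a, ha, b, hb, hab⟩ := ZFSet.mem_prod.1 hu'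
    obtain ⟨γ, hγ, rfl⟩ := Ordinal.mem_toZFSet_iff.1 ha
    obtain ⟨i, hi, rfl⟩ := Ordinal.mem_toZFSet_iff.1 hb
    have e : u = zpr hz (ordW h.zfc γ) (ordW h.zfc i) := Subtype.ext hab
    rw [e, hfv]
    exact Ordinal.toZFSet_mem_toZFSet_iff.2 (hH γ hγ i hi)
  have hOK : OKd W (nu W 1) (rho W) := Or.inr (Or.inr ⟨rfl, rfl⟩)
  obtain ⟨c1, A, hR⟩ := read h hOK hI f hf
  have hform : ∀ i d v : W, (ztr hz i d v).1 ∈ A.1 →
      Cond W d.1 ∧ v.1 ∈ (ordW h.zfc (nu W (β + 1))).1 := by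
    intro i d v hidv
    obtain ⟨i', d', v', he, -, hd, hv⟩ := hR.form _ hidv
    obtain ⟨-, h1, h2⟩ := trip_inj_iff.1 (congrArg Subtype.val he)
    have h1' : d = d' := Subtype.ext h1
    have h2' : v = v' := Subtype.ext h2
    rw [h1', h2']
    exact ⟨hd, hv⟩
  obtain ⟨ξ, hξ, hξA⟩ := lwb_xi h hR.sz (fun w hw => by
    obtain ⟨i, d, v, he, -, hd, -⟩ := hR.form w hw
    exact ⟨i, d, v, he, hd⟩)
  obtain ⟨F, hF⟩ := exists_gf h hβ hξ
  refine ⟨F, hF.lt, ?_⟩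
  intro γ hγ β' hβ' Z hZ
  let D : W → Prop := fun c => ∃ i : W, (i.1 ∈ (ordW h.zfc (kap W)).1 ∧ ¬ i.1 ∈ Z.1) ∧
    ∃ η η' d : W, (ztr hz (zpr hz (ordW h.zfc γ) i) d η).1 ∈ A.1 ∧ Le c.1 d.1 ∧ η.1 ∈ η'.1 ∧
      ZFSet.pair (ztr hz (ordW h.zfc β) (ordW h.zfc ξ) i).1 η'.1 ∈ (zP h.zfc c).1
  have hD : MD W D := by
    change MD W fun c : W => ∃ i : W, (i.1 ∈ (ordW h.zfc (kap W)).1 ∧ ¬ i.1 ∈ Z.1) ∧
      ∃ η η' d : W, (ztr hz (zpr hz (ordW h.zfc γ) i) d η).1 ∈ A.1 ∧ Le c.1 d.1 ∧ η.1 ∈ η'.1 ∧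
      ZFSet.pair (ztr hz (ordW h.zfc β) (ordW h.zfc ξ) i).1 η'.1 ∈ (zP h.zfc c).1
    (repeat' (first | (with_reducible first | exact DFc.id | exact DFc.const _ | exact MD.const _ | apply MD.and | apply MD.or | apply MD.iff | apply MD.not | apply MD.imp | apply MD.ex | apply MD.all | apply MD.zpair_mem hz | apply MD.eq_zpair hz | apply MD.isFn hz | apply MD.isO hz | apply MD.mem | apply MD.eq | apply DFc.zpr hz | apply DFc.zap hz | apply DFc.zun hz | apply DFc.zsg hz | apply DFc.zsU hz | apply DFc.ztr hz | apply DFc.zup hz | apply DFc.zpd hz) | (with_reducible first | exact (MD.le h.zfc) | apply (MD.le h.zfc) | apply MD.comp2 (MD.le h.zfc) | apply DFc.comp2 (MD.le h.zfc) | apply MD.comp3 (MD.le h.zfc) | apply DFc.comp3 (MD.le h.zfc) | apply MD.comp (MD.le h.zfc) | apply DFc.comp (MD.le h.zfc)) | (with_reducible first | exact (DFc.zP h.zfc) | apply (DFc.zP h.zfc) | apply MD.comp2 (DFc.zP h.zfc)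 | apply DFc.comp2 (DFc.zP h.zfc) | apply MD.comp3 (DFc.zP h.zfc) | apply DFc.comp3 (DFc.zP h.zfc) | apply MD.comp (DFc.zP h.zfc) | apply DFc.comp (DFc.zP h.zfc)) | (with_reducible apply DFc.fst) | (with_reducible apply DFc.snd) | (with_reducible apply DFc.mk)))
  obtain ⟨c, hcG, i, ⟨hik, hiZ⟩, η, η', d, hA', hcd, hηη, hkey⟩ := gen_meets h hD hR.mem (by
    intro c hc hcc1
    obtain ⟨i, hi, hiZ, hin⟩ := lwb_i h ξ hβ hβ' hZ hc.cP
    have hiI : (zpr hz (ordW h.zfc γ) (ordW h.zfc i)).1 ∈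
        (zpd hz (ordW h.zfc (rho W)) (ordW h.zfc (kap W))).1 :=
      ZFSet.pair_mem_prod.2 ⟨Ordinal.toZFSet_mem_toZFSet_iff.2 hγ,
        Ordinal.toZFSet_mem_toZFSet_iff.2 hi⟩
    obtain ⟨d, v, e, hA', he, hec, hed⟩ := hR.pre _ c hiI hc hcc1
    obtain ⟨hd, hv⟩ := hform _ _ _ hA'
    obtain ⟨η, hη, hηv⟩ := Ordinal.mem_toZFSet_iff.1 hv
    obtain ⟨hc1, hc2, hc3⟩ := (le_iff he hc).1 hec
    obtain ⟨hd1, hd2, hd3⟩ := (le_iff he hd).1 hed
    have hpe : pP c.1 ∪ pP d.1 ⊆ pP e.1 := by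
      intro z hz'
      rcases ZFSet.mem_union.1 hz' with h1 | h1
      · exact hc1 h1
      · exact hd1 h1
    have hp : CondP W (pP c.1 ∪ pP d.1) := he.cP.sub (hz.un hc.cP.mem hd.cP.mem) hpe
    have hη1 : η + 1 < nu W (β + 1) := (isSuccLimit_nu h.zfc (β + 1)).add_one_lt hη
    have hins := hp.insert h.zfc hβ hξ hi hη1 (by
      intro y hy
      rcases ZFSet.mem_union.1 hy with h1 | h1
      · exact hin y h1
      · exact hξA _ _ _ hA' _ _ _ h1)
    have hc' : Cond W (trip ((pP c.1 ∪ pP d.1) ∪ {keyZ β ξ i (η + 1)}) (pS e.1) (pB e.1)) :=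
      cond_trip.2 ⟨hins, he.cB⟩
    refine ⟨⟨_, hc'.mem h⟩, hc', ⟨_, _, _, pP c.1, pS c.1, pB c.1, rfl, hc.eq, ?_, hc2, hc3⟩,
      ordW h.zfc i, ⟨Ordinal.toZFSet_mem_toZFSet_iff.2 hi, hiZ⟩, v, ordW h.zfc (η + 1), d, hA',
      ⟨_, _, _, pP d.1, pS d.1, pB d.1, rfl, hd.eq, ?_, hd2, hd3⟩, ?_, ?_⟩
    · exact fun z hz' => ZFSet.mem_union.2 (Or.inl (ZFSet.mem_union.2 (Or.inl hz')))
    · exact fun z hz' => ZFSet.mem_union.2 (Or.inl (ZFSet.mem_union.2 (Or.inr hz')))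
    · rw [← hηv]
      exact Ordinal.toZFSet_mem_toZFSet_iff.2 (lt_add_one η)
    · change keyZ β ξ i (η + 1) ∈
        pP (trip ((pP c.1 ∪ pP d.1) ∪ {keyZ β ξ i (η + 1)}) (pS e.1) (pB e.1))
      rw [pP_trip]
      exact ZFSet.mem_union.2 (Or.inr (ZFSet.mem_singleton.2 rfl)))
  obtain ⟨i', hi', rfl⟩ := (mem_ordW h.zfc).1 hik
  refine ⟨i', hi', hiZ, ?_⟩
  have hdG : d.1 ∈ G := gen_up h hcG (hform _ _ _ hA').1 hcd
  have h1 := hR.val _ _ _ hA' hdG
  rw [hfv] at h1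
  obtain ⟨ζ, hζ, hζe⟩ := (gen_cond h hcG).cP.val_of_key (y := η'.1) hkey
  have h2 : ζ = F i' := hF.uniq i' hi' c.1 hcG ζ (by
    unfold keyZ
    rw [← hζe]
    exact hkey)
  rw [← h1, hζe] at hηη
  rw [← h2]
  exact Ordinal.toZFSet_mem_toZFSet_iff.1 hηη

end HNF
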