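import Pool.Agent.HNF.Lwb
import Pool.Agent.HNF.Crd

/-!
HNF LWC: the lower bound in terms of the cardinals of the universe.

PROOF of `low_fin`.  `β < ω₁ = nu 1` (`nu_one`), and `nu (β + 1) = ω_ (β + 1)` (`nu_eq`; `β + 1 ≤ nu 1`).  `low_main` gives `F`.  Let
`γ < rho`, `ι` a type with `#ι < ℵ_ ω₁` and `g : ι → Ordinal`.  Apply `cov_small` to `V = ordW kap` and the function `k ↦ ordW (g k)` if
`g k < kap` and `ordW 0` otherwise.  This gives `β' < nu 1` and `Z` with `Sz Z (nu β')` containing `(g k).toZFSet` whenever `g k < kap`.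
`low_main` for `Z` gives `i < kap` with `i ∉ Z`, so `i ≠ g k` for all `k`.
-/

namespace HNF

open RMK Set Cardinal

variable {W G : Set ZFSet.{0}}

theorem low_fin (h : Ext W G) {β : Ordinal.{0}} (hβ : β < Ordinal.omega 1)
    (H : Ordinal.{0} → Ordinal.{0} → Ordinal.{0})
    (hH : ∀ γ < rho W, ∀ i < kap W, H γ i < Ordinal.omega (β + 1)) :
    ∃ F : Ordinal.{0} → Ordinal.{0}, (∀ i < kap W, F i < Ordinal.omega (β + 1)) ∧
      ∀ γ < rho W, ∀ ι : Type, #ι < ℵ_ (Ordinal.omega 1) → ∀ g : ι → Ordinal.{0},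
        ∃ i < kap W, (∀ k, g k ≠ i) ∧ H γ i < F i := by
  classical
  have hβ1 : β < nu W 1 := by
    rw [nu_one h]
    exact hβ
  have hnu : nu W (β + 1) = Ordinal.omega (β + 1) := nu_eq h (Order.add_one_le_of_lt hβ1)
  obtain ⟨F, hF1, hF2⟩ := low_main h hβ1 H (by
    rw [hnu]
    exact hH)
  refine ⟨F, fun i hi => ?_, fun γ hγ ι hι g => ?_⟩
  · rw [← hnu]
    exact hF1 i hi
  · have hk0 : 0 < kap W := Ordinal.omega0_pos.trans_le (omega_le_nu W (nu W 1))
    obtain ⟨β', hβ', Y, -, hYs, hY⟩ := cov_small h (V := ordW h.zfc (kap W)) hι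
      (fun k => if g k < kap W then ordW h.zfc (g k) else ordW h.zfc 0) (by
        intro k
        show (if g k < kap W then ordW h.zfc (g k) else ordW h.zfc 0).1 ∈ (ordW h.zfc (kap W)).1
        split_ifs with h1
        · exact Ordinal.toZFSet_mem_toZFSet_iff.2 h1
        · exact Ordinal.toZFSet_mem_toZFSet_iff.2 hk0)
    obtain ⟨i, hi, hiY, hlt⟩ := hF2 γ hγ β' hβ' Y hYs
    refine ⟨i, hi, fun k hk => hiY ?_, hlt⟩
    have h2 := hY k
    rw [hk, if_pos hi] at h2
    exact h2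

end HNF
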