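import Pool.Agent.HNF.Nat1

/-!
HNF NAT2: lower bounds for `𝔡^λ_μ` from families of functions which are not dominated (elementary, no models).

The hypothesis `hL`: for every `β < ω₁` and every family `H γ`, `γ < ρ`, of functions `κ → ω_(β+1)` (`κ = ω_(ω₁)`) there is a function
`F : κ → ω_(β+1)` such that for all `γ < ρ` the set `{i | H γ i < F i}` is not covered by the range of a function on a type of cardinality
less than `ℵ_ω₁`, i.e. it has cardinality `ℵ_ω₁`.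

PROOFS.  Write `lam = ℵ_ ω₁`, `κ = lam.ord = ω_ ω₁`.  Elements of `lam.ord.ToType` correspond to ordinals less than `κ`
(`Ordinal.ToType.mk`, `Ordinal.typein`, `Ordinal.enum`), similarly for `(ℵ_ (β + 1)).ord.ToType`, `(ℵ_ (β + 1)).ord = ω_ (β + 1)`.
`lt_dGen_succ`: suppose `dGen lam (ℵ_ (β + 1)) ≤ ρ.card`; there is a family `D` of this cardinality (`csInf_mem`), so a surjection from
`Set.Iio ρ` onto `D` (`D` is not empty), which gives `H γ i`.  Take `F` from `hL` and the corresponding `f : Λ → (ℵ_ (β+1)).ord.ToType`.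
There is `g ∈ D`, so `γ < ρ`, with `#{i | f i > g i} < ℵ_ (β + 1) ≤ lam`... `< lam`.  Apply `hL` with `ι = {i | f i > g i}` and `g` the
inclusion (as ordinals): there is `i` outside with `H γ i < F i`, a contradiction.
`lt_dGen_top`: suppose `dGen lam lam ≤ ρ.card`, with a family `D` of functions `Λ → Λ`.  For `g ∈ D` and `i ∈ κ` let `g' i` be the least
`β < ω₁` with `g i < ω_ (β + 1)` (exists because `κ = sup_{β < ω₁} ω_ (β + 1)`).  This gives `H γ i < ω_ 1`.  Take `F` from `hL` with `β = 0`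
(`ω_ 1 = ω₁`), and `f i = ω_ (F i + 1) < κ`.  There is `g ∈ D` with `#{i | f i > g i} < lam`; `hL` gives `i` outside this set with
`g' i < F i`; but `g i ≥ f i = ω_ (F i + 1) ≥ ω_ (g' i + 1) > g i`, a contradiction.
`lt_dGen`: `μ = ℵ_ β` with `β ≤ ω₁` (`Cardinal.exists_aleph_iff`).  `β = ω₁`: `lt_dGen_top`.  `β < ω₁`: `succ μ = ℵ_ (β + 1) ≤ lam`, and
`dGen lam (succ μ) ≤ dGen lam μ` by `dGen_succ_le`; `lt_dGen_succ`.
-/

namespace HNF

open Cardinal Set Pool.Agent.Helper66.HD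

/-- the hypothesis on families of functions -/
def NotDom (ρ : Ordinal.{0}) : Prop :=
  ∀ β < Ordinal.omega 1, ∀ H : Ordinal.{0} → Ordinal.{0} → Ordinal.{0},
    (∀ γ < ρ, ∀ i < Ordinal.omega (Ordinal.omega 1), H γ i < Ordinal.omega (β + 1)) →
    ∃ F : Ordinal.{0} → Ordinal.{0},
      (∀ i < Ordinal.omega (Ordinal.omega 1), F i < Ordinal.omega (β + 1)) ∧
      ∀ γ < ρ, ∀ ι : Type, #ι < ℵ_ (Ordinal.omega 1) → ∀ g : ι → Ordinal.{0},
        ∃ i < Ordinal.omega (Ordinal.omega 1), (∀ k, g k ≠ i) ∧ H γ i < F i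

private noncomputable def tval {o : Ordinal.{0}} (x : o.ToType) : Ordinal.{0} :=
  (Ordinal.ToType.mk.symm x).1

private theorem tval_lt {o : Ordinal.{0}} (x : o.ToType) : tval x < o :=
  (Ordinal.ToType.mk.symm x).2

private theorem tval_mk {o a : Ordinal.{0}} (h : a < o) :
    tval (Ordinal.ToType.mk ⟨a, h⟩ : o.ToType) = a := by
  unfold tval
  rw [OrderIso.symm_apply_apply]

private theorem mk_tval {o : Ordinal.{0}} (x : o.ToType) :
    Ordinal.ToType.mk ⟨tval x, tval_lt x⟩ = x := by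
  unfold tval
  exact OrderIso.apply_symm_apply _ x

private theorem tval_lt_tval {o : Ordinal.{0}} {x y : o.ToType} : tval x < tval y ↔ x < y := by
  unfold tval
  rw [Subtype.coe_lt_coe, OrderIso.lt_iff_lt]

private theorem tval_inj {o : Ordinal.{0}} {x y : o.ToType} (h : tval x = tval y) : x = y := by
  rw [← mk_tval x, ← mk_tval y]
  congr 1
  exact Subtype.ext h

/-- a family of cardinality `≤ ρ.card` witnessing `dGen` is indexed by the ordinals `< ρ` -/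
private theorem exists_index {lam μ : Cardinal.{0}} (hμ : 0 < μ) {ρ : Ordinal.{0}}
    (hle : dGen lam μ ≤ ρ.card) :
    ∃ G : Ordinal.{0} → lam.ord.ToType → μ.ord.ToType,
      ∀ f : lam.ord.ToType → μ.ord.ToType, ∃ γ < ρ, #{α | f α > G γ α} < μ := by
  classical
  obtain ⟨D, hD, hDf⟩ : dGen lam μ ∈ {κ | ∃ D : Set (lam.ord.ToType → μ.ord.ToType), #D = κ ∧
      ∀ f : lam.ord.ToType → μ.ord.ToType, ∃ g ∈ D, #{α | f α > g α} < μ} := by
    refine csInf_mem ⟨_, Set.univ, rfl, fun f => ⟨f, trivial, ?_⟩⟩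
    simpa using hμ
  obtain ⟨m0⟩ : Nonempty μ.ord.ToType := by
    rw [← Cardinal.mk_ne_zero_iff, Cardinal.mk_ord_toType]
    exact hμ.ne'
  obtain ⟨j⟩ : Nonempty (D ↪ ρ.ToType) := by
    have h1 : #D ≤ #ρ.ToType := by
      rw [Cardinal.mk_toType, hD]
      exact hle
    exact h1
  refine ⟨fun γ => if h : ∃ d : D, tval (j d) = γ then (Classical.choose h).1 else fun _ => m0,
    fun f => ?_⟩
  obtain ⟨g, hg, hgf⟩ := hDf f
  refine ⟨tval (j ⟨g, hg⟩), tval_lt _, ?_⟩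
  have hex : ∃ d : D, tval (j d) = tval (j ⟨g, hg⟩) := ⟨_, rfl⟩
  have h2 : Classical.choose hex = ⟨g, hg⟩ := j.injective (tval_inj (Classical.choose_spec hex))
  simp only [hex, dif_pos]
  rw [h2]
  exact hgf

theorem lt_dGen_succ {ρ : Ordinal.{0}} (hL : NotDom ρ) {β : Ordinal.{0}}
    (hβ : β < Ordinal.omega 1) : ρ.card < dGen (ℵ_ (Ordinal.omega 1)) (ℵ_ (β + 1)) := by
  classical
  by_contra hcon
  obtain ⟨G, hG⟩ := exists_index (Cardinal.aleph_pos _) (not_lt.mp hcon)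
  have ho1 : (ℵ_ (Ordinal.omega 1)).ord = Ordinal.omega (Ordinal.omega 1) := ord_aleph _
  have ho2 : (ℵ_ (β + 1)).ord = Ordinal.omega (β + 1) := ord_aleph _
  have hs : β + 1 < Ordinal.omega 1 := (Cardinal.isSuccLimit_omega 1).succ_lt hβ
  obtain ⟨F, hF, hFn⟩ := hL β hβ
    (fun γ i => if h : i < (ℵ_ (Ordinal.omega 1)).ord then
      tval (G γ (Ordinal.ToType.mk ⟨i, h⟩)) else 0) (by
      intro γ _ i hi
      have hi' : i < (ℵ_ (Ordinal.omega 1)).ord := by rwa [ho1]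
      simp only [hi', dif_pos]
      rw [← ho2]
      exact tval_lt _)
  have hF' : ∀ x : (ℵ_ (Ordinal.omega 1)).ord.ToType, F (tval x) < (ℵ_ (β + 1)).ord := by
    intro x
    exact (hF _ (by rw [← ho1]; exact tval_lt x)).trans_eq ho2.symm
  obtain ⟨γ, hγ, hγf⟩ := hG (fun x => Ordinal.ToType.mk ⟨F (tval x), hF' x⟩)
  obtain ⟨i, hi, hik, hiF⟩ := hFn γ hγ
    {α | (Ordinal.ToType.mk ⟨F (tval α), hF' α⟩ : (ℵ_ (β + 1)).ord.ToType) > G γ α}
    (hγf.trans_le (aleph_le_aleph.mpr hs.le)) (fun k => tval k.1)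
  have hi' : i < (ℵ_ (Ordinal.omega 1)).ord := by rwa [ho1]
  simp only [hi', dif_pos] at hiF
  refine hik ⟨Ordinal.ToType.mk ⟨i, hi'⟩, ?_⟩ (tval_mk hi')
  show G γ (Ordinal.ToType.mk ⟨i, hi'⟩) < Ordinal.ToType.mk ⟨F (tval (Ordinal.ToType.mk ⟨i, hi'⟩)), hF' _⟩
  rw [← tval_lt_tval, tval_mk]
  rw [tval_mk hi']
  exact hiF

theorem lt_dGen_top {ρ : Ordinal.{0}} (hL : NotDom ρ) :
    ρ.card < dGen (ℵ_ (Ordinal.omega 1)) (ℵ_ (Ordinal.omega 1)) := by
  classical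
  by_contra hcon
  obtain ⟨G, hG⟩ := exists_index (Cardinal.aleph_pos _) (not_lt.mp hcon)
  have ho1 : (ℵ_ (Ordinal.omega 1)).ord = Ordinal.omega (Ordinal.omega 1) := ord_aleph _
  have hlim : Order.IsSuccLimit (Ordinal.omega 1) := Cardinal.isSuccLimit_omega 1
  have h01 : (0 : Ordinal.{0}) + 1 = 1 := zero_add 1
  have hpos : (0 : Ordinal.{0}) < Ordinal.omega 1 := Ordinal.omega_pos 1
  -- the level of an element
  have hlev : ∀ x : (ℵ_ (Ordinal.omega 1)).ord.ToType, ∃ b < Ordinal.omega 1,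
      tval x < Ordinal.omega (b + 1) := by
    intro x
    have h1 : tval x < Ordinal.omega (Ordinal.omega 1) := by
      rw [← ho1]
      exact tval_lt x
    obtain ⟨b, hb, hxb⟩ := (Ordinal.isNormal_omega.lt_iff_exists_lt hlim).mp h1
    exact ⟨b, hb, hxb.trans (Ordinal.omega_lt_omega.mpr (Order.lt_succ b))⟩
  choose L hL1 hL2 using hlev
  obtain ⟨F, hF, hFn⟩ := hL 0 hpos
    (fun γ i => if h : i < (ℵ_ (Ordinal.omega 1)).ord then
      L (G γ (Ordinal.ToType.mk ⟨i, h⟩)) else 0) (by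
      intro γ _ i hi
      have hi' : i < (ℵ_ (Ordinal.omega 1)).ord := by rwa [ho1]
      simp only [hi', dif_pos, h01]
      exact hL1 _)
  rw [h01] at hF
  have hF' : ∀ x : (ℵ_ (Ordinal.omega 1)).ord.ToType,
      Ordinal.omega (F (tval x) + 1) < (ℵ_ (Ordinal.omega 1)).ord := by
    intro x
    have h1 : Ordinal.omega (F (tval x) + 1) < Ordinal.omega (Ordinal.omega 1) :=
      Ordinal.omega_lt_omega.mpr (hlim.succ_lt (hF _ (by rw [← ho1]; exact tval_lt x)))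
    exact h1.trans_eq ho1.symm
  obtain ⟨γ, hγ, hγf⟩ := hG (fun x => Ordinal.ToType.mk ⟨Ordinal.omega (F (tval x) + 1), hF' x⟩)
  obtain ⟨i, hi, hik, hiF⟩ := hFn γ hγ
    {α | (Ordinal.ToType.mk ⟨Ordinal.omega (F (tval α) + 1), hF' α⟩ :
      (ℵ_ (Ordinal.omega 1)).ord.ToType) > G γ α}
    hγf (fun k => tval k.1)
  have hi' : i < (ℵ_ (Ordinal.omega 1)).ord := by rwa [ho1]
  simp only [hi', dif_pos] at hiF
  refine hik ⟨Ordinal.ToType.mk ⟨i, hi'⟩, ?_⟩ (tval_mk hi')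
  show G γ (Ordinal.ToType.mk ⟨i, hi'⟩) <
    Ordinal.ToType.mk ⟨Ordinal.omega (F (tval (Ordinal.ToType.mk ⟨i, hi'⟩)) + 1), hF' _⟩
  rw [← tval_lt_tval, tval_mk, tval_mk hi']
  refine (hL2 _).trans_le (Ordinal.omega_le_omega.mpr ?_)
  exact (Order.succ_le_succ hiF.le)

theorem lt_dGen {ρ : Ordinal.{0}} (hL : NotDom ρ) {μ : Cardinal.{0}} (h1 : ℵ₀ ≤ μ)
    (h2 : μ ≤ ℵ_ (Ordinal.omega 1)) : ρ.card < dGen (ℵ_ (Ordinal.omega 1)) μ := by
  obtain ⟨β, rfl⟩ := mem_range_aleph_iff.mpr h1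
  have hβ : β ≤ Ordinal.omega 1 := aleph_le_aleph.mp h2
  rcases hβ.eq_or_lt with rfl | hlt
  · exact lt_dGen_top hL
  · have hs : β + 1 ≤ Ordinal.omega 1 := ((Cardinal.isSuccLimit_omega 1).succ_lt hlt).le
    have h3 : ℵ_ (β + 1) = Order.succ (ℵ_ β) := aleph_succ β
    have h4 : Order.succ (ℵ_ β) ≤ ℵ_ (Ordinal.omega 1) := by
      rw [← h3]
      exact aleph_le_aleph.mpr hs
    refine (lt_dGen_succ hL hlt).trans_le ?_
    rw [h3]
    exact dGen_succ_le h1 h4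

end HNF
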