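import Pool.Agent.HNF.Upb
import Pool.Agent.HNF.Lwc
import Pool.Agent.HNF.Nat2
import Pool.Agent.HNF.Dfp

/-!
HNF MAIN: the final theorem.
-/

namespace HNF

open RMK Set Cardinal Pool.Agent.Helper66.HD

variable {W G : Set ZFSet.{0}}

/-- The universe is the generic extension `W[G]`: `W` is an inner model of ZFC satisfying the generalised
continuum hypothesis, `G` is a filter on the partially ordered set of all conditions (`Cond W`, ordered by
`Le`), generic over `W`, and every subset of an element of `W` has a name in `W`. -/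
structure Extension (W G : Set ZFSet.{0}) : Prop where
  zfc : InnerZFC W
  gch : ∀ β y, (∀ z, z ∈ y ↔ z ∈ W ∧ z ⊆ (nu W β).toZFSet) → Sz W y (nu W (β + 1))
  gen : ∃ P R : ZFSet.{0}, (∀ c, c ∈ P ↔ Cond W c) ∧
    (∀ z, z ∈ R ↔ ∃ c' ∈ P, ∃ c ∈ P, z = ZFSet.pair c' c ∧ Le c' c) ∧ IsGeneric W P R G
  names : ∀ a ∈ W, ∀ z, z ⊆ a → ∃ σ ∈ W, ∀ x, x ∈ z ↔ x ∈ a ∧ ∃ p ∈ G, ZFSet.pair x p ∈ σ

theorem Extension.ext (h : Extension W G) : Ext W G := by
  refine ⟨h.zfc, h.gch, ?_, h.names⟩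
  obtain ⟨P, R, hP, hR, hG⟩ := h.gen
  obtain ⟨P', hP'W, R', hR'W, hP', hR'⟩ := exists_PR h.zfc h.gch
  have e1 : P = P' := by
    apply ZFSet.ext
    intro c
    rw [hP, hP']
  have e2 : R = R' := by
    apply ZFSet.ext
    intro z
    rw [hR, hR', e1]
  refine ⟨P, e1 ▸ hP'W, R, e2 ▸ hR'W, hP, hR, hG⟩

/-- In the extension `𝔠 = ℵ_{ω₁}` and `𝔡(≠*_{∅}) < 𝔡^𝔠_μ` for all infinite cardinals `μ ≤ 𝔠`. -/
theorem hnf_main (h : Extension W G) : (𝔠 : Cardinal.{0}) = ℵ_ (Ordinal.omega 1) ∧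
    ∀ μ : Cardinal.{0}, ℵ₀ ≤ μ → μ ≤ 𝔠 → dnum neStar {∅} < dGen 𝔠 μ := by
  have h' := h.ext
  refine ⟨continuum_eq h', fun μ h1 h2 => ?_⟩
  have hL : NotDom (rho W) := by
    intro β hβ H hH
    have h3 := low_fin h' hβ H (by rw [kap_eq h']; exact hH)
    rw [kap_eq h'] at h3
    exact h3
  rw [continuum_eq h'] at h2 ⊢
  exact (dnum_le h').trans_lt (lt_dGen hL h1 h2)

end HNF
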