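import Pool.Agent.HNF.Sz1

/-!
HNF MEA1: finite partial functions `FinP κ s`, cylinders `cyl s` and the product measure `lam` (`Defs.lean`).
All statements are elementary.

PROOFS.
`bitZ_inj`: `ZFSet.pair_inj`, `Ordinal.toZFSet_injective`, `natZ` is injective.
`FinP.union`: if a point `z` is in both cylinders then `bitZ j n true` and `bitZ j n false` cannot both be in `s ∪ t`.
`FinP.mem`: induction over the finite set (`Set.Finite.induction_on` for the set of elements, with `ZFSet.ext`);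
`∅ ∈ W`, `hz.un`, `hz.sg`; or: `s` is a subset of a set of `W` and finite.  `bitZ j n v ∈ W` by `hz.pairZ`.
`lam_cyl`: `cyl s` is `Set.pi F t` for the finite set `F` of the coordinates `(j, n)` occurring in `s`, with `t (j, n) =
{v}`; `Measure.infinitePi_pi`; each factor is `1/2` (`PMF.toMeasure_uniformOfFintype_apply` or similar) and the
number of coordinates is the number of elements of `s` (`FinP.fn`: each coordinate occurs with only one digit).
`lam_cyl_disj`: if no coordinate of `t` occurs in `s` then the number of elements of `s ∪ t` is the sum.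
`meas_cyl`: finite intersection of measurable sets (`measurable_pi_apply`).
`meas_opn`: countable union.  `cyl_union`, `cyl_anti`: definitions.
`blk_...`: `blk j σ n` is the code of `σ ↾ n` placed at the coordinates `(j, k)`, `k < n`.
-/

namespace HNF

open RMK Set MeasureTheory

variable {W : Set ZFSet.{0}} {κ : Ordinal.{0}}

instance : IsProbabilityMeasure lam := by
  unfold lam
  infer_instance

theorem bitZ_inj {j j' : Ordinal.{0}} {n n' : ℕ} {v v' : Bool} :
    bitZ j n v = bitZ j' n' v' ↔ j = j' ∧ n = n' ∧ v = v' := by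
  unfold bitZ
  constructor
  · intro h
    have h1 := ZFSet.pair_injective h
    have h2 := ZFSet.pair_injective h1.1
    have h3 := natZ_inj.1 h1.2
    refine ⟨Ordinal.toZFSet_injective h2.1, natZ_inj.1 h2.2, ?_⟩
    cases v <;> cases v' <;> simp_all
  · rintro ⟨rfl, rfl, rfl⟩
    rfl

theorem bitZ_mem (h : InnerZFC W) (j : Ordinal.{0}) (n : ℕ) (v : Bool) : bitZ j n v ∈ W := by
  have hz := h.zf0
  exact hz.pairZ (hz.pairZ (h.ord j) (hz.natZ_mem n)) (hz.natZ_mem _)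

theorem finP_empty (κ : Ordinal.{0}) : FinP κ ∅ := by
  refine ⟨?_, ?_, ?_⟩
  · simp
  · intro t ht
    exact absurd ht (ZFSet.notMem_empty t)
  · intro j n h
    exact ZFSet.notMem_empty _ h.1

theorem FinP.mem (h : InnerZFC W) {s : ZFSet.{0}} (hs : FinP κ s) : s ∈ W := by
  have hz := h.zf0
  have key : ∀ A : Set ZFSet.{0}, A.Finite → (∀ t ∈ A, t ∈ W) → ∃ p ∈ W, ∀ t, t ∈ p ↔ t ∈ A := by
    intro A hA
    induction A, hA using Set.Finite.induction_on with
    | empty =>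
      intro _
      exact ⟨∅, hz.empty_mem, fun t => by simp⟩
    | @insert a A ha hA ih =>
      intro hW
      obtain ⟨p, hp, hpt⟩ := ih (fun t ht => hW t (Set.mem_insert_of_mem _ ht))
      refine ⟨p ∪ {a}, hz.un hp (hz.sg (hW a (Set.mem_insert _ _))), fun t => ?_⟩
      rw [ZFSet.mem_union, ZFSet.mem_singleton, hpt, Set.mem_insert_iff]
      tauto
  obtain ⟨p, hp, hpt⟩ := key _ hs.fin (fun t ht => by
    obtain ⟨j, -, n, v, rfl⟩ := hs.form t ht
    exact bitZ_mem h j n v)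
  have : s = p := by
    apply ZFSet.ext
    intro t
    exact (hpt t).symm
  rw [this]
  exact hp

theorem FinP.sub {s t : ZFSet.{0}} (ht : FinP κ t) (hst : s ⊆ t) : FinP κ s := by
  exact ⟨ht.fin.subset (fun t h => hst h), fun t h => ht.form t (hst h),
    fun j n h => ht.fn j n ⟨hst h.1, hst h.2⟩⟩

theorem cyl_empty : cyl ∅ = Set.univ := by
  ext z
  simp only [cyl, Set.mem_ofPred_eq, Set.mem_univ, iff_true]
  intro j n v h
  exact absurd h (ZFSet.notMem_empty _)

theorem cyl_union (s t : ZFSet.{0}) : cyl (s ∪ t) = cyl s ∩ cyl t := by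
  ext z
  simp only [cyl, Set.mem_ofPred_eq, Set.mem_inter_iff, ZFSet.mem_union]
  constructor
  · intro h
    exact ⟨fun j n v hv => h j n v (Or.inl hv), fun j n v hv => h j n v (Or.inr hv)⟩
  · rintro ⟨h1, h2⟩ j n v (hv | hv)
    · exact h1 j n v hv
    · exact h2 j n v hv

theorem cyl_anti {s t : ZFSet.{0}} (hst : s ⊆ t) : cyl t ⊆ cyl s := by
  intro z hz j n v hv
  exact hz j n v (hst hv)

theorem opn_mono {b c : ZFSet.{0}} (hbc : b ⊆ c) : opn b ⊆ opn c := by
  intro z hz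
  simp only [opn, Set.mem_iUnion, Set.mem_ofPred_eq] at hz ⊢
  obtain ⟨e, he, hze⟩ := hz
  exact ⟨e, hbc he, hze⟩

theorem opn_union (b c : ZFSet.{0}) : opn (b ∪ c) = opn b ∪ opn c := by
  ext z
  simp only [opn, Set.mem_iUnion, Set.mem_ofPred_eq, Set.mem_union, ZFSet.mem_union]
  constructor
  · rintro ⟨e, he | he, hz⟩
    · exact Or.inl ⟨e, he, hz⟩
    · exact Or.inr ⟨e, he, hz⟩
  · rintro (⟨e, he, hz⟩ | ⟨e, he, hz⟩)
    · exact ⟨e, Or.inl he, hz⟩
    · exact ⟨e, Or.inr he, hz⟩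

theorem FinP.union {s t : ZFSet.{0}} (hs : FinP κ s) (ht : FinP κ t)
    (hne : (cyl s ∩ cyl t).Nonempty) : FinP κ (s ∪ t) := by
  obtain ⟨z, hz1, hz2⟩ := hne
  refine ⟨?_, ?_, ?_⟩
  · have : {x : ZFSet.{0} | x ∈ s ∪ t} = {x | x ∈ s} ∪ {x | x ∈ t} := by
      ext x
      simp
    rw [this]
    exact hs.fin.union ht.fin
  · intro x hx
    rcases ZFSet.mem_union.1 hx with hx | hx
    · exact hs.form x hx
    · exact ht.form x hx
  · rintro j n ⟨h1, h2⟩
    have e1 : z (j, n) = true := by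
      rcases ZFSet.mem_union.1 h1 with h | h
      · exact hz1 j n _ h
      · exact hz2 j n _ h
    have e2 : z (j, n) = false := by
      rcases ZFSet.mem_union.1 h2 with h | h
      · exact hz1 j n _ h
      · exact hz2 j n _ h
    rw [e1] at e2
    exact absurd e2 (by decide)

theorem FinP.cyl_nonempty {s : ZFSet.{0}} (hs : FinP κ s) : (cyl s).Nonempty := by
  classical
  refine ⟨fun c => decide (bitZ c.1 c.2 true ∈ s), ?_⟩
  intro j n v hv
  cases v with
  | true => simpa using hv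
  | false =>
    simp only [decide_eq_false_iff_not]
    intro h
    exact hs.fn j n ⟨h, hv⟩

/-- the coordinates occurring in `s` -/
private def crd (s : ZFSet.{0}) : Set (Ordinal.{0} × ℕ) := {c | ∃ v, bitZ c.1 c.2 v ∈ s}

private theorem bitf_inj : Function.Injective fun c : (Ordinal.{0} × ℕ) × Bool =>
    bitZ c.1.1 c.1.2 c.2 := by
  rintro ⟨⟨j, n⟩, v⟩ ⟨⟨j', n'⟩, v'⟩ h
  obtain ⟨rfl, rfl, rfl⟩ := bitZ_inj.1 h
  rfl

private theorem pre_fin {s : ZFSet.{0}} (hs : FinP κ s) :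
    ((fun c : (Ordinal.{0} × ℕ) × Bool => bitZ c.1.1 c.1.2 c.2) ⁻¹' {t | t ∈ s}).Finite :=
  hs.fin.preimage bitf_inj.injOn

private theorem crd_eq (s : ZFSet.{0}) : crd s =
    Prod.fst '' ((fun c : (Ordinal.{0} × ℕ) × Bool => bitZ c.1.1 c.1.2 c.2) ⁻¹' {t | t ∈ s}) := by
  ext c
  simp only [crd, Set.mem_ofPred_eq, Set.mem_image, Set.mem_preimage]
  constructor
  · rintro ⟨v, hv⟩
    exact ⟨(c, v), hv, rfl⟩
  · rintro ⟨⟨c', v⟩, hv, rfl⟩
    exact ⟨v, hv⟩

private theorem crd_fin {s : ZFSet.{0}} (hs : FinP κ s) : (crd s).Finite := by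
  rw [crd_eq]
  exact (pre_fin hs).image _

private theorem fn_eq {s : ZFSet.{0}} (hs : FinP κ s) {j : Ordinal.{0}} {n : ℕ} {v v' : Bool}
    (h : bitZ j n v ∈ s) (h' : bitZ j n v' ∈ s) : v = v' := by
  cases v <;> cases v'
  · rfl
  · exact absurd ⟨h', h⟩ (hs.fn j n)
  · exact absurd ⟨h, h'⟩ (hs.fn j n)
  · rfl

private theorem crd_ncard {s : ZFSet.{0}} (hs : FinP κ s) :
    (crd s).ncard = {t : ZFSet.{0} | t ∈ s}.ncard := by
  rw [crd_eq, Set.InjOn.ncard_image]
  · have h : {t : ZFSet.{0} | t ∈ s} = (fun c : (Ordinal.{0} × ℕ) × Bool => bitZ c.1.1 c.1.2 c.2) ''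
        ((fun c : (Ordinal.{0} × ℕ) × Bool => bitZ c.1.1 c.1.2 c.2) ⁻¹' {t | t ∈ s}) := by
      rw [Set.image_preimage_eq_inter_range]
      symm
      apply Set.inter_eq_left.2
      intro t ht
      obtain ⟨j, -, n, v, rfl⟩ := hs.form t ht
      exact ⟨((j, n), v), rfl⟩
    conv_rhs => rw [h]
    rw [Set.ncard_image_of_injective _ bitf_inj]
  · rintro ⟨⟨j, n⟩, v⟩ h ⟨⟨j', n'⟩, v'⟩ h' e
    simp only [Prod.mk.injEq] at e
    obtain ⟨rfl, rfl⟩ := e
    have hv : v = v' := fn_eq hs (j := j) (n := n) h h'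
    rw [hv]

private theorem cyl_eq_pi {s : ZFSet.{0}} (hs : FinP κ s) :
    cyl s = Set.pi (↑(crd_fin hs).toFinset) fun c => {v | bitZ c.1 c.2 v ∈ s} := by
  ext z
  simp only [cyl, Set.mem_ofPred_eq, Set.mem_pi, Set.Finite.coe_toFinset]
  constructor
  · intro h c hc
    obtain ⟨v, hv⟩ := hc
    rw [h c.1 c.2 v hv]
    exact hv
  · intro h j n v hv
    exact fn_eq hs (h (j, n) ⟨v, hv⟩) hv

theorem meas_cyl {s : ZFSet.{0}} (hs : FinP κ s) : MeasurableSet (cyl s) := by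
  rw [cyl_eq_pi hs]
  refine MeasurableSet.pi (Set.Finite.countable (Finset.finite_toSet _)) ?_
  intro c _
  exact MeasurableSet.of_discrete

theorem meas_opn {b : ZFSet.{0}} (hb : ∀ e ∈ b, FinP κ e)
    (hc : {e : ZFSet.{0} | e ∈ b}.Countable) : MeasurableSet (opn b) := by
  unfold opn
  refine MeasurableSet.biUnion hc ?_
  intro e he
  exact meas_cyl (hb e he)

theorem lam_cyl {s : ZFSet.{0}} (hs : FinP κ s) :
    lam (cyl s) = (2⁻¹ : ENNReal) ^ {t : ZFSet.{0} | t ∈ s}.ncard := by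
  rw [cyl_eq_pi hs]
  unfold lam
  rw [← crd_ncard hs, Set.ncard_eq_toFinset_card _ (crd_fin hs), ← Finset.prod_const]
  refine (Measure.infinitePi_pi (μ := fun _ : Ordinal.{0} × ℕ =>
    (PMF.uniformOfFintype Bool).toMeasure) (s := (crd_fin hs).toFinset)
    (t := fun c => {v | bitZ c.1 c.2 v ∈ s}) (fun c _ => MeasurableSet.of_discrete)).trans ?_
  refine Finset.prod_congr rfl ?_
  intro c hc
  rw [Set.Finite.mem_toFinset] at hc
  obtain ⟨v, hv⟩ := hc
  have h1 : {v | bitZ c.1 c.2 v ∈ s} = {v} := by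
    ext v'
    simp only [Set.mem_ofPred_eq, Set.mem_singleton_iff]
    constructor
    · intro h
      exact fn_eq hs h hv
    · rintro rfl
      exact hv
  rw [h1, PMF.toMeasure_apply_singleton _ _ (MeasurableSet.of_discrete),
    PMF.uniformOfFintype_apply]
  simp

/-- the set of all `bitZ j k (σ k)`, `k < n` -/
noncomputable def blk (j : Ordinal.{0}) (σ : ℕ → Bool) : ℕ → ZFSet.{0}
  | 0 => ∅
  | n + 1 => blk j σ n ∪ {bitZ j n (σ n)}

theorem mem_blk {j : Ordinal.{0}} {σ : ℕ → Bool} {n : ℕ} {t : ZFSet.{0}} :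
    t ∈ blk j σ n ↔ ∃ k < n, t = bitZ j k (σ k) := by
  induction n with
  | zero =>
    simp [blk]
  | succ n ih =>
    simp only [blk, ZFSet.mem_union, ZFSet.mem_singleton, ih]
    constructor
    · rintro (⟨k, hk, rfl⟩ | rfl)
      · exact ⟨k, by omega, rfl⟩
      · exact ⟨n, by omega, rfl⟩
    · rintro ⟨k, hk, rfl⟩
      rcases Nat.lt_succ_iff_lt_or_eq.1 hk with h | rfl
      · exact Or.inl ⟨k, h, rfl⟩
      · exact Or.inr rfl

theorem finP_blk {j : Ordinal.{0}} (hj : j < κ) (σ : ℕ → Bool) (n : ℕ) : FinP κ (blk j σ n) := by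
  refine ⟨?_, ?_, ?_⟩
  · have : {t : ZFSet.{0} | t ∈ blk j σ n} = (fun k => bitZ j k (σ k)) '' Set.Iio n := by
      ext t
      simp only [Set.mem_ofPred_eq, mem_blk, Set.mem_image, Set.mem_Iio]
      constructor
      · rintro ⟨k, hk, rfl⟩
        exact ⟨k, hk, rfl⟩
      · rintro ⟨k, hk, rfl⟩
        exact ⟨k, hk, rfl⟩
    rw [this]
    exact (Set.finite_Iio n).image _
  · intro t ht
    obtain ⟨k, hk, rfl⟩ := mem_blk.1 ht
    exact ⟨j, hj, k, σ k, rfl⟩
  · rintro i m ⟨h1, h2⟩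
    obtain ⟨k, hk, e1⟩ := mem_blk.1 h1
    obtain ⟨l, hl, e2⟩ := mem_blk.1 h2
    obtain ⟨-, h3, h4⟩ := bitZ_inj.1 e1
    obtain ⟨-, h5, h6⟩ := bitZ_inj.1 e2
    rw [← h3] at h4
    rw [← h5] at h6
    rw [← h4] at h6
    exact absurd h6 (by decide)

theorem mem_cyl_blk {j : Ordinal.{0}} {σ : ℕ → Bool} {n : ℕ} {z : Pt} :
    z ∈ cyl (blk j σ n) ↔ ∀ k < n, z (j, k) = σ k := by
  simp only [cyl, Set.mem_ofPred_eq]
  constructor
  · intro h k hk
    exact h j k (σ k) (mem_blk.2 ⟨k, hk, rfl⟩)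
  · intro h i m v hv
    obtain ⟨k, hk, e⟩ := mem_blk.1 hv
    obtain ⟨rfl, rfl, rfl⟩ := bitZ_inj.1 e
    exact h m hk

theorem finP_union_blk {s : ZFSet.{0}} (hs : FinP κ s) {j : Ordinal.{0}} (hj : j < κ)
    (hjs : ∀ n v, bitZ j n v ∉ s) (σ : ℕ → Bool) (n : ℕ) : FinP κ (s ∪ blk j σ n) := by
  have hb := finP_blk hj σ n
  refine ⟨?_, ?_, ?_⟩
  · have : {t : ZFSet.{0} | t ∈ s ∪ blk j σ n} = {t | t ∈ s} ∪ {t | t ∈ blk j σ n} := by
      ext x
      simp
    rw [this]
    exact hs.fin.union hb.fin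
  · intro x hx
    rcases ZFSet.mem_union.1 hx with hx | hx
    · exact hs.form x hx
    · exact hb.form x hx
  · rintro i m ⟨h1, h2⟩
    rcases ZFSet.mem_union.1 h1 with h | h <;> rcases ZFSet.mem_union.1 h2 with h' | h'
    · exact hs.fn i m ⟨h, h'⟩
    · obtain ⟨k, -, e⟩ := mem_blk.1 h'
      obtain ⟨rfl, -, -⟩ := bitZ_inj.1 e
      exact hjs _ _ h
    · obtain ⟨k, -, e⟩ := mem_blk.1 h
      obtain ⟨rfl, -, -⟩ := bitZ_inj.1 e
      exact hjs _ _ h'
    · exact hb.fn i m ⟨h, h'⟩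

theorem lam_union_blk {s : ZFSet.{0}} (hs : FinP κ s) {j : Ordinal.{0}} (hj : j < κ)
    (hjs : ∀ n v, bitZ j n v ∉ s) (σ : ℕ → Bool) (n : ℕ) :
    lam (cyl (s ∪ blk j σ n)) = lam (cyl s) * (2⁻¹ : ENNReal) ^ n := by
  have hc : {t : ZFSet.{0} | t ∈ s ∪ blk j σ n}.ncard = {t : ZFSet.{0} | t ∈ s}.ncard + n := by
    induction n with
    | zero =>
      have : {t : ZFSet.{0} | t ∈ s ∪ blk j σ 0} = {t | t ∈ s} := by
        ext x
        simp [blk]
      rw [this, Nat.add_zero]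
    | succ n ih =>
      have h1 : {t : ZFSet.{0} | t ∈ s ∪ blk j σ (n + 1)} =
          insert (bitZ j n (σ n)) {t : ZFSet.{0} | t ∈ s ∪ blk j σ n} := by
        ext x
        simp only [blk, Set.mem_ofPred_eq, ZFSet.mem_union, ZFSet.mem_singleton,
          Set.mem_insert_iff]
        tauto
      rw [h1, Set.ncard_insert_of_notMem _ (finP_union_blk hs hj hjs σ n).fin, ih, add_assoc]
      intro h
      rcases ZFSet.mem_union.1 h with h | h
      · exact hjs _ _ h
      · obtain ⟨k, hk, e⟩ := mem_blk.1 h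
        obtain ⟨-, rfl, -⟩ := bitZ_inj.1 e
        exact lt_irrefl _ hk
  rw [lam_cyl (finP_union_blk hs hj hjs σ n), lam_cyl hs, hc, pow_add]

end HNF
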