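import Pool.Agent.Helper66.HDDefs

/-!
HNF NAT1: `𝔡^λ_{μ⁺} ≤ 𝔡^λ_μ` for infinite `μ` with `μ⁺ ≤ λ` (an elementary statement of cardinal arithmetic, no models).

PROOF of `dGen_succ_le`.  Let `m = μ.ord.ToType`, `M = (succ μ).ord.ToType`, `Λ = lam.ord.ToType`.  For `α ∈ M` the set `Iio α` has
cardinality at most `μ`; fix injections `e_α : Iio α → m`.  Let `D` be a family of `dGen lam μ` functions `Λ → m` as in the definition
(`csInf_mem`; the set of cardinals is nonempty: all functions); since `Λ × M` and `Λ` have the same cardinality (`succ μ ≤ lam`) fix a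
bijection `φ : Λ × M → Λ`.
For `g ∈ D` and `i ∈ Λ` let `B g i` be the set of all `δ ∈ M` such that `#{α ∈ M | δ < α ∧ g (φ (i, α)) < e_α δ} < μ`.
CLAIM: `#(B g i) < μ` or at least `B g i` is bounded above in `M`.  Suppose not; then `B g i` is unbounded in `M`, so it has cardinality
`succ μ` and there is an injective family `δ_k ∈ B g i`, `k ∈ m` (`μ` many).  The union `E` over `k` of the exceptional sets of `δ_k`, and of
`Iic δ_k`, has cardinality at most `μ * μ = μ < succ μ`, so there is `α ∈ M` outside: `δ_k < α` and `e_α δ_k ≤ g (φ (i, α))` for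
all `k`.  `e_α` is injective, so the set `Iic (g (φ (i, α)))` of `m` has at least `μ` elements; but initial segments of `m = μ.ord.ToType` have
cardinality `< μ` (`μ` infinite: `Iic x` too, as `m` has no last element).  Contradiction.
Let `ĝ i` be an upper bound of `B g i` in `M`.  The family of all `ĝ`, `g ∈ D`, has cardinality at most `#D`.  It is as required for `succ μ`:
let `f : Λ → M`; define `f^ : Λ → m` by `f^ (φ (i, α)) = e_α (f i)` if `f i < α` and `0` (any element of `m`) otherwise.  There is `g ∈ D` with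
`#{x | f^ x > g x} < μ`.  For each `i ∈ Λ` the set of the `α > f i` with `g (φ (i, α)) < e_α (f i)` has cardinality `< μ`, so `f i ∈ B g i` and
`f i ≤ ĝ i`.  So `{i | f i > ĝ i}` is empty.
`Nonempty m`: `μ ≠ 0`.
-/

namespace HNF

open Cardinal Set Pool.Agent.Helper66.HD

private theorem mk_Iic_lt {μ : Cardinal.{0}} (hμ : ℵ₀ ≤ μ) (x : μ.ord.ToType) :
    #(Iic x) < μ := by
  have h1 : Iic x = insert x (Iio x) := by
    ext y
    simp [le_iff_lt_or_eq, or_comm]
  rw [h1]
  refine lt_of_le_of_lt Cardinal.mk_insert_le ?_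
  exact add_lt_of_lt hμ (Cardinal.mk_Iio_toType_ord_lt x) (one_lt_aleph0.trans_le hμ)

theorem dGen_succ_le {lam μ : Cardinal.{0}} (hμ : ℵ₀ ≤ μ) (hl : Order.succ μ ≤ lam) :
    dGen lam (Order.succ μ) ≤ dGen lam μ := by
  classical
  have hlam : ℵ₀ ≤ lam := hμ.trans ((Order.le_succ μ).trans hl)
  obtain ⟨D, hD, hDf⟩ : dGen lam μ ∈ {κ | ∃ D : Set (lam.ord.ToType → μ.ord.ToType), #D = κ ∧
      ∀ f : lam.ord.ToType → μ.ord.ToType, ∃ g ∈ D, #{α | f α > g α} < μ} := by
    refine csInf_mem ⟨_, Set.univ, rfl, fun f => ⟨f, trivial, ?_⟩⟩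
    simpa using aleph0_pos.trans_le hμ
  obtain ⟨m0⟩ : Nonempty μ.ord.ToType := by
    rw [← Cardinal.mk_ne_zero_iff, Cardinal.mk_ord_toType]
    exact (aleph0_pos.trans_le hμ).ne'
  have he : ∀ α : (Order.succ μ).ord.ToType, ∃ e : (Order.succ μ).ord.ToType → μ.ord.ToType,
      InjOn e (Iio α) := by
    intro α
    have h1 : #(Iio α) ≤ #(μ.ord.ToType) := by
      rw [Cardinal.mk_ord_toType]
      exact Order.lt_succ_iff.mp (Cardinal.mk_Iio_toType_ord_lt α)
    obtain ⟨e⟩ := h1
    refine ⟨fun δ => if h : δ < α then e ⟨δ, h⟩ else m0, fun x hx y hy hxy => ?_⟩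
    have hx' : x < α := hx
    have hy' : y < α := hy
    simp only [hx', hy', dif_pos] at hxy
    exact congrArg Subtype.val (e.injective hxy)
  choose e he using he
  obtain ⟨φ⟩ : Nonempty (lam.ord.ToType × (Order.succ μ).ord.ToType ≃ lam.ord.ToType) := by
    rw [← Cardinal.eq]
    simp only [mk_prod, Cardinal.mk_ord_toType, lift_id]
    exact mul_eq_left hlam hl (by
      exact ((aleph0_pos.trans_le hμ).trans_le (Order.le_succ μ)).ne')
  have hB : ∀ (g : lam.ord.ToType → μ.ord.ToType) (i : lam.ord.ToType),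
      ∃ b : (Order.succ μ).ord.ToType, ∀ δ : (Order.succ μ).ord.ToType,
        #{α : (Order.succ μ).ord.ToType | δ < α ∧ g (φ (i, α)) < e α δ} < μ → δ ≤ b := by
    intro g i
    by_contra hcon
    push Not at hcon
    set B : Set (Order.succ μ).ord.ToType :=
      {δ | #{α : (Order.succ μ).ord.ToType | δ < α ∧ g (φ (i, α)) < e α δ} < μ} with hBdef
    have hB1 : μ < #B := by
      by_contra hle
      push Not at hle
      have hun : (⋃ δ : B, Iio δ.1) = (Set.univ : Set (Order.succ μ).ord.ToType) := by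
        refine eq_univ_of_forall fun b => ?_
        obtain ⟨δ, h1, h2⟩ := hcon b
        exact mem_iUnion.mpr ⟨⟨δ, h1⟩, h2⟩
      have h1 : #(⋃ δ : B, Iio δ.1) ≤ μ := by
        refine (Cardinal.mk_iUnion_le _).trans ?_
        refine (mul_le_mul' hle ?_).trans (mul_eq_self hμ).le
        exact ciSup_le' fun δ => Order.lt_succ_iff.mp (Cardinal.mk_Iio_toType_ord_lt δ.1)
      rw [hun, mk_univ, Cardinal.mk_ord_toType] at h1
      exact absurd h1 (Order.lt_succ μ).not_ge
    obtain ⟨B', hB's, hB'c⟩ := Cardinal.le_mk_iff_exists_subset.mp hB1.le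
    have h2 : #(⋃ δ : B', ({α : (Order.succ μ).ord.ToType | δ.1 < α ∧ g (φ (i, α)) < e α δ.1} ∪
        Iic δ.1)) ≤ μ := by
      refine (Cardinal.mk_iUnion_le _).trans ?_
      refine (mul_le_mul' hB'c.le ?_).trans (mul_eq_self hμ).le
      refine ciSup_le' fun δ => (mk_union_le _ _).trans ?_
      refine (add_le_add ?_ ?_).trans (add_eq_self hμ).le
      · have h3 : δ.1 ∈ B := hB's δ.2
        exact le_of_lt h3
      · have h3 : Iic δ.1 = insert δ.1 (Iio δ.1) := by
          ext y
          simp [le_iff_lt_or_eq, or_comm]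
        rw [h3]
        refine Cardinal.mk_insert_le.trans ?_
        refine (add_le_add (Order.lt_succ_iff.mp (Cardinal.mk_Iio_toType_ord_lt δ.1))
          (one_lt_aleph0.le.trans hμ)).trans (add_eq_self hμ).le
    obtain ⟨α, hα⟩ : ∃ α, α ∉ (⋃ δ : B', ({α : (Order.succ μ).ord.ToType | δ.1 < α ∧
        g (φ (i, α)) < e α δ.1} ∪ Iic δ.1)) := by
      by_contra hall
      push Not at hall
      rw [eq_univ_of_forall hall, mk_univ, Cardinal.mk_ord_toType] at h2
      exact absurd h2 (Order.lt_succ μ).not_ge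
    have h4 : ∀ δ ∈ B', δ < α ∧ e α δ ≤ g (φ (i, α)) := by
      intro δ hδ
      have h5 := fun h => hα (mem_iUnion.mpr ⟨⟨δ, hδ⟩, h⟩)
      have h6 : δ < α := by
        by_contra h7
        exact h5 (Or.inr (not_lt.mp h7))
      refine ⟨h6, ?_⟩
      by_contra h7
      exact h5 (Or.inl ⟨h6, not_le.mp h7⟩)
    have h8 : #B' ≤ #(Iic (g (φ (i, α)))) := by
      refine Cardinal.mk_le_of_injective
        (f := fun δ : B' => (⟨e α δ.1, (h4 δ.1 δ.2).2⟩ : Iic (g (φ (i, α))))) ?_
      intro x y hxy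
      have h9 : e α x.1 = e α y.1 := congrArg Subtype.val hxy
      exact Subtype.ext (he α (h4 x.1 x.2).1 (h4 y.1 y.2).1 h9)
    rw [hB'c] at h8
    exact absurd (mk_Iic_lt hμ _) h8.not_gt
  choose b hb using hB
  refine (csInf_le' ⟨b '' D, rfl, fun f => ?_⟩ : dGen lam (Order.succ μ) ≤ #(b '' D)).trans
    (mk_image_le.trans hD.le)
  obtain ⟨g, hg, hgf⟩ := hDf (fun x => e (φ.symm x).2 (f (φ.symm x).1))
  refine ⟨b g, mem_image_of_mem b hg, ?_⟩
  have h1 : {α | f α > b g α} = ∅ := by
    refine eq_empty_of_forall_notMem fun i hi => ?_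
    refine absurd (hb g i (f i) ?_) (not_le.mpr hi)
    refine lt_of_le_of_lt ?_ hgf
    refine Cardinal.mk_le_of_injective
      (f := fun α : {α : (Order.succ μ).ord.ToType | f i < α ∧ g (φ (i, α)) < e α (f i)} =>
        (⟨φ (i, α.1), ?_⟩ : {x | e (φ.symm x).2 (f (φ.symm x).1) > g x})) ?_
    · have h2 := α.2.2
      simpa using h2
    · intro x y hxy
      have h3 : φ (i, x.1) = φ (i, y.1) := congrArg Subtype.val hxy
      have h4 := φ.injective h3
      exact Subtype.ext (congrArg Prod.snd h4)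
  rw [h1, mk_emptyCollection]
  exact (aleph0_pos.trans_le hμ).trans_le (Order.le_succ μ)

end HNF
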