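import Pool.Agent.HNF.Ac

/-!
HNF NU: the infinite cardinals `nu W β` of `W`.

PROOFS.
`Sz.card_le`: the function gives a surjection of `Set.Iio β` onto a superset of the elements of `α.toZFSet`.
`wcard_ord`: `Sz.card_le` and `Cardinal.lt_ord`, `Ordinal.card_le_card`.  So the class of all `WCard` is not
bounded above; `Ordinal.enumOrd_mem`, `Ordinal.enumOrd_strictMono`, `Ordinal.enumOrd_surjective` or
`range_enumOrd` give `nu_wcard`, `nu_strictMono`, `exists_nu`.  `nu_zero`: `ω` is the least infinite ordinal, it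
is a `WCard` (`wcard_ord` for `ℵ₀`), `Ordinal.enumOrd_zero`.
`nu_limit`: let `s = sup_{γ < β} nu γ`.  `s` is a `WCard`: if `δ < s` then `δ < nu γ` for some `γ < β`, and `Sz s δ`
implies `Sz (nu γ) δ` (`Sz.subset`).  `s > nu γ` for all `γ < β` since `γ + 1 < β`.  So `nu β ≤ s`
(`Ordinal.enumOrd_le_of_forall_lt`), and `α < s` gives `γ < β` with `α < nu γ`.
`sz_of_lt`: let `γ` be the least ordinal with `Sz W α γ` (`sz_ord`: `γ ≤ α`).  If `γ < ω` use `Sz.mono`.  Otherwise `γ` is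
a `WCard`: if `γ' < γ` and `Sz γ γ'` then `Sz α γ'` (`Sz.trans`).  So `γ = nu δ`, and `nu δ ≤ α < nu (β + 1)` gives
`δ ≤ β`, `γ ≤ nu β`.
`MD.wc`: `WCz W x` iff `IsO x`, `ω ⊆ x` (`∀ z : W, z ∈ zom → z ∈ x`) and `∀ β : W, β ∈ x → ¬ SzZ W x β`; `szZ_iff`,
`Ordinal.toZFSet_subset_toZFSet_iff` or similar.
`exists_nuF`: `recOrd` with `F x d k =` the least ordinal `α` with `WCz W α` and `∀ ξ ∈ d, zap k ξ ∈ α`
(`exists_lst`).  By induction `H x β = nu β`: `nu β` is the least `WCard` greater than all `nu γ`, `γ < β`.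
`isSuccLimit_nu`: `nu β ≥ ω` is not `0`; if `nu β = γ + 1` then `γ ≥ ω`, and `{pair 0 γ} ∪ {pair (n + 1) n | n < ω} ∪
{pair ξ ξ | ω ≤ ξ < γ}` (in `W`: separation in `zpd γ (γ ∪ {γ})`) is a function on `γ` covering `γ + 1`, so
`Sz W (nu β) γ` with `γ < nu β`, a contradiction.
-/

namespace HNF

open RMK Set Cardinal

variable {W : Set ZFSet.{0}}

theorem Sz.card_le {α β : Ordinal.{0}} (hs : Sz W α.toZFSet β) : α.card ≤ β.card := by
  obtain ⟨f, -, h1, h2⟩ := hs
  have h3 : ∀ η : Set.Iio α, ∃ ξ : Set.Iio β, ZFSet.pair ξ.1.toZFSet η.1.toZFSet ∈ f := by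
    intro η
    obtain ⟨ξ, hξ, hp⟩ := h1 η.1.toZFSet (Ordinal.toZFSet_mem_toZFSet_iff.2 η.2)
    exact ⟨⟨ξ, hξ⟩, hp⟩
  choose g hg using h3
  have hinj : Function.Injective g := by
    intro a b hab
    have ha := hg a
    have hb := hg b
    rw [hab] at ha
    exact Subtype.ext (Ordinal.toZFSet_injective ((h2 _ (g b).2).unique ha hb))
  have h4 := Cardinal.mk_le_of_injective hinj
  rw [Cardinal.mk_Iio_ordinal, Cardinal.mk_Iio_ordinal, Cardinal.lift_le] at h4
  exact h4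

theorem wcard_ord {c : Cardinal.{0}} (hc : ℵ₀ ≤ c) : WCard W c.ord := by
  refine ⟨?_, fun β hβ hs => ?_⟩
  · rw [← Cardinal.ord_aleph0]
    exact Cardinal.ord_le_ord.2 hc
  · have h1 := hs.card_le
    rw [Cardinal.card_ord] at h1
    exact absurd h1 (not_le.2 (Cardinal.lt_ord.1 hβ))

private theorem not_bdd (W : Set ZFSet.{0}) : ¬ BddAbove {α | WCard W α} := by
  rintro ⟨a, ha⟩
  have h1 : (max ℵ₀ (Order.succ a.card)).ord ≤ a := ha (wcard_ord (le_max_left _ _))
  have h2 : a < (max ℵ₀ (Order.succ a.card)).ord :=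
    Cardinal.lt_ord.2 (lt_of_lt_of_le (Order.lt_succ _) (le_max_right _ _))
  exact absurd h1 (not_le.2 h2)

theorem nu_wcard (W : Set ZFSet.{0}) (β : Ordinal.{0}) : WCard W (nu W β) :=
  Ordinal.enumOrd_mem (not_bdd W) β

theorem nu_strictMono (W : Set ZFSet.{0}) : StrictMono (nu W) :=
  Ordinal.enumOrd_strictMono (not_bdd W)

theorem nu_zero (W : Set ZFSet.{0}) : nu W 0 = Ordinal.omega0 := by
  refine le_antisymm ?_ (nu_wcard W 0).1
  refine Ordinal.enumOrd_le_of_forall_lt ?_ fun b hb => ?_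
  · have h1 := wcard_ord (W := W) (le_refl ℵ₀)
    rw [Cardinal.ord_aleph0] at h1
    exact h1
  · exact absurd hb (not_lt.2 zero_le)

theorem omega_le_nu (W : Set ZFSet.{0}) (β : Ordinal.{0}) : Ordinal.omega0 ≤ nu W β :=
  (nu_wcard W β).1

theorem exists_nu {α : Ordinal.{0}} (hα : WCard W α) : ∃ β, nu W β = α :=
  Ordinal.enumOrd_surjective (not_bdd W) hα

theorem nu_limit {α β : Ordinal.{0}} (hβ : Order.IsSuccLimit β) (hα : α < nu W β) :
    ∃ γ < β, α < nu W γ := by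
  by_contra hcon
  have hle : ∀ γ < β, nu W γ ≤ α := by
    intro γ hγ
    by_contra h1
    exact hcon ⟨γ, hγ, not_le.1 h1⟩
  obtain ⟨s, hs, hmin⟩ := WellFounded.has_min (wellFounded_lt (α := Ordinal.{0}))
    {s : Ordinal.{0} | ∀ γ < β, nu W γ ≤ s} ⟨α, hle⟩
  have hsα : s ≤ α := not_lt.1 (hmin α hle)
  have h0 : 0 < β := by
    have h1 := hβ.bot_lt
    rwa [Ordinal.bot_eq_zero] at h1
  have hsW : WCard W s := by
    refine ⟨(omega_le_nu W 0).trans (hs 0 h0), fun δ hδ hz => ?_⟩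
    have h1 : ¬ ∀ γ < β, nu W γ ≤ δ := fun h2 => hmin δ h2 hδ
    have h3 : ∃ γ < β, δ < nu W γ := by
      by_contra h4
      apply h1
      intro γ hγ
      by_contra h5
      exact h4 ⟨γ, hγ, not_le.1 h5⟩
    obtain ⟨γ, hγ, hlt⟩ := h3
    exact (nu_wcard W γ).2 δ hlt
      (hz.subset (Ordinal.toZFSet_subset_toZFSet_iff.2 (hs γ hγ)))
  have h5 : nu W β ≤ s := by
    refine Ordinal.enumOrd_le_of_forall_lt hsW fun γ hγ => ?_
    have h6 : Order.succ γ < β := hβ.succ_lt hγ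
    exact lt_of_lt_of_le (nu_strictMono W (Order.lt_succ γ)) (hs _ h6)
  exact absurd (hα.trans_le (h5.trans hsα)) (lt_irrefl _)

theorem sz_of_lt (h : InnerZFC W) {α β : Ordinal.{0}} (hα : α < nu W (β + 1)) :
    Sz W α.toZFSet (nu W β) := by
  obtain ⟨γ, hγ, hmin⟩ := WellFounded.has_min (wellFounded_lt (α := Ordinal.{0}))
    {γ : Ordinal.{0} | Sz W α.toZFSet γ} ⟨α, sz_ord h α⟩
  have hγα : γ ≤ α := not_lt.1 (hmin α (sz_ord h α))
  rcases lt_or_ge γ Ordinal.omega0 with h1 | h1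
  · exact Sz.mono h hγ (h1.le.trans (omega_le_nu W β))
  · have hc : WCard W γ := ⟨h1, fun γ' hγ' hz => hmin γ' (Sz.trans h hγ hz) hγ'⟩
    obtain ⟨δ, rfl⟩ := exists_nu hc
    have h2 : δ < β + 1 := by
      by_contra h3
      exact absurd (hγα.trans_lt hα) (not_lt.2 ((nu_strictMono W).monotone (not_lt.1 h3)))
    have h4 : δ ≤ β := Order.lt_add_one_iff.1 h2
    exact Sz.mono h hγ ((nu_strictMono W).monotone h4)

theorem not_sz_nu {β γ : Ordinal.{0}} (hβ : β < γ) : ¬ Sz W (nu W γ).toZFSet (nu W β) :=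
  (nu_wcard W γ).2 _ (nu_strictMono W hβ)

/-- `x` is an infinite cardinal of `W` -/
def WCz (W : Set ZFSet.{0}) (x : ZFSet.{0}) : Prop := ∃ α, x = α.toZFSet ∧ WCard W α

private theorem wcz_iff (h : InnerZFC W) (x : W) : WCz W x.1 ↔ (IsO x.1 ∧
    (∀ z : W, z.1 ∈ (zom h.zf0).1 → z.1 ∈ x.1) ∧ ∀ b : W, b.1 ∈ x.1 → ¬ SzZ W x.1 b.1) := by
  constructor
  · rintro ⟨α, hx, h1, h2⟩
    rw [hx]
    refine ⟨⟨α, rfl⟩, fun z hz => ?_, fun b hb hs => ?_⟩
    · exact Ordinal.toZFSet_subset_toZFSet_iff.2 h1 hz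
    · obtain ⟨β, hβ, hb'⟩ := Ordinal.mem_toZFSet_iff.1 hb
      rw [← hb', szZ_iff] at hs
      exact h2 β hβ hs
  · rintro ⟨⟨α, hx⟩, h1, h2⟩
    refine ⟨α, hx, ?_, fun β hβ hs => ?_⟩
    · rw [← Ordinal.toZFSet_subset_toZFSet_iff, ← hx]
      intro z hz
      exact h1 ⟨z, h.zf0.trans _ (zom h.zf0).2 _ hz⟩ hz
    · refine h2 (ordW h β) ?_ ?_
      · rw [hx]
        exact Ordinal.toZFSet_mem_toZFSet_iff.2 hβ
      · rw [hx]
        exact szZ_iff.2 hs

theorem MD.wc {X : Type 1} [Ctx W X] (h : InnerZFC W) {f : X → W} (hf : DFc W f) :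
    MD W fun x => WCz W (f x).1 := by
  refine MD.congr (fun x => (wcz_iff h (f x)).symm) ?_
  (repeat' (first | (with_reducible first | exact DFc.id | exact DFc.const _ | exact MD.const _ | apply MD.and | apply MD.or | apply MD.iff | apply MD.not | apply MD.imp | apply MD.ex | apply MD.all | apply MD.zpair_mem h.zf0 | apply MD.eq_zpair h.zf0 | apply MD.isFn h.zf0 | apply MD.isO h.zf0 | apply MD.mem | apply MD.eq | apply DFc.zpr h.zf0 | apply DFc.zap h.zf0 | apply DFc.zun h.zf0 | apply DFc.zsg h.zf0 | apply DFc.zsU h.zf0 | apply DFc.ztr h.zf0 | apply DFc.zup h.zf0 | apply DFc.zpd h.zf0) | (with_reducible first | exact hf | apply hf | apply MD.comp2 hf | apply DFc.comp2 hf | apply MD.comp3 hf | apply DFc.comp3 hf | apply MD.comp hf | apply DFc.comp hf) | (with_reducible first | exact (MD.szZ h) | apply (MD.szZ h) | apply MD.comp2 (MD.szZ h) | apply DFc.comp2 (MD.szZ h) | apply MD.comp3 (MD.szZ h) | apply DFc.comp3 (MD.szZ h) | apply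 MD.comp (MD.szZ h) | apply DFc.comp (MD.szZ h)) | (with_reducible apply DFc.fst) | (with_reducible apply DFc.snd) | (with_reducible apply DFc.mk)))

theorem exists_nuF (h : InnerZFC W) : ∃ N : W → W, DFc W N ∧
    ∀ β, N (ordW h β) = ordW h (nu W β) := by
  have hP : MD W fun p : (W × W × W) × W => WCz W p.2.1 ∧
      ∀ ξ : W, ξ.1 ∈ p.1.2.1.1 → (zap h.zf0 p.1.2.2 ξ).1 ∈ p.2.1 := by
    (repeat' (first | (with_reducible first | exact DFc.id | exact DFc.const _ | exact MD.const _ | apply MD.and | apply MD.or | apply MD.iff | apply MD.not | apply MD.imp | apply MD.ex | apply MD.all | apply MD.zpair_mem h.zf0 | apply MD.eq_zpair h.zf0 | apply MD.isFn h.zf0 | apply MD.isO h.zf0 | apply MD.mem | apply MD.eq | apply DFc.zpr h.zf0 | apply DFc.zap h.zf0 | apply DFc.zun h.zf0 | apply DFc.zsg h.zf0 | apply DFc.zsU h.zf0 | apply DFc.ztr h.zf0 | apply DFc.zup h.zf0 | apply DFc.zpd h.zf0) | (with_reducible first | exact (MD.wc h) | apply (MD.wc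 h) | apply MD.comp2 (MD.wc h) | apply DFc.comp2 (MD.wc h) | apply MD.comp3 (MD.wc h) | apply DFc.comp3 (MD.wc h) | apply MD.comp (MD.wc h) | apply DFc.comp (MD.wc h)) | (with_reducible apply DFc.fst) | (with_reducible apply DFc.snd) | (with_reducible apply DFc.mk)))
  obtain ⟨F, hF, hF'⟩ := exists_lst (X := W × W × W) h (P := fun p a => WCz W a.1 ∧
      ∀ ξ : W, ξ.1 ∈ p.2.1.1 → (zap h.zf0 p.2.2 ξ).1 ∈ a.1) hP
  obtain ⟨H, hH, hH'⟩ := recOrd (X := W) h.zf0 (F := fun x d k => F (x, d, k)) hF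
  refine ⟨fun b => H (ordW h 0) b, DFc.comp hH (DFc.mk (DFc.const _) DFc.id), fun β => ?_⟩
  induction β using WellFoundedLT.induction with
  | ind β ih =>
    obtain ⟨k, -, hk, hk'⟩ := hH' (ordW h 0) (ordW h β) ⟨β, rfl⟩
    change H (ordW h 0) (ordW h β) = _
    rw [hk']
    refine hF' (ordW h 0, ordW h β, k) (nu W β) ⟨⟨nu W β, rfl, nu_wcard W β⟩, fun ξ hξ => ?_⟩ ?_
    · obtain ⟨γ, hγ, rfl⟩ := (mem_ordW h).1 hξ
      have h1 : zap h.zf0 k (ordW h γ) = ordW h (nu W γ) := by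
        rw [hk _ hξ]
        exact ih γ hγ
      change (zap h.zf0 k (ordW h γ)).1 ∈ _
      rw [h1]
      exact Ordinal.toZFSet_mem_toZFSet_iff.2 (nu_strictMono W hγ)
    · rintro η hη ⟨⟨α, hα, hα'⟩, h2⟩
      have h3 : η = α := Ordinal.toZFSet_injective hα
      rw [← h3] at hα'
      have h4 : nu W β ≤ η := by
        refine Ordinal.enumOrd_le_of_forall_lt hα' fun γ hγ => ?_
        have h5 : (ordW h γ).1 ∈ (ordW h β).1 := Ordinal.toZFSet_mem_toZFSet_iff.2 hγ
        have h6 := h2 (ordW h γ) h5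
        have h7 : zap h.zf0 k (ordW h γ) = ordW h (nu W γ) := by
          rw [hk _ h5]
          exact ih γ hγ
        change (zap h.zf0 k (ordW h γ)).1 ∈ _ at h6
        rw [h7] at h6
        exact Ordinal.toZFSet_mem_toZFSet_iff.1 h6
      exact absurd hη (not_lt.2 h4)

private theorem sUnion_succ (α : Ordinal.{0}) :
    ZFSet.sUnion (Order.succ α).toZFSet = α.toZFSet := by
  ext z
  rw [ZFSet.mem_sUnion]
  constructor
  · rintro ⟨y, hy, hz⟩
    obtain ⟨η, hη, rfl⟩ := Ordinal.mem_toZFSet_iff.1 hy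
    exact Ordinal.toZFSet_subset_toZFSet_iff.2 (Order.lt_succ_iff.1 hη) hz
  · intro hz
    exact ⟨α.toZFSet, Ordinal.toZFSet_mem_toZFSet_iff.2 (Order.lt_succ α), hz⟩

/-- in `W` there is a function from the infinite ordinal `γ` onto `γ + 1` -/
private theorem sz_succ (h : InnerZFC W) {γ : Ordinal.{0}} (hγ : Ordinal.omega0 ≤ γ) :
    Sz W (Order.succ γ).toZFSet γ := by
  classical
  let P1 : W → Prop := fun u => u = ordW h 0
  let P2 : W → Prop := fun u => u.1 ∈ (zom h.zf0).1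
  have hP1 : MD W P1 := MD.eq DFc.id (DFc.const _)
  have hP2 : MD W P2 := MD.mem DFc.id (DFc.const _)
  have hF : DFc W fun u : W => if P1 u then ordW h γ else (if P2 u then zsU h.zf0 u else u) :=
    DFc.ite (DFc.const _) (DFc.ite (DFc.zsU h.zf0 DFc.id) DFc.id hP2) hP1
  refine Sz.image h (sz_ord h γ) hF fun z hz => ?_
  obtain ⟨η, hη, rfl⟩ := Ordinal.mem_toZFSet_iff.1 hz
  have hη' : η ≤ γ := Order.lt_succ_iff.1 hη
  rcases hη'.eq_or_lt with h1 | h1
  · refine ⟨ordW h 0, ?_, ?_⟩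
    · exact Ordinal.toZFSet_mem_toZFSet_iff.2 (Ordinal.omega0_pos.trans_le hγ)
    · have h2 : P1 (ordW h 0) := rfl
      rw [if_pos h2, h1]
      rfl
  · rcases lt_or_ge η Ordinal.omega0 with h2 | h2
    · refine ⟨ordW h (Order.succ η), ?_, ?_⟩
      · exact Ordinal.toZFSet_mem_toZFSet_iff.2
          ((Ordinal.isSuccLimit_omega0.succ_lt h2).trans_le hγ)
      · have h3 : ¬ P1 (ordW h (Order.succ η)) := by
          intro h4
          have h5 : (Order.succ η).toZFSet = (0 : Ordinal.{0}).toZFSet := congrArg Subtype.val h4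
          have h6 := Ordinal.toZFSet_injective h5
          have h7 := Order.lt_succ η
          rw [h6] at h7
          exact absurd h7 (not_lt.2 zero_le)
        have h4 : P2 (ordW h (Order.succ η)) :=
          Ordinal.toZFSet_mem_toZFSet_iff.2 (Ordinal.isSuccLimit_omega0.succ_lt h2)
        rw [if_neg h3, if_pos h4]
        exact (sUnion_succ η).symm
    · refine ⟨ordW h η, Ordinal.toZFSet_mem_toZFSet_iff.2 h1, ?_⟩
      have h3 : ¬ P1 (ordW h η) := by
        intro h4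
        have h5 : η.toZFSet = (0 : Ordinal.{0}).toZFSet := congrArg Subtype.val h4
        have h6 := Ordinal.toZFSet_injective h5
        rw [h6] at h2
        exact absurd h2 (not_le.2 Ordinal.omega0_pos)
      have h4 : ¬ P2 (ordW h η) := by
        intro h5
        exact absurd (Ordinal.toZFSet_mem_toZFSet_iff.1 h5) (not_lt.2 h2)
      rw [if_neg h3, if_neg h4]
      rfl

theorem isSuccLimit_nu (h : InnerZFC W) (β : Ordinal.{0}) : Order.IsSuccLimit (nu W β) := by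
  rcases Ordinal.zero_or_succ_or_isSuccLimit (nu W β) with h0 | ⟨γ, hγ⟩ | h1
  · have h2 := omega_le_nu W β
    rw [h0] at h2
    exact absurd h2 (not_le.2 Ordinal.omega0_pos)
  · exfalso
    have h2 := omega_le_nu W β
    have h3 : Ordinal.omega0 ≤ γ := by
      by_contra h4
      have h5 := Ordinal.isSuccLimit_omega0.succ_lt (not_le.1 h4)
      rw [hγ] at h5
      exact absurd h2 (not_le.2 h5)
    have h6 := sz_succ h h3
    rw [hγ] at h6
    have h7 := Order.lt_succ γ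
    rw [hγ] at h7
    exact (nu_wcard W β).2 γ h7 h6
  · exact h1

end HNF
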