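import Pool.Agent.HNF.Nu
import Pool.Agent.HNF.Prj

/-!
HNF PAI: `α × α` has size `α` in `W`, for infinite cardinals `α` of `W`.

PROOF of `sz_sq`.  By induction on the cardinal `α` of `W` (strong induction; all smaller infinite cardinals).
Let `D = α × α` (`zpd`) and let `E ∈ W` be the set of all `pair (pair c d) (pair a b)` in `D × D` with
`(c, d) ◁ (a, b)`, where `(c, d) ◁ (a, b)` iff `max c d < max a b`, or `max c d = max a b` and (`c < a`, or `c = a` and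
`d < b`); for sets of ordinals `max c d = c ∪ d` (`zun`), `<` is `∈`; so `E` is obtained by `hz.sep` and `mdd`.  `◁` is a
well-order of the pairs of ordinals `< α` (lexicographic order of the triple `(max, first, second)`; see
`ZPai.lean` for the same order on `Om × Om`).  `recE` (`ZRec.lean`) with `F d k =` range of `k` (`exists_ran`) gives `H ∈ W`,
a function on `D` with `apZ H d = {apZ H e | e ◁ d}`.  By `◁`-induction every `apZ H d` is an ordinal: it is a set of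
ordinals, and transitive, as `◁` is transitive.  `H` is injective on `D`: `e ◁ d` gives `apZ H e ∈ apZ H d`, and `◁` is
total.  CLAIM: `apZ H d ∈ α` for all `d ∈ D`.  Otherwise `α ⊆ apZ H d` for some `d = (a, b)` (ordinals), so every `ξ < α`
is `apZ H e` with `e ◁ d`, `e ∈ μ × μ` with `μ = max a b + 1 < α` (`α` is a limit ordinal, `isSuccLimit_nu`).  So in `W` there
is a function from `μ × μ` onto a superset of `α` (the restriction of `H`).  But `Sz (μ × μ) γ` for some `γ < α`: if `μ` is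
finite, by `sz_finite`; otherwise let `γ` be the least ordinal with `Sz μ γ`; then `γ ≤ μ < α`; if `γ` is finite, `μ × μ`
is finite too, otherwise `γ` is a cardinal of `W` (as in `sz_of_lt`), so `Sz (γ × γ) γ` by induction and
`Sz (μ × μ) γ` by `sz_prod_of_sq` below.  So `Sz α γ`, a contradiction to `WCard W α`.
Hence the inverse of `H`, extended by an arbitrary value, shows `Sz D α`: in `W` the function `ξ ↦` (the `d ∈ D` with
`apZ H d = ξ`, or `∅`) on `α`.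
`sz_prod_of_sq`: if `f` covers `x`, `g` covers `y` and `e` on `δ` covers `γ × γ`, then `ξ ↦ pair (f (fst (e ξ))) (g (snd (e ξ)))`
covers `x × y`; as a definable function: `Sz.image` applied to `Sz (γ × γ) δ` with the definable function
`u ↦` the `w` such that `∃ a b, u = pair a b ∧ w = pair (zap f a) (zap g b)` (and `∅` if `u` is not a pair).
-/

namespace HNF

open RMK Set

variable {W : Set ZFSet.{0}}

/-! ### The order on pairs of ordinals -/

/-- the key of a pair -/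
private noncomputable def kyo (p : Ordinal.{0} × Ordinal.{0}) :
    Ordinal.{0} ×ₗ (Ordinal.{0} ×ₗ Ordinal.{0}) := toLex (max p.1 p.2, toLex (p.1, p.2))

private theorem kyo_inj {p q : Ordinal.{0} × Ordinal.{0}} (h : kyo p = kyo q) : p = q := by
  have h1 := congrArg (fun t : Ordinal.{0} ×ₗ (Ordinal.{0} ×ₗ Ordinal.{0}) => ofLex (ofLex t).2) h
  simpa [kyo] using h1

private theorem kyo_lt {p q : Ordinal.{0} × Ordinal.{0}} : kyo p < kyo q ↔
    max p.1 p.2 < max q.1 q.2 ∨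
    (max p.1 p.2 = max q.1 q.2 ∧ (p.1 < q.1 ∨ (p.1 = q.1 ∧ p.2 < q.2))) := by
  rw [kyo, kyo, Prod.Lex.toLex_lt_toLex, Prod.Lex.toLex_lt_toLex]

private theorem wfo : WellFounded fun p q : Ordinal.{0} × Ordinal.{0} => kyo p < kyo q :=
  InvImage.wf kyo wellFounded_lt

private theorem max_of_kyo {p q : Ordinal.{0} × Ordinal.{0}} (h : kyo q < kyo p) :
    max q.1 q.2 ≤ max p.1 p.2 := by
  rcases kyo_lt.1 h with h | h
  · exact h.le
  · exact h.1.le

private theorem bdo (p : Ordinal.{0} × Ordinal.{0})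
    (f : (q : Ordinal.{0} × Ordinal.{0}) → kyo q < kyo p → Ordinal.{0}) :
    {γ : Ordinal.{0} | ∀ q h, f q h < γ}.Nonempty := by
  have hs : Small.{0} {q : Ordinal.{0} × Ordinal.{0} | kyo q < kyo p} := by
    have h1 : {q : Ordinal.{0} × Ordinal.{0} | kyo q < kyo p} ⊆
        range (fun q : Set.Iic (max p.1 p.2) × Set.Iic (max p.1 p.2) => (q.1.1, q.2.1)) := by
      intro q hq
      have h2 := max_of_kyo hq
      exact ⟨(⟨q.1, (le_max_left _ _).trans h2⟩, ⟨q.2, (le_max_right _ _).trans h2⟩), rfl⟩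
    exact small_subset h1
  have hb := Ordinal.bddAbove_of_small
    (s := range fun q : {q : Ordinal.{0} × Ordinal.{0} | kyo q < kyo p} => f q.1 q.2)
  obtain ⟨γ, hγ⟩ := hb
  exact ⟨Order.succ γ, fun q h => Order.lt_succ_of_le (hγ ⟨⟨q, h⟩, rfl⟩)⟩

private noncomputable def go : Ordinal.{0} × Ordinal.{0} → Ordinal.{0} :=
  wfo.fix fun _ f => sInf {γ : Ordinal.{0} | ∀ q h, f q h < γ}

private theorem go_eq (p : Ordinal.{0} × Ordinal.{0}) : go p =
    sInf {γ : Ordinal.{0} | ∀ q, kyo q < kyo p → go q < γ} := by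
  rw [go, wfo.fix_eq]

private theorem go_lt {p q : Ordinal.{0} × Ordinal.{0}} (h : kyo q < kyo p) : go q < go p := by
  have h1 : sInf {γ : Ordinal.{0} | ∀ q, kyo q < kyo p → go q < γ} ∈
      {γ : Ordinal.{0} | ∀ q, kyo q < kyo p → go q < γ} := csInf_mem (bdo p fun q _ => go q)
  rw [← go_eq] at h1
  exact h1 q h

private theorem go_le {p : Ordinal.{0} × Ordinal.{0}} {γ : Ordinal.{0}}
    (h : ∀ q, kyo q < kyo p → go q < γ) : go p ≤ γ := by
  rw [go_eq]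
  exact csInf_le' h

private theorem go_surj {p : Ordinal.{0} × Ordinal.{0}} {γ : Ordinal.{0}} (h : γ < go p) :
    ∃ q, kyo q < kyo p ∧ go q = γ := by
  have h1 : ∃ q, kyo q < kyo p ∧ γ ≤ go q := by
    by_contra hc
    push Not at hc
    exact absurd (go_le hc) (not_le.2 h)
  have h2 : {q | kyo q < kyo p ∧ γ ≤ go q}.Nonempty := h1
  obtain ⟨q, ⟨hq1, hq2⟩, hq3⟩ := wfo.has_min _ h2
  refine ⟨q, hq1, le_antisymm (go_le fun r hr => ?_) hq2⟩
  by_contra hc
  exact hq3 r ⟨hr.trans hq1, not_lt.1 hc⟩ hr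

private theorem go_inj {p q : Ordinal.{0} × Ordinal.{0}} (h : go p = go q) : p = q := by
  rcases lt_trichotomy (kyo p) (kyo q) with h1 | h1 | h1
  · exact absurd h (go_lt h1).ne
  · exact kyo_inj h1
  · exact absurd h.symm (go_lt h1).ne

/-! ### Ordinals as sets -/

private theorem toZ_un (α β : Ordinal.{0}) : α.toZFSet ∪ β.toZFSet = (max α β).toZFSet := by
  ext z
  rw [ZFSet.mem_union, Ordinal.mem_toZFSet_iff, Ordinal.mem_toZFSet_iff, Ordinal.mem_toZFSet_iff]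
  constructor
  · rintro (⟨γ, h, e⟩ | ⟨γ, h, e⟩)
    · exact ⟨γ, h.trans_le (le_max_left _ _), e⟩
    · exact ⟨γ, h.trans_le (le_max_right _ _), e⟩
  · rintro ⟨γ, h, e⟩
    rcases lt_max_iff.1 h with h | h
    · exact Or.inl ⟨γ, h, e⟩
    · exact Or.inr ⟨γ, h, e⟩

private theorem mem_sqo (α : Ordinal.{0}) (z : ZFSet.{0}) : z ∈ α.toZFSet.prod α.toZFSet ↔
    ∃ q : Ordinal.{0} × Ordinal.{0}, q.1 < α ∧ q.2 < α ∧
      z = ZFSet.pair q.1.toZFSet q.2.toZFSet := by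
  rw [ZFSet.mem_prod]
  constructor
  · rintro ⟨c, hc, d, hd, e⟩
    obtain ⟨γ, h1, rfl⟩ := Ordinal.mem_toZFSet_iff.1 hc
    obtain ⟨δ, h2, rfl⟩ := Ordinal.mem_toZFSet_iff.1 hd
    exact ⟨(γ, δ), h1, h2, e⟩
  · rintro ⟨q, h1, h2, e⟩
    exact ⟨_, Ordinal.toZFSet_mem_toZFSet_iff.2 h1, _, Ordinal.toZFSet_mem_toZFSet_iff.2 h2, e⟩

/-- the order on pairs of sets -/
private def Loo (c d c' d' : ZFSet.{0}) : Prop :=
  c ∪ d ∈ c' ∪ d' ∨ (c ∪ d = c' ∪ d' ∧ (c ∈ c' ∨ (c = c' ∧ d ∈ d')))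

private theorem loo_toZ (c d c' d' : Ordinal.{0}) :
    Loo c.toZFSet d.toZFSet c'.toZFSet d'.toZFSet ↔ kyo (c, d) < kyo (c', d') := by
  rw [Loo, kyo_lt, toZ_un, toZ_un, Ordinal.toZFSet_mem_toZFSet_iff,
    Ordinal.toZFSet_mem_toZFSet_iff, Ordinal.toZFSet_mem_toZFSet_iff,
    Ordinal.toZFSet_injective.eq_iff, Ordinal.toZFSet_injective.eq_iff]

/-- the key of a pair of sets -/
private noncomputable def kzo (c d : ZFSet.{0}) : Ordinal.{0} ×ₗ (Ordinal.{0} ×ₗ Ordinal.{0}) :=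
  toLex ((c ∪ d).rank, toLex (c.rank, d.rank))

private theorem kzo_lt {c d c' d' : ZFSet.{0}} (h : Loo c d c' d') : kzo c d < kzo c' d' := by
  rw [kzo, kzo, Prod.Lex.toLex_lt_toLex, Prod.Lex.toLex_lt_toLex]
  rcases h with h | ⟨h, h' | ⟨h1, h2⟩⟩
  · exact Or.inl (ZFSet.rank_lt_of_mem h)
  · exact Or.inr ⟨congrArg ZFSet.rank h, Or.inl (ZFSet.rank_lt_of_mem h')⟩
  · exact Or.inr ⟨congrArg ZFSet.rank h, Or.inr ⟨congrArg ZFSet.rank h1, ZFSet.rank_lt_of_mem h2⟩⟩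

open Classical in
/-- the key of a set -/
private noncomputable def kko (z : ZFSet.{0}) : Ordinal.{0} ×ₗ (Ordinal.{0} ×ₗ Ordinal.{0}) :=
  if h : ∃ p : ZFSet.{0} × ZFSet.{0}, z = ZFSet.pair p.1 p.2 then kzo h.choose.1 h.choose.2
  else kzo ∅ ∅

private theorem kko_pair (c d : ZFSet.{0}) : kko (ZFSet.pair c d) = kzo c d := by
  have h : ∃ p : ZFSet.{0} × ZFSet.{0}, ZFSet.pair c d = ZFSet.pair p.1 p.2 := ⟨(c, d), rfl⟩
  rw [kko, dif_pos h]
  have e := ZFSet.pair_injective h.choose_spec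
  rw [← e.1, ← e.2]

/-! ### The recursion in `W` -/

/-- the order, as a predicate on coded pairs of pairs -/
private def PEo (M : Set ZFSet.{0}) (w : M) : Prop :=
  ∃ u v c d c' d' : M, w.1 = ZFSet.pair u.1 v.1 ∧ u.1 = ZFSet.pair c.1 d.1 ∧
    v.1 = ZFSet.pair c'.1 d'.1 ∧ Loo c.1 d.1 c'.1 d'.1

private theorem md_loo {M : Set ZFSet.{0}} (hM : ZF0 M) {X : Type 1} [Ctx M X] {c d c' d' : X → M}
    (hc : DFc M c) (hd : DFc M d) (hc' : DFc M c') (hd' : DFc M d') :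
    MD M fun x => Loo (c x).1 (d x).1 (c' x).1 (d' x).1 := by
  have h1 : MD M fun x => (zun hM (c x) (d x)).1 ∈ (zun hM (c' x) (d' x)).1 :=
    MD.mem (DFc.zun hM hc hd) (DFc.zun hM hc' hd')
  have h2 : MD M fun x => zun hM (c x) (d x) = zun hM (c' x) (d' x) :=
    MD.eq (DFc.zun hM hc hd) (DFc.zun hM hc' hd')
  have h3 : MD M fun x => (c x).1 ∈ (c' x).1 := MD.mem hc hc'
  have h4 : MD M fun x => c x = c' x := MD.eq hc hc'
  have h5 : MD M fun x => (d x).1 ∈ (d' x).1 := MD.mem hd hd'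
  refine MD.congr (fun x => ?_) (MD.or h1 (MD.and h2 (MD.or h3 (MD.and h4 h5))))
  rw [Loo, Subtype.ext_iff, Subtype.ext_iff]
  rfl

private theorem md_peo {M : Set ZFSet.{0}} (hM : ZF0 M) : MD M fun w : M => PEo M w := by
  unfold PEo
  (repeat' (first | (with_reducible first | exact DFc.id | exact DFc.const _ | exact MD.const _ | apply MD.and | apply MD.or | apply MD.iff | apply MD.not | apply MD.imp | apply MD.ex | apply MD.all | apply MD.zpair_mem hM | apply MD.eq_zpair hM | apply MD.isFn hM | apply MD.isO hM | apply MD.mem | apply MD.eq | apply DFc.zpr hM | apply DFc.zap hM | apply DFc.zun hM | apply DFc.zsg hM | apply DFc.zsU hM | apply DFc.ztr hM | apply DFc.zup hM | apply DFc.zpd hM) | (with_reducible first | exact (md_loo hM) | apply (md_loo hM) | apply MD.comp2 (md_loo hM) | apply DFc.comp2 (md_loo hM) | apply MD.comp3 (md_loo hM) | apply DFc.comp3 (md_loo hM) | apply MD.comp (md_loo hM) | apply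 DFc.comp (md_loo hM)) | (with_reducible apply DFc.fst) | (with_reducible apply DFc.snd) | (with_reducible apply DFc.mk)))

private theorem peo_iff {M : Set ZFSet.{0}} (hM : ZF0 M) {c d c' d' : M} {w : M}
    (hw : w.1 = ZFSet.pair (ZFSet.pair c.1 d.1) (ZFSet.pair c'.1 d'.1)) :
    PEo M w ↔ Loo c.1 d.1 c'.1 d'.1 := by
  constructor
  · rintro ⟨u, v, k, l, k', l', h1, h2, h3, h4⟩
    rw [hw] at h1
    obtain ⟨e1, e2⟩ := ZFSet.pair_injective h1
    rw [h2] at e1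
    rw [h3] at e2
    obtain ⟨i1, i2⟩ := ZFSet.pair_injective e1
    obtain ⟨j1, j2⟩ := ZFSet.pair_injective e2
    rw [i1, i2, j1, j2]
    exact h4
  · intro h
    exact ⟨⟨_, hM.pairZ c.2 d.2⟩, ⟨_, hM.pairZ c'.2 d'.2⟩, c, d, c', d', hw, rfl, rfl, h⟩

/-- the canonical bijection of `α × α` with an ordinal, in `W` -/
private theorem exists_Ho (h : InnerZFC W) (α : Ordinal.{0}) : ∃ H : W,
    IsFn H.1 (α.toZFSet.prod α.toZFSet) ∧ ∀ p : Ordinal.{0} × Ordinal.{0}, p.1 < α → p.2 < α →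
      apZ H.1 (ZFSet.pair p.1.toZFSet p.2.toZFSet) = (go p).toZFSet := by
  have hM := h.zf0
  have hO : ∀ ξ : Ordinal.{0}, ξ.toZFSet ∈ W := h.ord
  obtain ⟨D, hD⟩ : ∃ D : W, D.1 = α.toZFSet.prod α.toZFSet :=
    ⟨⟨_, hM.prodZ (h.ord α) (h.ord α)⟩, rfl⟩
  obtain ⟨E, hE⟩ := hM.sep (fun w : W => PEo W w) (md_peo hM) (zpd hM D D)
  obtain ⟨ran, hrd, hran⟩ := hM.exists_ran
  have hF : DFc W fun p : W × W × W => ran p.2.2 :=
    DFc.comp hrd (DFc.snd (DFc.snd DFc.id))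
  have hwf : ∀ _x : W, WellFounded fun a b : {d : ZFSet.{0} // d ∈ D.1} =>
      ZFSet.pair a.1 b.1 ∈ E.1 := by
    intro _x
    refine Subrelation.wf (r := InvImage (· < ·) fun a : {d : ZFSet.{0} // d ∈ D.1} =>
      kko a.1) ?_ (InvImage.wf _ wellFounded_lt)
    intro a b hab
    have hw : ZFSet.pair a.1 b.1 ∈ W := hM.trans _ E.2 _ hab
    obtain ⟨-, u, v, c, d, c', d', h1, h2, h3, h4⟩ := (hE ⟨_, hw⟩).1 hab
    obtain ⟨e1, e2⟩ := ZFSet.pair_injective h1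
    change kko a.1 < kko b.1
    rw [e1, e2, h2, h3, kko_pair, kko_pair]
    exact kzo_lt h4
  obtain ⟨H', hHd, hH'⟩ := recE hM (X := W) (D := fun _ => D) (E := fun _ => E) (DFc.const D)
    (DFc.const E) hwf (F := fun _ _ h => ran h) hF
  obtain ⟨hf, hrec⟩ := hH' D
  obtain ⟨H, hHe⟩ : ∃ H, H = H' D := ⟨_, rfl⟩
  rw [← hHe] at hf hrec
  refine ⟨H, hD ▸ hf, ?_⟩
  have hDm : ∀ z, z ∈ D.1 ↔ ∃ q : Ordinal.{0} × Ordinal.{0}, q.1 < α ∧ q.2 < α ∧
      z = ZFSet.pair q.1.toZFSet q.2.toZFSet := by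
    intro z
    rw [hD]
    exact mem_sqo α z
  have hEm : ∀ q r : Ordinal.{0} × Ordinal.{0}, q.1 < α → q.2 < α → r.1 < α → r.2 < α →
      (ZFSet.pair (ZFSet.pair q.1.toZFSet q.2.toZFSet) (ZFSet.pair r.1.toZFSet r.2.toZFSet) ∈ E.1 ↔
        kyo q < kyo r) := by
    intro q r hq1 hq2 hr1 hr2
    have hw : ZFSet.pair (ZFSet.pair q.1.toZFSet q.2.toZFSet)
        (ZFSet.pair r.1.toZFSet r.2.toZFSet) ∈ W :=
      hM.pairZ (hM.pairZ (hO _) (hO _)) (hM.pairZ (hO _) (hO _))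
    have h1 := hE ⟨_, hw⟩
    have h2 := peo_iff hM (c := ⟨q.1.toZFSet, hO _⟩) (d := ⟨q.2.toZFSet, hO _⟩)
      (c' := ⟨r.1.toZFSet, hO _⟩) (d' := ⟨r.2.toZFSet, hO _⟩) (w := ⟨_, hw⟩) rfl
    have h3 : ZFSet.pair (ZFSet.pair q.1.toZFSet q.2.toZFSet)
        (ZFSet.pair r.1.toZFSet r.2.toZFSet) ∈ (zpd hM D D).1 := by
      change _ ∈ ZFSet.prod D.1 D.1
      rw [ZFSet.pair_mem_prod]
      exact ⟨(hDm _).2 ⟨q, hq1, hq2, rfl⟩, (hDm _).2 ⟨r, hr1, hr2, rfl⟩⟩
    rw [h2, loo_toZ] at h1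
    exact h1.trans ⟨fun h => h.2, fun h => ⟨h3, h⟩⟩
  intro p
  induction p using wfo.induction with
  | _ p ih =>
  intro hp1 hp2
  have hpD : ZFSet.pair p.1.toZFSet p.2.toZFSet ∈ D.1 := (hDm _).2 ⟨p, hp1, hp2, rfl⟩
  obtain ⟨P, hPe⟩ : ∃ P : W, P = zpr hM (ordW h p.1) (ordW h p.2) := ⟨_, rfl⟩
  have hPv : P.1 = ZFSet.pair p.1.toZFSet p.2.toZFSet := by
    rw [hPe]
    rfl
  -- the restricted function
  have hP : MD W fun z : W => ∃ e y : W, z.1 = ZFSet.pair e.1 y.1 ∧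
      ZFSet.pair e.1 P.1 ∈ E.1 := by
    (repeat' (first | (with_reducible first | exact DFc.id | exact DFc.const _ | exact MD.const _ | apply MD.and | apply MD.or | apply MD.iff | apply MD.not | apply MD.imp | apply MD.ex | apply MD.all | apply MD.zpair_mem hM | apply MD.eq_zpair hM | apply MD.isFn hM | apply MD.isO hM | apply MD.mem | apply MD.eq | apply DFc.zpr hM | apply DFc.zap hM | apply DFc.zun hM | apply DFc.zsg hM | apply DFc.zsU hM | apply DFc.ztr hM | apply DFc.zup hM | apply DFc.zpd hM) | (with_reducible apply DFc.fst) | (with_reducible apply DFc.snd) | (with_reducible apply DFc.mk)))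
  obtain ⟨k, hk⟩ := hM.sep _ hP H
  have hh2 : ∀ w, w ∈ k.1 ↔ ∃ e, e ∈ D.1 ∧ ZFSet.pair e P.1 ∈ E.1 ∧
        w = ZFSet.pair e (apZ H.1 e) := by
    intro w
    constructor
    · intro hw
      have hwM : w ∈ W := hM.trans _ k.2 _ hw
      obtain ⟨hw1, e, y, hw2, hw3⟩ := (hk ⟨w, hwM⟩).1 hw
      obtain ⟨d, hd, y', hw4⟩ := hf.1 w hw1
      change w = ZFSet.pair e.1 y.1 at hw2
      have e1 : e.1 = d := (ZFSet.pair_injective (hw2.symm.trans hw4)).1
      refine ⟨e.1, e1 ▸ hd, hw3, ?_⟩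
      have h5 : apZ H.1 e.1 = y.1 := (apZ_eq hf (e1 ▸ hd)).2 (hw2 ▸ hw1)
      rw [h5]
      exact hw2
    · rintro ⟨e, he, he2, rfl⟩
      have h5 : ZFSet.pair e (apZ H.1 e) ∈ H.1 := (apZ_eq hf he).1 rfl
      have h6 : ZFSet.pair e (apZ H.1 e) ∈ W := hM.trans _ H.2 _ h5
      exact (hk ⟨_, h6⟩).2 ⟨h5, ⟨e, hM.pair_left h6⟩, ⟨_, hM.pair_right h6⟩, rfl, he2⟩
  have hz := hrec P k (hPv ▸ hpD) hh2
  have hz2 : apZ H.1 P.1 = (ran k).1 := congrArg Subtype.val hz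
  rw [← hPv, hz2]
  ext z
  rw [Ordinal.mem_toZFSet_iff]
  constructor
  · intro hzr
    have hzM : z ∈ W := hM.trans _ (ran k).2 _ hzr
    obtain ⟨y, hy⟩ := (hran k ⟨z, hzM⟩).1 hzr
    obtain ⟨e, he, he2, he3⟩ := (hh2 _).1 hy
    obtain ⟨i1, i2⟩ := ZFSet.pair_injective he3
    obtain ⟨q, hq1, hq2, rfl⟩ := (hDm e).1 he
    rw [hPv] at he2
    have h7 := (hEm q p hq1 hq2 hp1 hp2).1 he2
    refine ⟨go q, go_lt h7, ?_⟩
    change z = _ at i2
    rw [i2]
    exact (ih q h7 hq1 hq2).symm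
  · rintro ⟨γ, hγ, rfl⟩
    obtain ⟨q, hq, rfl⟩ := go_surj hγ
    have hqm := max_of_kyo hq
    have hq1 : q.1 < α := ((le_max_left _ _).trans hqm).trans_lt (max_lt hp1 hp2)
    have hq2 : q.2 < α := ((le_max_right _ _).trans hqm).trans_lt (max_lt hp1 hp2)
    refine (hran k ⟨(go q).toZFSet, hO _⟩).2 ⟨⟨_, hM.pairZ (hO q.1) (hO q.2)⟩, ?_⟩
    refine (hh2 _).2 ⟨_, (hDm _).2 ⟨q, hq1, hq2, rfl⟩, ?_, ?_⟩
    · rw [hPv]
      exact (hEm q p hq1 hq2 hp1 hp2).2 hq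
    · rw [ih q hq hq1 hq2]

theorem sz_prod_of_sq (h : InnerZFC W) {x y : ZFSet.{0}} {γ δ : Ordinal.{0}} (hx : Sz W x γ)
    (hy : Sz W y γ) (hsq : Sz W (γ.toZFSet.prod γ.toZFSet) δ) : Sz W (x.prod y) δ := by
  obtain ⟨f, hf, hf2⟩ := (sz_iff h).1 hx
  obtain ⟨g, hg, hg2⟩ := (sz_iff h).1 hy
  have hM := h.zf0
  have hF : DFc W fun u : W => zpr hM (zap hM f (zfst hM u)) (zap hM g (zsnd hM u)) :=
    DFc.zpr hM (DFc.zap hM (DFc.const f) (DFc.zfst hM DFc.id))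
      (DFc.zap hM (DFc.const g) (DFc.zsnd hM DFc.id))
  refine Sz.image h hsq hF ?_
  intro z hz
  rw [ZFSet.mem_prod] at hz
  obtain ⟨a, ha, b, hb, rfl⟩ := hz
  obtain ⟨ξ, hξ, rfl⟩ := hf2 a ha
  obtain ⟨η, hη, rfl⟩ := hg2 b hb
  refine ⟨zpr hM (ordW h ξ) (ordW h η), ?_, ?_⟩
  · change ZFSet.pair ξ.toZFSet η.toZFSet ∈ _
    rw [ZFSet.pair_mem_prod]
    exact ⟨Ordinal.toZFSet_mem_toZFSet_iff.2 hξ, Ordinal.toZFSet_mem_toZFSet_iff.2 hη⟩
  · rw [zfst_zpr, zsnd_zpr]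
    rfl

theorem sz_sq (h : InnerZFC W) {α : Ordinal.{0}} (hα : WCard W α) :
    Sz W (α.toZFSet.prod α.toZFSet) α := by
  induction α using WellFoundedLT.induction with
  | ind α ih =>
  have hM := h.zf0
  obtain ⟨H, hH, hHv⟩ := exists_Ho h α
  -- all values are smaller than `α`
  have hlt : ∀ p : Ordinal.{0} × Ordinal.{0}, p.1 < α → p.2 < α → go p < α := by
    intro p hp1 hp2
    by_contra hcon
    rw [not_lt] at hcon
    obtain ⟨β, hβ⟩ := exists_nu hα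
    have hlim : Order.IsSuccLimit α := hβ ▸ isSuccLimit_nu h β
    obtain ⟨μ, hμ⟩ : ∃ μ, μ = Order.succ (max p.1 p.2) := ⟨_, rfl⟩
    have hμα : μ < α := by
      rw [hμ]
      exact hlim.succ_lt (max_lt hp1 hp2)
    -- `μ × μ` is smaller than `α`
    have hsm : ∃ γ < α, Sz W (μ.toZFSet.prod μ.toZFSet) γ := by
      obtain ⟨γ, hγ1, hγ2⟩ : ∃ γ, Sz W μ.toZFSet γ ∧ ∀ δ < γ, ¬ Sz W μ.toZFSet δ := by
        have hne : {γ : Ordinal.{0} | Sz W μ.toZFSet γ}.Nonempty := ⟨μ, sz_ord h μ⟩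
        refine ⟨sInf {γ : Ordinal.{0} | Sz W μ.toZFSet γ}, csInf_mem hne, fun δ hδ hs => ?_⟩
        have hm : δ ∈ {γ : Ordinal.{0} | Sz W μ.toZFSet γ} := hs
        exact absurd (csInf_le' hm) (not_le.2 hδ)
      have hγμ : γ ≤ μ := by
        by_contra hc
        exact hγ2 μ (not_le.1 hc) (sz_ord h μ)
      rcases lt_or_ge γ Ordinal.omega0 with hfin | hinf
      · have h1 := Sz.card_le hγ1
        have h2 : γ.card < Cardinal.aleph0 := by
          rwa [← Cardinal.lt_ord, Cardinal.ord_aleph0]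
        have h3 : μ < Ordinal.omega0 := by
          rw [← Cardinal.ord_aleph0, Cardinal.lt_ord]
          exact h1.trans_lt h2
        obtain ⟨m, hm⟩ := Ordinal.lt_omega0.1 h3
        have hfs : {z : ZFSet.{0} | z ∈ μ.toZFSet.prod μ.toZFSet}.Finite := by
          have hfi : (Set.Iio μ).Finite := by
            rw [hm]
            have h4 : (Set.Iio (m : Ordinal.{0})) ⊆ (fun i : ℕ => (i : Ordinal.{0})) '' (Set.Iio m) := by
              intro ξ hξ
              obtain ⟨i, rfl⟩ := Ordinal.lt_omega0.1 ((Set.mem_Iio.1 hξ).trans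
                (Ordinal.natCast_lt_omega0 m))
              exact ⟨i, by exact_mod_cast (Set.mem_Iio.1 hξ), rfl⟩
            exact ((Set.finite_Iio m).image _).subset h4
          refine ((hfi.prod hfi).image fun q : Ordinal.{0} × Ordinal.{0} =>
            ZFSet.pair q.1.toZFSet q.2.toZFSet).subset ?_
          intro z hz
          obtain ⟨q, hq1, hq2, rfl⟩ := (mem_sqo μ z).1 hz
          exact ⟨q, ⟨hq1, hq2⟩, rfl⟩
        obtain ⟨n, hn⟩ := sz_finite h (hM.prodZ (h.ord μ) (h.ord μ)) hfs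
        exact ⟨n, (Ordinal.natCast_lt_omega0 n).trans_le hα.1, hn⟩
      · have hγc : WCard W γ := ⟨hinf, fun δ hδ hs => hγ2 δ hδ (Sz.trans h hγ1 hs)⟩
        exact ⟨γ, hγμ.trans_lt hμα, sz_prod_of_sq h hγ1 hγ1 (ih γ (hγμ.trans_lt hμα) hγc)⟩
    obtain ⟨γ, hγ, hsz⟩ := hsm
    refine hα.2 γ hγ (Sz.image h hsz (F := fun u => zap hM H u)
      (DFc.zap hM (DFc.const H) DFc.id) ?_)
    intro z hz
    obtain ⟨ξ, hξ, rfl⟩ := Ordinal.mem_toZFSet_iff.1 hz
    obtain ⟨q, hq, rfl⟩ := go_surj (hξ.trans_le hcon)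
    have hqm := max_of_kyo hq
    have hq1 : q.1 < μ := by
      rw [hμ, Order.lt_succ_iff]
      exact (le_max_left _ _).trans hqm
    have hq2 : q.2 < μ := by
      rw [hμ, Order.lt_succ_iff]
      exact (le_max_right _ _).trans hqm
    refine ⟨zpr hM (ordW h q.1) (ordW h q.2), (mem_sqo μ _).2 ⟨q, hq1, hq2, rfl⟩, ?_⟩
    exact (hHv q (hq1.trans hμα) (hq2.trans hμα)).symm
  -- the inverse of `H`
  obtain ⟨D, hD⟩ : ∃ D : W, D.1 = α.toZFSet.prod α.toZFSet :=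
    ⟨⟨_, hM.prodZ (h.ord α) (h.ord α)⟩, rfl⟩
  have hinj : ∀ d d' : W, d.1 ∈ D.1 → d'.1 ∈ D.1 → zap hM H d = zap hM H d' → d = d' := by
    intro d d' hd hd' he
    rw [hD] at hd hd'
    obtain ⟨q, hq1, hq2, e1⟩ := (mem_sqo α _).1 hd
    obtain ⟨r, hr1, hr2, e2⟩ := (mem_sqo α _).1 hd'
    have h1 : apZ H.1 d.1 = apZ H.1 d'.1 := congrArg Subtype.val he
    rw [e1, e2, hHv q hq1 hq2, hHv r hr1 hr2] at h1
    have h2 := go_inj (Ordinal.toZFSet_injective h1)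
    exact Subtype.ext (by rw [e1, e2, h2])
  classical
  obtain ⟨F, hFd⟩ : ∃ F : W → W, F = fun u => if hu : ∃ d : W, d.1 ∈ D.1 ∧ u = zap hM H d then
      hu.choose else (⟨∅, hM.empty_mem⟩ : W) := ⟨_, rfl⟩
  have hF1 : ∀ d : W, d.1 ∈ D.1 → F (zap hM H d) = d := by
    intro d hd
    have hu : ∃ d' : W, d'.1 ∈ D.1 ∧ zap hM H d = zap hM H d' := ⟨d, hd, rfl⟩
    have e : F (zap hM H d) = hu.choose := by
      rw [hFd]
      exact dif_pos hu
    rw [e]
    exact hinj _ _ hu.choose_spec.1 hd hu.choose_spec.2.symm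
  have hF2 : ∀ u : W, (¬ ∃ d : W, d.1 ∈ D.1 ∧ u = zap hM H d) →
      F u = (⟨∅, hM.empty_mem⟩ : W) := by
    intro u hu
    rw [hFd]
    exact dif_neg hu
  have hFD : DFc W F := by
    apply DFc.of_graph
    refine MD.congr (P := fun q : W × W => (q.2.1 ∈ D.1 ∧ q.1 = zap hM H q.2) ∨
      ((¬ ∃ d : W, d.1 ∈ D.1 ∧ q.1 = zap hM H d) ∧ q.2 = (⟨∅, hM.empty_mem⟩ : W))) ?_ ?_
    · rintro ⟨u, y⟩
      constructor
      · rintro (⟨h1, h2⟩ | ⟨h1, h2⟩)
        · have h2 : u = zap hM H y := h2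
          change y = F u
          rw [h2]
          exact (hF1 y h1).symm
        · exact h2.trans (hF2 u h1).symm
      · intro hy
        have hy : y = F u := hy
        by_cases h1 : ∃ d : W, d.1 ∈ D.1 ∧ u = zap hM H d
        · obtain ⟨d, hd, hu⟩ := h1
          left
          have h3 : y = d := by rw [hy, hu, hF1 d hd]
          rw [h3]
          exact ⟨hd, hu⟩
        · right
          exact ⟨h1, hy.trans (hF2 u h1)⟩
    · (repeat' (first | (with_reducible first | exact DFc.id | exact DFc.const _ | exact MD.const _ | apply MD.and | apply MD.or | apply MD.iff | apply MD.not | apply MD.imp | apply MD.ex | apply MD.all | apply MD.zpair_mem hM | apply MD.eq_zpair hM | apply MD.isFn hM | apply MD.isO hM | apply MD.mem | apply MD.eq | apply DFc.zpr hM | apply DFc.zap hM | apply DFc.zun hM | apply DFc.zsg hM | apply DFc.zsU hM | apply DFc.ztr hM | apply DFc.zup hM | apply DFc.zpd hM) | (with_reducible apply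 DFc.fst) | (with_reducible apply DFc.snd) | (with_reducible apply DFc.mk)))
  refine Sz.image h (sz_ord h α) hFD ?_
  intro z hz
  have hzD : z ∈ D.1 := hD ▸ hz
  obtain ⟨q, hq1, hq2, rfl⟩ := (mem_sqo α _).1 hz
  refine ⟨ordW h (go q), Ordinal.toZFSet_mem_toZFSet_iff.2 (hlt q hq1 hq2), ?_⟩
  have e1 : ordW h (go q) = zap hM H (zpr hM (ordW h q.1) (ordW h q.2)) :=
    Subtype.ext (hHv q hq1 hq2).symm
  rw [e1, hF1 _ hzD]
  rfl

theorem sz_prod (h : InnerZFC W) {α : Ordinal.{0}} (hα : WCard W α) {x y : ZFSet.{0}}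
    (hx : Sz W x α) (hy : Sz W y α) : Sz W (x.prod y) α := by
  exact sz_prod_of_sq h hx hy (sz_sq h hα)

end HNF
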