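import Pool.Agent.HNF.Uni

/-!
HNF REG: successor cardinals of `W` are regular in `W`; the cofinality of `κ` in `W` is `ω₁`.

PROOFS.
`reg`: let `α` be the ordinal `⋃ x` (least upper bound of the ordinals in `x`; `ZFSet.sUnion` of a set of ordinals is an
ordinal).  All elements `ξ` of `x` are `< nu (β + 1)`, so `Sz ξ (nu β)` (`sz_of_lt`), and `Sz (⋃ x) (nu β)` by `sz_sUnion`.
So `α = nu (β + 1)` is impossible (`not_sz_nu`), `α < nu (β + 1)`; and `x ⊆ α + 1`, `α + 1 < nu (β + 1)`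
(`isSuccLimit_nu`).
`reg_kap`: let `N` be as in `exists_nuF` and let `B` be the definable function `ξ ↦` the least `β` with `ξ ∈ N β`
(`exists_lst`).  The image `y` of `x` under `B` (`hz.repl`) has size `ω` in `W` and is a subset of `nu 1`
(`nu_limit` for the limit ordinal `nu 1`: `ξ < kap = nu (nu 1)` gives `β < nu 1` with `ξ < nu β`).  By `reg` for `β = 0`
(`nu_zero`) there is `α < nu 1 = nu (0 + 1)` with `y ⊆ α`.  So `x ⊆ nu α` (`nu_strictMono`).
-/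

namespace HNF

open RMK Set

variable {W : Set ZFSet.{0}}

theorem reg (h : InnerZFC W) {β : Ordinal.{0}} {x : ZFSet.{0}} (hxW : x ∈ W)
    (hx : Sz W x (nu W β)) (hs : x ⊆ (nu W (β + 1)).toZFSet) :
    ∃ α < nu W (β + 1), x ⊆ α.toZFSet := by
  by_contra hcon
  push Not at hcon
  have h1 : Sz W (ZFSet.sUnion x) (nu W β) := by
    refine sz_sUnion h (nu_wcard W β) hxW hx fun a ha => ?_
    obtain ⟨ξ, hξ, rfl⟩ := Ordinal.mem_toZFSet_iff.1 (hs ha)
    exact sz_of_lt h hξ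
  have h2 : (nu W (β + 1)).toZFSet ⊆ ZFSet.sUnion x := by
    intro z hz
    obtain ⟨α, hα, rfl⟩ := Ordinal.mem_toZFSet_iff.1 hz
    have hα' : α + 1 < nu W (β + 1) := (isSuccLimit_nu h (β + 1)).succ_lt hα
    have h3 := hcon _ hα'
    rw [ZFSet.subset_def] at h3
    push Not at h3
    obtain ⟨w, hw, hw'⟩ := h3
    obtain ⟨ξ, hξ, rfl⟩ := Ordinal.mem_toZFSet_iff.1 (hs hw)
    rw [Ordinal.toZFSet_mem_toZFSet_iff, not_lt] at hw'
    rw [ZFSet.mem_sUnion]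
    exact ⟨_, hw, Ordinal.toZFSet_mem_toZFSet_iff.2 (lt_of_lt_of_le (Order.lt_succ α) hw')⟩
  exact not_sz_nu (Order.lt_succ β) (Sz.subset h1 h2)

theorem reg_kap (h : InnerZFC W) {x : ZFSet.{0}} (hxW : x ∈ W)
    (hx : Sz W x Ordinal.omega0) (hs : x ⊆ (kap W).toZFSet) :
    ∃ β < nu W 1, x ⊆ (nu W β).toZFSet := by
  have hz := h.zf0
  obtain ⟨N, hN, hN'⟩ := exists_nuF h
  obtain ⟨B, hB, hB'⟩ := exists_lst h (X := W) (P := fun ξ β => ξ.1 ∈ (N β).1)
    (by (repeat' (first | (with_reducible first | exact DFc.id | exact DFc.const _ | exact MD.const _ | apply MD.and | apply MD.or | apply MD.iff | apply MD.not | apply MD.imp | apply MD.ex | apply MD.all | apply MD.zpair_mem hz | apply MD.eq_zpair hz | apply MD.isFn hz | apply MD.isO hz | apply MD.mem | apply MD.eq | apply DFc.zpr hz | apply DFc.zap hz | apply DFc.zun hz | apply DFc.zsg hz | apply DFc.zsU hz | apply DFc.ztr hz | apply DFc.zup hz | apply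 DFc.zpd hz) | (with_reducible first | exact hN | apply hN | apply MD.comp2 hN | apply DFc.comp2 hN | apply MD.comp3 hN | apply DFc.comp3 hN | apply MD.comp hN | apply DFc.comp hN) | (with_reducible apply DFc.fst) | (with_reducible apply DFc.snd) | (with_reducible apply DFc.mk))))
  have key : ∀ ξ : W, ξ.1 ∈ x → ∃ β < nu W 1, B ξ = ordW h β ∧ ξ.1 ∈ (nu W β).toZFSet := by
    intro ξ hξ
    obtain ⟨ζ, hζ, hζ'⟩ := Ordinal.mem_toZFSet_iff.1 (hs hξ)
    obtain ⟨γ, hγ, hγ'⟩ := nu_limit (isSuccLimit_nu h 1) hζ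
    have hwf := (Ordinal.lt_wf : WellFounded ((· < ·) : Ordinal.{0} → Ordinal.{0} → Prop))
    have hex : ({β | ξ.1 ∈ (nu W β).toZFSet} : Set Ordinal.{0}).Nonempty :=
      ⟨γ, by
        rw [Set.mem_ofPred_eq, ← hζ']
        exact Ordinal.toZFSet_mem_toZFSet_iff.2 hγ'⟩
    have hm := hwf.min_mem _ hex
    have hmin : ∀ η < hwf.min {β | ξ.1 ∈ (nu W β).toZFSet} hex, ¬ ξ.1 ∈ (nu W η).toZFSet :=
      fun η hη hη' => hwf.not_lt_min {β | ξ.1 ∈ (nu W β).toZFSet} hη' hη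
    refine ⟨hwf.min {β | ξ.1 ∈ (nu W β).toZFSet} hex, ?_, hB' ξ _ ?_ ?_, hm⟩
    · refine lt_of_le_of_lt (not_lt.1 fun hlt => ?_) hγ
      refine hmin _ hlt ?_
      rw [← hζ']
      exact Ordinal.toZFSet_mem_toZFSet_iff.2 hγ'
    · rw [hN']
      exact hm
    · intro η hη
      rw [hN']
      exact hmin η hη
  obtain ⟨y, hy⟩ := hz.repl B hB ⟨x, hxW⟩
  have hy1 : Sz W y.1 (nu W 0) := by
    rw [nu_zero]
    refine Sz.image h hx hB fun z hzy => ?_
    obtain ⟨u, hu, hu'⟩ := (hy ⟨z, h.trans _ y.2 _ hzy⟩).1 hzy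
    exact ⟨u, hu, congrArg Subtype.val hu'⟩
  have hy2 : y.1 ⊆ (nu W (0 + 1)).toZFSet := by
    intro z hzy
    obtain ⟨u, hu, hu'⟩ := (hy ⟨z, h.trans _ y.2 _ hzy⟩).1 hzy
    obtain ⟨β, hβ, hβ', -⟩ := key u hu
    have e : z = β.toZFSet := by
      have := congrArg Subtype.val (hu'.trans hβ')
      exact this
    rw [e, zero_add]
    exact Ordinal.toZFSet_mem_toZFSet_iff.2 hβ
  obtain ⟨α, hα, hα'⟩ := reg h y.2 hy1 hy2
  rw [zero_add] at hα
  refine ⟨α, hα, fun z hzx => ?_⟩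
  obtain ⟨β, hβ, hβ', hβ''⟩ := key ⟨z, h.trans _ hxW _ hzx⟩ hzx
  have h3 : (ordW h β).1 ∈ y.1 := (hy (ordW h β)).2 ⟨⟨z, h.trans _ hxW _ hzx⟩, hzx, hβ'.symm⟩
  have h4 : β < α := Ordinal.toZFSet_mem_toZFSet_iff.1 (hα' h3)
  exact Ordinal.toZFSet_monotone ((nu_strictMono W).le_iff_le.2 h4.le) hβ''

end HNF
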