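import Pool.Agent.HNF.Defs
import Pool.Agent.HNF.TacL

/-!
HNF SZ1: basic properties of the relation `Sz W x α` (in `W` there is a function on the ordinal `α` whose range
contains `x`), see `Defs.lean`.  Tactic `mdd` for definability goals: see `Tac.lean`.

PROOFS.
`Sz.subset`: the same function.  `sz_iff`: if `f` is as in `Sz`, let `f'` be the set of all `w ∈ f` of the form
`pair ξ z`, `ξ ∈ α.toZFSet` (separation, `hz.sep` with a predicate proved definable by `mdd`); `IsFn f' α`; and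
`apZ_eq`.  Conversely a function with domain `α` satisfies the conditions in `Sz` directly (`apZ_eq`).
`Sz.mono`: extend the function `f` on `α` by the value `∅` on `β \ α`: add `(β \ α) × {∅}`, or use
replacement with the definable function `ξ ↦ pair ξ (zap f ξ)` on `β` (`apZ` is `∅` outside the domain).
`exists_sz` is `h.choice` (same formula).  `sz_ord`: identity function: the set of all `pair ξ ξ`, `ξ ∈ α`
(`hz.replF` or `hz.sep` in the product `zpd`).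
`Sz.image`: `f : α → ` covering `x`; `g = {pair ξ (F (zap f ξ)) | ξ ∈ α}`, by replacement.
`Sz.trans`: `f` on `α` covering `x`, `g` on `β` covering `α`; the function `ξ ↦ zap f (zap g ξ)` on `β`.
`szZ_iff`: `ξ ∈ α.toZFSet` iff `ξ` is `ξ'.toZFSet` with `ξ' < α` (`Ordinal.mem_toZFSet_iff`).
`MD.szZ`: all quantifiers can be taken over `↥W` (transitivity of `W`, `hz.pair_right`), then `mdd`; write `∃!` as
`∃ z, .. ∧ ∀ z', .. → z' = z`.
`sz_finite`: induction on the finite set `{z | z ∈ x}` (or on its cardinality `n`): for `n + 1` remove one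
element `a` (`x \ {a}` is in `W` by separation), take a function `f` on `n` and add `pair n a` (`hz.un`, `hz.sg`).
`sz_two`: from `sz_finite` and `Sz.mono`.  `Sz.countable`: the range of a function on a countable ordinal.
-/

namespace HNF

open RMK Set

variable {W : Set ZFSet.{0}}

/-- the ordinal `ξ` as an element of `W` -/
noncomputable def ordW (h : InnerZFC W) (ξ : Ordinal.{0}) : W := ⟨ξ.toZFSet, h.ord ξ⟩

/-- `Sz` for a set `a` in place of an ordinal -/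
def SzZ (W : Set ZFSet.{0}) (x a : ZFSet.{0}) : Prop :=
  ∃ f ∈ W, (∀ z ∈ x, ∃ ξ ∈ a, ZFSet.pair ξ z ∈ f) ∧ ∀ ξ ∈ a, ∃! z, ZFSet.pair ξ z ∈ f

private theorem tmem48 {ξ α : Ordinal.{0}} (h : ξ < α) : ξ.toZFSet ∈ α.toZFSet :=
  Ordinal.toZFSet_mem_toZFSet_iff.2 h

private theorem apZ_eu48 {h d y : ZFSet.{0}} (H0 : ∃! y, ZFSet.pair d y ∈ h) :
    apZ h d = y ↔ ZFSet.pair d y ∈ h := by
  have H : ∃ y, ZFSet.pair d y ∈ h ∧ ∀ y', ZFSet.pair d y' ∈ h → y' = y := by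
    obtain ⟨y, h1, h2⟩ := H0
    exact ⟨y, h1, h2⟩
  unfold apZ
  rw [dif_pos H]
  constructor
  · rintro rfl
    exact H.choose_spec.1
  · intro hy
    exact (H.choose_spec.2 y hy).symm

private theorem mkfn48 (hz : ZF0 W) {F : W → W} (hF : DFc W F) (a : W) :
    ∃ f : W, IsFn f.1 a.1 ∧ ∀ ξ : W, ξ.1 ∈ a.1 → ZFSet.pair ξ.1 (F ξ).1 ∈ f.1 := by
  obtain ⟨f, hf⟩ := hz.repl (fun ξ => zpr hz ξ (F ξ)) (DFc.zpr hz DFc.id hF) a
  have h1 : ∀ ξ : W, ξ.1 ∈ a.1 → ZFSet.pair ξ.1 (F ξ).1 ∈ f.1 := fun ξ hξ =>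
    (hf (zpr hz ξ (F ξ))).2 ⟨ξ, hξ, rfl⟩
  refine ⟨f, ⟨?_, ?_⟩, h1⟩
  · intro w hw
    obtain ⟨y, hy, e⟩ := (hf ⟨w, hz.trans _ f.2 _ hw⟩).1 hw
    exact ⟨y.1, hy, (F y).1, congrArg Subtype.val e⟩
  · intro d hd
    have hdW : d ∈ W := hz.trans _ a.2 _ hd
    refine ⟨(F ⟨d, hdW⟩).1, h1 ⟨d, hdW⟩ hd, ?_⟩
    intro y hy
    obtain ⟨y', hy', e⟩ := (hf ⟨ZFSet.pair d y, hz.trans _ f.2 _ hy⟩).1 hy
    have e' : ZFSet.pair d y = ZFSet.pair y'.1 (F y').1 := congrArg Subtype.val e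
    obtain ⟨e1, e2⟩ := ZFSet.pair_inj.1 e'
    have e3 : y' = ⟨d, hdW⟩ := Subtype.ext e1.symm
    rw [e2, e3]

theorem mem_ordW (h : InnerZFC W) {ξ : Ordinal.{0}} {z : W} :
    z.1 ∈ (ordW h ξ).1 ↔ ∃ η < ξ, z = ordW h η := by
  unfold ordW
  rw [Ordinal.mem_toZFSet_iff]
  constructor
  · rintro ⟨η, h1, h2⟩
    exact ⟨η, h1, Subtype.ext h2.symm⟩
  · rintro ⟨η, h1, h2⟩
    exact ⟨η, h1, by rw [h2]⟩

theorem szZ_iff {x : ZFSet.{0}} {α : Ordinal.{0}} : SzZ W x α.toZFSet ↔ Sz W x α := by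
  constructor
  · rintro ⟨f, hf, h1, h2⟩
    refine ⟨f, hf, fun z hz => ?_, fun ξ hξ => h2 _ (tmem48 hξ)⟩
    obtain ⟨ξ, hξ, h3⟩ := h1 z hz
    obtain ⟨η, hη, rfl⟩ := Ordinal.mem_toZFSet_iff.1 hξ
    exact ⟨η, hη, h3⟩
  · rintro ⟨f, hf, h1, h2⟩
    refine ⟨f, hf, fun z hz => ?_, fun ξ hξ => ?_⟩
    · obtain ⟨ξ, hξ, h3⟩ := h1 z hz
      exact ⟨_, tmem48 hξ, h3⟩
    · obtain ⟨η, hη, rfl⟩ := Ordinal.mem_toZFSet_iff.1 hξ
      exact h2 η hη

theorem MD.szZ {X : Type 1} [Ctx W X] (h : InnerZFC W) {f g : X → W} (hf : DFc W f)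
    (hg : DFc W g) : MD W fun x => SzZ W (f x).1 (g x).1 := by
  have hz := h.zf0
  refine MD.congr (P := fun x => ∃ u : W, (∀ z : W, z.1 ∈ (f x).1 → ∃ ξ : W, ξ.1 ∈ (g x).1 ∧
    ZFSet.pair ξ.1 z.1 ∈ u.1) ∧ ∀ ξ : W, ξ.1 ∈ (g x).1 → ∃ z : W, ZFSet.pair ξ.1 z.1 ∈ u.1 ∧
      ∀ z' : W, ZFSet.pair ξ.1 z'.1 ∈ u.1 → z' = z) ?_ (by (repeat' (first | (with_reducible first | exact DFc.id | exact DFc.const _ | exact MD.const _ | apply MD.and | apply MD.or | apply MD.iff | apply MD.not | apply MD.imp | apply MD.ex | apply MD.all | apply MD.zpair_mem hz | apply MD.eq_zpair hz | apply MD.isFn hz | apply MD.isO hz | apply MD.mem | apply MD.eq | apply DFc.zpr hz | apply DFc.zap hz | apply DFc.zun hz | apply DFc.zsg hz | apply DFc.zsU hz | apply DFc.ztr hz | apply DFc.zup hz | apply DFc.zpd hz) | (with_reducible first | exact hf | apply hf | apply MD.comp2 hf | apply DFc.comp2 hf | apply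 MD.comp3 hf | apply DFc.comp3 hf | apply MD.comp hf | apply DFc.comp hf) | (with_reducible first | exact hg | apply hg | apply MD.comp2 hg | apply DFc.comp2 hg | apply MD.comp3 hg | apply DFc.comp3 hg | apply MD.comp hg | apply DFc.comp hg) | (with_reducible apply DFc.fst) | (with_reducible apply DFc.snd) | (with_reducible apply DFc.mk))))
  intro x
  constructor
  · rintro ⟨u, h1, h2⟩
    refine ⟨u.1, u.2, fun z hz' => ?_, fun ξ hξ => ?_⟩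
    · obtain ⟨ξ, h3, h4⟩ := h1 ⟨z, h.trans _ (f x).2 _ hz'⟩ hz'
      exact ⟨ξ.1, h3, h4⟩
    · obtain ⟨z, h3, h4⟩ := h2 ⟨ξ, h.trans _ (g x).2 _ hξ⟩ hξ
      refine ⟨z.1, h3, fun z' hz' => ?_⟩
      exact congrArg Subtype.val (h4 ⟨z', hz.pair_right (h.trans _ u.2 _ hz')⟩ hz')
  · rintro ⟨u, hu, h1, h2⟩
    refine ⟨⟨u, hu⟩, fun z hz' => ?_, fun ξ hξ => ?_⟩
    · obtain ⟨ξ, h3, h4⟩ := h1 z.1 hz'
      exact ⟨⟨ξ, h.trans _ (g x).2 _ h3⟩, h3, h4⟩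
    · obtain ⟨z, h3, h4⟩ := h2 ξ.1 hξ
      refine ⟨⟨z, hz.pair_right (h.trans _ hu _ h3)⟩, h3, fun z' hz' => ?_⟩
      exact Subtype.ext (h4 z'.1 hz')

theorem sz_iff (h : InnerZFC W) {x : ZFSet.{0}} {α : Ordinal.{0}} :
    Sz W x α ↔ ∃ f : W, IsFn f.1 α.toZFSet ∧ ∀ z ∈ x, ∃ ξ < α, apZ f.1 ξ.toZFSet = z := by
  have hz := h.zf0
  constructor
  · rintro ⟨f, hf, h1, h2⟩
    obtain ⟨f', hf', h3⟩ := mkfn48 hz (F := fun ξ => zap hz ⟨f, hf⟩ ξ)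
      (DFc.zap hz (DFc.const _) DFc.id) (ordW h α)
    refine ⟨f', hf', fun z hz' => ?_⟩
    obtain ⟨ξ, hξ, h4⟩ := h1 z hz'
    refine ⟨ξ, hξ, ?_⟩
    rw [apZ_eq hf' (tmem48 hξ)]
    have h5 := h3 (ordW h ξ) (tmem48 hξ)
    have h6 : apZ f ξ.toZFSet = z := (apZ_eu48 (h2 ξ hξ)).2 h4
    have h7 : (zap hz ⟨f, hf⟩ (ordW h ξ)).1 = z := h6
    rw [h7] at h5
    exact h5
  · rintro ⟨f, hf, h1⟩
    refine ⟨f.1, f.2, fun z hz' => ?_, fun ξ hξ => hf.2 _ (tmem48 hξ)⟩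
    obtain ⟨ξ, hξ, h2⟩ := h1 z hz'
    exact ⟨ξ, hξ, (apZ_eq hf (tmem48 hξ)).1 h2⟩

/-- the values of a definable function on an ordinal -/
private theorem sz_of48 (h : InnerZFC W) {F : W → W} (hF : DFc W F) {x : ZFSet.{0}}
    {α : Ordinal.{0}} (hx : ∀ z ∈ x, ∃ ξ < α, (F (ordW h ξ)).1 = z) : Sz W x α := by
  obtain ⟨f, hf, h1⟩ := mkfn48 h.zf0 hF (ordW h α)
  refine (sz_iff h).2 ⟨f, hf, fun z hz => ?_⟩
  obtain ⟨ξ, hξ, h2⟩ := hx z hz
  refine ⟨ξ, hξ, ?_⟩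
  rw [apZ_eq hf (tmem48 hξ), ← h2]
  exact h1 (ordW h ξ) (tmem48 hξ)

theorem Sz.subset {x y : ZFSet.{0}} {α : Ordinal.{0}} (hs : Sz W y α) (hxy : x ⊆ y) :
    Sz W x α := by
  obtain ⟨f, hf, h1, h2⟩ := hs
  exact ⟨f, hf, fun z hz => h1 z (hxy hz), h2⟩

theorem Sz.mono (h : InnerZFC W) {x : ZFSet.{0}} {α β : Ordinal.{0}} (hs : Sz W x α)
    (hab : α ≤ β) : Sz W x β := by
  obtain ⟨f, hf, h1⟩ := (sz_iff h).1 hs
  refine sz_of48 h (F := fun ξ => zap h.zf0 f ξ) (DFc.zap h.zf0 (DFc.const _) DFc.id)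
    (fun z hz => ?_)
  obtain ⟨ξ, hξ, h2⟩ := h1 z hz
  exact ⟨ξ, lt_of_lt_of_le hξ hab, h2⟩

theorem exists_sz (h : InnerZFC W) {x : ZFSet.{0}} (hx : x ∈ W) : ∃ α, Sz W x α := by
  obtain ⟨α, f, hf, h1, h2⟩ := h.choice x hx
  exact ⟨α, f, hf, h1, h2⟩

theorem sz_ord (h : InnerZFC W) (α : Ordinal.{0}) : Sz W α.toZFSet α := by
  refine sz_of48 h (F := fun ξ => ξ) DFc.id (fun z hz => ?_)
  obtain ⟨ξ, hξ, h2⟩ := Ordinal.mem_toZFSet_iff.1 hz
  exact ⟨ξ, hξ, h2⟩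

theorem Sz.image (h : InnerZFC W) {x : ZFSet.{0}} {α : Ordinal.{0}} (hs : Sz W x α) {F : W → W}
    (hF : DFc W F) {y : ZFSet.{0}} (hy : ∀ z ∈ y, ∃ u : W, u.1 ∈ x ∧ z = (F u).1) :
    Sz W y α := by
  obtain ⟨f, hf, h1⟩ := (sz_iff h).1 hs
  refine sz_of48 h (F := fun ξ => F (zap h.zf0 f ξ))
    (DFc.comp hF (DFc.zap h.zf0 (DFc.const _) DFc.id)) (fun z hz => ?_)
  obtain ⟨u, hu, rfl⟩ := hy z hz
  obtain ⟨ξ, hξ, h2⟩ := h1 u.1 hu
  refine ⟨ξ, hξ, ?_⟩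
  have e : zap h.zf0 f (ordW h ξ) = u := Subtype.ext h2
  rw [e]

theorem Sz.trans (h : InnerZFC W) {x : ZFSet.{0}} {α β : Ordinal.{0}} (h1 : Sz W x α)
    (h2 : Sz W α.toZFSet β) : Sz W x β := by
  obtain ⟨f, hf, hf1⟩ := (sz_iff h).1 h1
  refine Sz.image h h2 (F := fun ξ => zap h.zf0 f ξ) (DFc.zap h.zf0 (DFc.const _) DFc.id)
    (fun z hz => ?_)
  obtain ⟨ξ, hξ, e⟩ := hf1 z hz
  exact ⟨ordW h ξ, tmem48 hξ, e.symm⟩

/-- one more element -/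
private theorem sz_insert48 (h : InnerZFC W) {x y a : ZFSet.{0}} {α : Ordinal.{0}}
    (hs : Sz W x α) (ha : a ∈ W) (hy : ∀ z ∈ y, z ∈ x ∨ z = a) : Sz W y (α + 1) := by
  have hz := h.zf0
  obtain ⟨f, hf, h1⟩ := (sz_iff h).1 hs
  have hg : f.1 ∪ {ZFSet.pair α.toZFSet a} ∈ W :=
    hz.un f.2 (hz.sg (hz.pairZ (h.ord α) ha))
  have hmem : ∀ w, w ∈ f.1 ∪ {ZFSet.pair α.toZFSet a} ↔ w ∈ f.1 ∨ w = ZFSet.pair α.toZFSet a := by
    intro w
    rw [ZFSet.mem_union, ZFSet.mem_singleton]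
  refine ⟨_, hg, ?_, ?_⟩
  · intro z hz'
    rcases hy z hz' with h2 | h2
    · obtain ⟨ξ, hξ, h3⟩ := h1 z h2
      refine ⟨ξ, hξ.trans (Order.lt_succ α), (hmem _).2 (Or.inl ?_)⟩
      exact (apZ_eq hf (tmem48 hξ)).1 h3
    · refine ⟨α, Order.lt_succ α, (hmem _).2 (Or.inr ?_)⟩
      rw [h2]
  · intro ξ hξ
    have hξ' : ξ ≤ α := Order.lt_succ_iff.1 hξ
    rcases lt_or_eq_of_le hξ' with h2 | h2
    · obtain ⟨z, h3, h4⟩ := hf.2 _ (tmem48 h2)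
      refine ⟨z, (hmem _).2 (Or.inl h3), fun z' hz' => ?_⟩
      rcases (hmem _).1 hz' with h5 | h5
      · exact h4 z' h5
      · have h6 := (ZFSet.pair_inj.1 h5).1
        exact absurd (Ordinal.toZFSet_injective h6) h2.ne
    · refine ⟨a, (hmem _).2 (Or.inr (by rw [h2])), fun z' hz' => ?_⟩
      rcases (hmem _).1 hz' with h5 | h5
      · obtain ⟨d, hd, y', e⟩ := hf.1 _ h5
        have h6 := (ZFSet.pair_inj.1 e).1
        rw [← h6, h2, Ordinal.toZFSet_mem_toZFSet_iff] at hd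
        exact absurd hd (lt_irrefl _)
      · exact (ZFSet.pair_inj.1 h5).2

theorem sz_finite (h : InnerZFC W) {x : ZFSet.{0}} (hx : x ∈ W)
    (hfin : {z : ZFSet.{0} | z ∈ x}.Finite) : ∃ n : ℕ, Sz W x n := by
  have hz := h.zf0
  have key : ∀ n : ℕ, ∀ x : ZFSet.{0}, x ∈ W → {z : ZFSet.{0} | z ∈ x}.Finite →
      {z : ZFSet.{0} | z ∈ x}.ncard = n → Sz W x n := by
    intro n
    induction n with
    | zero =>
      intro x hx hfin hn
      have h1 : {z : ZFSet.{0} | z ∈ x} = ∅ := (Set.ncard_eq_zero hfin).1 hn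
      refine ⟨∅, hz.empty_mem, fun z hz' => ?_, fun ξ hξ => ?_⟩
      · have : z ∈ {z : ZFSet.{0} | z ∈ x} := hz'
        rw [h1] at this
        exact absurd this (Set.notMem_empty z)
      · rw [Nat.cast_zero] at hξ
        exact absurd hξ (not_lt_zero (a := ξ))
    | succ n ih =>
      intro x hx hfin hn
      have hne : {z : ZFSet.{0} | z ∈ x}.Nonempty := by
        rw [← Set.ncard_pos hfin]
        omega
      obtain ⟨a, ha⟩ := hne
      have haW : a ∈ W := h.trans x hx a ha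
      obtain ⟨b, hb⟩ := hz.sep (fun z : W => ¬ z = (⟨a, haW⟩ : W))
        (MD.not (MD.eq DFc.id (DFc.const _))) ⟨x, hx⟩
      have e : {z : ZFSet.{0} | z ∈ b.1} = {z : ZFSet.{0} | z ∈ x} \ {a} := by
        ext z
        rw [Set.mem_diff, Set.mem_singleton_iff]
        constructor
        · intro h1
          obtain ⟨h2, h3⟩ := (hb ⟨z, h.trans _ b.2 z h1⟩).1 h1
          exact ⟨h2, fun e => h3 (Subtype.ext e)⟩
        · rintro ⟨h1, h2⟩
          exact (hb ⟨z, h.trans x hx z h1⟩).2 ⟨h1, fun e => h2 (congrArg Subtype.val e)⟩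
      have h1 : {z : ZFSet.{0} | z ∈ b.1}.ncard = n := by
        rw [e, Set.ncard_diff_singleton_of_mem ha, hn]
        rfl
      have h2 := ih b.1 b.2 (by rw [e]; exact hfin.diff) h1
      have h3 : ((n + 1 : ℕ) : Ordinal.{0}) = (n : Ordinal.{0}) + 1 := by push_cast; rfl
      rw [h3]
      refine sz_insert48 h h2 haW (fun z hz' => ?_)
      by_cases h4 : z = a
      · exact Or.inr h4
      · left
        have : z ∈ {z : ZFSet.{0} | z ∈ b.1} := by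
          rw [e]
          exact ⟨hz', h4⟩
        exact this
  exact ⟨_, key _ x hx hfin rfl⟩

theorem sz_omega_of_finite (h : InnerZFC W) {x : ZFSet.{0}} (hx : x ∈ W)
    (hfin : {z : ZFSet.{0} | z ∈ x}.Finite) : Sz W x Ordinal.omega0 := by
  obtain ⟨n, hn⟩ := sz_finite h hx hfin
  exact Sz.mono h hn (Ordinal.nat_lt_omega0 n).le

theorem Sz.countable {x : ZFSet.{0}} (hs : Sz W x Ordinal.omega0) :
    {z : ZFSet.{0} | z ∈ x}.Countable := by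
  obtain ⟨f, hf, h1, h2⟩ := hs
  refine (Set.countable_iUnion (t := fun n : ℕ =>
    {z : ZFSet.{0} | ZFSet.pair (n : Ordinal.{0}).toZFSet z ∈ f}) fun n => ?_).mono ?_
  · refine Set.Subsingleton.countable fun z hz z' hz' => ?_
    exact (h2 n (Ordinal.nat_lt_omega0 n)).unique hz hz'
  · intro z hz
    obtain ⟨ξ, hξ, h3⟩ := h1 z hz
    obtain ⟨n, rfl⟩ := Ordinal.lt_omega0.1 hξ
    exact Set.mem_iUnion.2 ⟨n, h3⟩

end HNF
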