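import Pool.Agent.HNF.Cov
import Pool.Agent.HNF.Codb

/-!
HNF UPA: covering of functions on `κ`; supports of codes; functions in `W` avoiding small sets.

PROOFS.
`cov_kap`: for `β < nu 1` let `Y_β` be the set given by `cov_nu` for `I = ordW (nu β)` (`nu β ≤ kap`).  Let `V'` be the power set of `V`
in `W` (`exists_powF`).  Apply `cov_nu` with `β := 1` (`1 < nu 1`), `I = ordW (nu 1)` and the function `ordW β ↦ Y_β` to get `Z ⊆ V'` of size
`nu 1` with all `Y_β ∈ Z`, `β < nu 1`.  Let `B ξ` be the least ordinal `β` with `1 ≤ β` and `ξ ∈ nu β` (`exists_lst`, `exists_nuF`); for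
`ξ < kap = nu (nu 1)` it is `< nu 1` (`nu_limit`).  Let `Φ ξ` be the union of the `y ∈ Z` with `SzZ W y (nu (B ξ))` (`unionF`, `sepF`).  It has
size `nu (B ξ)` by `sz_sUnion` (`Z` has size `nu 1 ≤ nu (B ξ)`), and `f ξ ∈ Y_{B ξ} ∈ Z`.
`exists_supF`: `InSup a j` for `j = ordW j'`: there are `w ∈ a`, `k`, `u` (in `W`) with `pair (pair j k) u ∈ fst (snd w)`, and `w` is a
quadruple; the set of all `j ∈ κ` with this property (`sepF`).  Size `ω` for `Cds W a`: for each `w ∈ a` the set of the `j` occurring in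
`s = fst (snd w)` is finite, so of size `ω` (`sz_omega_of_finite`); `sz_iUnion` with `α = nu 0 = ω`.
`exists_avoid`: let `T` be the set of `exists_cdSet`.  For `ξ < kap` let `U ξ` be the union of the `supF (zap e ζ)` over the ordinals
`ζ ∈ Φ ξ` with `zap e ζ ∈ T`; it has size `nu β` for some `β < nu 1` (`sz_iUnion`), so it does not contain all ordinals `< kap`
(`not_sz_nu`, `kap = nu (nu 1)`).  Let `k ξ` be the least ordinal not in `U ξ` (`exists_lst`, `exists_fn`).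
-/

namespace HNF

open RMK Set

variable {W G : Set ZFSet.{0}}

theorem ordW_inj_upa (h : InnerZFC W) {α β : Ordinal.{0}} (he : ordW h α = ordW h β) : α = β :=
  Ordinal.toZFSet_injective (congrArg Subtype.val he)

theorem one_lt_nu_upa (W : Set ZFSet.{0}) : 1 < nu W 1 :=
  Ordinal.one_lt_omega0.trans_le (omega_le_nu W 1)

theorem exists_least_upa {P : Ordinal.{0} → Prop} {α : Ordinal.{0}} (hα : P α) :
    ∃ β, β ≤ α ∧ P β ∧ ∀ γ < β, ¬ P γ := by
  obtain ⟨β, hβ, hmin⟩ := WellFounded.has_min (wellFounded_lt (α := Ordinal.{0}))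
    {β : Ordinal.{0} | P β} ⟨α, hα⟩
  exact ⟨β, not_lt.1 (hmin α hα), hβ, fun γ hγ hP => hmin γ hP hγ⟩

theorem cov_kap (h : Ext W G) {V : W} (f : W → W)
    (hf : ∀ ξ < kap W, (f (ordW h.zfc ξ)).1 ∈ V.1) :
    ∃ Φ : W → W, DFc W Φ ∧ ∀ ξ < kap W, (f (ordW h.zfc ξ)).1 ∈ (Φ (ordW h.zfc ξ)).1 ∧
      ∃ β < nu W 1, Sz W (Φ (ordW h.zfc ξ)).1 (nu W β) := by
  classical
  have hz : ZF0 W := h.zfc.zf0
  have hY : ∀ β : Ordinal.{0}, ∃ Y : W, β < nu W 1 → (Y.1 ⊆ V.1 ∧ Sz W Y.1 (nu W β) ∧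
      ∀ ξ < nu W β, (f (ordW h.zfc ξ)).1 ∈ Y.1) := by
    intro β
    by_cases hβ : β < nu W 1
    · have hk : nu W β < kap W := nu_strictMono W hβ
      obtain ⟨Y, h1, h2, h3⟩ := cov_nu h hβ (I := ordW h.zfc (nu W β)) (V := V)
        (sz_ord h.zfc (nu W β)) f (by
          intro i hi
          obtain ⟨η, hη, rfl⟩ := (mem_ordW h.zfc).1 hi
          exact hf η (hη.trans hk))
      exact ⟨Y, fun _ => ⟨h1, h2, fun ξ hξ => h3 _ ((mem_ordW h.zfc).2 ⟨ξ, hξ, rfl⟩)⟩⟩
    · exact ⟨V, fun h1 => absurd h1 hβ⟩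
  choose Y hY using hY
  obtain ⟨Pw, hPw, hPw'⟩ := exists_powF h.zfc
  let g : W → W := fun i => if hi : ∃ β, i = ordW h.zfc β then Y hi.choose else i
  have hg : ∀ β, g (ordW h.zfc β) = Y β := by
    intro β
    have hi : ∃ β', ordW h.zfc β = ordW h.zfc β' := ⟨β, rfl⟩
    have h1 : g (ordW h.zfc β) = Y hi.choose := dif_pos hi
    rw [h1, ← ordW_inj_upa h.zfc hi.choose_spec]
  obtain ⟨Z, -, hZ2, hZ3⟩ := cov_nu h (one_lt_nu_upa W) (I := ordW h.zfc (nu W 1)) (V := Pw V)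
    (sz_ord h.zfc (nu W 1)) g (by
      intro i hi
      obtain ⟨η, hη, rfl⟩ := (mem_ordW h.zfc).1 hi
      rw [hg, hPw']
      exact (hY η hη).1)
  obtain ⟨N, hN, hN'⟩ := exists_nuF h.zfc
  have hP : MD W fun p : W × W => (ordW h.zfc 0).1 ∈ p.2.1 ∧ p.1.1 ∈ (N p.2).1 := by
    (repeat' (first | (with_reducible first | exact DFc.id | exact DFc.const _ | exact MD.const _ | apply MD.and | apply MD.or | apply MD.iff | apply MD.not | apply MD.imp | apply MD.ex | apply MD.all | apply MD.zpair_mem hz | apply MD.eq_zpair hz | apply MD.isFn hz | apply MD.isO hz | apply MD.mem | apply MD.eq | apply DFc.zpr hz | apply DFc.zap hz | apply DFc.zun hz | apply DFc.zsg hz | apply DFc.zsU hz | apply DFc.ztr hz | apply DFc.zup hz | apply DFc.zpd hz) | (with_reducible first | exact hN | apply hN | apply MD.comp2 hN | apply DFc.comp2 hN | apply MD.comp3 hN | apply DFc.comp3 hN | apply MD.comp hN | apply DFc.comp hN) | (with_reducible apply DFc.fst)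 | (with_reducible apply DFc.snd) | (with_reducible apply DFc.mk)))
  obtain ⟨B, hB, hB'⟩ := exists_lst (X := W) h.zfc
    (P := fun x b => (ordW h.zfc 0).1 ∈ b.1 ∧ x.1 ∈ (N b).1) hP
  obtain ⟨S, hS, hS'⟩ := hz.sepF (X := W) (a := fun _ => Z) (DFc.const Z)
    (P := fun x y => SzZ W y.1 (N (B x)).1)
    (MD.szZ h.zfc (DFc.snd DFc.id) (DFc.comp hN (DFc.comp hB (DFc.fst DFc.id))))
  obtain ⟨Φ, hΦ, hΦ'⟩ := hz.unionF (X := W) (a := S) hS (F := fun _ y => y) (DFc.snd DFc.id)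
  refine ⟨Φ, hΦ, fun ξ hξ => ?_⟩
  obtain ⟨γ, hγ, hγξ⟩ := nu_limit (isSuccLimit_nu h.zfc 1) hξ
  have hPx : ∀ b : Ordinal.{0}, ((ordW h.zfc 0).1 ∈ (ordW h.zfc b).1 ∧
      (ordW h.zfc ξ).1 ∈ (N (ordW h.zfc b)).1) ↔ (0 < b ∧ ξ < nu W b) := by
    intro b
    rw [hN']
    exact and_congr Ordinal.toZFSet_mem_toZFSet_iff Ordinal.toZFSet_mem_toZFSet_iff
  have hmx : 0 < max γ 1 ∧ ξ < nu W (max γ 1) :=
    ⟨lt_of_lt_of_le one_pos (le_max_right _ _),
      hγξ.trans_le ((nu_strictMono W).monotone (le_max_left _ _))⟩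
  obtain ⟨β, hβ1, hβ2, hβ3⟩ := exists_least_upa (P := fun b => 0 < b ∧ ξ < nu W b) hmx
  have hβ : β < nu W 1 := hβ1.trans_lt (max_lt hγ (one_lt_nu_upa W))
  have hBξ : B (ordW h.zfc ξ) = ordW h.zfc β :=
    hB' (ordW h.zfc ξ) β ((hPx β).2 hβ2) (fun η hη => fun hc => hβ3 η hη ((hPx η).1 hc))
  have hNB : N (B (ordW h.zfc ξ)) = ordW h.zfc (nu W β) := by rw [hBξ, hN']
  have hβ4 : 1 ≤ β := Order.one_le_iff_pos.2 hβ2.1
  have hSξ : ∀ y : W, y.1 ∈ (S (ordW h.zfc ξ)).1 ↔ y.1 ∈ Z.1 ∧ Sz W y.1 (nu W β) := by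
    intro y
    rw [hS', hNB]
    exact and_congr_right fun _ => szZ_iff
  refine ⟨?_, β, hβ, ?_⟩
  · rw [hΦ']
    refine ⟨Y β, (hSξ _).2 ⟨?_, (hY β hβ).2.1⟩, (hY β hβ).2.2 ξ hβ2.2⟩
    have h1 := hZ3 (ordW h.zfc β) ((mem_ordW h.zfc).2 ⟨β, hβ, rfl⟩)
    rw [hg] at h1
    exact h1
  · have h1 : Sz W (S (ordW h.zfc ξ)).1 (nu W β) := by
      refine Sz.subset (Sz.mono h.zfc hZ2 ((nu_strictMono W).monotone hβ4)) ?_
      intro y hy
      exact ((hSξ ⟨y, h.zfc.trans _ (S (ordW h.zfc ξ)).2 _ hy⟩).1 hy).1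
    have h2 := sz_sUnion h.zfc (nu_wcard W β) (S (ordW h.zfc ξ)).2 h1 (fun a ha =>
      ((hSξ ⟨a, h.zfc.trans _ (S (ordW h.zfc ξ)).2 _ ha⟩).1 ha).2)
    refine h2.subset ?_
    intro z hz'
    have hzW : z ∈ W := h.zfc.trans _ (Φ (ordW h.zfc ξ)).2 _ hz'
    obtain ⟨y, hy, hzy⟩ := (hΦ' (ordW h.zfc ξ) ⟨z, hzW⟩).1 hz'
    exact ZFSet.mem_sUnion.2 ⟨y.1, hy, hzy⟩

/-- the element `u` of `W` occurs at the place `j` of the set `s` of binary digits -/
def occ (hz : ZF0 W) (j s : W) : Prop :=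
  ∃ k u : W, k.1 ∈ (zom hz).1 ∧ (u = znat hz 0 ∨ u = znat hz 1) ∧
    (zpr hz (zpr hz j k) u).1 ∈ s.1

theorem md_occ (hz : ZF0 W) : MD W fun p : W × W => occ hz p.1 p.2 := by
  unfold occ
  (repeat' (first | (with_reducible first | exact DFc.id | exact DFc.const _ | exact MD.const _ | apply MD.and | apply MD.or | apply MD.iff | apply MD.not | apply MD.imp | apply MD.ex | apply MD.all | apply MD.zpair_mem hz | apply MD.eq_zpair hz | apply MD.isFn hz | apply MD.isO hz | apply MD.mem | apply MD.eq | apply DFc.zpr hz | apply DFc.zap hz | apply DFc.zun hz | apply DFc.zsg hz | apply DFc.zsU hz | apply DFc.ztr hz | apply DFc.zup hz | apply DFc.zpd hz) | (with_reducible apply DFc.fst) | (with_reducible apply DFc.snd) | (with_reducible apply DFc.mk)))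

theorem occ_iff (h : InnerZFC W) (j : Ordinal.{0}) (s : W) :
    occ h.zf0 (ordW h j) s ↔ ∃ k v, bitZ j k v ∈ s.1 := by
  constructor
  · rintro ⟨k, u, hk, hu, hs⟩
    obtain ⟨i, hi⟩ := mem_omZ.1 hk
    have hi' : k = znat h.zf0 i := Subtype.ext hi
    rcases hu with rfl | rfl
    · refine ⟨i, false, ?_⟩
      rw [hi'] at hs
      exact hs
    · refine ⟨i, true, ?_⟩
      rw [hi'] at hs
      exact hs
  · rintro ⟨k, v, hs⟩
    refine ⟨znat h.zf0 k, znat h.zf0 (if v then 1 else 0), natZ_mem_omZ k, ?_, hs⟩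
    rcases v with _ | _
    · left
      rfl
    · right
      rfl

theorem exists_supF (h : InnerZFC W) : ∃ S : W → W, DFc W S ∧
    (∀ (a : W) (j : Ordinal.{0}), j < kap W → (j.toZFSet ∈ (S a).1 ↔ InSup a.1 j)) ∧
    ∀ a : W, Cds W a.1 → Sz W (S a).1 Ordinal.omega0 := by
  have hz : ZF0 W := h.zf0
  have hocc := md_occ hz
  -- the graph of the parts
  obtain ⟨T, hT, hT'⟩ := hz.sepF (X := W) (a := fun _ => ordW h (kap W)) (DFc.const _)
    (P := fun w j => ∃ n s b m : W, w = zpr hz n (zpr hz s (zpr hz b m)) ∧ occ hz j s)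
    (by (repeat' (first | (with_reducible first | exact DFc.id | exact DFc.const _ | exact MD.const _ | apply MD.and | apply MD.or | apply MD.iff | apply MD.not | apply MD.imp | apply MD.ex | apply MD.all | apply MD.zpair_mem hz | apply MD.eq_zpair hz | apply MD.isFn hz | apply MD.isO hz | apply MD.mem | apply MD.eq | apply DFc.zpr hz | apply DFc.zap hz | apply DFc.zun hz | apply DFc.zsg hz | apply DFc.zsU hz | apply DFc.ztr hz | apply DFc.zup hz | apply DFc.zpd hz) | (with_reducible first | exact hocc | apply hocc | apply MD.comp2 hocc | apply DFc.comp2 hocc | apply MD.comp3 hocc | apply DFc.comp3 hocc | apply MD.comp hocc | apply DFc.comp hocc) | (with_reducible apply DFc.fst) | (with_reducible apply DFc.snd) | (with_reducible apply DFc.mk))))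
  obtain ⟨S, hS, hS'⟩ := hz.unionF (X := W) (a := fun a => a) DFc.id (F := fun _ w => T w)
    (DFc.comp hT (DFc.snd DFc.id))
  refine ⟨S, hS, ?_, ?_⟩
  · intro a j hj
    have h1 : j.toZFSet ∈ (S a).1 ↔ (ordW h j).1 ∈ (S a).1 := Iff.rfl
    rw [h1, hS']
    constructor
    · rintro ⟨w, hw, hjw⟩
      rw [hT'] at hjw
      obtain ⟨-, n, s, b, m, rfl, ho⟩ := hjw
      obtain ⟨k, v, hkv⟩ := (occ_iff h j s).1 ho
      exact ⟨n.1, s.1, b.1, m.1, k, v, hw, hkv⟩
    · rintro ⟨n, s, b, m, k, v, hq, hs⟩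
      have hqW : ZFSet.pair n (ZFSet.pair s (ZFSet.pair b m)) ∈ W := h.trans _ a.2 _ hq
      have hn := hz.pair_left hqW
      have h2 := hz.pair_right hqW
      have hs' := hz.pair_left h2
      have h3 := hz.pair_right h2
      have hb := hz.pair_left h3
      have hm := hz.pair_right h3
      refine ⟨⟨_, hqW⟩, hq, ?_⟩
      rw [hT']
      exact ⟨(mem_ordW h).2 ⟨j, hj, rfl⟩, ⟨n, hn⟩, ⟨s, hs'⟩, ⟨b, hb⟩, ⟨m, hm⟩, rfl,
        (occ_iff h j ⟨s, hs'⟩).2 ⟨k, v, hs⟩⟩
  · intro a ha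
    have hω : WCard W Ordinal.omega0 := by
      have h1 := nu_wcard W 0
      rwa [nu_zero] at h1
    refine sz_iUnion h hω (D := a) ha.2.1 hT ?_ ?_
    · intro w hw
      refine sz_omega_of_finite h (T w).2 ?_
      obtain ⟨n, m, s, b, hwq, hsf, -, -, -⟩ := ha.2.2 w.1 hw
      refine (hsf.fin.image (fun t => fstZ (fstZ t))).subset ?_
      intro z hz'
      have hzT : z ∈ (T w).1 := hz'
      have hzW : z ∈ W := h.trans _ (T w).2 _ hzT
      obtain ⟨hzk, n', s', b', m', he, ho⟩ := (hT' w ⟨z, hzW⟩).1 hzT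
      obtain ⟨j, hj, hzj⟩ := (mem_ordW h).1 hzk
      rw [hzj] at ho
      obtain ⟨k, v, hkv⟩ := (occ_iff h j s').1 ho
      have he' : w.1 = ZFSet.pair n'.1 (ZFSet.pair s'.1 (ZFSet.pair b'.1 m'.1)) :=
        congrArg Subtype.val he
      have hwq' : w.1 = ZFSet.pair (natZ n) (ZFSet.pair s (ZFSet.pair b (natZ m))) := hwq
      rw [hwq'] at he'
      have hss : s = s'.1 := (ZFSet.pair_inj.1 (ZFSet.pair_inj.1 he').2).1
      refine ⟨bitZ j k v, ?_, ?_⟩
      · change bitZ j k v ∈ s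
        rw [hss]
        exact hkv
      · have h5 : fstZ (fstZ (bitZ j k v)) = j.toZFSet := by
          unfold bitZ
          rw [fstZ_pair, fstZ_pair]
        change fstZ (fstZ (bitZ j k v)) = z
        rw [h5]
        exact (congrArg Subtype.val hzj).symm
    · intro z hz'
      have hzW : z ∈ W := h.trans _ (S a).2 _ hz'
      exact (hS' a ⟨z, hzW⟩).1 hz'

/-- a function `k ∈ W` from `κ` to `κ` such that `k ξ` does not occur in any code `e ζ`, `ζ ∈ Φ ξ` -/
theorem exists_avoid (h : InnerZFC W) (hg : GCHW W) (e : W) {Φ : W → W} (hΦ : DFc W Φ)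
    (hs : ∀ ξ < kap W, ∃ β < nu W 1, Sz W (Φ (ordW h ξ)).1 (nu W β)) :
    ∃ k : W, IsFn k.1 (kap W).toZFSet ∧ ∀ ξ < kap W, ∃ j < kap W, zap h.zf0 k (ordW h ξ) = ordW h j ∧
      ∀ ζ : Ordinal.{0}, ζ.toZFSet ∈ (Φ (ordW h ξ)).1 → Cds W (zap h.zf0 e (ordW h ζ)).1 →
        ¬ InSup (zap h.zf0 e (ordW h ζ)).1 j := by
  have hz : ZF0 W := h.zf0
  obtain ⟨T, hT, -⟩ := exists_cdSet h hg
  obtain ⟨S, hS, hS1, hS2⟩ := exists_supF h
  obtain ⟨D, hD, hD'⟩ := hz.sepF (X := W) (a := Φ) hΦ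
    (P := fun _ ζ => (zap hz e ζ).1 ∈ T.1) (by (repeat' (first | (with_reducible first | exact DFc.id | exact DFc.const _ | exact MD.const _ | apply MD.and | apply MD.or | apply MD.iff | apply MD.not | apply MD.imp | apply MD.ex | apply MD.all | apply MD.zpair_mem hz | apply MD.eq_zpair hz | apply MD.isFn hz | apply MD.isO hz | apply MD.mem | apply MD.eq | apply DFc.zpr hz | apply DFc.zap hz | apply DFc.zun hz | apply DFc.zsg hz | apply DFc.zsU hz | apply DFc.ztr hz | apply DFc.zup hz | apply DFc.zpd hz) | (with_reducible apply DFc.fst) | (with_reducible apply DFc.snd) | (with_reducible apply DFc.mk))))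
  obtain ⟨U, hU, hU'⟩ := hz.unionF (X := W) (a := D) hD (F := fun _ ζ => S (zap hz e ζ))
    (by (repeat' (first | (with_reducible first | exact DFc.id | exact DFc.const _ | exact MD.const _ | apply MD.and | apply MD.or | apply MD.iff | apply MD.not | apply MD.imp | apply MD.ex | apply MD.all | apply MD.zpair_mem hz | apply MD.eq_zpair hz | apply MD.isFn hz | apply MD.isO hz | apply MD.mem | apply MD.eq | apply DFc.zpr hz | apply DFc.zap hz | apply DFc.zun hz | apply DFc.zsg hz | apply DFc.zsU hz | apply DFc.ztr hz | apply DFc.zup hz | apply DFc.zpd hz) | (with_reducible first | exact hS | apply hS | apply MD.comp2 hS | apply DFc.comp2 hS | apply MD.comp3 hS | apply DFc.comp3 hS | apply MD.comp hS | apply DFc.comp hS) | (with_reducible apply DFc.fst) | (with_reducible apply DFc.snd) | (with_reducible apply DFc.mk))))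
  obtain ⟨L, hL, hL'⟩ := exists_lst (X := W) h (P := fun x j => ¬ j.1 ∈ (U x).1)
    (by (repeat' (first | (with_reducible first | exact DFc.id | exact DFc.const _ | exact MD.const _ | apply MD.and | apply MD.or | apply MD.iff | apply MD.not | apply MD.imp | apply MD.ex | apply MD.all | apply MD.zpair_mem hz | apply MD.eq_zpair hz | apply MD.isFn hz | apply MD.isO hz | apply MD.mem | apply MD.eq | apply DFc.zpr hz | apply DFc.zap hz | apply DFc.zun hz | apply DFc.zsg hz | apply DFc.zsU hz | apply DFc.ztr hz | apply DFc.zup hz | apply DFc.zpd hz) | (with_reducible first | exact hU | apply hU | apply MD.comp2 hU | apply DFc.comp2 hU | apply MD.comp3 hU | apply DFc.comp3 hU | apply MD.comp hU | apply DFc.comp hU) | (with_reducible apply DFc.fst) | (with_reducible apply DFc.snd) | (with_reducible apply DFc.mk))))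
  obtain ⟨k, hk, hk'⟩ := exists_fn hz (ordW h (kap W)) hL
  refine ⟨k, hk, fun ξ hξ => ?_⟩
  obtain ⟨β, hβ, hsz⟩ := hs ξ hξ
  have hUs : Sz W (U (ordW h ξ)).1 (nu W β) := by
    refine sz_iUnion h (nu_wcard W β) (D := D (ordW h ξ)) (F := fun ζ => S (zap hz e ζ))
      (hsz.subset ?_) (by (repeat' (first | (with_reducible first | exact DFc.id | exact DFc.const _ | exact MD.const _ | apply MD.and | apply MD.or | apply MD.iff | apply MD.not | apply MD.imp | apply MD.ex | apply MD.all | apply MD.zpair_mem hz | apply MD.eq_zpair hz | apply MD.isFn hz | apply MD.isO hz | apply MD.mem | apply MD.eq | apply DFc.zpr hz | apply DFc.zap hz | apply DFc.zun hz | apply DFc.zsg hz | apply DFc.zsU hz | apply DFc.ztr hz | apply DFc.zup hz | apply DFc.zpd hz) | (with_reducible first | exact hS | apply hS | apply MD.comp2 hS | apply DFc.comp2 hS | apply MD.comp3 hS | apply DFc.comp3 hS | apply MD.comp hS | apply DFc.comp hS) | (with_reducible apply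 DFc.fst) | (with_reducible apply DFc.snd) | (with_reducible apply DFc.mk)))) ?_ ?_
    · intro z hz'
      exact ((hD' (ordW h ξ) ⟨z, h.trans _ (D (ordW h ξ)).2 _ hz'⟩).1 hz').1
    · intro ζ hζ
      have h1 := ((hD' (ordW h ξ) ζ).1 hζ).2
      exact (hS2 _ ((hT _).1 h1)).mono h (omega_le_nu W β)
    · intro z hz'
      exact (hU' (ordW h ξ) ⟨z, h.trans _ (U (ordW h ξ)).2 _ hz'⟩).1 hz'
  have hex : ∃ j < kap W, ¬ (ordW h j).1 ∈ (U (ordW h ξ)).1 := by
    by_contra hcon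
    have h1 : Sz W (kap W).toZFSet (nu W β) := by
      refine hUs.subset ?_
      intro z hz'
      obtain ⟨j, hj, hzj⟩ := Ordinal.mem_toZFSet_iff.1 hz'
      by_contra hzU
      refine hcon ⟨j, hj, fun hc => hzU ?_⟩
      rw [← hzj]
      exact hc
    exact not_sz_nu hβ h1
  obtain ⟨j0, hj0, hj0'⟩ := hex
  obtain ⟨j, hj1, hj2, hj3⟩ := exists_least_upa
    (P := fun j => ¬ (ordW h j).1 ∈ (U (ordW h ξ)).1) hj0'
  have hjk : j < kap W := hj1.trans_lt hj0
  refine ⟨j, hjk, ?_, ?_⟩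
  · rw [hk' (ordW h ξ) ((mem_ordW h).2 ⟨ξ, hξ, rfl⟩)]
    exact hL' (ordW h ξ) j hj2 hj3
  · intro ζ hζ hcd hin
    apply hj2
    rw [hU']
    refine ⟨ordW h ζ, (hD' _ _).2 ⟨hζ, (hT _).2 hcd⟩, ?_⟩
    exact (hS1 _ j hjk).2 hin

end HNF
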