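import Pool.Agent.HNF.Upa
import Pool.Agent.HNF.Crd

/-!
HNF UPB: the continuum and the upper bound for `𝔡(≠*_{∅})` in the extension.

PROOFS.  Let `r` be the generic point (`exists_rnd`), `e` as in `exists_enum`.  For each real `x` choose a code `a x`
(`exists_code`) and an ordinal `ix x < kap` with `apZ e (ix x) = a x`.  `ix` is injective (`Val.inj`).
`continuum_eq`.  `≤`: `ix` is an injection from `ℕ → ℕ` (of cardinality `𝔠`) to `Set.Iio (kap W)`, of cardinality `ℵ_ ω₁` (`kap_eq`).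
`≥`: for every real `x` the set of the `j < kap` with `rr r j = x` is contained in `{j | InSup (a x) j}` (`neStar x x` is false: all `n` are
exceptional), so it is countable (`countable_inSup`).  So the map `j ↦ rr r j` from `Set.Iio (kap W)` to the reals has countable fibres and
`ℵ_ ω₁ ≤ 𝔠 * ℵ₀ = 𝔠` (`Cardinal.mk_le_of_...`, e.g. via `Cardinal.mk_sigma`/`sum_le`).
`dnum_le`.  For a function `k ∈ W` from `kap` to `kap` let `g_k x = rr r j` where `j` is the ordinal with `apZ k (ix x) = j`.  The set of all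
these `k` has size `nu (nu 1 + 1) = rho` in `W` (`sz_fn` with `β = nu 1`, `nu (nu 1) = kap`), so the family `D` of all `g_k` has cardinality at
most `(rho W).card`.  Let `f : (ℕ → ℕ) → (ℕ → ℕ)`.  Let `f' : W → W` with `f' (ordW ξ) = ordW (ix (f x))` if `ξ = ix x` for some real `x` (it is
unique), and `ordW 0` otherwise.  `cov_kap` with `V = ordW kap` gives `Φ`, `exists_avoid` gives `k`.  For every real `x` with `ξ = ix x`:
`ζ = ix (f x)` satisfies `ordW ζ = f' ξ ∈ Φ ξ`, `apZ e ζ = a (f x)` is a code, so `j = k ξ` does not occur in `a (f x)`, and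
`neStar (rr r j) (f x)`, hence `neStar (f x) (g_k x)` (symmetric).  So `relMod neStar {∅} f g_k`, and `dnum neStar {∅} ≤ #D` (`csInf_le'`).
-/

namespace HNF

open RMK Set Cardinal Pool.Agent.Helper66.HD

variable {W G : Set ZFSet.{0}}

private theorem ordW_inj (h : InnerZFC W) {ξ η : Ordinal.{0}} (he : ordW h ξ = ordW h η) :
    ξ = η :=
  Ordinal.toZFSet_injective (congrArg Subtype.val he)

private theorem neStar_symm {x y : ℕ → ℕ} (hxy : neStar x y) : neStar y x := by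
  refine Set.Finite.subset hxy ?_
  intro n hn hne
  exact hn fun he => hne he.symm

private theorem not_neStar_self (x : ℕ → ℕ) : ¬ neStar x x := by
  intro hx
  have e : {n : ℕ | ¬ x n ≠ x n} = Set.univ := by
    ext n
    simp
  have hx' : (Set.univ : Set ℕ).Finite := e ▸ hx
  exact Set.infinite_univ hx'

/-- the data of the proof -/
private structure Dat (W G : Set ZFSet.{0}) (r : Pt) (e : W) (a : (ℕ → ℕ) → ZFSet.{0})
    (ix : (ℕ → ℕ) → Ordinal.{0}) : Prop where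
  ix_lt : ∀ x, ix x < kap W
  ap : ∀ x, apZ e.1 (ix x).toZFSet = a x
  cds : ∀ x, Cds W (a x)
  val : ∀ x, Val r (a x) x
  ne : ∀ x, ∀ j < kap W, ¬ InSup (a x) j → neStar (rr r j) x

private theorem exists_dat (h : Ext W G) : ∃ (r : Pt) (e : W) (a : (ℕ → ℕ) → ZFSet.{0})
    (ix : (ℕ → ℕ) → Ordinal.{0}), Dat W G r e a ix := by
  obtain ⟨r, hr⟩ := exists_rnd h
  obtain ⟨e, -, he⟩ := exists_enum h.zfc h.gch
  have h1 : ∀ x : ℕ → ℕ, ∃ a, Cds W a ∧ Val r a x ∧
      ∀ j < kap W, ¬ InSup a j → neStar (rr r j) x := fun x => exists_code h hr x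
  choose a ha using h1
  have h2 : ∀ x : ℕ → ℕ, ∃ ξ < kap W, apZ e.1 ξ.toZFSet = a x := fun x => he _ (ha x).1
  choose ix hix using h2
  exact ⟨r, e, a, ix, fun x => (hix x).1, fun x => (hix x).2, fun x => (ha x).1,
    fun x => (ha x).2.1, fun x => (ha x).2.2⟩

private theorem Dat.inj {r : Pt} {e : W} {a : (ℕ → ℕ) → ZFSet.{0}}
    {ix : (ℕ → ℕ) → Ordinal.{0}} (hd : Dat W G r e a ix) {x y : ℕ → ℕ} (hxy : ix x = ix y) :
    x = y := by
  have h1 : a x = a y := by rw [← hd.ap x, ← hd.ap y, hxy]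
  have h2 := hd.val x
  rw [h1] at h2
  exact h2.inj (hd.val y)

private theorem mk_real : #(ℕ → ℕ) = (𝔠 : Cardinal.{0}) := by
  simp

theorem continuum_eq (h : Ext W G) : (𝔠 : Cardinal.{0}) = ℵ_ (Ordinal.omega 1) := by
  obtain ⟨r, e, a, ix, hd⟩ := exists_dat h
  have hk : (kap W).card = ℵ_ (Ordinal.omega 1) := by
    rw [kap_eq h]
    exact Ordinal.card_omega _
  rw [← hk, ← mk_real]
  apply le_antisymm
  · have h1 : Cardinal.lift.{1} #(ℕ → ℕ) ≤ Cardinal.lift.{0} #(Set.Iio (kap W)) := by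
      refine Cardinal.lift_mk_le'.2 ⟨⟨fun x => ⟨ix x, hd.ix_lt x⟩, fun x y hxy => ?_⟩⟩
      exact hd.inj (congrArg Subtype.val hxy)
    rw [Cardinal.mk_Iio_ordinal, Cardinal.lift_lift] at h1
    exact Cardinal.lift_le.1 h1
  · have h1 : ∀ x : ℕ → ℕ, Cardinal.lift.{0}
        #((fun j : Set.Iio (kap W) => rr r j.1) ⁻¹' {x}) ≤ (ℵ₀ : Cardinal.{1}) := by
      intro x
      rw [Cardinal.lift_uzero, Cardinal.mk_le_aleph0_iff]
      have hc : {j | InSup (a x) j}.Countable := countable_inSup (hd.cds x)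
      have hsub : ∀ j : Set.Iio (kap W), rr r j.1 = x → InSup (a x) j.1 := by
        intro j hj
        by_contra hcon
        have := hd.ne x j.1 j.2 hcon
        rw [hj] at this
        exact not_neStar_self x this
      have := hc.to_subtype
      refine Function.Injective.countable (β := {j | InSup (a x) j})
        (f := fun j => ⟨j.1.1, hsub j.1 j.2⟩) ?_
      intro j j' hjj
      have hjj2 := congrArg Subtype.val hjj
      exact Subtype.ext (Subtype.ext hjj2)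
    have h2 := Cardinal.lift_mk_le_lift_mk_mul_of_lift_mk_preimage_le
      (fun j : Set.Iio (kap W) => rr r j.1) h1
    rw [Cardinal.mk_Iio_ordinal, mk_real, Cardinal.lift_lift] at h2
    have h3 : Cardinal.lift.{1} (kap W).card ≤ Cardinal.lift.{1} (𝔠 * ℵ₀ : Cardinal.{0}) := by
      rw [Cardinal.lift_mul, Cardinal.lift_aleph0]
      exact h2
    have h4 := Cardinal.lift_le.1 h3
    rw [Cardinal.mul_eq_left Cardinal.aleph0_le_continuum Cardinal.aleph0_le_continuum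
      Cardinal.aleph0_ne_zero] at h4
    rw [mk_real]
    exact h4

/-- the set of all functions from `κ` to `κ` in `W` -/
private theorem exists_fnset (h : InnerZFC W) : ∃ S : W, ∀ k : W, k.1 ∈ S.1 ↔
    IsFn k.1 (kap W).toZFSet ∧ ∀ d : W, d.1 ∈ (kap W).toZFSet →
      (zap h.zf0 k d).1 ∈ (kap W).toZFSet := by
  have hz : ZF0 W := h.zf0
  obtain ⟨P, -, hP⟩ := exists_powF h
  have hMD : MD W fun k : W => IsFn k.1 (ordW h (kap W)).1 ∧
      ∀ d : W, d.1 ∈ (ordW h (kap W)).1 → (zap hz k d).1 ∈ (ordW h (kap W)).1 := by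
    (repeat' (first | (with_reducible first | exact DFc.id | exact DFc.const _ | exact MD.const _ | apply MD.and | apply MD.or | apply MD.iff | apply MD.not | apply MD.imp | apply MD.ex | apply MD.all | apply MD.zpair_mem hz | apply MD.eq_zpair hz | apply MD.isFn hz | apply MD.isO hz | apply MD.mem | apply MD.eq | apply DFc.zpr hz | apply DFc.zap hz | apply DFc.zun hz | apply DFc.zsg hz | apply DFc.zsU hz | apply DFc.ztr hz | apply DFc.zup hz | apply DFc.zpd hz) | (with_reducible apply DFc.fst) | (with_reducible apply DFc.snd) | (with_reducible apply DFc.mk)))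
  obtain ⟨S, hS⟩ := hz.sep _ hMD (P (zpd hz (ordW h (kap W)) (ordW h (kap W))))
  refine ⟨S, fun k => ?_⟩
  rw [hS k]
  constructor
  · exact fun h1 => h1.2
  · intro h1
    refine ⟨(hP _ _).2 ?_, h1⟩
    intro w hw
    obtain ⟨d, hd, y, rfl⟩ := h1.1.1 w hw
    change ZFSet.pair d y ∈ (kap W).toZFSet.prod (kap W).toZFSet
    refine ZFSet.pair_mem_prod.2 ⟨hd, ?_⟩
    have h2 := (apZ_eq h1.1 hd).2 hw
    rw [← h2]
    exact h1.2 ⟨d, hz.trans _ (ordW h (kap W)).2 _ hd⟩ hd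

theorem dnum_le (h : Ext W G) : dnum neStar {∅} ≤ (rho W).card := by
  classical
  obtain ⟨r, e, a, ix, hd⟩ := exists_dat h
  have hz : ZF0 W := h.zfc.zf0
  obtain ⟨S, hS⟩ := exists_fnset h.zfc
  have hsz : Sz W S.1 (rho W) := by
    refine sz_fn h.zfc h.gch (β := nu W 1) (x := (kap W).toZFSet) (y := (kap W).toZFSet)
      (sz_ord h.zfc _) (sz_ord h.zfc _) S.2 ?_
    intro f hf
    have hfW : f ∈ W := h.zfc.trans _ S.2 _ hf
    have h1 := (hS ⟨f, hfW⟩).1 hf
    refine ⟨h1.1, fun d hd' => ?_⟩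
    exact h1.2 ⟨d, h.zfc.trans _ (h.zfc.ord (kap W)) _ hd'⟩ hd'
  obtain ⟨Φ0, -, hΦ0⟩ := (sz_iff h.zfc).1 hsz
  -- the functions
  let g : ZFSet.{0} → Baire → Baire := fun k x =>
    rr r (Function.invFun Ordinal.toZFSet (apZ k (ix x).toZFSet))
  let D : Set (Baire → Baire) :=
    Set.range fun ξ : Set.Iio (rho W) => g (apZ Φ0.1 (ξ : Ordinal.{0}).toZFSet)
  have hD : #D ≤ (rho W).card := by
    have h1 : Cardinal.lift.{1} #D ≤ Cardinal.lift.{0} #(Set.Iio (rho W)) :=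
      Cardinal.mk_range_le_lift
    rw [Cardinal.mk_Iio_ordinal, Cardinal.lift_lift] at h1
    exact Cardinal.lift_le.1 h1
  refine le_trans (csInf_le' ⟨D, rfl, ?_⟩) hD
  intro f
  have hk0 : (0 : Ordinal.{0}) < kap W := lt_of_le_of_lt (zero_le) (hd.ix_lt fun _ => 0)
  let f' : W → W := fun w => if hw : ∃ x : ℕ → ℕ, w = ordW h.zfc (ix x) then
    ordW h.zfc (ix (f hw.choose)) else ordW h.zfc 0
  have hf' : ∀ x : ℕ → ℕ, f' (ordW h.zfc (ix x)) = ordW h.zfc (ix (f x)) := by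
    intro x
    have hw : ∃ y : ℕ → ℕ, ordW h.zfc (ix x) = ordW h.zfc (ix y) := ⟨x, rfl⟩
    have h1 : hw.choose = x := (hd.inj (ordW_inj h.zfc hw.choose_spec)).symm
    change (if hw : ∃ y : ℕ → ℕ, ordW h.zfc (ix x) = ordW h.zfc (ix y) then
      ordW h.zfc (ix (f hw.choose)) else ordW h.zfc 0) = _
    rw [dif_pos hw, h1]
  have hfm : ∀ ξ < kap W, (f' (ordW h.zfc ξ)).1 ∈ (ordW h.zfc (kap W)).1 := by
    intro ξ _
    change (if hw : ∃ y : ℕ → ℕ, ordW h.zfc ξ = ordW h.zfc (ix y) then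
      ordW h.zfc (ix (f hw.choose)) else ordW h.zfc 0).1 ∈ _
    split_ifs with hw
    · exact (mem_ordW h.zfc).2 ⟨_, hd.ix_lt _, rfl⟩
    · exact (mem_ordW h.zfc).2 ⟨_, hk0, rfl⟩
  obtain ⟨Φ, hΦ, hΦ2⟩ := cov_kap h f' hfm
  obtain ⟨k, hk, hk2⟩ := exists_avoid h.zfc h.gch e hΦ (fun ξ hξ => (hΦ2 ξ hξ).2)
  have hkS : k.1 ∈ S.1 := by
    refine (hS k).2 ⟨hk, fun d hd' => ?_⟩
    obtain ⟨ξ, hξ, rfl⟩ := (mem_ordW h.zfc (ξ := kap W)).1 hd'
    obtain ⟨j, hj, hkj, -⟩ := hk2 ξ hξ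
    rw [hkj]
    exact (mem_ordW h.zfc).2 ⟨j, hj, rfl⟩
  obtain ⟨η, hη, hηk⟩ := hΦ0 _ hkS
  refine ⟨g k.1, ⟨⟨η, hη⟩, ?_⟩, ?_⟩
  · change g (apZ Φ0.1 η.toZFSet) = g k.1
    rw [hηk]
  · change {x | ¬ neStar (f x) (g k.1 x)} ∈ ({∅} : Set (Set Baire))
    rw [Set.mem_singleton_iff, Set.eq_empty_iff_forall_notMem]
    intro x hx
    refine hx (neStar_symm ?_)
    obtain ⟨j, hj, hkj, hav⟩ := hk2 (ix x) (hd.ix_lt x)
    have h1 : g k.1 x = rr r j := by
      change rr r (Function.invFun Ordinal.toZFSet (apZ k.1 (ix x).toZFSet)) = rr r j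
      have h2 : apZ k.1 (ix x).toZFSet = j.toZFSet := congrArg Subtype.val hkj
      rw [h2, Function.leftInverse_invFun Ordinal.toZFSet_injective]
    rw [h1]
    refine hd.ne (f x) j hj ?_
    have h3 := (hΦ2 (ix x) (hd.ix_lt x)).1
    rw [hf'] at h3
    have h4 : (zap h.zfc.zf0 e (ordW h.zfc (ix (f x)))).1 = a (f x) := hd.ap (f x)
    have h5 := hav (ix (f x)) h3
    rw [h4] at h5
    exact h5 (hd.cds (f x))

end HNF
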